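import Mathlib
import Pool.Agent.Work.MP_787500_nt.QX.FDefs

/-!
Parity of Bloch-Kato Selmer groups with ramification at primes that ramify in the quadratic field: definitions used in
the statement (fixed, do not change). `fixedModulo` is in `QX/FDefs.lean`, `fixedBy` in `GP/FinDefs.lean`.
-/

set_option autoImplicit false

namespace Pool.Agent.Work.MP_787500_nt.Parity

open Matrix

section group

variable {G : Type*} [Group G] {E : Type*} [NormedField E] {n : ℕ}

/-- The dimension of the space of the vectors fixed by `D` in the quotient of `V = E ^ n` by the space of the vectors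
fixed by `I`. (In the theorem `D` is a decomposition group and `I` its inertia group.) -/
noncomputable def quotDim (D I : Subgroup G) (ρ : G →* Matrix (Fin n) (Fin n) E) : ℕ :=
  Module.finrank E (fixedModulo (fun σ : D => ρ σ) (fixedBy (fun σ : I => ρ σ))) -
    Module.finrank E (fixedBy (fun σ : I => ρ σ))

/-- `(ρ g - 1) ^ 2 = 0` for the elements `g` of `I` -/
def SemistableOn (I : Subgroup G) (ρ : G →* Matrix (Fin n) (Fin n) E) : Prop :=
  ∀ g ∈ I, (ρ g - 1) * (ρ g - 1) = 0

end group

end Pool.Agent.Work.MP_787500_nt.Parity
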