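import Mathlib
import Pool.Agent.Work.MP_787500_nt.ER.FDefs
import Pool.Agent.Work.MP_787500_nt.LX.X4_Ext

/-!
# ER/ExtQ: the numbers `quotDim` do not change in the extension `E (√l)`

* `fixedBy_ext`, `quotDim_ext`, `semi_ext`.
-/

set_option autoImplicit false
set_option linter.unusedSectionVars false

namespace Pool.Agent.Work.MP_787500_nt.ER

open Matrix
open Pool.Agent.Work.MP_787500_nt.GP
open Pool.Agent.Work.MP_787500_nt.LX

variable {E E' : Type*} [NormedField E] [NormedAlgebra ℚ_[2] E] [FiniteDimensional ℚ_[2] E]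
  [NormedField E'] [NormedAlgebra ℚ_[2] E'] [FiniteDimensional ℚ_[2] E'] {n : ℕ}
  {ι : E →ₐ[ℚ_[2]] E'} {l : E} {m : E'}

private theorem map_mulVec' (A : Matrix (Fin n) (Fin n) E) (x y : Fin n → E) :
    (A.map ι) *ᵥ (fun i => ι (x i) + ι (y i) * m) =
      fun i => ι ((A *ᵥ x) i) + ι ((A *ᵥ y) i) * m := by
  funext i
  simp only [mulVec, dotProduct, Matrix.map_apply, map_sum, map_mul, mul_add,
    Finset.sum_add_distrib, Finset.sum_mul, mul_assoc]

private theorem pr_inj (h : SqrtExt ι l m) (hl0 : l ≠ 0) {x y x' y' : Fin n → E}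
    (e : (fun i => ι (x i) + ι (y i) * m) = fun i => ι (x' i) + ι (y' i) * m) :
    x = x' ∧ y = y' :=
  ⟨funext fun i => (h.inj hl0 (congrFun e i)).1, funext fun i => (h.inj hl0 (congrFun e i)).2⟩

private theorem eq_extW (h : SqrtExt ι l m) (hl0 : l ≠ 0) {X : Type*}
    {W : Submodule E (X → Fin n → E)} {W' : Submodule E' (X → Fin n → E')}
    (hW : ∀ x y, (fun t i => ι (x t i) + ι (y t i) * m) ∈ W' ↔ x ∈ W ∧ y ∈ W) :
    W' = extW h W := by
  ext z
  choose x y hz using fun t i => h.split (z t i)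
  have e : z = fun t i => ι (x t i) + ι (y t i) * m := funext fun t => funext fun i => hz t i
  rw [e, hW, pair_mem h hl0]

theorem fixedBy_ext (h : SqrtExt ι l m) (hl0 : l ≠ 0) {X : Type*}
    (A : X → Matrix (Fin n) (Fin n) E) :
    Module.finrank E' (Parity.fixedBy fun t => (A t).map ι) =
      Module.finrank E (Parity.fixedBy A) := by
  let W : Submodule E (Unit → Fin n → E) := (Parity.fixedBy A).comap (LinearMap.proj ())
  let W' : Submodule E' (Unit → Fin n → E') :=
    (Parity.fixedBy fun t => (A t).map ι).comap (LinearMap.proj ())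
  have h1 : W' = extW h W := by
    refine eq_extW h hl0 fun x y => ?_
    have key : ∀ t, (A t).map ι *ᵥ (fun i => ι (x () i) + ι (y () i) * m) =
        fun i => ι ((A t *ᵥ x ()) i) + ι ((A t *ᵥ y ()) i) * m := fun t => map_mulVec' _ _ _
    constructor
    · intro hz
      have h2 : ∀ t, A t *ᵥ x () = x () ∧ A t *ᵥ y () = y () := by
        intro t
        refine pr_inj h hl0 ?_
        rw [← key]
        exact hz t
      exact ⟨fun t => (h2 t).1, fun t => (h2 t).2⟩
    · rintro ⟨hx, hy⟩ t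
      show (A t).map ι *ᵥ (fun i => ι (x () i) + ι (y () i) * m) =
        fun i => ι (x () i) + ι (y () i) * m
      rw [key]
      have h2 : A t *ᵥ x () = x () := hx t
      have h3 : A t *ᵥ y () = y () := hy t
      rw [h2, h3]
  have h2 : Module.finrank E W = Module.finrank E (Parity.fixedBy A) :=
    ((LinearEquiv.funUnique Unit E (Fin n → E)).submoduleMap W |>.trans (LinearEquiv.ofEq _ _ (by
      ext v
      constructor
      · rintro ⟨x, hx, rfl⟩
        exact hx
      · intro hv
        exact ⟨fun _ => v, hv, rfl⟩))).finrank_eq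
  have h3 : Module.finrank E' W' =
      Module.finrank E' (Parity.fixedBy fun t => (A t).map ι) :=
    ((LinearEquiv.funUnique Unit E' (Fin n → E')).submoduleMap W' |>.trans (LinearEquiv.ofEq _ _ (by
      ext v
      constructor
      · rintro ⟨x, hx, rfl⟩
        exact hx
      · intro hv
        exact ⟨fun _ => v, hv, rfl⟩))).finrank_eq
  rw [← h2, ← h3, h1, extW_finrank h hl0]

variable {G : Type*} [Group G] {ρ : G →* Matrix (Fin n) (Fin n) E}

theorem fixedModulo_eq {F : Type*} [NormedField F] (D I : Subgroup G)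
    (ρ : G →* Matrix (Fin n) (Fin n) F) :
    Parity.fixedModulo (fun σ : D => ρ σ) (Parity.fixedBy (fun σ : I => ρ σ)) =
      Parity.fixedBy (fun x : I × D => (ρ x.1 - 1) * (ρ x.2 - 1) + 1) := by
  have key : ∀ (i g : G) (v : Fin n → F), ((ρ i - 1) * (ρ g - 1) + 1) *ᵥ v = v ↔
      ρ i *ᵥ (ρ g *ᵥ v - v) = ρ g *ᵥ v - v := by
    intro i g v
    rw [add_mulVec, one_mulVec, add_eq_right, ← mulVec_mulVec, sub_mulVec, sub_mulVec, one_mulVec,
      one_mulVec, sub_eq_zero]
  ext v
  exact ⟨fun h x => (key _ _ _).2 (h x.2 x.1), fun h g i => (key _ _ _).1 (h (i, g))⟩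

theorem semi_ext (ι : E →ₐ[ℚ_[2]] E') {I : Subgroup G} {ρ : G →* Matrix (Fin n) (Fin n) E} :
    Parity.SemistableOn I (mapRep ι ρ) ↔ Parity.SemistableOn I ρ := by
  have hinj : Function.Injective fun A : Matrix (Fin n) (Fin n) E => A.map ι :=
    Matrix.map_injective (RingHom.injective (ι : E →+* E'))
  have h1 : ∀ g, (mapRep ι ρ g - 1) * (mapRep ι ρ g - 1) = ((ρ g - 1) * (ρ g - 1)).map ι := by
    intro g
    rw [mapRep_apply, Matrix.map_mul, Matrix.map_sub _ (map_sub ι),
      Matrix.map_one _ (map_zero _) (map_one _)]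
  refine forall₂_congr fun g _ => ?_
  rw [h1, ← Matrix.map_zero ι (map_zero ι)]
  exact hinj.eq_iff

theorem quotDim_ext (h : SqrtExt ι l m) (hl0 : l ≠ 0) {D I : Subgroup G}
    {ρ : G →* Matrix (Fin n) (Fin n) E} :
    Parity.quotDim D I (mapRep ι ρ) = Parity.quotDim D I ρ := by
  have e1 : Module.finrank E' (Parity.fixedBy (fun σ : I => mapRep ι ρ σ)) =
      Module.finrank E (Parity.fixedBy (fun σ : I => ρ σ)) := fixedBy_ext h hl0 fun σ : I => ρ σ
  have e3 : (fun x : I × D => (mapRep ι ρ x.1 - 1) * (mapRep ι ρ x.2 - 1) + 1) =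
      fun x : I × D => ((ρ x.1 - 1) * (ρ x.2 - 1) + 1).map ι := by
    funext x
    rw [mapRep_apply, mapRep_apply, Matrix.map_add _ (map_add ι), Matrix.map_mul,
      Matrix.map_sub _ (map_sub ι), Matrix.map_sub _ (map_sub ι),
      Matrix.map_one _ (map_zero _) (map_one _)]
  unfold Parity.quotDim
  rw [e1, fixedModulo_eq, fixedModulo_eq, e3, fixedBy_ext h hl0]

end Pool.Agent.Work.MP_787500_nt.ER
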