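import Mathlib
import Pool.Agent.Work.MP_787500_nt.KI.Par
import Pool.Agent.Work.MP_787500_nt.KI.InertC

/-!
# PHASE E4: the places ramified in the quadratic field where `V` may be ramified. Definitions (fixed, do not change)

`D` is the decomposition group over the rational numbers, tame (`TameF`), `σ` a Frobenius element with `ε σ = 0`,
`τ` a generator of the 2-part of tame inertia with `ε τ = 1`; `(A g) ^ 4 = 1` on `U = F ^ n` for all `g` in the inertia
group `I` (so the pro-odd part `{g ∈ I, a g = 0}` of `I` acts trivially; the pro-odd part of `D / I` need not). See `/team-store/NOTES_MP_787500_E4_general.md`.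
-/

set_option autoImplicit false
set_option linter.unusedSectionVars false

namespace Pool.Agent.Work.MP_787500_nt.ER

open Matrix
open Pool.Agent.Work.MP_787500_nt.GP (A0 hf IsAct d0 d1 d2 tw cup11)
open Pool.Agent.Work.MP_787500_nt.KR (FSys Sm1 Sm2 IsChar Smooth Z1 Z2 B2 LocH Pair LDual)
open Pool.Agent.Work.MP_787500_nt.KT hiding Str Rel Sel KH Ai IsP cc ff TT
open Pool.Agent.Work.MP_787500_nt.KS (hfT)
open Pool.Agent.Work.MP_787500_nt.QL (TameF)

/-- the form `(x, y) ↦ tr (x y) / 2` on the field -/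
noncomputable def mF (F : Type*) [Field F] [Finite F] [Algebra (ZMod 2) F] : F →+ F →+ A0 :=
  AddMonoidHom.mk' (fun x => AddMonoidHom.mk' (fun y => hfT (x * y)) fun y z => by
    rw [mul_add, map_add]) fun x y => by
    refine DFunLike.ext _ _ fun z => ?_
    show hfT ((x + y) * z) = hfT (x * z) + hfT (y * z)
    rw [add_mul, map_add]

variable {F : Type*} [Field F] [Finite F] [CharP F 2] [Algebra (ZMod 2) F] {n : ℕ} [Sy F n]

theorem mF_apply (x y : F) : mF F x y = hfT (x * y) := rfl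

/-- the number `(l ^ 2 - 1) / 8` -/
def cl (F : Type*) [Field F] (l : ℕ) : F := (((l ^ 2 - 1) / 8 : ℕ) : F)

/-- the quadratic form on `U × U` -/
def QX (X : Matrix (Fin n) (Fin n) F) (l : ℕ) (p : (Fin n → F) × (Fin n → F)) : F :=
  ee (X *ᵥ p.1) p.2 + ee p.1 (X *ᵥ p.1) + cl F l * ee p.2 (X *ᵥ p.2)

/-- its polar form -/
def BX (X : Matrix (Fin n) (Fin n) F) (l : ℕ) (p q : (Fin n → F) × (Fin n → F)) : F :=
  ee (X *ᵥ p.1) q.2 + ee (X *ᵥ q.1) p.2 + (ee p.1 (X *ᵥ q.1) + ee q.1 (X *ᵥ p.1)) +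
    cl F l * (ee p.2 (X *ᵥ q.2) + ee q.2 (X *ᵥ p.2))

/-- the reference plane `{(c X⁻¹ m, m)}`, with `X³ = X⁻¹` -/
def LX (X : Matrix (Fin n) (Fin n) F) (l : ℕ) : Submodule F ((Fin n → F) × (Fin n → F)) where
  carrier := {p | p.1 = cl F l • ((X ^ 3) *ᵥ p.2)}
  add_mem' := by
    rintro p q hp hq
    show p.1 + q.1 = cl F l • ((X ^ 3) *ᵥ (p.2 + q.2))
    rw [mulVec_add, smul_add]
    exact congrArg₂ (· + ·) hp hq
  zero_mem' := by
    show (0 : Fin n → F) = cl F l • ((X ^ 3) *ᵥ 0)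
    rw [mulVec_zero, smul_zero]
  smul_mem' := by
    rintro a p hp
    show a • p.1 = cl F l • ((X ^ 3) *ᵥ (a • p.2))
    rw [mulVec_smul, smul_comm]
    exact congrArg (a • ·) hp

theorem mem_LX {X : Matrix (Fin n) (Fin n) F} {l : ℕ} {p : (Fin n → F) × (Fin n → F)} :
    p ∈ LX X l ↔ p.1 = cl F l • ((X ^ 3) *ᵥ p.2) := Iff.rfl

section tame

variable {D : Type*} [Group D]

/-- A tame place, ramified for `ε`, with its action on `U`. -/
structure TR (S : FSys D) (χ a : D → ℤ_[2]) (σ τ : D) (l : ℕ) (I : Subgroup D)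
    (iv : (D → D → A0) → A0) (A : D →* Matrix (Fin n) (Fin n) F) (ε : D → ZMod 2) : Prop where
  tame : TameF S χ a σ τ l I
  loc : LocH S χ iv
  sp : ∀ g, IsSp (A g)
  sm : Smooth S (KT.act (A : D → Matrix (Fin n) (Fin n) F))
  ld : LDual S iv (KT.act (A : D → Matrix (Fin n) (Fin n) F)) (KT.act A) BU
  ldF : LDual S iv (fun (_ : D) (x : F) => x) (fun _ x => x) (mF F)
  eadd : ∀ g h, ε (g * h) = ε g + ε h
  esm : Sm1 S ε
  eσ : ε σ = 0
  eτ : ε τ = 1
  x4 : A τ ^ 4 = 1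
  i4 : ∀ g ∈ I, A g ^ 4 = 1

variable {S : FSys D} {χ a : D → ℤ_[2]} {σ τ : D} {l : ℕ} {I : Subgroup D}
  {iv : (D → D → A0) → A0} {A : D →* Matrix (Fin n) (Fin n) F} {ε : D → ZMod 2}

/-- the pairs `(a, y)`: `y` a cocycle, `a` a lift -/
def ZP (S : FSys D) (A : D →* Matrix (Fin n) (Fin n) F) (ε : D → ZMod 2)
    (p : (D → Fin n → F) × (D → Fin n → F)) : Prop :=
  Z1 S (KT.act A) p.2 ∧ Sm1 S p.1 ∧ IsLift (A : D → Matrix (Fin n) (Fin n) F) ε p.1 p.2

/-- the values at `σ` and `τ²` of the first component -/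
def gv (σ τ : D) : ((D → Fin n → F) × (D → Fin n → F)) →ₗ[F] (Fin n → F) × (Fin n → F) where
  toFun p := (p.1 σ, p.1 (τ * τ))
  map_add' _ _ := rfl
  map_smul' _ _ := rfl

theorem gv_apply (σ τ : D) (p : (D → Fin n → F) × (D → Fin n → F)) :
    gv σ τ p = (p.1 σ, p.1 (τ * τ)) := rfl

/-- the values `(r σ, r (τ²))` of the cocycles `r` with values in `U` -/
def gr (σ τ : D) : (D → Fin n → F) →ₗ[F] (Fin n → F) × (Fin n → F) where
  toFun r := (r σ, r (τ * τ))
  map_add' _ _ := rfl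
  map_smul' _ _ := rfl

theorem gr_apply (σ τ : D) (r : D → Fin n → F) : gr σ τ r = (r σ, r (τ * τ)) := rfl

/-- the space of the values of the cocycles with values in `U` -/
def RX (S : FSys D) (A : D →* Matrix (Fin n) (Fin n) F) (σ τ : D) :
    Submodule F ((Fin n → F) × (Fin n → F)) :=
  (cocS S (A : D → Matrix (Fin n) (Fin n) F)).map (gr σ τ)

/-- the cochain of the quadratic function of a pair -/
def zq (A : D →* Matrix (Fin n) (Fin n) F) (ε : D → ZMod 2)
    (p : (D → Fin n → F) × (D → Fin n → F)) : D → D → F := fun s t =>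
  ee (p.1 s) (A s *ᵥ p.1 t) + ee (p.1 s) (A s *ᵥ p.2 t) + ε s • ee (p.1 s) (A s *ᵥ p.2 t) +
    ε s • ee (p.1 t) (p.2 t)

/-- the value at the generators of a 2-cochain -/
def io (σ τ : D) (l : ℕ) (z : D → D → F) : F :=
  z σ τ + z (τ ^ l) σ + ∑ i ∈ Finset.range (l - 1), z (τ ^ (i + 1)) τ

/-- A Lagrangian condition, in the form of pairs. -/
structure LR (S : FSys D) (iv : (D → D → A0) → A0) (A : D →* Matrix (Fin n) (Fin n) F)
    (ε : D → ZMod 2) (L : Submodule F ((D → Fin n → F) × (D → Fin n → F))) : Prop where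
  lkr : KI.LKr S iv A ε L
  cob : ∀ a m : Fin n → F, (fun d => A d *ᵥ (a + ε d • m) + a, fun d => A d *ᵥ m + m) ∈ L
  iso : ∀ p ∈ L, ∀ α : F, iv (fun s t => hfT (α * zq A ε p s t)) = 0
  dim : Module.finrank F L = 2 * n

end tame

end Pool.Agent.Work.MP_787500_nt.ER
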