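import Mathlib
import Pool.Agent.Work.MP_787500_nt.ER.Defs
import Pool.Agent.Work.MP_787500_nt.KI.LocM
import Pool.Agent.Work.MP_787500_nt.KR.NZero

/-!
# PHASE E4, part II: the lattice. Definitions (fixed, do not change)

`T` is a lattice in `V = E ^ m`, self-dual for the form `b`, `F` the residue field, `L : l⁻¹ T / T ≃ F ^ n` coordinates.
`Rq L x u`: `x ∈ l⁻¹ T` has the reduction `u`. `N = ρ g - 1`, `g` the generator of the 2-part of inertia over the
quadratic field, `s` the Frobenius matrix, `K` the matrix with `β (x, y) = b (x, K y)`.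
-/

set_option autoImplicit false
set_option linter.unusedSectionVars false

namespace Pool.Agent.Work.MP_787500_nt.ER

open Matrix
open Pool.Agent.Work.MP_787500_nt.GP (A0 OE MN Wq mq bil Lat mq_add mq_smul mq_eq_zero pr0)
open Pool.Agent.Work.MP_787500_nt.KI (SIso)
open Pool.Agent.Work.MP_787500_nt.KS (hfT)
open Pool.Agent.Work.MP_787500_nt.KT (Sy ee)

variable {E : Type*} [NormedField E] [NormedAlgebra ℚ_[2] E] {m : ℕ}

/-- The hypotheses on the matrices. -/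
structure BT (b : Matrix (Fin m) (Fin m) E) (T : Submodule (OE E) (Fin m → E))
    (N s K : Matrix (Fin m) (Fin m) E) : Prop where
  nn : N * N = 0
  skew : ∀ x y, bil b x (K *ᵥ y) = -bil b (y + N *ᵥ y) (K *ᵥ x)
  inv : ∀ x y, bil b (N *ᵥ (s *ᵥ x)) (K *ᵥ (s *ᵥ y)) = bil b (N *ᵥ x) (K *ᵥ y)
  sN : ∃ r : E, r ≠ 0 ∧ s * N = r • (N * s)
  su : IsUnit s
  nT : ∀ x ∈ T, N *ᵥ x ∈ T
  kT : ∀ x, K *ᵥ x ∈ T ↔ x ∈ T

/-- the kernel of `N` -/
def kerN (N : Matrix (Fin m) (Fin m) E) : Submodule E (Fin m → E) := LinearMap.ker N.mulVecLin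

/-- the image of `N` -/
def ranN (N : Matrix (Fin m) (Fin m) E) : Submodule E (Fin m → E) := LinearMap.range N.mulVecLin

/-- the space `(s - 1) V + ker N` -/
def W5 (N s : Matrix (Fin m) (Fin m) E) : Submodule E (Fin m → E) :=
  LinearMap.range (s - 1).mulVecLin ⊔ kerN N

theorem mem_kerN {N : Matrix (Fin m) (Fin m) E} {x : Fin m → E} : x ∈ kerN N ↔ N *ᵥ x = 0 :=
  Iff.rfl

section red

variable {l : OE E} {T : Submodule (OE E) (Fin m → E)} {F : Type*} [Field F] [Algebra (OE E) F]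
  {n : ℕ}

/-- the vector `x` has the reduction `u` -/
def Rq (L : MN T l 1 ≃+ (Fin n → F)) (x : Fin m → E) (u : Fin n → F) : Prop :=
  ∃ z : MN T l 1, (z : Wq T) = mq T x ∧ L z = u

variable {L : MN T l 1 ≃+ (Fin n → F)}

theorem Rq.add {x y : Fin m → E} {u v : Fin n → F} (h : Rq L x u) (h' : Rq L y v) :
    Rq L (x + y) (u + v) := by
  obtain ⟨z, h1, h2⟩ := h
  obtain ⟨z', h1', h2'⟩ := h'
  exact ⟨z + z', by rw [Submodule.coe_add, h1, h1', mq_add], by rw [map_add, h2, h2']⟩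

theorem Rq.zero : Rq L (0 : Fin m → E) (0 : Fin n → F) :=
  ⟨0, by
    rw [Submodule.coe_zero]
    exact (mq_eq_zero.2 T.zero_mem).symm, map_zero L⟩

theorem Rq.smul (hL : SIso (OE E) F L) {x : Fin m → E} {u : Fin n → F} (h : Rq L x u) (a : OE E) :
    Rq L ((a : E) • x) (algebraMap (OE E) F a • u) := by
  obtain ⟨z, h1, h2⟩ := h
  exact ⟨a • z, by rw [Submodule.coe_smul, h1, mq_smul], by rw [hL.smul, h2]⟩

/-- the reductions of the elements of a subspace -/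
def imW (hL : SIso (OE E) F L) (W : Submodule E (Fin m → E)) : Submodule F (Fin n → F) where
  carrier := {u | ∃ x ∈ W, Rq L x u}
  add_mem' := by
    rintro u v ⟨x, hx, h⟩ ⟨y, hy, h'⟩
    exact ⟨x + y, W.add_mem hx hy, h.add h'⟩
  zero_mem' := ⟨0, W.zero_mem, Rq.zero⟩
  smul_mem' := by
    rintro a u ⟨x, hx, h⟩
    obtain ⟨a, rfl⟩ := hL.surj a
    exact ⟨(a : E) • x, W.smul_mem _ hx, h.smul hL a⟩

/-- the pairs of reductions of `(x, N w)` with `N (x - (s - 1) w) = 0` -/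
def Lam2 (hL : SIso (OE E) F L) (N s : Matrix (Fin m) (Fin m) E) :
    Submodule F ((Fin n → F) × (Fin n → F)) where
  carrier := {p | ∃ x w, Rq L x p.1 ∧ Rq L (N *ᵥ w) p.2 ∧ N *ᵥ (x - (s *ᵥ w - w)) = 0}
  add_mem' := by
    rintro p q ⟨x, w, h1, h2, h3⟩ ⟨x', w', h1', h2', h3'⟩
    refine ⟨x + x', w + w', h1.add h1', ?_, ?_⟩
    · rw [mulVec_add]
      exact h2.add h2'
    · have e : x + x' - (s *ᵥ (w + w') - (w + w')) =
          (x - (s *ᵥ w - w)) + (x' - (s *ᵥ w' - w')) := by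
        rw [mulVec_add]
        abel
      rw [e, mulVec_add, h3, h3', add_zero]
  zero_mem' := ⟨0, 0, Rq.zero, by
    rw [mulVec_zero]
    exact Rq.zero, by rw [mulVec_zero, sub_zero, sub_zero, mulVec_zero]⟩
  smul_mem' := by
    rintro a p ⟨x, w, h1, h2, h3⟩
    obtain ⟨a, rfl⟩ := hL.surj a
    refine ⟨(a : E) • x, (a : E) • w, h1.smul hL a, ?_, ?_⟩
    · rw [mulVec_smul]
      exact h2.smul hL a
    · rw [mulVec_smul, ← smul_sub, ← smul_sub, mulVec_smul, h3, smul_zero]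

theorem mem_Lam2 {hL : SIso (OE E) F L} {N s : Matrix (Fin m) (Fin m) E}
    {p : (Fin n → F) × (Fin n → F)} : p ∈ Lam2 hL N s ↔
      ∃ x w, Rq L x p.1 ∧ Rq L (N *ᵥ w) p.2 ∧ N *ᵥ (x - (s *ᵥ w - w)) = 0 := Iff.rfl

theorem mem_imW {hL : SIso (OE E) F L} {W : Submodule E (Fin m → E)} {u : Fin n → F} :
    u ∈ imW hL W ↔ ∃ x ∈ W, Rq L x u := Iff.rfl

/-- the matrix `X` of `U` and the form `β (x, y) = b (x, K y)`: `⟨u, X v⟩` is the reduction of `l² β (x, y)` -/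
def LinkX [Finite F] [Algebra (ZMod 2) F] [Sy F n] (L : MN T l 1 ≃+ (Fin n → F))
    (b : Matrix (Fin m) (Fin m) E) (t : E →ₗ[ℚ_[2]] ℚ_[2]) (K : Matrix (Fin m) (Fin m) E)
    (X : Matrix (Fin n) (Fin n) F) : Prop :=
  ∀ x y u v, Rq L x u → Rq L y v → hfT (ee u (X *ᵥ v)) = pr0 (t ((l : E) * bil b x (K *ᵥ y)))

/-- the plane of the pairs `(u, v)`, `u` a reduction of an element of `ker N`, `v` of an element of the image of `N` -/
def LamP (hL : SIso (OE E) F L) (N : Matrix (Fin m) (Fin m) E) :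
    Submodule F ((Fin n → F) × (Fin n → F)) := (imW hL (kerN N)).prod (imW hL (ranN N))

end red

end Pool.Agent.Work.MP_787500_nt.ER
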