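import Mathlib
import Pool.Agent.Work.MP_787500_nt.ER.Defs
import Pool.Agent.Work.MP_787500_nt.QL.Lag

/-!
# ER/Iota (size M-L): the invariant of a 2-cocycle at a tame place from its values at the generators

`z` is a smooth 2-cocycle of `D` with values in the field `F` (trivial action), invariant in both variables under the
pro-odd part `P_I = {p ∈ I, a p = 0}` of the INERTIA group (`h.Iχ`: `χ p = 1`; not under all of `h.P`). Then `iv z = io z`, `io z = z (σ, τ) + z (τ ^ l, σ) + ∑ (i = 1 .. l - 1) z (τ ^ i, τ)`, in the sense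
`iv (hfT (α z)) = hfT (α io z)` for all `α`.

PROOF. (1) `io` is additive, `F`-linear and kills the coboundaries `z (s, t) = f s + f t + f (s t)` (`f` smooth) that are
`P_I`-invariant: `f` is right invariant under `P_I` (`z (g, p) = z (g, 1) = f 1`, so `f p + f 1` is a smooth homomorphism
`P_I → F`, hence 0 (`h.odd_quot`, see `hom_I` in KI/InertC or `cob_P` in QL/CountH), and `f (g p) = f g`), `σ τ = τ ^ l σ p`
(`h.rel`; `p = σ⁻¹ τ ^ (- l) σ τ ∈ I` because `I` is normal and `τ ∈ I`, so `p ∈ P_I`) and `l - 1` is even.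
(2) `ψ₁ = (χ - 1) / (l - 1)` and `ψ₂ = a`, both modulo 2, are homomorphisms `D → ZMod 2`, smooth, 0 on `P`,
`ψ₁ σ = 1`, `ψ₁ τ = 0`, `ψ₂ σ = 0`, `ψ₂ τ = 1` (`h.dens` and `l ^ i - 1` is `l - 1` times `1 + l + .. + l ^ (i - 1)`; an
alternative for `ψ₁`: `QL.exists_ur` or the existence lemmas of KI/InertB, KI/InertD). Every smooth homomorphism `D → F` is
`x₁ ψ₁ + x₂ ψ₂` (`h.gen`). `z₀ (s, t) = ψ₁ s * ψ₂ t` has `io z₀ = 1`, and `iv (hfT (α z₀)) = hfT α`: by `hF.one`, the
class of `ψ₁` is not 0 (it is not a coboundary of the trivial action), so some homomorphism `y : D → F` and (scaling) has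
`iv (hfT (ψ₁ ∪ y)) ≠ 0`; `iv (ψ₁ ∪ x₁ ψ₁) = 0` (`ψ₁` is 0 on inertia: `QL.isotropic`), so `iv (hfT (x₂ z₀)) ≠ 0` for some
`x₂`; `iv (hfT (x z₀))`, `x ∈ F`, is additive in `x` with values in `{0, 1/2}`; it only depends on `hfT x`: `hfT (x z₀) =
hf (trace x * (ψ₁ ψ₂))`, so it is `trace x • iv (hf (ψ₁ ψ₂))` and `iv (hf (ψ₁ ψ₂)) = hf 1`.
(3) For `z` there is `w : F` with `iv (hfT (α z)) = hfT (α w)` for all `α` (the additive function `α ↦ iv (hfT (α z))`
has values in `{0, 1/2}`; the trace form is nondegenerate; see KS, KT for such a lemma, for example `KS.trace_trick`,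
`KT.exists_mul`). Then `z' = z + w z₀` has `iv (hfT (α z')) = 0` for all `α`, so `z'` is a coboundary of a smooth function
by `hF.two` (`cup02 (mF F) α z' = hfT (α z')`), so `io z' = 0` and `io z = w`.
-/

set_option autoImplicit false
set_option linter.unusedSectionVars false

namespace Pool.Agent.Work.MP_787500_nt.ER

open Matrix
open Pool.Agent.Work.MP_787500_nt.GP (A0 hf hf_add hf_zero hf_two hf_neg smul_hf eq_hf hf_inj IsAct d0 d1
  d2 tw cup11 cup02)
open Pool.Agent.Work.MP_787500_nt.KR (FSys Sm1 Sm2 IsChar Smooth Z1 Z2 B2 LocH Pair LDual z1s b1s)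
open Pool.Agent.Work.MP_787500_nt.KT hiding Str Rel Sel KH Ai IsP cc ff TT
open Pool.Agent.Work.MP_787500_nt.KS (hfT hfT_apply hfT_sq hfT_two hfT_neg smul_hfT hfT_nondeg
  inv_zero smul_F dF1 rt rt_sq zmod2_cases ep)
open Pool.Agent.Work.MP_787500_nt.QL (TameF fixP fixG)
open Pool.Agent.Work.MP_787500_nt.KI (Y2 R1 LKr LVal)

variable {F : Type*} [Field F] [Finite F] [CharP F 2] [Algebra (ZMod 2) F]
  {D : Type*} [Group D] {S : FSys D} {χ a : D → ℤ_[2]} {σ τ : D} {l : ℕ} {I : Subgroup D}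
  {iv : (D → D → A0) → A0}

private theorem io_act : IsAct (fun (_ : D) (x : F) => x) :=
  ⟨fun _ => rfl, fun _ _ _ => rfl, fun _ _ _ => rfl⟩

private theorem io_sm (S : FSys D) : Smooth S (fun (_ : D) (x : F) => x) := by
  obtain ⟨W, hW⟩ := S.ex
  exact ⟨W, hW, fun _ _ _ => rfl⟩

private theorem io_pair (hχ : IsChar S χ) :
    Pair S χ (fun (_ : D) (x : F) => x) (fun _ x => x) (mF F) where
  act := io_act
  act' := io_act
  sm := io_sm S
  sm' := io_sm S
  eqv g m m' := by rw [mF_apply, smul_hfT (hχ.odd g)]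
  nd m h := hfT_nondeg fun b => by
    rw [mul_comm]
    exact h b
  nd' m' h := hfT_nondeg fun b => h b

private theorem io_two : (2 : F) = 0 := CharTwo.two_eq_zero

private theorem hom_pow {y : D → F} {x : D} (y1 : y 1 = 0)
    (hy : ∀ k : ℕ, y (x ^ k * x) = y (x ^ k) + y x) (k : ℕ) : y (x ^ k) = (k : F) * y x := by
  induction k with
  | zero => rw [pow_zero, y1, Nat.cast_zero, zero_mul]
  | succ k ih => rw [pow_succ, hy, ih, Nat.cast_succ, add_mul, one_mul]

private theorem hom_Pp (h : TameF S χ a σ τ l I) {y : D → F} (hs : Sm1 S y) {p : D}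
    (hp : p ∈ h.P) (y1 : y 1 = 0) (hy : ∀ k : ℕ, y (p ^ k * p) = y (p ^ k) + y p) : y p = 0 := by
  obtain ⟨W, hW, h1⟩ := hs
  have hWn := S.normal hW
  have hpow : ∀ k : ℕ, y (p ^ k) = (k : F) * y p := hom_pow y1 hy
  have hPn := h.P_normal
  have hodd := h.odd_quot hW
  have hr : p ^ (Nat.card (h.P ⧸ W.subgroupOf h.P)) ∈ W := by
    have h1 : ((⟨p, hp⟩ : h.P) : h.P ⧸ W.subgroupOf h.P) ^
        Nat.card (h.P ⧸ W.subgroupOf h.P) = 1 := pow_card_eq_one'
    rw [← QuotientGroup.mk_pow, QuotientGroup.eq_one_iff, Subgroup.mem_subgroupOf] at h1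
    exact h1
  have e := h1 1 _ hr
  rw [one_mul, y1, hpow] at e
  obtain ⟨k, hk⟩ := hodd
  rw [hk] at e
  push_cast at e
  linear_combination e - (k : F) * y p * io_two (F := F)

private theorem hom_P (h : TameF S χ a σ τ l I) {y : D → F} (hs : Sm1 S y)
    (hy : ∀ g k, y (g * k) = y g + y k) : ∀ p ∈ h.P, y p = 0 := by
  intro p hp
  have y1 : y 1 = 0 := by
    have := hy 1 1
    rw [mul_one] at this
    exact left_eq_add.1 this
  exact hom_Pp h hs hp y1 fun k => hy _ _

private theorem hom_gen (h : TameF S χ a σ τ l I) {y : D → F} (hs : Sm1 S y)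
    (hy : ∀ g k, y (g * k) = y g + y k) (g : D) :
    ∃ i j : ℕ, y g = (i : F) * y σ + (j : F) * y τ := by
  have hP := hom_P h hs hy
  obtain ⟨W, hW, h1⟩ := hs
  obtain ⟨i, j, p, hp, hg⟩ := h.gen hW g
  have e : y g = y (σ ^ i * τ ^ j * p) := by
    have := h1 (σ ^ i * τ ^ j * p) _ hg
    rwa [mul_inv_cancel_left] at this
  have y1 : y 1 = 0 := by
    have := hy 1 1
    rw [mul_one] at this
    exact left_eq_add.1 this
  exact ⟨i, j, by rw [e, hy, hy, hP p hp, add_zero, hom_pow y1 (fun _ => hy _ _),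
    hom_pow y1 (fun _ => hy _ _)]⟩

private theorem io_cob (h : TameF S χ a σ τ l I) {f : D → F} (hf : Sm1 S f) {z : D → D → F}
    (hz : ∀ s t, z s t = f s + f t + f (s * t))
    (h2 : ∀ g k p, p ∈ I → a p = 0 → z g (k * p) = z g k) : io σ τ l z = 0 := by
  have t2 := io_two (F := F)
  have e1 : ∀ g, ∀ p ∈ I, a p = 0 → f (g * p) = f g + f p + f 1 := by
    intro g p hp hp2
    have e := h2 g 1 p hp hp2
    rw [one_mul, hz, hz, mul_one] at e
    linear_combination e - f p * t2
  have e2 : ∀ p ∈ I, a p = 0 → f p = f 1 := by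
    intro p hp hp2
    have hpk : ∀ k : ℕ, a (p ^ k) = 0 := by
      intro k
      induction k with
      | zero => rw [pow_zero]; exact h.pr.a_one
      | succ k ih => rw [pow_succ, h.coc, ih, hp2, mul_zero, add_zero]
    have h3 := hom_Pp h (y := fun g => f g + f 1) (by
      obtain ⟨W, hW, h1⟩ := hf
      exact ⟨W, hW, fun g w hw => by beta_reduce; rw [h1 g w hw]⟩) (p := p)
      ⟨h.Iχ p hp, hp2⟩ (by
        linear_combination f 1 * t2) (by
      intro k
      rw [e1 (p ^ k) p hp hp2]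
      ring)
    beta_reduce at h3
    linear_combination h3 - f 1 * t2
  have e3 : ∀ g, ∀ p ∈ I, a p = 0 → f (g * p) = f g := by
    intro g p hp hp2
    rw [e1 g p hp hp2, e2 p hp hp2]
    linear_combination f 1 * t2
  have e4 : f (σ * τ) = f (τ ^ l * σ) := by
    obtain ⟨p, hp, e⟩ := h.rel
    have hpI : p ∈ I := by
      have hn := h.In
      have e' : p = σ⁻¹ * (τ ^ l)⁻¹ * σ * τ := by
        have : p = (τ ^ l * σ)⁻¹ * (σ * τ) := by rw [e]; group
        rw [this]
        group
      rw [e']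
      refine I.mul_mem ?_ h.τI
      have := hn.conj_mem _ (I.inv_mem (I.pow_mem h.τI l)) σ⁻¹
      rwa [inv_inv] at this
    rw [e, e3 _ p hpI hp.2]
  have e5 : ∀ m : ℕ, ∑ i ∈ Finset.range m, z (τ ^ (i + 1)) τ = f τ + (m : F) * f τ +
      f (τ ^ (m + 1)) := by
    intro m
    induction m with
    | zero =>
      rw [Finset.sum_range_zero, zero_add, pow_one, Nat.cast_zero, zero_mul, add_zero]
      linear_combination - f τ * t2
    | succ m ih =>
      rw [Finset.sum_range_succ, ih, hz, ← pow_succ]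
      push_cast
      linear_combination f (τ ^ (m + 1)) * t2
  have e6 : ((l - 1 : ℕ) : F) = 0 := by
    obtain ⟨k, hk⟩ := h.lodd
    have : l - 1 = 2 * k := by omega
    rw [this]
    push_cast
    rw [t2, zero_mul]
  have e7 : l - 1 + 1 = l := Nat.sub_add_cancel (by have := h.lt; omega)
  unfold io
  rw [e5, e6, e7, hz, hz, e4]
  linear_combination (f σ + f τ + f (τ ^ l) + f (τ ^ l * σ)) * t2

private theorem io_Z2 (hχ : IsChar S χ) {z : D → D → F} (hz : Sm2 S z)
    (hc : ∀ g k m, z g k + z (g * k) m = z k m + z g (k * m)) (α : F) :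
    Z2 S (tw χ) (fun s t => hfT (α * z s t)) := by
  constructor
  · obtain ⟨W, hW, h1⟩ := hz
    exact ⟨W, hW, fun g k w hw w' hw' => by beta_reduce; rw [h1 g k w hw w' hw']⟩
  · intro x y m
    show χ x • hfT (α * z y m) - hfT (α * z (x * y) m) + hfT (α * z x (y * m)) -
      hfT (α * z x y) = 0
    rw [smul_hfT (hχ.odd x), sub_eq_add_neg, sub_eq_add_neg, hfT_neg, hfT_neg, ← map_add,
      ← map_add, ← map_add]
    have e : α * z y m + α * z (x * y) m + α * z x (y * m) + α * z x y = 0 := by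
      linear_combination α * hc x y m + (α * z y m + α * z x (y * m)) * io_two (F := F)
    rw [e, map_zero]

/-- the value -/
private noncomputable def wv (iv : (D → D → A0) → A0) (z : D → D → F) (α : F) : A0 :=
  iv (fun s t => hfT (α * z s t))

private theorem wv_add (L : LocH S χ iv) {z z' : D → D → F} (hz : Sm2 S z)
    (hc : ∀ g k m, z g k + z (g * k) m = z k m + z g (k * m)) (hz' : Sm2 S z')
    (hc' : ∀ g k m, z' g k + z' (g * k) m = z' k m + z' g (k * m)) (α : F) :
    wv iv (fun s t => z s t + z' s t) α = wv iv z α + wv iv z' α := by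
  unfold wv
  rw [← L.add _ _ (io_Z2 L.char hz hc α) (io_Z2 L.char hz' hc' α)]
  congr 1
  funext s t
  rw [mul_add, map_add]

private theorem wv_add' (L : LocH S χ iv) {z : D → D → F} (hz : Sm2 S z)
    (hc : ∀ g k m, z g k + z (g * k) m = z k m + z g (k * m)) (α β : F) :
    wv iv z (α + β) = wv iv z α + wv iv z β := by
  unfold wv
  rw [← L.add _ _ (io_Z2 L.char hz hc α) (io_Z2 L.char hz hc β)]
  congr 1
  funext s t
  rw [add_mul, map_add]

private theorem wv_smul (z : D → D → F) (c α : F) :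
    wv iv (fun s t => c * z s t) α = wv iv z (α * c) := by
  unfold wv
  congr 1
  funext s t
  rw [mul_assoc]

private theorem wv_ex (L : LocH S χ iv) {z : D → D → F} (hz : Sm2 S z)
    (hc : ∀ g k m, z g k + z (g * k) m = z k m + z g (k * m)) :
    ∃ w : F, ∀ α, hfT (α * w) = wv iv z α :=
  KS.exists_mul (AddMonoidHom.mk' (fun α => wv iv z α) (wv_add' L hz hc))

private theorem cup_sm {x y : D → F} (hx : Sm1 S x) (hy : Sm1 S y) :
    Sm2 S (fun s t => x s * y t) := by
  obtain ⟨W, hW, h1⟩ := hx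
  obtain ⟨W', hW', h2⟩ := hy
  exact ⟨W ⊓ W', S.inf hW hW', fun g k w hw w' hw' => by
    beta_reduce
    rw [h1 g w hw.1, h2 k w' hw'.2]⟩

private theorem cup_coc {x y : D → F} (hx : ∀ g k, x (g * k) = x g + x k)
    (hy : ∀ g k, y (g * k) = y g + y k) (g k m : D) :
    x g * y k + x (g * k) * y m = x k * y m + x g * y (k * m) := by
  rw [hx, hy]
  ring

private theorem io_add (z z' : D → D → F) (w : F) :
    io σ τ l (fun s t => z s t + w * z' s t) = io σ τ l z + w * io σ τ l z' := by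
  unfold io
  rw [Finset.sum_add_distrib, ← Finset.mul_sum]
  ring

private theorem exists_psi (h : TameF S χ a σ τ l I) (L : LocH S χ iv)
    (hF : LDual S iv (fun (_ : D) (x : F) => x) (fun _ x => x) (mF F)) :
    ∃ x y : D → F, Sm1 S x ∧ Sm1 S y ∧ (∀ g k, x (g * k) = x g + x k) ∧
      (∀ g k, y (g * k) = y g + y k) ∧ x σ = 1 ∧ (∀ i ∈ I, x i = 0) ∧ y σ = 0 ∧ y τ = 1 ∧
      ∃ t, wv iv (fun s t => x s * y t) t ≠ 0 := by
  have t2 := io_two (F := F)
  obtain ⟨x, hx, hxI, hxσ⟩ := QL.exists_ur (k := 1) h (io_act (D := D) (F := F)) (io_sm S)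
    (fun u => by
      rw [pow_one, two_nsmul]
      linear_combination u * t2)
    (v := (1 : F)) (fun i _ => rfl)
  obtain ⟨y, hy, hy0⟩ : ∃ y : D → F, Z1 S (fun (_ : D) (x : F) => x) y ∧
      iv (cup11 (fun (_ : D) (x : F) => x) (mF F) x y) ≠ 0 := by
    by_contra hcon
    push Not at hcon
    obtain ⟨m, hm⟩ := hF.one x hx hcon
    have e := congrFun hm σ
    rw [hxσ] at e
    have e' : d0 (fun (_ : D) (x : F) => x) m σ = 0 := sub_self m
    rw [e'] at e
    exact one_ne_zero e
  have hxh : ∀ g k, x (g * k) = x g + x k := hx.2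
  have hyh : ∀ g k, y (g * k) = y g + y k := hy.2
  have hy0' : wv iv (fun s t => x s * y t) 1 ≠ 0 := by
    intro h0
    apply hy0
    rw [← h0]
    unfold wv
    congr 1
    funext s t
    show hfT (x s * y t) = _
    rw [one_mul]
  have hxx : ∀ c, wv iv (fun s t => x s * x t) c = 0 := by
    intro c
    have hz : x ∈ QL.zur S I (io_act (D := D) (F := F)) :=
      ⟨hx, 0, fun i hi => by rw [hxI i hi]; exact (sub_self (0 : F)).symm⟩
    have hcz : (fun g => c * x g) ∈ QL.zur S I (io_act (D := D) (F := F)) := by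
      refine ⟨⟨?_, fun g k => ?_⟩, 0, fun i hi => ?_⟩
      · obtain ⟨W, hW, h1⟩ := hx.1
        exact ⟨W, hW, fun g w hw => by beta_reduce; rw [h1 g w hw]⟩
      · show c * x (g * k) = c * x g + c * x k
        rw [hxh, mul_add]
      · show c * x i = d0 (fun (_ : D) (x : F) => x) 0 i
        rw [hxI i hi, mul_zero]
        exact (sub_self (0 : F)).symm
    have e := QL.isotropic h L (io_pair L.char) hcz hz
    rw [← e]
    unfold wv
    congr 1
    funext s t
    show _ = hfT (c * x s * x t)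
    rw [mul_assoc]
  have hxτ : x τ = 0 := hxI τ h.τI
  -- the values of `y` on the generators
  let y' : D → F := fun g => y g + y σ * x g
  have hy's : Sm1 S y' := by
    obtain ⟨W, hW, h1⟩ := hx.1
    obtain ⟨W', hW', h2⟩ := hy.1
    exact ⟨W ⊓ W', S.inf hW hW', fun g w hw => by
      show y (g * w) + y σ * x (g * w) = y g + y σ * x g
      rw [h1 g w hw.1, h2 g w hw.2]⟩
  have hy'h : ∀ g k, y' (g * k) = y' g + y' k := by
    intro g k
    show y (g * k) + y σ * x (g * k) = y g + y σ * x g + (y k + y σ * x k)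
    rw [hxh, hyh]
    ring
  have hy'σ : y' σ = 0 := by
    show y σ + y σ * x σ = 0
    rw [hxσ]
    linear_combination y σ * t2
  have hy'τ : y' τ = y τ := by
    show y τ + y σ * x τ = y τ
    rw [hxτ, mul_zero, add_zero]
  have hval : wv iv (fun s t => x s * y' t) 1 ≠ 0 := by
    intro h0
    apply hy0'
    have e1 : (fun s t => x s * y t) = fun s t => x s * y' t + y σ * (x s * x t) := by
      funext s t
      show x s * y t = x s * (y t + y σ * x t) + y σ * (x s * x t)
      linear_combination - x s * y σ * x t * t2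
    have hcs : Sm2 S (fun s t => y σ * (x s * x t)) := by
      obtain ⟨W, hW, h1⟩ := cup_sm hx.1 hx.1
      exact ⟨W, hW, fun g k w hw w' hw' => by
        have := h1 g k w hw w' hw'
        beta_reduce at this ⊢
        rw [this]⟩
    rw [e1, wv_add L (cup_sm hx.1 hy's) (cup_coc hxh hy'h) hcs (fun g k m => by
      have := cup_coc hxh hxh g k m
      linear_combination y σ * this), h0, wv_smul, hxx, add_zero]
  have hτ0 : y τ ≠ 0 := by
    intro h0
    apply hval
    have e : y' = fun _ => 0 := by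
      funext g
      obtain ⟨i, j, e⟩ := hom_gen h hy's hy'h g
      rw [e, hy'σ, hy'τ, h0, mul_zero, mul_zero, add_zero]
    rw [e]
    unfold wv
    simp only [mul_zero, map_zero]
    exact inv_zero L
  refine ⟨x, fun g => (y τ)⁻¹ * y' g, hx.1, ?_, hxh, ?_, hxσ, hxI, ?_, ?_, y τ, ?_⟩
  · obtain ⟨W, hW, h1⟩ := hy's
    exact ⟨W, hW, fun g w hw => by beta_reduce; rw [h1 g w hw]⟩
  · intro g k
    show (y τ)⁻¹ * y' (g * k) = (y τ)⁻¹ * y' g + (y τ)⁻¹ * y' k
    rw [hy'h, mul_add]
  · show (y τ)⁻¹ * y' σ = 0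
    rw [hy'σ, mul_zero]
  · show (y τ)⁻¹ * y' τ = 1
    rw [hy'τ, inv_mul_cancel₀ hτ0]
  · intro h0
    apply hval
    rw [← h0]
    unfold wv
    congr 1
    funext s t
    congr 1
    show 1 * (x s * y' t) = y τ * (x s * ((y τ)⁻¹ * y' t))
    rw [mul_left_comm (x s), mul_inv_cancel_left₀ hτ0, one_mul]

private theorem io_01 (k : ℕ) : (k : F) ^ 2 = k := by
  rcases Nat.even_or_odd' k with ⟨m, rfl | rfl⟩
  · push_cast
    rw [io_two, zero_mul]
    ring
  · push_cast
    rw [io_two, zero_mul]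
    ring

/-- THE INVARIANT FROM THE VALUES AT THE GENERATORS. -/
theorem iota (h : TameF S χ a σ τ l I) (L : LocH S χ iv)
    (hF : LDual S iv (fun (_ : D) (x : F) => x) (fun _ x => x) (mF F)) {z : D → D → F}
    (hz : Sm2 S z) (hc : ∀ g k m, z g k + z (g * k) m = z k m + z g (k * m))
    (h1 : ∀ g k p, p ∈ I → a p = 0 → z (g * p) k = z g k)
    (h2 : ∀ g k p, p ∈ I → a p = 0 → z g (k * p) = z g k) (α : F) :
    iv (fun s t => hfT (α * z s t)) = hfT (α * io σ τ l z) := by
  have t2 := io_two (F := F)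
  obtain ⟨x, y, hx, hy, hxh, hyh, hxσ, hxI, hyσ, hyτ, t, ht⟩ := exists_psi h L hF
  have hxτ : x τ = 0 := hxI τ h.τI
  have x2 : ∀ g, x g ^ 2 = x g := by
    intro g
    obtain ⟨i, j, e⟩ := hom_gen h hx hxh g
    rw [e, hxσ, hxτ, mul_zero, add_zero, mul_one, io_01]
  have y2 : ∀ g, y g ^ 2 = y g := by
    intro g
    obtain ⟨i, j, e⟩ := hom_gen h hy hyh g
    rw [e, hyσ, hyτ, mul_zero, zero_add, mul_one, io_01]
  have c0 := cup_coc hxh hyh
  have s0 := cup_sm hx hy
  obtain ⟨w0, hw0⟩ := wv_ex L s0 c0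
  have hsq : ∀ b, wv iv (fun s t => x s * y t) (b ^ 2) = wv iv (fun s t => x s * y t) b := by
    intro b
    unfold wv
    congr 1
    funext s t
    rw [← hfT_sq (b * (x s * y t)), mul_pow, mul_pow, x2, y2]
  have hw1 : w0 + w0 ^ 2 = 0 := by
    refine hfT_nondeg fun c => ?_
    have e1 := hsq (rt c)
    rw [← hw0, ← hw0, rt_sq, ← hfT_sq (rt c * w0), mul_pow, rt_sq] at e1
    rw [mul_add, map_add, e1, hfT_two]
  have hw : w0 = 1 := by
    have e1 : w0 * (1 + w0) = 0 := by linear_combination hw1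
    rcases mul_eq_zero.1 e1 with e2 | e2
    · exfalso
      apply ht
      rw [← hw0, e2, mul_zero, map_zero]
    · linear_combination e2 - t2
  rw [hw] at hw0
  -- the cocycle `z`
  obtain ⟨w, hwz⟩ := wv_ex L hz hc
  let z' : D → D → F := fun s t => z s t + w * (x s * y t)
  have sw : Sm2 S (fun s t => w * (x s * y t)) := by
    obtain ⟨W, hW, h1⟩ := s0
    exact ⟨W, hW, fun g k w hw w' hw' => by
      have := h1 g k w hw w' hw'
      beta_reduce at this ⊢
      rw [this]⟩
  have cw : ∀ g k m, w * (x g * y k) + w * (x (g * k) * y m) =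
      w * (x k * y m) + w * (x g * y (k * m)) := by
    intro g k m
    linear_combination w * c0 g k m
  have hz's : Sm2 S z' := by
    obtain ⟨W, hW, h1⟩ := hz
    obtain ⟨W', hW', h2⟩ := sw
    refine ⟨W ⊓ W', S.inf hW hW', fun g k v hv v' hv' => ?_⟩
    have e2 := h2 g k v hv.2 v' hv'.2
    beta_reduce at e2
    show z (g * v) (k * v') + w * (x (g * v) * y (k * v')) = z g k + w * (x g * y k)
    rw [h1 g k v hv.1 v' hv'.1, e2]
  have hz'0 : ∀ b, wv iv z' b = 0 := by
    intro b
    have e1 := wv_add L hz hc sw cw b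
    show wv iv (fun s t => z s t + w * (x s * y t)) b = 0
    rw [e1, wv_smul, ← hwz, ← hw0, mul_one, hfT_two]
  obtain ⟨f, hf, hff⟩ := hF.two z' ⟨hz's, fun b c d => by
    show z' c d - z' (b * c) d + z' b (c * d) - z' b c = 0
    have e1 : z' b c + z' (b * c) d = z' c d + z' b (c * d) := by
      show z b c + w * (x b * y c) + (z (b * c) d + w * (x (b * c) * y d)) =
        z c d + w * (x c * y d) + (z b (c * d) + w * (x b * y (c * d)))
      linear_combination hc b c d + cw b c d
    linear_combination -e1⟩ (fun b _ => hz'0 b)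
  have hf2 : ∀ s t, z' s t = f s + f t + f (s * t) := by
    intro s t
    rw [hff]
    show f s + f t - f (s * t) = _
    linear_combination - f (s * t) * t2
  have yP : ∀ p, p ∈ I → a p = 0 → y p = 0 := fun p hp1 hp2 =>
    hom_P h hy hyh p ⟨h.Iχ p hp1, hp2⟩
  have hio := io_cob h hf hf2 (by
    intro g k p hp1 hp2
    show z g (k * p) + w * (x g * y (k * p)) = z g k + w * (x g * y k)
    rw [h2 g k p hp1 hp2, hyh, yP p hp1 hp2, add_zero])
  have hio0 : io σ τ l (fun s t => x s * y t) = 1 := by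
    unfold io
    have e1 : ∀ i ∈ Finset.range (l - 1), x (τ ^ (i + 1)) * y τ = 0 := fun i _ => by
      rw [hxI _ (I.pow_mem h.τI _), zero_mul]
    rw [Finset.sum_eq_zero e1]
    show x σ * y τ + x (τ ^ l) * y σ + 0 = 1
    rw [hxσ, hyτ, hyσ, mul_zero, mul_one, add_zero, add_zero]
  have hio' : io σ τ l z + w * io σ τ l (fun s t => x s * y t) = 0 := by
    rw [← io_add]
    exact hio
  rw [hio0, mul_one] at hio'
  have e9 : io σ τ l z = w := by linear_combination hio' - w * t2
  rw [e9, hwz]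
  rfl

end Pool.Agent.Work.MP_787500_nt.ER
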