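import Mathlib
import Pool.Agent.Work.MP_787500_nt.ER.Defs

/-!
# ER/PTriv (size M): cocycles and pairs at a tame place, elementary formulas

`P_I = {p ∈ I, a p = 0}` is the pro-odd part of the INERTIA group (contained in `h.tame.P` by `h.tame.Iχ`).
* `eps_P`: `ε = 0` on `h.tame.P`. `A_P`: `A p` has odd order (`QL.TameF.odd_quot`, `h.sm`) and `A p ^ 4 = 1` (`h.i4`). `y_P`, `a_P`: the cocycles `y`
  and the first components of pairs are 0 on `P_I`: smooth homomorphisms to groups of exponent 2 there (compare `KI.hom_I`).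
* `y_det`, `fix_gen`: NOT from `QL.zP_det` (`h.tame.P` need not act trivially); by `h.tame.frob` every `g` is `σ ^ i n w`, `n ∈ I`, `w ∈ W`, and as in the proof of `KI.hom_I`
  `n = τ ^ j n'` with `n' ∈ I`, `2 ^ N ∣ a n'`, `n' = p w'`, `p ∈ h.tame.P`, so `A n' = A p` has odd order and `A n' ^ 4 = 1`: `A n' = 1`, and `n' ^ r ∈ W` with `r` odd, so
  `r • y n' = y (n' ^ r) = 0`, `y n' = 0`.
* `y_mulP`, `a_mulP`: invariance.
* `y_pow`, `a_pow`: the values at the powers of `τ`; `eps_pow`: `ε (τ ^ i) = i`.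
* `rel_y`, `rel_a`, `rel_A`: the relation `σ τ = τ ^ l σ p` (`h.tame.rel`), `p ∈ P_I` (`p = σ⁻¹ τ ^ (- l) σ τ`, `I` is normal).
* `a_two`, `rel_uv`: with `u = q.1 σ`, `v = q.1 (τ τ)`: `v = (1 + X) a τ + X y τ`, and `(1 + X ^ 2) u = (S + X ^ (2 j)) v`,
  `l = 2 j + 1`: the first component is a cocycle on `ker ε`, which contains `σ`, `g = τ τ`, `P`, and `σ g = g ^ l σ p'`;
  the value at `g ^ l` is `(1 + X² + .. + X ^ (2 (l - 1))) v = X ^ (2 j) v` because `X⁴ = 1`.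
-/

set_option autoImplicit false
set_option linter.unusedSectionVars false

namespace Pool.Agent.Work.MP_787500_nt.ER

open Matrix
open Pool.Agent.Work.MP_787500_nt.GP (A0 hf hf_add hf_zero hf_two hf_neg smul_hf eq_hf hf_inj IsAct d0 d1
  d2 tw cup11 cup02)
open Pool.Agent.Work.MP_787500_nt.KR (FSys Sm1 Sm2 IsChar Smooth Z1 Z2 B2 LocH Pair LDual z1s b1s)
open Pool.Agent.Work.MP_787500_nt.KT hiding Str Rel Sel KH Ai IsP cc ff TT
open Pool.Agent.Work.MP_787500_nt.KS (hfT hfT_apply hfT_sq hfT_two hfT_neg smul_hfT hfT_nondeg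
  inv_zero smul_F dF1 rt rt_sq zmod2_cases ep)
open Pool.Agent.Work.MP_787500_nt.QL (TameF fixP fixG)
open Pool.Agent.Work.MP_787500_nt.KI (Y2 R1 LKr LVal)

variable {F : Type*} [Field F] [Finite F] [CharP F 2] [Algebra (ZMod 2) F] {n : ℕ} [Sy F n]
  {D : Type*} [Group D] {S : FSys D} {χ a : D → ℤ_[2]} {σ τ : D} {l : ℕ} {I : Subgroup D}
  {iv : (D → D → A0) → A0} {A : D →* Matrix (Fin n) (Fin n) F} {ε : D → ZMod 2}

private theorem U_add_self (m : Fin n → F) : m + m = 0 := by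
  funext i
  exact CharTwo.add_self_eq_zero _

/-- an odd power of an element of `P` is in `W` -/
private theorem odd_pow (h : TameF S χ a σ τ l I) {W : Subgroup D} (hW : S.mem W) {p : D}
    (hp : p ∈ h.P) : ∃ r : ℕ, Odd r ∧ p ^ r ∈ W := by
  have hWn := S.normal hW
  refine ⟨_, h.odd_quot hW, ?_⟩
  have h1 : ((⟨p, hp⟩ : h.P) : h.P ⧸ W.subgroupOf h.P) ^
      Nat.card (h.P ⧸ W.subgroupOf h.P) = 1 := pow_card_eq_one'
  rw [← QuotientGroup.mk_pow, QuotientGroup.eq_one_iff, Subgroup.mem_subgroupOf] at h1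
  exact h1

/-- a smooth homomorphism on a subgroup of `P` to a group of exponent 2 -/
private theorem hom_P (h : TameF S χ a σ τ l I) {M : Type*} [AddCommGroup M] (h2 : ∀ m : M, m + m = 0)
    {f : D → M} {Q : Subgroup D} (hQ : Q ≤ h.P)
    (hf : ∀ p ∈ Q, ∀ p' ∈ Q, f (p * p') = f p + f p') (hs : Sm1 S f) :
    ∀ p ∈ Q, f p = 0 := by
  intro p hp
  obtain ⟨W, hW, hfW⟩ := hs
  have hf1 : f 1 = 0 := by
    have := hf 1 Q.one_mem 1 Q.one_mem
    rw [mul_one] at this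
    exact left_eq_add.1 this
  have hpow : ∀ k : ℕ, f (p ^ k) = k • f p := by
    intro k
    induction k with
    | zero => rw [pow_zero, hf1, zero_smul]
    | succ k ih => rw [pow_succ, hf _ (Q.pow_mem hp k) _ hp, ih, add_smul, one_smul]
  obtain ⟨r, ⟨k, hk⟩, hr⟩ := odd_pow h hW (hQ hp)
  have h6 := hfW 1 _ hr
  rw [one_mul, hf1, hpow, hk, add_smul, one_smul, mul_comm, mul_smul, two_smul, h2, smul_zero,
    zero_add] at h6
  exact h6

private theorem pmem (h : TR S χ a σ τ l I iv A ε) {p : D} (h1 : p ∈ I) (h2 : a p = 0) :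
    p ∈ h.tame.P ⊓ I := ⟨⟨h.tame.Iχ p h1, h2⟩, h1⟩

theorem eps_P (h : TR S χ a σ τ l I iv A ε) {p : D} (h1 : χ p = 1) (h2 : a p = 0) : ε p = 0 :=
  hom_P h.tame (fun m => CharTwo.add_self_eq_zero m) le_rfl (fun p _ p' _ => h.eadd p p') h.esm p
    ⟨h1, h2⟩

private theorem one_of_odd {X : Matrix (Fin n) (Fin n) F} {r : ℕ} (hr : Odd r) (h1 : X ^ r = 1)
    (h2 : X ^ 4 = 1) : X = 1 := by
  obtain ⟨k, hk⟩ := hr
  have h3 : X ^ (r * r) = 1 := by rw [pow_mul, h1, one_pow]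
  have h4 : r * r = 4 * (k * k + k) + 1 := by rw [hk]; ring
  rw [h4, pow_succ, pow_mul, h2, one_pow, one_mul] at h3
  exact h3

private theorem mat_one {X : Matrix (Fin n) (Fin n) F} (h : ∀ m, X *ᵥ m = m) : X = 1 := by
  apply Matrix.mulVec_injective
  funext m
  rw [h, one_mulVec]

/-- the pro-odd part of the inertia group acts trivially -/
theorem A_P (h : TR S χ a σ τ l I iv A ε) {p : D} (h1 : p ∈ I) (h2 : a p = 0) : A p = 1 := by
  obtain ⟨W, hW, hs⟩ := h.sm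
  obtain ⟨r, hr, hp⟩ := odd_pow h.tame hW (pmem h h1 h2).1
  refine one_of_odd hr ?_ (h.i4 p h1)
  rw [← map_pow]
  exact mat_one (hs _ hp)

theorem y_P (h : TR S χ a σ τ l I iv A ε) {y : D → Fin n → F} (hy : Z1 S (KT.act A) y) {p : D}
    (h1 : p ∈ I) (h2 : a p = 0) : y p = 0 :=
  hom_P h.tame (fun m => U_add_self m) inf_le_left (fun p hp p' _ => by
    rw [hy.2, KT.act, A_P h hp.2 hp.1.2, one_mulVec]) hy.1 p (pmem h h1 h2)

theorem a_P (h : TR S χ a σ τ l I iv A ε) {q : (D → Fin n → F) × (D → Fin n → F)}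
    (hq : ZP S A ε q) {p : D} (h1 : p ∈ I) (h2 : a p = 0) : q.1 p = 0 :=
  hom_P h.tame (fun m => U_add_self m) inf_le_left (fun p hp p' _ => by
    rw [hq.2.2, A_P h hp.2 hp.1.2, one_mulVec, eps_P h hp.1.1 hp.1.2, zero_smul, add_zero]) hq.2.1 p
    (pmem h h1 h2)

theorem y_mulP (h : TR S χ a σ τ l I iv A ε) {y : D → Fin n → F} (hy : Z1 S (KT.act A) y) (g : D)
    {p : D} (h1 : p ∈ I) (h2 : a p = 0) : y (g * p) = y g := by
  rw [hy.2, y_P h hy h1 h2, KT.act, mulVec_zero, add_zero]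

theorem a_mulP (h : TR S χ a σ τ l I iv A ε) {q : (D → Fin n → F) × (D → Fin n → F)}
    (hq : ZP S A ε q) (g : D) {p : D} (h1 : p ∈ I) (h2 : a p = 0) : q.1 (g * p) = q.1 g := by
  rw [hq.2.2, a_P h hq h1 h2, y_P h hq.1 h1 h2, mulVec_zero, smul_zero, add_zero, add_zero]

/-- the relation, with an element of the inertia group -/
private theorem relI (h : TR S χ a σ τ l I iv A ε) :
    ∃ p, p ∈ I ∧ a p = 0 ∧ σ * τ = τ ^ l * σ * p := by
  obtain ⟨p, hp, hrel⟩ := h.tame.rel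
  have hIn := h.tame.In
  have h1 : p = (σ⁻¹ * (τ ^ l)⁻¹ * σ) * τ := by
    have : p = (τ ^ l * σ)⁻¹ * (σ * τ) := by rw [hrel]; group
    rw [this]
    group
  refine ⟨p, ?_, hp.2, hrel⟩
  rw [h1]
  refine I.mul_mem ?_ h.tame.τI
  have := hIn.conj_mem _ (I.inv_mem (I.pow_mem h.tame.τI l)) σ⁻¹
  rwa [inv_inv] at this

theorem eps_pow (h : TR S χ a σ τ l I iv A ε) (i : ℕ) : ε (τ ^ i) = (i : ZMod 2) := by
  induction i with
  | zero =>
    have := h.eadd 1 1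
    rw [mul_one] at this
    rw [pow_zero, Nat.cast_zero]
    exact left_eq_add.1 this
  | succ i ih => rw [pow_succ, h.eadd, ih, h.eτ, Nat.cast_succ]

private theorem y_one {y : D → Fin n → F} (hy : Z1 S (KT.act A) y) : y 1 = 0 := by
  have := hy.2 1 1
  rw [mul_one, KT.act, map_one, one_mulVec] at this
  exact left_eq_add.1 this

theorem y_pow {y : D → Fin n → F} (hy : Z1 S (KT.act A) y) (i : ℕ) :
    y (τ ^ i) = (∑ k ∈ Finset.range i, A τ ^ k) *ᵥ y τ := by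
  induction i with
  | zero => rw [pow_zero, y_one hy, Finset.sum_range_zero, zero_mulVec]
  | succ i ih =>
    rw [pow_succ, hy.2, KT.act, ih, Finset.sum_range_succ, add_mulVec, map_pow]

private theorem eps_one (h : TR S χ a σ τ l I iv A ε) : ε 1 = 0 := by
  have := eps_pow h 0
  rwa [pow_zero, Nat.cast_zero] at this

private theorem a_one (h : TR S χ a σ τ l I iv A ε) {q : (D → Fin n → F) × (D → Fin n → F)}
    (hq : ZP S A ε q) : q.1 1 = 0 := by
  have := hq.2.2 1 1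
  rw [mul_one, map_one, one_mulVec, eps_one h, zero_smul, add_zero] at this
  exact left_eq_add.1 this

theorem a_pow (h : TR S χ a σ τ l I iv A ε) {q : (D → Fin n → F) × (D → Fin n → F)}
    (hq : ZP S A ε q) (i : ℕ) :
    q.1 (τ ^ i) = (∑ k ∈ Finset.range i, A τ ^ k) *ᵥ q.1 τ +
      (∑ k ∈ Finset.range i, if Odd k then A τ ^ k else 0) *ᵥ q.2 τ := by
  induction i with
  | zero =>
    rw [pow_zero, a_one h hq, Finset.sum_range_zero, Finset.sum_range_zero, zero_mulVec,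
      zero_mulVec, add_zero]
  | succ i ih =>
    rw [pow_succ, hq.2.2, ih, Finset.sum_range_succ, Finset.sum_range_succ, add_mulVec, add_mulVec,
      map_pow, eps_pow h]
    rcases Nat.even_or_odd i with hi | hi
    · rw [if_neg (Nat.not_odd_iff_even.2 hi), zero_mulVec, (ZMod.natCast_eq_zero_iff_even).2 hi,
        zero_smul]
      abel
    · rw [if_pos hi, (ZMod.natCast_eq_one_iff_odd).2 hi, one_smul]
      abel

theorem rel_y (h : TR S χ a σ τ l I iv A ε) {y : D → Fin n → F} (hy : Z1 S (KT.act A) y) :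
    y σ + A σ *ᵥ y τ = (∑ k ∈ Finset.range l, A τ ^ k) *ᵥ y τ + A τ ^ l *ᵥ y σ := by
  obtain ⟨p, hp1, hp2, hrel⟩ := relI h
  have h1 := congrArg y hrel
  rw [y_mulP h hy _ hp1 hp2, hy.2, hy.2, KT.act, KT.act, y_pow hy, map_pow] at h1
  exact h1

theorem rel_a (h : TR S χ a σ τ l I iv A ε) {q : (D → Fin n → F) × (D → Fin n → F)}
    (hq : ZP S A ε q) : q.1 σ + A σ *ᵥ q.1 τ = q.1 (τ ^ l) + A τ ^ l *ᵥ (q.1 σ + q.2 σ) := by
  obtain ⟨p, hp1, hp2, hrel⟩ := relI h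
  have h1 := congrArg q.1 hrel
  rw [a_mulP h hq _ hp1 hp2, hq.2.2, hq.2.2, h.eσ, zero_smul, add_zero, map_pow, eps_pow h,
    (ZMod.natCast_eq_one_iff_odd).2 h.tame.lodd, one_smul, add_assoc, ← mulVec_add] at h1
  exact h1

theorem a_two (h : TR S χ a σ τ l I iv A ε) {q : (D → Fin n → F) × (D → Fin n → F)}
    (hq : ZP S A ε q) : q.1 (τ * τ) = q.1 τ + A τ *ᵥ q.1 τ + A τ *ᵥ q.2 τ := by
  rw [hq.2.2, h.eτ, one_smul]

private theorem x_pow (h : TR S χ a σ τ l I iv A ε) (k : ℕ) : A τ ^ (4 * k) = 1 := by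
  rw [pow_mul, h.x4, one_pow]

private theorem M_add_self (M : Matrix (Fin n) (Fin n) F) : M + M = 0 := by
  ext i j
  exact CharTwo.add_self_eq_zero _

private theorem sum_sq (h : TR S χ a σ τ l I iv A ε) (j : ℕ) :
    ∑ k ∈ Finset.range (2 * j + 1), (A τ ^ 2) ^ k = A τ ^ (2 * j) := by
  induction j with
  | zero => simp
  | succ j ih =>
    have e : 2 * (j + 1) + 1 = (2 * j + 1) + 1 + 1 := by ring
    rw [e, Finset.sum_range_succ, Finset.sum_range_succ, ih]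
    have e1 : (A τ ^ 2) ^ (2 * j + 1) = A τ ^ 2 := by
      rw [pow_succ, ← pow_mul, show 2 * (2 * j) = 4 * j by ring, x_pow h, one_mul]
    have e2 : (A τ ^ 2) ^ (2 * j + 1 + 1) = 1 := by
      rw [pow_succ, e1, ← pow_add]
      exact h.x4
    rw [e1, e2]
    rcases Nat.even_or_odd' j with ⟨i, rfl | rfl⟩
    · have e3 : A τ ^ (2 * (2 * i)) = 1 := by
        rw [show 2 * (2 * i) = 4 * i by ring, x_pow h]
      have e4 : A τ ^ (2 * (2 * i + 1)) = A τ ^ 2 := by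
        rw [show 2 * (2 * i + 1) = 4 * i + 2 by ring, pow_add, x_pow h, one_mul]
      rw [e3, e4, add_right_comm, M_add_self, zero_add]
    · have e3 : A τ ^ (2 * (2 * i + 1)) = A τ ^ 2 := by
        rw [show 2 * (2 * i + 1) = 4 * i + 2 by ring, pow_add, x_pow h, one_mul]
      have e4 : A τ ^ (2 * (2 * i + 1 + 1)) = 1 := by
        rw [show 2 * (2 * i + 1 + 1) = 4 * (i + 1) by ring, x_pow h]
      rw [e3, e4, M_add_self, zero_add]

private theorem a_gpow (h : TR S χ a σ τ l I iv A ε) {q : (D → Fin n → F) × (D → Fin n → F)}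
    (hq : ZP S A ε q) (k : ℕ) :
    q.1 ((τ * τ) ^ k) = (∑ i ∈ Finset.range k, (A τ ^ 2) ^ i) *ᵥ q.1 (τ * τ) := by
  induction k with
  | zero => rw [pow_zero, a_one h hq, Finset.sum_range_zero, zero_mulVec]
  | succ k ih =>
    have e0 : ε ((τ * τ) ^ k) = 0 := by
      rw [← pow_two, ← pow_mul, eps_pow h, (ZMod.natCast_eq_zero_iff_even).2 (even_two_mul k)]
    have hA2 : A (τ * τ) = A τ ^ 2 := by rw [map_mul, pow_two]
    rw [pow_succ, hq.2.2, ih, e0, zero_smul, add_zero, Finset.sum_range_succ, add_mulVec, map_pow,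
      hA2]

theorem rel_uv (h : TR S χ a σ τ l I iv A ε) {q : (D → Fin n → F) × (D → Fin n → F)}
    (hq : ZP S A ε q) : q.1 σ + A τ ^ 2 *ᵥ q.1 σ =
      A σ *ᵥ q.1 (τ * τ) + A τ ^ (2 * (l / 2)) *ᵥ q.1 (τ * τ) := by
  obtain ⟨p, hp1, hp2, hrel⟩ := relI h
  have hPn := h.tame.P_normal
  have hp : p ∈ h.tame.P := (pmem h hp1 hp2).1
  have hp' : τ⁻¹ * p * τ ∈ h.tame.P := by
    have := hPn.conj_mem p hp τ⁻¹
    rwa [inv_inv] at this
  have hpp0 : p * (τ⁻¹ * p * τ) ∈ h.tame.P := h.tame.P.mul_mem hp hp'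
  have hpp1 : p * (τ⁻¹ * p * τ) ∈ I :=
    I.mul_mem hp1 (I.mul_mem (I.mul_mem (I.inv_mem h.tame.τI) hp1) h.tame.τI)
  have hrel2 : σ * (τ * τ) = (τ * τ) ^ l * σ * (p * (τ⁻¹ * p * τ)) := by
    have e1 : σ * (τ * τ) = (σ * τ) * τ := (mul_assoc _ _ _).symm
    have e2 : (τ * τ) ^ l = τ ^ l * τ ^ l := by
      rw [← pow_two, ← pow_mul, two_mul, pow_add]
    rw [e1, hrel, e2]
    have e3 : τ ^ l * σ * p * τ = τ ^ l * (σ * τ) * (τ⁻¹ * p * τ) := by group
    rw [e3, hrel]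
    group
  have h1 := congrArg q.1 hrel2
  have e0 : ε ((τ * τ) ^ l) = 0 := by
    rw [← pow_two, ← pow_mul, eps_pow h, (ZMod.natCast_eq_zero_iff_even).2 (even_two_mul l)]
  obtain ⟨j, hj⟩ := h.tame.lodd
  have hlj : l / 2 = j := by omega
  have hA2 : A (τ * τ) = A τ ^ 2 := by rw [map_mul, pow_two]
  rw [a_mulP h hq _ hpp1 hpp0.2, hq.2.2 σ (τ * τ), hq.2.2 ((τ * τ) ^ l) σ, h.eσ, e0, zero_smul,
    zero_smul, add_zero, add_zero, a_gpow h hq, map_pow, hA2] at h1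
  have e5 : ∑ i ∈ Finset.range l, (A τ ^ 2) ^ i = A τ ^ (2 * j) := by
    rw [hj]
    exact sum_sq h j
  have e6 : (A τ ^ 2) ^ l = A τ ^ 2 := by
    rw [hj, pow_succ, ← pow_mul, show 2 * (2 * j) = 4 * j by ring, x_pow h, one_mul]
  rw [e5, e6] at h1
  rw [hlj]
  have h2 := U_add_self (A σ *ᵥ q.1 (τ * τ))
  have h3 := U_add_self (A τ ^ 2 *ᵥ q.1 σ)
  calc q.1 σ + A τ ^ 2 *ᵥ q.1 σ
      = (q.1 σ + A σ *ᵥ q.1 (τ * τ)) + A τ ^ 2 *ᵥ q.1 σ + A σ *ᵥ q.1 (τ * τ) := by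
        rw [add_right_comm (q.1 σ), add_assoc (q.1 σ + A τ ^ 2 *ᵥ q.1 σ), h2, add_zero]
    _ = A σ *ᵥ q.1 (τ * τ) + A τ ^ (2 * j) *ᵥ q.1 (τ * τ) := by
        rw [h1, add_assoc (A τ ^ (2 * j) *ᵥ q.1 (τ * τ)), h3, add_zero, add_comm]

/-- the relation between the matrices -/
theorem rel_A (h : TR S χ a σ τ l I iv A ε) : A σ * A τ = A τ ^ l * A σ := by
  obtain ⟨p, hp1, hp2, hrel⟩ := relI h
  have h1 := congrArg A hrel
  rw [map_mul, map_mul, map_mul, map_pow, A_P h hp1 hp2, mul_one] at h1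
  exact h1

private theorem zq_inv {q : (D → Fin n → F) × (D → Fin n → F)}
    {g k w w' : D} (hA : ∀ m, A (g * w) *ᵥ m = A g *ᵥ m)
    (hg1 : q.1 (g * w) = q.1 g) (hk1 : q.1 (k * w') = q.1 k) (hk2 : q.2 (k * w') = q.2 k)
    (he : ε (g * w) = ε g) : zq A ε q (g * w) (k * w') = zq A ε q g k := by
  simp only [zq, hA, hg1, hk1, hk2, he]

/-- the cochain `zq` of a pair is a 2-cocycle -/
theorem zq_coc (h : TR S χ a σ τ l I iv A ε) {q : (D → Fin n → F) × (D → Fin n → F)}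
    (hq : ZP S A ε q) : Sm2 S (zq A ε q) ∧
      (∀ g k m, zq A ε q g k + zq A ε q (g * k) m = zq A ε q k m + zq A ε q g (k * m)) ∧
      (∀ g k p, p ∈ I → a p = 0 → zq A ε q (g * p) k = zq A ε q g k) ∧
      ∀ g k p, p ∈ I → a p = 0 → zq A ε q g (k * p) = zq A ε q g k := by
  refine ⟨?_, ?_, ?_, ?_⟩
  · obtain ⟨W1, hW1, h1⟩ := hq.2.1
    obtain ⟨W2, hW2, h2⟩ := hq.1.1
    obtain ⟨W3, hW3, h3⟩ := h.esm
    obtain ⟨W4, hW4, h4⟩ := h.sm
    refine ⟨W1 ⊓ W2 ⊓ (W3 ⊓ W4), S.inf (S.inf hW1 hW2) (S.inf hW3 hW4), ?_⟩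
    rintro g k w ⟨⟨hw1, hw2⟩, hw3, hw4⟩ w' ⟨⟨hw1', hw2'⟩, -, -⟩
    refine zq_inv (fun m => ?_) (h1 g w hw1) (h1 k w' hw1') (h2 k w' hw2') (h3 g w hw3)
    have e := h4 w hw4 m
    rw [KT.act] at e
    rw [map_mul, ← mulVec_mulVec, e]
  · intro g k m
    have hy : ∀ s t, q.2 (s * t) = q.2 s + A s *ᵥ q.2 t := hq.1.2
    have ha : ∀ s t, q.1 (s * t) = q.1 s + A s *ᵥ q.1 t + ε s • (A s *ᵥ q.2 t) := hq.2.2
    have hsm : ∀ (c : ZMod 2) (v : Fin n → F), c • v = algebraMap (ZMod 2) F c • v := fun c v => by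
      rw [algebraMap_smul]
    have hsm' : ∀ (c : ZMod 2) (v : F), c • v = algebraMap (ZMod 2) F c * v := fun c v =>
      Algebra.smul_def c v
    have hsq : ∀ c : ZMod 2, algebraMap (ZMod 2) F c * algebraMap (ZMod 2) F c =
        algebraMap (ZMod 2) F c := fun c => by
      rw [← map_mul]
      congr 1
      revert c
      decide
    have h2 : (2 : F) = 0 := CharTwo.two_eq_zero
    simp only [zq, hsm', ha, hy, h.eadd, map_add, map_mul, hsm, mulVec_add, mulVec_smul,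
      ee_add_left, ee_add_right, ee_smul_left, ee_smul_right, ← mulVec_mulVec, ee_mulVec (h.sp g),
      ee_mulVec (h.sp k)]
    rw [ee_comm (A k *ᵥ q.1 m) (q.2 k), ee_comm (A k *ᵥ q.2 m) (q.2 k), ee_self]
    have hg := hsq (ε g)
    generalize algebraMap (ZMod 2) F (ε g) = x at *
    generalize algebraMap (ZMod 2) F (ε k) = z at *
    linear_combination ee (q.2 k) (A k *ᵥ q.2 m) * hg +
      (x * ee (q.2 k) (A k *ᵥ q.2 m)) * h2
  · intro g k p h1 h2
    have e := zq_inv (w' := 1) (k := k) (A := A) (ε := ε) (q := q) (g := g) (w := p) (fun m => ?_)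
      (a_mulP h hq g h1 h2) (by rw [mul_one]) (by rw [mul_one]) ?_
    · rwa [mul_one] at e
    · rw [map_mul, A_P h h1 h2, mul_one]
    · rw [h.eadd, eps_P h (h.tame.Iχ p h1) h2, add_zero]
  · intro g k p h1 h2
    have e := zq_inv (w' := p) (k := k) (A := A) (ε := ε) (q := q) (g := g) (w := 1) (fun m => by rw [mul_one])
      (by rw [mul_one]) (a_mulP h hq k h1 h2) (y_mulP h hq.1 k h1 h2) (by rw [mul_one])
    rwa [mul_one] at e

/-- a cocycle is determined by its values at the generators -/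
theorem y_det (h : TR S χ a σ τ l I iv A ε) {y : D → Fin n → F} (hy : Z1 S (KT.act A) y)
    (h1 : y σ = 0) (h2 : y τ = 0) : y = 0 := by
  obtain ⟨W1, hW1, hyW⟩ := hy.1
  obtain ⟨W2, hW2, hs⟩ := h.sm
  obtain ⟨W, hWd⟩ : ∃ W, W = W1 ⊓ W2 := ⟨_, rfl⟩
  have hW : S.mem W := by rw [hWd]; exact S.inf hW1 hW2
  have hWn := S.normal hW
  have hyW' : ∀ g, ∀ w ∈ W, y (g * w) = y g := fun g w hw => hyW g w (by rw [hWd] at hw; exact hw.1)
  have hAW : ∀ w ∈ W, A w = 1 := fun w hw => mat_one (hs w (by rw [hWd] at hw; exact hw.2))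
  have hpow0 : ∀ g, y g = 0 → ∀ k : ℕ, y (g ^ k) = 0 := by
    intro g hg k
    induction k with
    | zero => rw [pow_zero, y_one hy]
    | succ k ih => rw [pow_succ, hy.2, ih, hg, KT.act, mulVec_zero, add_zero]
  have hI : ∀ g ∈ I, y g = 0 := by
    intro g hg
    obtain ⟨N, hN⟩ := h.tame.sep W hW
    obtain ⟨j, hj⟩ := GP.g1_nat (a g) (N + 1)
    obtain ⟨g', hg'⟩ : ∃ g', g' = (τ ^ j)⁻¹ * g := ⟨_, rfl⟩
    have e1 : τ ^ j * g' = g := by
      rw [hg']
      exact mul_inv_cancel_left _ _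
    have hgI : g' ∈ I := by
      rw [hg']
      exact I.mul_mem (I.inv_mem (I.pow_mem h.tame.τI j)) hg
    have e2 : a g' = a g - j := by
      have e := congrArg a e1
      rw [h.tame.coc, (h.tame.tau_pow j).1, (h.tame.tau_pow j).2, one_mul] at e
      linear_combination e
    obtain ⟨p, hp1, hp2, hp3⟩ := hN g' (by
      rw [h.tame.Iχ g' hgI, sub_self]
      exact dvd_zero _) (by
      rw [e2]
      exact (pow_dvd_pow _ (Nat.le_succ N)).trans hj)
    obtain ⟨r, hro, hr⟩ := odd_pow h.tame hW (p := p) ⟨hp1, hp2⟩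
    have h4 : g' ^ r ∈ W := by
      have h5 : ((g' : D) : D ⧸ W) = ((p : D) : D ⧸ W) := (QuotientGroup.eq.2 hp3).symm
      have h6 : ((g' ^ r : D) : D ⧸ W) = ((p ^ r : D) : D ⧸ W) := by
        rw [QuotientGroup.mk_pow, QuotientGroup.mk_pow, h5]
      rw [(QuotientGroup.eq_one_iff _).2 hr] at h6
      exact (QuotientGroup.eq_one_iff _).1 h6
    have hA1 : A g' = 1 := one_of_odd hro (by rw [← map_pow]; exact hAW _ h4) (h.i4 g' hgI)
    have hpow : ∀ k : ℕ, y (g' ^ k) = k • y g' := by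
      intro k
      induction k with
      | zero => rw [pow_zero, y_one hy, zero_smul]
      | succ k ih =>
        rw [pow_succ, hy.2, ih, KT.act, map_pow, hA1, one_pow, one_mulVec, add_smul, one_smul]
    have h5 : y g' = 0 := by
      have h6 := hyW' 1 _ h4
      obtain ⟨k, hk⟩ := hro
      rw [one_mul, y_one hy, hpow, hk, add_smul, one_smul, mul_comm, mul_smul, two_smul,
        U_add_self, smul_zero, zero_add] at h6
      exact h6
    rw [← e1, hy.2, h5, KT.act, mulVec_zero, add_zero, hpow0 τ h2]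
  funext g
  obtain ⟨i, m, hm, hw⟩ := h.tame.frob g W hW
  have e : g = σ ^ i * m * ((σ ^ i * m)⁻¹ * g) := (mul_inv_cancel_left _ _).symm
  rw [e, hyW' _ _ hw, hy.2, hpow0 σ h1, hI m hm, KT.act, mulVec_zero, add_zero]
  rfl

/-- a vector fixed by the generators is fixed -/
theorem fix_gen (h : TR S χ a σ τ l I iv A ε) {v : Fin n → F} (h1 : A σ *ᵥ v = v)
    (h2 : A τ *ᵥ v = v) (g : D) : A g *ᵥ v = v := by
  have hy : Z1 S (KT.act (A : D → Matrix (Fin n) (Fin n) F)) (fun d => A d *ᵥ v + v) := by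
    refine ⟨?_, fun s t => ?_⟩
    · obtain ⟨W, hW, hs⟩ := h.sm
      refine ⟨W, hW, fun d w hw => ?_⟩
      have e := hs w hw v
      rw [KT.act] at e
      show A (d * w) *ᵥ v + v = A d *ᵥ v + v
      rw [map_mul, ← mulVec_mulVec, e]
    · show A (s * t) *ᵥ v + v = A s *ᵥ v + v + A s *ᵥ (A t *ᵥ v + v)
      rw [map_mul, ← mulVec_mulVec, mulVec_add]
      have := U_add_self (A s *ᵥ v)
      calc A s *ᵥ A t *ᵥ v + v = (A s *ᵥ v + A s *ᵥ v) + (A s *ᵥ A t *ᵥ v + v) := by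
            rw [this, zero_add]
        _ = A s *ᵥ v + v + (A s *ᵥ A t *ᵥ v + A s *ᵥ v) := by abel
  have h3 := y_det h hy (by
    show A σ *ᵥ v + v = 0
    rw [h1, U_add_self]) (by
    show A τ *ᵥ v + v = 0
    rw [h2, U_add_self])
  have h4 : A g *ᵥ v + v = 0 := congrFun h3 g
  have h5 := U_add_self v
  calc A g *ᵥ v = A g *ᵥ v + v + v := by rw [add_assoc, h5, add_zero]
    _ = v := by rw [h4, zero_add]

end Pool.Agent.Work.MP_787500_nt.ER
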