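import Mathlib
import Pool.Agent.Work.MP_787500_nt.ER.PTriv
import Pool.Agent.Work.MP_787500_nt.QL.CountL
import Pool.Agent.Work.MP_787500_nt.QL.Lag

/-!
# ER/Gen (size M): generators

* `ker_gv`: a pair `q = (a, y)` with `a σ = 0` and `a (τ τ) = 0` is the coboundary of `(0, b)`, `b = X⁻¹ a τ`. PROOF. Subtract it:
  `a τ = 0` now (and `a σ`, `a (τ τ)` are unchanged because `ε σ = 0`, `ε (τ τ) = 0`: `a σ = ε σ • .. = 0`). `a_two`: `X y τ = 0`, `y τ = 0`.
  `a_pow`: `a (τ ^ l) = 0`; `rel_a`: `X ^ l y σ = 0`, `y σ = 0`. So `y` is 0 (`y_det` in ER/PTriv), then `a` is a cocycle (`IsLift` with `y = 0`) and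
  `a σ = a τ = 0`: `a = 0`.
* `finrank_map`: `dim L = n + dim (L.map gv)`: the kernel of `gv` on `L` is the space of the coboundaries of `(0, b)` (`hL.cob`), `b ↦` it
  is injective (value at `τ`: `ε τ = 1`, `A τ` invertible).
* `finrank_coc`: `dim Z¹(D, U) = n + dim U^D`: `QL.h1_eq`, `QL.card_b1s`, `KR.card_z1s` (all cards are powers of `|F|`) for the pair
  `pair_BU h.loc.char h.sp h.sm`.
* `exists_coc`: THE RELATION IS SUFFICIENT: `r ↦ (r σ, r τ)` from `Z¹(D, U)` to the kernel of `f (u, v) = u + X ^ l u + S v + (∑ X ^ k) v` is injective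
  (`y_det` in ER/PTriv); `dim ker f = 2 n - dim range f`; the orthogonal of `range f` for `ee` is `U^D` (`m` orthogonal to `u + X ^ l u` for all `u`:
  `X ^ l m = m` so `X m = m` (`l` odd, `X⁴ = 1`); then orthogonal to `S v + ∑ X ^ k v`: `S⁻¹ m = m` because `l` is odd; `fix_gen` in ER/PTriv), so `dim ker f = n + dim U^D = dim Z¹`.
-/

set_option autoImplicit false
set_option linter.unusedSectionVars false

namespace Pool.Agent.Work.MP_787500_nt.ER

open Matrix
open Pool.Agent.Work.MP_787500_nt.GP (A0 hf hf_add hf_zero hf_two hf_neg smul_hf eq_hf hf_inj IsAct d0 d1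
  d2 tw cup11 cup02)
open Pool.Agent.Work.MP_787500_nt.KR (FSys Sm1 Sm2 IsChar Smooth Z1 Z2 B2 LocH Pair LDual z1s b1s)
open Pool.Agent.Work.MP_787500_nt.KT hiding Str Rel Sel KH Ai IsP cc ff TT
open Pool.Agent.Work.MP_787500_nt.KS (hfT hfT_apply hfT_sq hfT_two hfT_neg smul_hfT hfT_nondeg
  inv_zero smul_F dF1 rt rt_sq zmod2_cases ep)
open Pool.Agent.Work.MP_787500_nt.QL (TameF fixP fixG)
open Pool.Agent.Work.MP_787500_nt.KI (Y2 R1 LKr LVal)

variable {F : Type*} [Field F] [Finite F] [CharP F 2] [Algebra (ZMod 2) F] {n : ℕ} [Sy F n]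
  {D : Type*} [Group D] {S : FSys D} {χ a : D → ℤ_[2]} {σ τ : D} {l : ℕ} {I : Subgroup D}
  {iv : (D → D → A0) → A0} {A : D →* Matrix (Fin n) (Fin n) F} {ε : D → ZMod 2}
  {L : Submodule F ((D → Fin n → F) × (D → Fin n → F))}

/-! ### auxiliary statements -/

private theorem gen_det (h : TR S χ a σ τ l I iv A ε) {y : D → Fin n → F} (hy : Z1 S (KT.act A) y)
    (h1 : y σ = 0) (h2 : y τ = 0) : y = 0 := y_det h hy h1 h2

private theorem gen_cob (h : TR S χ a σ τ l I iv A ε) (b : Fin n → F) :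
    ZP S A ε (fun d => ε d • (A d *ᵥ b), fun d => A d *ᵥ b + b) := by
  obtain ⟨W, hW, hs⟩ := h.sm
  obtain ⟨W', hW', he⟩ := h.esm
  have hAw : ∀ g, ∀ w ∈ W, A (g * w) *ᵥ b = A g *ᵥ b := by
    intro g w hw
    have e : A w *ᵥ b = b := hs w hw b
    rw [map_mul, ← mulVec_mulVec, e]
  refine ⟨⟨⟨W, hW, fun g w hw => ?_⟩, fun g k => ?_⟩, ⟨W ⊓ W', S.inf hW hW', fun g w hw => ?_⟩,
    fun g k => ?_⟩
  · show A (g * w) *ᵥ b + b = A g *ᵥ b + b
    rw [hAw g w hw]
  · show A (g * k) *ᵥ b + b = A g *ᵥ b + b + A g *ᵥ (A k *ᵥ b + b)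
    rw [map_mul, mulVec_add, mulVec_mulVec]
    have := U_add_self (F := F) (A g *ᵥ b)
    calc (A g * A k) *ᵥ b + b = (A g * A k) *ᵥ b + b + (A g *ᵥ b + A g *ᵥ b) := by rw [this, add_zero]
      _ = _ := by abel
  · show ε (g * w) • (A (g * w) *ᵥ b) = ε g • (A g *ᵥ b)
    rw [he g w hw.2, hAw g w hw.1]
  · show ε (g * k) • (A (g * k) *ᵥ b) = ε g • (A g *ᵥ b) + A g *ᵥ (ε k • (A k *ᵥ b)) +
      ε g • (A g *ᵥ (A k *ᵥ b + b))
    rw [h.eadd, map_mul, ← mulVec_mulVec, mulVec_add, smul_add, add_smul, KT.smul_U (ε k), KT.smul_U (ε k),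
      mulVec_smul]
    have := U_add_self (F := F) (ε g • (A g *ᵥ b))
    calc ε g • (A g *ᵥ (A k *ᵥ b)) + algebraMap (ZMod 2) F (ε k) • (A g *ᵥ (A k *ᵥ b))
        = ε g • (A g *ᵥ (A k *ᵥ b)) + algebraMap (ZMod 2) F (ε k) • (A g *ᵥ (A k *ᵥ b)) +
          (ε g • (A g *ᵥ b) + ε g • (A g *ᵥ b)) := by rw [this, add_zero]
      _ = _ := by abel

private theorem gen_add (h : TR S χ a σ τ l I iv A ε) {q q' : (D → Fin n → F) × (D → Fin n → F)}
    (hq : ZP S A ε q) (hq' : ZP S A ε q') : ZP S A ε (q + q') := by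
  obtain ⟨h1, ⟨W, hW, h2⟩, h3⟩ := hq
  obtain ⟨h1', ⟨W', hW', h2'⟩, h3'⟩ := hq'
  refine ⟨(cocS S (A : D → Matrix (Fin n) (Fin n) F)).add_mem h1 h1',
    ⟨W ⊓ W', S.inf hW hW', fun g w hw => ?_⟩, fun g k => ?_⟩
  · show q.1 (g * w) + q'.1 (g * w) = q.1 g + q'.1 g
    rw [h2 g w hw.1, h2' g w hw.2]
  · show q.1 (g * k) + q'.1 (g * k) = q.1 g + q'.1 g + A g *ᵥ (q.1 k + q'.1 k) +
      ε g • (A g *ᵥ (q.2 k + q'.2 k))
    rw [h3, h3', mulVec_add, mulVec_add, smul_add]
    abel

private theorem gen_tau (h : TR S χ a σ τ l I iv A ε) (x : Fin n → F) : A τ *ᵥ ((A τ ^ 3) *ᵥ x) = x := by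
  rw [mulVec_mulVec, ← pow_succ', h.x4, one_mulVec]

private theorem gen_inj (h : TR S χ a σ τ l I iv A ε) {x : Fin n → F} (hx : A τ *ᵥ x = 0) : x = 0 :=
  sp_inj (h.sp τ) hx

private theorem gen_fin (h : TR S χ a σ τ l I iv A ε) :
    Finite (cocS S (A : D → Matrix (Fin n) (Fin n) F)) := h.ld.fin

private theorem gen_fixG (h : TR S χ a σ τ l I iv A ε) :
    Nat.card (QL.fixG (KT.isAct_act A)) = Nat.card (QP.fixG A) :=
  Nat.card_congr ⟨fun m => ⟨m.1, m.2⟩, fun m => ⟨m.1, m.2⟩, fun _ => rfl, fun _ => rfl⟩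

private theorem gen_odd (h : TR S χ a σ τ l I iv A ε) (x : F) : (l : ℕ) • x = x := by
  obtain ⟨k, hk⟩ := h.tame.lodd
  rw [hk, add_smul, one_smul, mul_smul, two_smul, add_self, zero_add]

theorem ker_gv (h : TR S χ a σ τ l I iv A ε) {q : (D → Fin n → F) × (D → Fin n → F)}
    (hq : ZP S A ε q) (h0 : gv σ τ q = 0) :
    ∃ b : Fin n → F, q = (fun d => ε d • (A d *ᵥ b), fun d => A d *ᵥ b + b) := by
  set b : Fin n → F := (A τ ^ 3) *ᵥ q.1 τ with hb
  have hc := gen_cob h b
  set c : (D → Fin n → F) × (D → Fin n → F) := (fun d => ε d • (A d *ᵥ b), fun d => A d *ᵥ b + b) with hcd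
  have hs := gen_add h hq hc
  have h0' : q.1 σ = 0 ∧ q.1 (τ * τ) = 0 := by
    rw [gv_apply] at h0
    exact ⟨congrArg Prod.fst h0, congrArg Prod.snd h0⟩
  have ett : ε (τ * τ) = 0 := by rw [h.eadd, h.eτ]; decide
  have c1 : c.1 σ = 0 := by show ε σ • _ = _; rw [h.eσ, zero_smul]
  have c2 : c.1 (τ * τ) = 0 := by show ε (τ * τ) • _ = _; rw [ett, zero_smul]
  have c3 : c.1 τ = q.1 τ := by
    show ε τ • (A τ *ᵥ b) = _
    rw [h.eτ, one_smul, hb, gen_tau h]
  have s1 : (q + c).1 σ = 0 := by show q.1 σ + c.1 σ = 0; rw [h0'.1, c1, add_zero]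
  have s2 : (q + c).1 (τ * τ) = 0 := by show q.1 (τ * τ) + c.1 (τ * τ) = 0; rw [h0'.2, c2, add_zero]
  have s3 : (q + c).1 τ = 0 := by show q.1 τ + c.1 τ = 0; rw [c3, U_add_self]
  have y1 : (q + c).2 τ = 0 := by
    have e := a_two h hs
    rw [s2, s3, mulVec_zero, zero_add, zero_add] at e
    exact gen_inj h e.symm
  have a1 : (q + c).1 (τ ^ l) = 0 := by
    rw [a_pow h hs, s3, y1, mulVec_zero, mulVec_zero, add_zero]
  have y2 : (q + c).2 σ = 0 := by
    have e := rel_a h hs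
    rw [s1, s3, a1, mulVec_zero, zero_add, zero_add, zero_add] at e
    exact sp_inj (isSp_pow (h.sp τ) l) e.symm
  have y0 : (q + c).2 = 0 := gen_det h hs.1 y2 y1
  have a0 : Z1 S (KT.act A) (q + c).1 := by
    refine ⟨hs.2.1, fun g k => ?_⟩
    have e := hs.2.2 g k
    rw [y0] at e
    rw [e]
    show _ + _ + ε g • (A g *ᵥ 0) = _ + _
    rw [mulVec_zero, smul_zero, add_zero]
    rfl
  have a00 : (q + c).1 = 0 := gen_det h a0 s1 s3
  refine ⟨b, ?_⟩
  have e1 : q.1 = c.1 := by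
    funext d
    have e : q.1 d + c.1 d = 0 := congrFun a00 d
    exact (U_cancel e).trans (add_zero _)
  have e2 : q.2 = c.2 := by
    funext d
    have e : q.2 d + c.2 d = 0 := congrFun y0 d
    exact (U_cancel e).trans (add_zero _)
  exact Prod.ext e1 e2

theorem finrank_map (h : TR S χ a σ τ l I iv A ε) (hL : LR S iv A ε L) :
    Module.finrank F L = n + Module.finrank F (L.map (gv σ τ)) := by
  have hfin : Module.Finite F L := by
    rcases Nat.eq_zero_or_pos n with h0 | h0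
    · have hE : IsEmpty (Fin n) := by rw [h0]; exact Fin.isEmpty
      have hsub : Subsingleton ((D → Fin n → F) × (D → Fin n → F)) := inferInstance
      exact Module.Finite.of_surjective (0 : F →ₗ[F] L) fun x => ⟨0, Subsingleton.elim _ _⟩
    · exact Module.finite_of_finrank_pos (by rw [hL.dim]; omega)
  let f : L →ₗ[F] (Fin n → F) × (Fin n → F) := (gv σ τ).domRestrict L
  have hr : LinearMap.range f = L.map (gv σ τ) := LinearMap.range_domRestrict _ _
  have hmem : ∀ b : Fin n → F, ((fun d => ε d • (A d *ᵥ b), fun d => A d *ᵥ b + b) :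
      (D → Fin n → F) × (D → Fin n → F)) ∈ L := by
    intro b
    have e := hL.cob 0 b
    have e2 : (fun d => A d *ᵥ (0 + ε d • b) + 0) = fun d => ε d • (A d *ᵥ b) := by
      funext d
      rw [zero_add, add_zero, KT.smul_U (ε d), KT.smul_U (ε d), mulVec_smul]
    rw [e2] at e
    exact e
  let g : (Fin n → F) →ₗ[F] L :=
    { toFun := fun b => ⟨_, hmem b⟩
      map_add' := fun b b' => by
        apply Subtype.ext
        refine Prod.ext ?_ ?_
        · funext d
          show ε d • (A d *ᵥ (b + b')) = ε d • (A d *ᵥ b) + ε d • (A d *ᵥ b')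
          rw [mulVec_add, smul_add]
        · funext d
          show A d *ᵥ (b + b') + (b + b') = A d *ᵥ b + b + (A d *ᵥ b' + b')
          rw [mulVec_add]
          abel
      map_smul' := fun c b => by
        apply Subtype.ext
        refine Prod.ext ?_ ?_
        · funext d
          show ε d • (A d *ᵥ (c • b)) = c • (ε d • (A d *ᵥ b))
          rw [mulVec_smul, smul_comm]
        · funext d
          show A d *ᵥ (c • b) + c • b = c • (A d *ᵥ b + b)
          rw [mulVec_smul, smul_add] }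
  have hgi : Function.Injective g := by
    rw [injective_iff_map_eq_zero]
    intro b hb
    have e : ε τ • (A τ *ᵥ b) = 0 := congrFun (congrArg (fun x : L => x.1.1) hb) τ
    rw [h.eτ, one_smul] at e
    exact gen_inj h e
  have hgr : LinearMap.range g = LinearMap.ker f := by
    ext x
    constructor
    · rintro ⟨b, rfl⟩
      rw [LinearMap.mem_ker]
      show ((ε σ • (A σ *ᵥ b), ε (τ * τ) • (A (τ * τ) *ᵥ b)) : (Fin n → F) × (Fin n → F)) = 0
      have ett : ε (τ * τ) = 0 := by rw [h.eadd, h.eτ]; decide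
      rw [h.eσ, ett, zero_smul, zero_smul]
      rfl
    · intro hx
      rw [LinearMap.mem_ker] at hx
      obtain ⟨b, hb⟩ := ker_gv h (hL.lkr.coc x.1 x.2) hx
      exact ⟨b, Subtype.ext hb.symm⟩
  have e1 := LinearMap.finrank_range_add_finrank_ker f
  have e2 := LinearMap.finrank_range_of_inj hgi
  rw [hgr, Module.finrank_fin_fun] at e2
  rw [← e1, hr, e2, add_comm]

theorem finrank_coc (h : TR S χ a σ τ l I iv A ε) :
    Module.finrank F (cocS S (A : D → Matrix (Fin n) (Fin n) F)) =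
      n + Module.finrank F (QP.fixG A) := by
  have hfin := gen_fin h
  have hfinF : Module.Finite F (cocS S (A : D → Matrix (Fin n) (Fin n) F)) := Module.Finite.of_finite
  have hp := KT.pair_BU h.loc.char h.sp h.sm
  have e1 := QL.h1_eq h.tame h.loc hp h.ld
  have e2 := QL.card_b1s hp
  have e3 := KR.card_z1s hp
  have e4 : Nat.card (z1s S hp.act) = Nat.card (cocS S (A : D → Matrix (Fin n) (Fin n) F)) := rfl
  have e5 : Nat.card (QL.fixG hp.act) = Nat.card (QP.fixG A) := gen_fixG h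
  have e6 : Nat.card (QL.fixG hp.act') = Nat.card (QP.fixG A) := gen_fixG h
  rw [e1, e4, e5] at e3
  rw [e5] at e2
  have e7 : Nat.card (cocS S (A : D → Matrix (Fin n) (Fin n) F)) =
      Nat.card (Fin n → F) * Nat.card (QP.fixG A) := by
    rw [← e3, ← e2]
    ring
  rw [Module.natCard_eq_pow_finrank (K := F), Module.natCard_eq_pow_finrank (K := F) (V := Fin n → F),
    Module.natCard_eq_pow_finrank (K := F) (V := QP.fixG A), ← pow_add, Module.finrank_fin_fun] at e7
  exact Nat.pow_right_injective (Finite.one_lt_card (α := F)) e7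

theorem exists_coc (h : TR S χ a σ τ l I iv A ε) {u v : Fin n → F}
    (hr : u + A σ *ᵥ v = (∑ k ∈ Finset.range l, A τ ^ k) *ᵥ v + A τ ^ l *ᵥ u) :
    ∃ r, Z1 S (KT.act A) r ∧ r σ = u ∧ r τ = v := by
  have hfin := gen_fin h
  have hfinF : Module.Finite F (cocS S (A : D → Matrix (Fin n) (Fin n) F)) := Module.Finite.of_finite
  let T : Matrix (Fin n) (Fin n) F := ∑ k ∈ Finset.range l, A τ ^ k
  let f : (Fin n → F) × (Fin n → F) →ₗ[F] (Fin n → F) :=
    (LinearMap.id + mulVecLin (A τ ^ l)).coprod (mulVecLin (A σ) + mulVecLin T)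
  have hf : ∀ p : (Fin n → F) × (Fin n → F), f p = p.1 + A τ ^ l *ᵥ p.1 + (A σ *ᵥ p.2 + T *ᵥ p.2) :=
    fun p => rfl
  let ev : cocS S (A : D → Matrix (Fin n) (Fin n) F) →ₗ[F] (Fin n → F) × (Fin n → F) :=
    { toFun := fun r => (r.1 σ, r.1 τ)
      map_add' := fun _ _ => rfl
      map_smul' := fun _ _ => rfl }
  have hev : Function.Injective ev := by
    rw [injective_iff_map_eq_zero]
    intro r hr
    exact Subtype.ext (gen_det h r.2 (congrArg Prod.fst hr) (congrArg Prod.snd hr))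
  have hle : LinearMap.range ev ≤ LinearMap.ker f := by
    rintro _ ⟨r, rfl⟩
    rw [LinearMap.mem_ker, hf]
    have e := rel_y h r.2
    show r.1 σ + A τ ^ l *ᵥ r.1 σ + (A σ *ᵥ r.1 τ + T *ᵥ r.1 τ) = 0
    have e2 : r.1 σ + A τ ^ l *ᵥ r.1 σ + (A σ *ᵥ r.1 τ + T *ᵥ r.1 τ) =
        (r.1 σ + A σ *ᵥ r.1 τ) + (T *ᵥ r.1 τ + A τ ^ l *ᵥ r.1 σ) := by abel
    rw [e2, e]
    exact U_add_self _
  -- the annihilator of the range
  have hann : KS.ann (Sy.e : (Fin n → F) →ₗ[F] (Fin n → F) →ₗ[F] F) (LinearMap.range f) ≤ QP.fixG A := by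
    intro m hm
    rw [KS.mem_ann] at hm
    have hu : ∀ u : Fin n → F, ee m (A τ ^ l *ᵥ u) = ee m u := by
      intro u
      have e : ee m (f (u, 0)) = 0 := hm _ ⟨_, rfl⟩
      rw [hf] at e
      try dsimp only at e
      rw [mulVec_zero, mulVec_zero, add_zero, add_zero, ee_add_right] at e
      have e2 : ee m u = ee m (A τ ^ l *ᵥ u) := by
        have := congrArg (fun x => x + ee m (A τ ^ l *ᵥ u)) e
        try dsimp only at this
        rwa [add_assoc, add_self, add_zero, zero_add] at this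
      exact e2.symm
    have hl : A τ ^ l *ᵥ m = m := by
      have key : A τ ^ l *ᵥ m + m = 0 := by
        refine ee_nondeg fun w => ?_
        obtain ⟨u, rfl⟩ := sp_surj (isSp_pow (h.sp τ) l) w
        rw [ee_add_left, ee_mulVec (isSp_pow (h.sp τ) l), hu, add_self]
      exact (U_cancel key).trans (add_zero _)
    have hpw : ∀ k : ℕ, (A τ ^ l) ^ k *ᵥ m = m := by
      intro k
      induction k with
      | zero => rw [pow_zero, one_mulVec]
      | succ k ih => rw [pow_succ, ← mulVec_mulVec, hl, ih]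
    have hτ : A τ *ᵥ m = m := by
      have e := hpw l
      obtain ⟨k, hk⟩ := h.tame.lodd
      have e2 : (A τ ^ l) ^ l = A τ := by
        rw [← pow_mul]
        have e3 : l * l = 4 * (k * k + k) + 1 := by rw [hk]; ring
        rw [e3, pow_succ, pow_mul, h.x4, one_pow, one_mul]
      rwa [e2] at e
    have hτk : ∀ k : ℕ, A τ ^ k *ᵥ m = m := by
      intro k
      induction k with
      | zero => rw [pow_zero, one_mulVec]
      | succ k ih => rw [pow_succ, ← mulVec_mulVec, hτ, ih]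
    have hv : ∀ v : Fin n → F, ee m (A σ *ᵥ v) = ee m v := by
      intro v
      have e : ee m (f (0, v)) = 0 := hm _ ⟨_, rfl⟩
      rw [hf] at e
      try dsimp only at e
      rw [mulVec_zero, add_zero, zero_add, ee_add_right] at e
      have e1 : ee m (T *ᵥ v) = ee m v := by
        have e2 : T *ᵥ v = ∑ k ∈ Finset.range l, A τ ^ k *ᵥ v := by
          show (∑ k ∈ Finset.range l, A τ ^ k) *ᵥ v = _
          rw [Matrix.sum_mulVec]
        have e3 : ee m (T *ᵥ v) = ∑ k ∈ Finset.range l, ee m (A τ ^ k *ᵥ v) := by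
          rw [e2]
          exact map_sum (Sy.e m) _ _
        rw [e3, Finset.sum_congr rfl (g := fun _ => ee m v) fun k _ => ?_]
        · rw [Finset.sum_const, Finset.card_range]
          exact gen_odd h _
        · conv_lhs => rw [← hτk k]
          exact ee_mulVec (isSp_pow (h.sp τ) k) _ _
      rw [e1] at e
      have := congrArg (fun x => x + ee m v) e
      try dsimp only at this
      rwa [add_assoc, add_self, add_zero, zero_add] at this
    have hσ : A σ *ᵥ m = m := by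
      have key : A σ *ᵥ m + m = 0 := by
        refine ee_nondeg fun w => ?_
        obtain ⟨u, rfl⟩ := sp_surj (h.sp σ) w
        rw [ee_add_left, ee_mulVec (h.sp σ), hv, add_self]
      exact (U_cancel key).trans (add_zero _)
    rw [QP.mem_fixG]
    exact fix_gen h hσ hτ
  have hfd1 := Submodule.finrank_mono hann
  have hker : LinearMap.ker (Sy.e : (Fin n → F) →ₗ[F] (Fin n → F) →ₗ[F] F) = ⊥ := by
    rw [LinearMap.ker_eq_bot']
    intro m hm
    exact ee_nondeg fun y => by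
      show Sy.e m y = 0
      rw [hm]
      rfl
  have hfd2 := KS.finrank_ann (b := (Sy.e : (Fin n → F) →ₗ[F] (Fin n → F) →ₗ[F] F)) (fun x y => ee_comm x y)
    (N := LinearMap.range f) (by rw [hker]; exact bot_le)
  rw [hker, finrank_bot, Module.finrank_fin_fun, add_zero] at hfd2
  have hfd3 := LinearMap.finrank_range_add_finrank_ker f
  rw [Module.finrank_prod, Module.finrank_fin_fun] at hfd3
  have hfd4 := LinearMap.finrank_range_of_inj hev
  rw [finrank_coc h] at hfd4
  have heq : LinearMap.range ev = LinearMap.ker f := Submodule.eq_of_le_of_finrank_le hle (by omega)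
  have hmem : (u, v) ∈ LinearMap.ker f := by
    rw [LinearMap.mem_ker, hf]
    have e2 : u + A τ ^ l *ᵥ u + (A σ *ᵥ v + T *ᵥ v) = (u + A σ *ᵥ v) + (T *ᵥ v + A τ ^ l *ᵥ u) := by
      abel
    show u + A τ ^ l *ᵥ u + (A σ *ᵥ v + T *ᵥ v) = 0
    rw [e2, hr]
    exact U_add_self _
  rw [← heq] at hmem
  obtain ⟨r, hr'⟩ := hmem
  exact ⟨r.1, r.2, congrArg Prod.fst hr', congrArg Prod.snd hr'⟩

end Pool.Agent.Work.MP_787500_nt.ER
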