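import Mathlib
import Pool.Agent.Work.MP_787500_nt.ER.Iota
import Pool.Agent.Work.MP_787500_nt.ER.PTriv

/-!
# ER/QForm (size M-L): the quadratic function at the generators

`iv (zq q) = QX (gv q)` for every pair `q = (a, y)`.

PROOF. (1) `zq` depends on the class only: for `q' = q + (ε A b, (A - 1) b)` the cochains `zq q'` and `zq q` differ by the coboundary of an
`F`-valued function (a sum of terms `ee (a s) (A s b)`, `ee (y s) ..`, `ε s ee ..`; find it by expanding; all signs are +), so have the same `iv`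
(`h.loc.cob`, see `iv_cobF` in KI/OfLag). Use `b = X⁻¹ a τ = X ^ 3 a τ`: assume `a τ = 0` (`gv` is unchanged because `ε σ = ε (τ τ) = 0`).
(2) `iota` with `zq_coc`: `iv = io (zq q)`. With `a τ = 0`, `X = A τ`, `S = A σ`, `u = a σ`, `v = a (τ τ)`, `l = 2 j + 1`: `v = X y τ`,
`y τ = X ^ 3 v`, `a (τ ^ i) = T i v`, `T i = ∑ (k < i / 2) X ^ (2 k)` (`a_pow`), `X ^ l y σ = u + X ^ l u + T l v` (`rel_a`);
`zq (σ, τ) = ee u (S y τ)`; `zq (τ ^ l, σ) = ee (T l v) (X ^ l u) + ee u (y σ)` (`ε (τ ^ l) = 1`); `zq (τ ^ i, τ) = 0` for `i` odd and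
`ee (T i v) (X ^ i y τ)` for `i` even. Sum: `ee u (y σ) = ee (X ^ l u) (X ^ l y σ) = ee (X ^ l u) u + ee (X ^ l u) (T l v)`, so the second term is
`ee (X ^ l u) u = ee u (X u)` (an odd power of `X` is `X` or `X⁻¹`). `∑ (i even, 2 ≤ i ≤ l - 1) ee (T i v) (X ^ (i - 1) v) = ∑ (k = 1 .. j) k ee v (X v) =
(j (j + 1) / 2) ee v (X v)`, `j (j + 1) / 2 = (l ^ 2 - 1) / 8`. First term: `ee u (S X⁻¹ v)`, `S X⁻¹ = X ^ (- l) S` (`rel_A`), `= ee (X ^ l u) (S v)`, and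
`S v = u + X² u + X ^ (2 j) v` (`rel_uv`): `ee (X ^ l u) u + ee (X ^ l u) (X² u) + ee (X ^ l u) (X ^ (2 j) v)`, the first two are both
`ee u (X u)`, the last is `ee (X u) v`. Total `ee (X u) v + ee u (X u) + cl l * ee v (X v)`. It may be convenient to split `l` modulo 8 and to use `X⁴ = 1`.

`polar`: `BX` is the polar form of `QX` (`ee` is bilinear, alternating). `iv_pair`: THE PAIRING of two pairs `p`, `q`: `zq (p + q) - zq p - zq q` is the cochain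
`ee (p.1 s) (A s q.2 t) + ee (p.2 s) (A s (q.1 t + ε s q.2 t))` plus the coboundaries of `ee (p.1) (q.1)` and `ee (p.2) (q.1)`.
-/

set_option autoImplicit false
set_option linter.unusedSectionVars false

namespace Pool.Agent.Work.MP_787500_nt.ER

open Matrix
open Pool.Agent.Work.MP_787500_nt.GP (A0 hf hf_add hf_zero hf_two hf_neg smul_hf eq_hf hf_inj IsAct d0 d1
  d2 tw cup11 cup02)
open Pool.Agent.Work.MP_787500_nt.KR (FSys Sm1 Sm2 IsChar Smooth Z1 Z2 B2 LocH Pair LDual z1s b1s)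
open Pool.Agent.Work.MP_787500_nt.KT hiding Str Rel Sel KH Ai IsP cc ff TT
open Pool.Agent.Work.MP_787500_nt.KS (hfT hfT_apply hfT_sq hfT_two hfT_neg smul_hfT hfT_nondeg
  inv_zero smul_F dF1 rt rt_sq zmod2_cases ep)
open Pool.Agent.Work.MP_787500_nt.QL (TameF fixP fixG)
open Pool.Agent.Work.MP_787500_nt.KI (Y2 R1 LKr LVal)

variable {F : Type*} [Field F] [Finite F] [CharP F 2] [Algebra (ZMod 2) F] {n : ℕ} [Sy F n]
  {D : Type*} [Group D] {S : FSys D} {χ a : D → ℤ_[2]} {σ τ : D} {l : ℕ} {I : Subgroup D}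
  {iv : (D → D → A0) → A0} {A : D →* Matrix (Fin n) (Fin n) F} {ε : D → ZMod 2}
  {L : Submodule F ((D → Fin n → F) × (D → Fin n → F))}

private theorem qf_two : (2 : F) = 0 := CharTwo.two_eq_zero

theorem polar (X : Matrix (Fin n) (Fin n) F) (l : ℕ) (p q : (Fin n → F) × (Fin n → F)) :
    QX X l (p + q) = QX X l p + QX X l q + BX X l p q := by
  unfold QX BX
  rw [Prod.fst_add, Prod.snd_add]
  simp only [mulVec_add, ee_add_left, ee_add_right]
  ring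

private theorem qf_Z2 (hχ : IsChar S χ) {z : D → D → F} (hz : Sm2 S z)
    (hc : ∀ g k m, z g k + z (g * k) m = z k m + z g (k * m)) (α : F) :
    Z2 S (tw χ) (fun s t => hfT (α * z s t)) := by
  constructor
  · obtain ⟨W, hW, h1⟩ := hz
    exact ⟨W, hW, fun g k w hw w' hw' => by beta_reduce; rw [h1 g k w hw w' hw']⟩
  · intro x y m
    show χ x • hfT (α * z y m) - hfT (α * z (x * y) m) + hfT (α * z x (y * m)) -
      hfT (α * z x y) = 0
    rw [smul_hfT (hχ.odd x), sub_eq_add_neg, sub_eq_add_neg, hfT_neg, hfT_neg, ← map_add,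
      ← map_add, ← map_add]
    have e : α * z y m + α * z (x * y) m + α * z x (y * m) + α * z x y = 0 := by
      linear_combination α * hc x y m + (α * z y m + α * z x (y * m)) * qf_two (F := F)
    rw [e, map_zero]

private theorem qf_cob (L : LocH S χ iv) {f f' : D → D → F} {z : D → F}
    (hf : Z2 S (tw χ) fun s t => hfT (f s t)) (hz : Sm1 S z)
    (h : ∀ s t, f' s t = f s t + (z s + z t + z (s * t))) :
    Z2 S (tw χ) (fun s t => hfT (f' s t)) ∧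
    iv (fun s t => hfT (f' s t)) = iv (fun s t => hfT (f s t)) := by
  have hz' : Sm1 S fun g => hfT (z g) := by
    obtain ⟨W, hW, h1⟩ := hz
    exact ⟨W, hW, fun g w hw => by beta_reduce; rw [h1 g w hw]⟩
  have e1 : (fun s t => hfT (f' s t)) = fun s t => (fun s t => hfT (f s t)) s t +
      d1 (tw χ) (fun g => hfT (z g)) s t := by
    funext s t
    show hfT (f' s t) = hfT (f s t) + (hfT (z s) + χ s • hfT (z t) - hfT (z (s * t)))
    rw [h, smul_hfT (L.char.odd s), sub_eq_add_neg, hfT_neg]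
    rw [map_add, map_add, map_add]
  have h2 := KR.d1_tw_Z2 L.char hz'
  rw [e1, L.add _ _ hf h2, L.cob _ hz', add_zero]
  exact ⟨KR.Z2.add (KR.isAct_tw L.char) hf h2, rfl⟩

private theorem qf_sm (c : ZMod 2) (v : Fin n → F) : c • v = algebraMap (ZMod 2) F c • v := by
  rw [algebraMap_smul]

private theorem qf_sm' (c : ZMod 2) (v : F) : c • v = algebraMap (ZMod 2) F c * v :=
  Algebra.smul_def c v

private theorem qf_sq (c : ZMod 2) : algebraMap (ZMod 2) F c * algebraMap (ZMod 2) F c =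
    algebraMap (ZMod 2) F c := by
  rw [← map_mul]
  congr 1
  revert c
  decide

/-- the shifted pair -/
private def shf (A : D →* Matrix (Fin n) (Fin n) F) (ε : D → ZMod 2) (b : Fin n → F)
    (q : (D → Fin n → F) × (D → Fin n → F)) : (D → Fin n → F) × (D → Fin n → F) :=
  (fun s => q.1 s + ε s • (A s *ᵥ b), fun s => q.2 s + (A s *ᵥ b + b))

private theorem qf_A1 (h : TR S χ a σ τ l I iv A ε) : ∃ W, S.mem W ∧ ∀ g, ∀ w ∈ W, ∀ m,
    A (g * w) *ᵥ m = A g *ᵥ m := by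
  obtain ⟨W, hW, hs⟩ := h.sm
  refine ⟨W, hW, fun g w hw m => ?_⟩
  have e := hs w hw m
  rw [KT.act] at e
  rw [map_mul, ← mulVec_mulVec, e]

private theorem shf_ZP (h : TR S χ a σ τ l I iv A ε) {q : (D → Fin n → F) × (D → Fin n → F)}
    (hq : ZP S A ε q) (b : Fin n → F) : ZP S A ε (shf A ε b q) := by
  obtain ⟨W1, hW1, h1⟩ := hq.2.1
  obtain ⟨W2, hW2, h2⟩ := hq.1.1
  obtain ⟨W3, hW3, h3⟩ := h.esm
  obtain ⟨W4, hW4, h4⟩ := qf_A1 h
  have U2 := fun m : Fin n → F => U_add_self m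
  refine ⟨⟨⟨W2 ⊓ W4, S.inf hW2 hW4, fun g w hw => ?_⟩, fun s t => ?_⟩,
    ⟨W1 ⊓ (W3 ⊓ W4), S.inf hW1 (S.inf hW3 hW4), fun g w hw => ?_⟩, fun s t => ?_⟩
  · show q.2 (g * w) + (A (g * w) *ᵥ b + b) = q.2 g + (A g *ᵥ b + b)
    rw [h2 g w hw.1, h4 g w hw.2]
  · show q.2 (s * t) + (A (s * t) *ᵥ b + b) =
      q.2 s + (A s *ᵥ b + b) + A s *ᵥ (q.2 t + (A t *ᵥ b + b))
    have e : q.2 (s * t) = q.2 s + A s *ᵥ q.2 t := hq.1.2 s t
    rw [e, map_mul, ← mulVec_mulVec, mulVec_add, mulVec_add]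
    have e2 := U2 (A s *ᵥ b)
    calc q.2 s + A s *ᵥ q.2 t + (A s *ᵥ A t *ᵥ b + b) =
        q.2 s + A s *ᵥ q.2 t + (A s *ᵥ A t *ᵥ b + b) + (A s *ᵥ b + A s *ᵥ b) := by
          rw [e2, add_zero]
      _ = _ := by abel
  · show q.1 (g * w) + ε (g * w) • (A (g * w) *ᵥ b) = q.1 g + ε g • (A g *ᵥ b)
    rw [h1 g w hw.1, h3 g w hw.2.1, h4 g w hw.2.2]
  · show q.1 (s * t) + ε (s * t) • (A (s * t) *ᵥ b) = q.1 s + ε s • (A s *ᵥ b) +
      A s *ᵥ (q.1 t + ε t • (A t *ᵥ b)) + ε s • (A s *ᵥ (q.2 t + (A t *ᵥ b + b)))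
    have e : q.1 (s * t) = q.1 s + A s *ᵥ q.1 t + ε s • (A s *ᵥ q.2 t) := hq.2.2 s t
    rw [e, map_mul, ← mulVec_mulVec, h.eadd, mulVec_add, mulVec_add, mulVec_add, qf_sm (ε t),
      mulVec_smul, ← qf_sm, add_smul, smul_add, smul_add]
    have e2 := U2 (ε s • A s *ᵥ b)
    calc q.1 s + A s *ᵥ q.1 t + ε s • A s *ᵥ q.2 t + (ε s • A s *ᵥ A t *ᵥ b + ε t • A s *ᵥ A t *ᵥ b) =
        q.1 s + A s *ᵥ q.1 t + ε s • A s *ᵥ q.2 t + (ε s • A s *ᵥ A t *ᵥ b +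
          ε t • A s *ᵥ A t *ᵥ b) + (ε s • A s *ᵥ b + ε s • A s *ᵥ b) := by
          rw [e2, add_zero]
      _ = _ := by abel

private theorem shf_zq (h : TR S χ a σ τ l I iv A ε) {q : (D → Fin n → F) × (D → Fin n → F)}
    (hq : ZP S A ε q) (b : Fin n → F) (s t : D) : zq A ε (shf A ε b q) s t = zq A ε q s t +
      ((1 + algebraMap (ZMod 2) F (ε s)) * ee (q.1 s) (A s *ᵥ b) +
        (1 + algebraMap (ZMod 2) F (ε t)) * ee (q.1 t) (A t *ᵥ b) +
        (1 + algebraMap (ZMod 2) F (ε (s * t))) * ee (q.1 (s * t)) (A (s * t) *ᵥ b)) := by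
  have ha : q.1 (s * t) = q.1 s + A s *ᵥ q.1 t + ε s • (A s *ᵥ q.2 t) := hq.2.2 s t
  have h2 := qf_two (F := F)
  simp only [zq, shf, qf_sm', ha, h.eadd, map_add, map_mul, qf_sm, mulVec_add, mulVec_smul,
    ee_add_left, ee_add_right, ee_smul_left, ee_smul_right, ← mulVec_mulVec, ee_mulVec (h.sp s),
    ee_mulVec (h.sp t)]
  rw [ee_self, ee_comm b (q.1 t), ee_comm (A t *ᵥ b) b, ee_comm (A t *ᵥ b) (q.2 t)]
  have hg := qf_sq (F := F) (ε s)
  have hk := qf_sq (F := F) (ε t)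
  generalize algebraMap (ZMod 2) F (ε s) = x at *
  generalize algebraMap (ZMod 2) F (ε t) = z at *
  linear_combination (x * ee (q.1 t) b + ee b (A t *ᵥ b) * (x * z + x) + ee b (q.2 t) * x -
    ee (q.2 t) (A t *ᵥ b) * x - ee (q.1 t) (A t *ᵥ b) * (1 + z)) * h2 +
    (ee b (A t *ᵥ b) + ee b (q.2 t) - ee (q.2 t) (A t *ᵥ b)) * hg

private theorem qf_sm1 (h : TR S χ a σ τ l I iv A ε) {q : (D → Fin n → F) × (D → Fin n → F)}
    (hq : ZP S A ε q) (b : Fin n → F) (α : F) : Sm1 S fun s =>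
      α * ((1 + algebraMap (ZMod 2) F (ε s)) * ee (q.1 s) (A s *ᵥ b)) := by
  obtain ⟨W1, hW1, h1⟩ := hq.2.1
  obtain ⟨W3, hW3, h3⟩ := h.esm
  obtain ⟨W4, hW4, h4⟩ := qf_A1 h
  refine ⟨W1 ⊓ (W3 ⊓ W4), S.inf hW1 (S.inf hW3 hW4), fun g w hw => ?_⟩
  beta_reduce
  rw [h1 g w hw.1, h3 g w hw.2.1, h4 g w hw.2.2]

private theorem qf_zZ (h : TR S χ a σ τ l I iv A ε) {q : (D → Fin n → F) × (D → Fin n → F)}
    (hq : ZP S A ε q) (α : F) : Z2 S (tw χ) (fun s t => hfT (α * zq A ε q s t)) :=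
  qf_Z2 h.loc.char (zq_coc h hq).1 (zq_coc h hq).2.1 α

private theorem iv_shf (h : TR S χ a σ τ l I iv A ε) {q : (D → Fin n → F) × (D → Fin n → F)}
    (hq : ZP S A ε q) (b : Fin n → F) (α : F) :
    iv (fun s t => hfT (α * zq A ε (shf A ε b q) s t)) =
      iv (fun s t => hfT (α * zq A ε q s t)) := by
  refine (qf_cob h.loc (qf_zZ h hq α) (qf_sm1 h hq b α) fun s t => ?_).2
  rw [shf_zq h hq]
  ring

private theorem mf_add (M N : Matrix (Fin n) (Fin n) F) (w : Fin n → F) :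
    (M + N) *ᵥ w = M *ᵥ w + N *ᵥ w := add_mulVec M N w

/-- the sum of the odd powers -/
private theorem ee_T (X : Matrix (Fin n) (Fin n) F) (y z : Fin n → F) (i : ℕ) :
    ee ((∑ k ∈ Finset.range i, if Odd k then X ^ k else 0) *ᵥ y) z =
      ∑ k ∈ Finset.range i, if Odd k then ee (X ^ k *ᵥ y) z else 0 := by
  induction i with
  | zero => rw [Finset.sum_range_zero, Finset.sum_range_zero, zero_mulVec, ee_zero_left]
  | succ i ih =>
    rw [Finset.sum_range_succ, Finset.sum_range_succ, add_mulVec, ee_add_left, ih]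
    congr 1
    split_ifs
    · rfl
    · rw [zero_mulVec, ee_zero_left]

private theorem cnt_odd (e : F) (i : ℕ) :
    (∑ k ∈ Finset.range i, if Odd k then e else 0) = ((i / 2 : ℕ) : F) * e := by
  induction i with
  | zero => rw [Finset.sum_range_zero, Nat.zero_div, Nat.cast_zero, zero_mul]
  | succ i ih =>
    rw [Finset.sum_range_succ, ih]
    rcases Nat.even_or_odd' i with ⟨m, rfl | rfl⟩
    · rw [if_neg (Nat.not_odd_iff_even.2 (even_two_mul m)), add_zero]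
      congr 2
      omega
    · rw [if_pos ⟨m, rfl⟩]
      have e1 : (2 * m + 1) / 2 = m := by omega
      have e2 : (2 * m + 1 + 1) / 2 = m + 1 := by omega
      rw [e1, e2]
      push_cast
      ring

private theorem sum_even (e : F) (j : ℕ) :
    (∑ i ∈ Finset.range (2 * j), if Even (i + 1) then (((i + 1) / 2 : ℕ) : F) * e else 0) =
      ((∑ i ∈ Finset.range (j + 1), i : ℕ) : F) * e := by
  induction j with
  | zero => simp
  | succ j ih =>
    have e0 : 2 * (j + 1) = 2 * j + 1 + 1 := by ring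
    rw [e0, Finset.sum_range_succ, Finset.sum_range_succ, ih,
      if_neg (Nat.not_even_iff_odd.2 ⟨j, rfl⟩), if_pos ⟨j + 1, by ring⟩,
      Finset.sum_range_succ (fun i => i) (j + 1)]
    have e2 : (2 * j + 1 + 1) / 2 = j + 1 := by omega
    rw [e2]
    push_cast
    ring

private theorem sq_div (j : ℕ) : ((2 * j + 1) ^ 2 - 1) / 8 = ∑ i ∈ Finset.range (j + 1), i := by
  have h := Finset.sum_range_id_mul_two (j + 1)
  rw [Nat.add_sub_cancel] at h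
  have e : (2 * j + 1) ^ 2 - 1 = 8 * ∑ i ∈ Finset.range (j + 1), i := by
    have : (2 * j + 1) ^ 2 = 8 * (∑ i ∈ Finset.range (j + 1), i) + 1 := by
      nlinarith
    omega
  rw [e, Nat.mul_div_cancel_left _ (by norm_num)]

/-- the value when `q.1 τ = 0` -/
private theorem iv_zq0 (h : TR S χ a σ τ l I iv A ε) {q : (D → Fin n → F) × (D → Fin n → F)}
    (hq : ZP S A ε q) (h0 : q.1 τ = 0) : io σ τ l (zq A ε q) = QX (A τ) l (gv σ τ q) := by
  have h2 := qf_two (F := F)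
  have hsp := h.sp τ
  have hx4 := h.x4
  obtain ⟨X, hX⟩ : ∃ X, X = A τ := ⟨_, rfl⟩
  obtain ⟨y, hy⟩ : ∃ y, y = q.2 τ := ⟨_, rfl⟩
  obtain ⟨u, hu⟩ : ∃ u, u = q.1 σ := ⟨_, rfl⟩
  obtain ⟨v, hv⟩ : ∃ v, v = q.1 (τ * τ) := ⟨_, rfl⟩
  rw [← hX] at hsp hx4
  have hvy : v = X *ᵥ y := by
    rw [hv, a_two h hq, h0, ← hX, ← hy, mulVec_zero, zero_add, zero_add]
  -- odd powers
  have h4 : ∀ k : ℕ, X ^ (4 * k) = 1 := fun k => by rw [pow_mul, hx4, one_pow]
  have hmm : ∀ (i k : ℕ) (m : Fin n → F), X ^ i *ᵥ (X ^ k *ᵥ m) = X ^ (i + k) *ᵥ m := by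
    intro i k m
    rw [mulVec_mulVec, pow_add]
  have hspk : ∀ (k : ℕ) (m m' : Fin n → F), ee (X ^ k *ᵥ m) (X ^ k *ᵥ m') = ee m m' :=
    fun k m m' => ee_mulVec (isSp_pow hsp k) m m'
  have hodd : ∀ (k : ℕ) (m : Fin n → F), Odd k → ee m (X ^ k *ᵥ m) = ee m (X *ᵥ m) := by
    intro k m hk
    obtain ⟨i, hi⟩ := hk
    rcases Nat.even_or_odd' i with ⟨c, hc | hc⟩
    · have : k = 4 * c + 1 := by omega
      rw [this, pow_succ, h4, one_mul]
    · have : k = 4 * c + 3 := by omega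
      rw [this, pow_add, h4, one_mul]
      have e := hspk 1 m (X ^ 3 *ᵥ m)
      rw [hmm, pow_one, hx4, one_mulVec] at e
      rw [← e, ee_comm]
  obtain ⟨T, hT⟩ : ∃ T : ℕ → Matrix (Fin n) (Fin n) F,
    T = fun i => ∑ k ∈ Finset.range i, if Odd k then X ^ k else 0 := ⟨_, rfl⟩
  have hpow : ∀ i, q.1 (τ ^ i) = T i *ᵥ y := by
    intro i
    rw [a_pow h hq, h0, mulVec_zero, zero_add, ← hX, ← hy, hT]
  have hl := h.tame.lodd
  obtain ⟨j, hj⟩ := hl
  have z1 : zq A ε q σ τ = ee (X *ᵥ u) v := by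
    unfold zq
    rw [h.eσ, h0, mulVec_zero, ee_zero_right, zero_smul, zero_smul, add_zero, add_zero, zero_add,
      ← hu, ← hy]
    have e1 : y = X ^ 3 *ᵥ v := by
      rw [hvy]
      have := hmm 3 1 y
      rw [pow_one] at this
      rw [this, hx4, one_mulVec]
    have e2 : ∀ k : ℕ, A σ * X ^ k = X ^ (l * k) * A σ := by
      intro k
      induction k with
      | zero => rw [pow_zero, mul_zero, pow_zero, mul_one, one_mul]
      | succ k ih =>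
        rw [pow_succ, ← mul_assoc, ih, mul_assoc, hX, rel_A h, ← mul_assoc, ← pow_add]
        rfl
    have e3 : A σ *ᵥ y = X ^ (l * 3) *ᵥ (A σ *ᵥ v) := by
      rw [e1, mulVec_mulVec, e2, mulVec_mulVec]
    have e4 : ee u (X ^ (l * 3) *ᵥ (A σ *ᵥ v)) = ee (X ^ l *ᵥ u) (A σ *ᵥ v) := by
      rw [← hspk l u, hmm]
      have : l + l * 3 = 4 * l := by ring
      rw [this, h4, one_mulVec]
    have e5 : A σ *ᵥ v = u + X ^ 2 *ᵥ u + X ^ (2 * j) *ᵥ v := by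
      have e := rel_uv h hq
      have hlj : l / 2 = j := by omega
      rw [← hu, ← hv, ← hX, hlj, add_comm (A σ *ᵥ v)] at e
      rw [add_comm _ (X ^ (2 * j) *ᵥ v), e, ← add_assoc, U_add_self, zero_add]
    have e6 : ee (X ^ l *ᵥ u) u = ee u (X *ᵥ u) := by
      rw [ee_comm]
      exact hodd l u h.tame.lodd
    have e7 : ee (X ^ l *ᵥ u) (X ^ 2 *ᵥ u) = ee u (X *ᵥ u) := by
      have e : X ^ l *ᵥ u = X ^ 2 *ᵥ (X ^ (l + 2) *ᵥ u) := by
        rw [hmm]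
        have : 2 + (l + 2) = l + 4 * 1 := by ring
        rw [this, pow_add, h4, mul_one]
      rw [e, hspk, ee_comm]
      exact hodd _ u ⟨j + 1, by omega⟩
    have e8 : ee (X ^ l *ᵥ u) (X ^ (2 * j) *ᵥ v) = ee (X *ᵥ u) v := by
      have e : X ^ l *ᵥ u = X ^ (2 * j) *ᵥ (X *ᵥ u) := by
        have := hmm (2 * j) 1 u
        rw [pow_one] at this
        rw [this, hj]
      rw [e, hspk]
    rw [e3, e4, e5, ee_add_right, ee_add_right, e6, e7, e8, add_self, zero_add]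
  have z2 : zq A ε q (τ ^ l) σ = ee u (X *ᵥ u) := by
    have e1 : ε (τ ^ l) = 1 := by
      rw [eps_pow h]
      exact (ZMod.natCast_eq_one_iff_odd).2 h.tame.lodd
    obtain ⟨w, hw⟩ : ∃ w, w = q.2 σ := ⟨_, rfl⟩
    obtain ⟨r, hr⟩ : ∃ r, r = q.1 (τ ^ l) := ⟨_, rfl⟩
    unfold zq
    rw [e1, one_smul, one_smul, ← hu, ← hw, ← hr, map_pow, ← hX]
    have e2 := rel_a h hq
    rw [h0, mulVec_zero, add_zero, ← hu, ← hw, ← hr, ← hX, mulVec_add] at e2
    have e3 : X ^ l *ᵥ w = u + r + X ^ l *ᵥ u := by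
      have e4 : X ^ l *ᵥ w + (r + X ^ l *ᵥ u) = u := by
        have e5 : X ^ l *ᵥ w + (r + X ^ l *ᵥ u) = r + (X ^ l *ᵥ u + X ^ l *ᵥ w) := by abel
        exact e5.trans e2.symm
      rw [add_comm] at e4
      have e6 := U_add_self (r + X ^ l *ᵥ u)
      calc X ^ l *ᵥ w = (r + X ^ l *ᵥ u + (r + X ^ l *ᵥ u)) + X ^ l *ᵥ w := by
            rw [e6, zero_add]
        _ = (r + X ^ l *ᵥ u) + (r + X ^ l *ᵥ u + X ^ l *ᵥ w) := by abel
        _ = u + r + X ^ l *ᵥ u := by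
          rw [e4]
          abel
    have e5 : ee u w = ee u (X *ᵥ u) + ee r (X ^ l *ᵥ u) := by
      rw [← hspk l u w, e3, ee_add_right, ee_add_right, ee_self, add_zero, ee_comm (X ^ l *ᵥ u) u,
        ee_comm (X ^ l *ᵥ u) r, hodd l u h.tame.lodd]
    rw [e5]
    linear_combination (ee r (X ^ l *ᵥ u) + ee r (X ^ l *ᵥ w)) * h2
  have z3 : ∀ i, zq A ε q (τ ^ (i + 1)) τ = if Even (i + 1) then (((i + 1) / 2 : ℕ) : F) *
      ee v (X *ᵥ v) else 0 := by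
    intro i
    unfold zq
    rw [h0, mulVec_zero, ee_zero_right, ee_zero_left, smul_zero, add_zero, zero_add, eps_pow h]
    split_ifs with hi
    · rw [(ZMod.natCast_eq_zero_iff_even).2 hi, zero_smul, add_zero, hpow, map_pow, ← hX, ← hy, hT]
      beta_reduce
      rw [ee_T, ← cnt_odd]
      refine Finset.sum_congr rfl fun k hk => ?_
      rw [Finset.mem_range] at hk
      split_ifs with hk2
      · obtain ⟨c, hc⟩ : ∃ c, i + 1 = k + c := ⟨i + 1 - k, by omega⟩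
        have hco : Odd c := by
          rw [hc] at hi
          exact (Nat.even_add'.1 hi).1 hk2
        rw [hc, pow_add, ← mulVec_mulVec, hspk, hodd c y hco, hvy, ee_mulVec hsp]
      · rfl
    · rw [(ZMod.natCast_eq_one_iff_odd).2 (Nat.not_even_iff_odd.1 hi), one_smul, add_self]
  have hlj : l - 1 = 2 * j := by omega
  unfold io
  rw [z1, z2, Finset.sum_congr rfl fun i _ => z3 i, hlj, sum_even, gv_apply, ← hu, ← hv]
  unfold QX cl
  rw [← hX, hj, sq_div]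

/-- THE QUADRATIC FUNCTION. -/
theorem iv_zq (h : TR S χ a σ τ l I iv A ε) {q : (D → Fin n → F) × (D → Fin n → F)}
    (hq : ZP S A ε q) (α : F) :
    iv (fun s t => hfT (α * zq A ε q s t)) = hfT (α * QX (A τ) l (gv σ τ q)) := by
  have hx4 := h.x4
  obtain ⟨b, hb⟩ : ∃ b, A τ *ᵥ b = q.1 τ := ⟨A τ ^ 3 *ᵥ q.1 τ, by
    rw [mulVec_mulVec, ← pow_succ', hx4, one_mulVec]⟩
  have hq' := shf_ZP h hq b
  have h0 : (shf A ε b q).1 τ = 0 := by
    show q.1 τ + ε τ • (A τ *ᵥ b) = 0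
    rw [h.eτ, one_smul, hb, U_add_self]
  have e1 : gv σ τ (shf A ε b q) = gv σ τ q := by
    rw [gv_apply, gv_apply]
    refine Prod.ext ?_ ?_
    · show q.1 σ + ε σ • (A σ *ᵥ b) = q.1 σ
      rw [h.eσ, zero_smul, add_zero]
    · show q.1 (τ * τ) + ε (τ * τ) • (A (τ * τ) *ᵥ b) = q.1 (τ * τ)
      have e2 : ε (τ * τ) = 0 := by
        rw [h.eadd, h.eτ]
        decide
      rw [e2, zero_smul, add_zero]
  rw [← iv_shf h hq b α, iota h.tame h.loc h.ldF (zq_coc h hq').1 (zq_coc h hq').2.1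
    (zq_coc h hq').2.2.1 (zq_coc h hq').2.2.2 α, iv_zq0 h hq' h0, e1]

private theorem add_ZP {p q : (D → Fin n → F) × (D → Fin n → F)}
    (hp : ZP S A ε p) (hq : ZP S A ε q) : ZP S A ε (p + q) := by
  obtain ⟨W1, hW1, h1⟩ := hp.2.1
  obtain ⟨W2, hW2, h2⟩ := hp.1.1
  obtain ⟨W3, hW3, h3⟩ := hq.2.1
  obtain ⟨W4, hW4, h4⟩ := hq.1.1
  refine ⟨⟨⟨W2 ⊓ W4, S.inf hW2 hW4, fun g w hw => ?_⟩, fun s t => ?_⟩,
    ⟨W1 ⊓ W3, S.inf hW1 hW3, fun g w hw => ?_⟩, fun s t => ?_⟩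
  · show p.2 (g * w) + q.2 (g * w) = p.2 g + q.2 g
    rw [h2 g w hw.1, h4 g w hw.2]
  · show p.2 (s * t) + q.2 (s * t) = p.2 s + q.2 s + A s *ᵥ (p.2 t + q.2 t)
    have e : p.2 (s * t) = p.2 s + A s *ᵥ p.2 t := hp.1.2 s t
    have e' : q.2 (s * t) = q.2 s + A s *ᵥ q.2 t := hq.1.2 s t
    rw [e, e', mulVec_add]
    abel
  · show p.1 (g * w) + q.1 (g * w) = p.1 g + q.1 g
    rw [h1 g w hw.1, h3 g w hw.2]
  · show p.1 (s * t) + q.1 (s * t) = p.1 s + q.1 s + A s *ᵥ (p.1 t + q.1 t) +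
      ε s • (A s *ᵥ (p.2 t + q.2 t))
    have e : p.1 (s * t) = p.1 s + A s *ᵥ p.1 t + ε s • (A s *ᵥ p.2 t) := hp.2.2 s t
    have e' : q.1 (s * t) = q.1 s + A s *ᵥ q.1 t + ε s • (A s *ᵥ q.2 t) := hq.2.2 s t
    rw [e, e', mulVec_add, mulVec_add, smul_add]
    abel

private theorem pair_id (h : TR S χ a σ τ l I iv A ε) {p q : (D → Fin n → F) × (D → Fin n → F)}
    (hp : ZP S A ε p) (hq : ZP S A ε q) (s t : D) :
    ee (p.1 s) (A s *ᵥ q.2 t) + ee (p.2 s) (A s *ᵥ (q.1 t + ε s • q.2 t)) =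
      (zq A ε (p + q) s t + (zq A ε p s t + zq A ε q s t)) +
        ((ee (p.1 s) (q.1 s) + ee (p.2 s) (q.1 s)) + (ee (p.1 t) (q.1 t) + ee (p.2 t) (q.1 t)) +
          (ee (p.1 (s * t)) (q.1 (s * t)) + ee (p.2 (s * t)) (q.1 (s * t)))) := by
  have ha : p.1 (s * t) = p.1 s + A s *ᵥ p.1 t + ε s • (A s *ᵥ p.2 t) := hp.2.2 s t
  have ha' : q.1 (s * t) = q.1 s + A s *ᵥ q.1 t + ε s • (A s *ᵥ q.2 t) := hq.2.2 s t
  have hy : p.2 (s * t) = p.2 s + A s *ᵥ p.2 t := hp.1.2 s t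
  have h2 := qf_two (F := F)
  simp only [zq, Prod.fst_add, Prod.snd_add, Pi.add_apply, qf_sm', ha, ha', hy, qf_sm,
    mulVec_add, mulVec_smul, ee_add_left, ee_add_right, ee_smul_left, ee_smul_right,
    ee_mulVec (h.sp s)]
  have hg := qf_sq (F := F) (ε s)
  generalize algebraMap (ZMod 2) F (ε s) = x at *
  rw [ee_comm (A s *ᵥ p.1 t) (q.1 s), ee_comm (A s *ᵥ p.2 t) (q.1 s), ee_comm (q.1 t) (p.2 t)]
  linear_combination (-(ee (p.1 s) (A s *ᵥ p.1 t) + ee (q.1 s) (A s *ᵥ p.1 t) +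
    ee (p.1 s) (A s *ᵥ q.1 t) + ee (q.1 s) (A s *ᵥ q.1 t) + (1 + x) * (ee (p.1 s) (A s *ᵥ p.2 t) +
    ee (q.1 s) (A s *ᵥ p.2 t) + ee (q.1 s) (A s *ᵥ q.2 t) + ee (p.2 t) (q.1 t)) +
    x * ee (p.1 s) (A s *ᵥ q.2 t) + x * (ee (p.1 t) (p.2 t) + ee (p.1 t) (q.2 t) +
    ee (q.1 t) (q.2 t)) + ee (p.1 s) (q.1 s) + ee (p.2 s) (q.1 s) + ee (p.1 t) (q.1 t) +
    x * ee (p.2 t) (q.2 t))) * h2 - ee (p.2 t) (q.2 t) * hg

/-- THE PAIRING. -/
theorem iv_pair (h : TR S χ a σ τ l I iv A ε) {p q : (D → Fin n → F) × (D → Fin n → F)}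
    (hp : ZP S A ε p) (hq : ZP S A ε q) (α : F) :
    iv (fun s t => hfT (α * (ee (p.1 s) (A s *ᵥ q.2 t) +
      ee (p.2 s) (A s *ᵥ (q.1 t + ε s • q.2 t))))) =
      hfT (α * BX (A τ) l (gv σ τ p) (gv σ τ q)) := by
  have hpq := add_ZP hp hq
  have z1 := qf_zZ h hp α
  have z2 := qf_zZ h hq α
  have z3 := qf_zZ h hpq α
  have z12 := KR.Z2.add (KR.isAct_tw h.loc.char) z1 z2
  have z123 := KR.Z2.add (KR.isAct_tw h.loc.char) z3 z12
  have e1 : (fun s t => hfT (α * zq A ε (p + q) s t) + (hfT (α * zq A ε p s t) +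
      hfT (α * zq A ε q s t))) =
      fun s t => hfT (α * (zq A ε (p + q) s t + (zq A ε p s t + zq A ε q s t))) := by
    funext s t
    rw [mul_add, mul_add, map_add, map_add]
  have e2 : iv (fun s t => hfT (α * (zq A ε (p + q) s t + (zq A ε p s t + zq A ε q s t)))) =
      hfT (α * BX (A τ) l (gv σ τ p) (gv σ τ q)) := by
    rw [← e1, h.loc.add _ _ z3 z12, h.loc.add _ _ z1 z2, iv_zq h hpq, iv_zq h hp, iv_zq h hq,
      map_add, polar, ← map_add, ← map_add]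
    congr 1
    linear_combination α * (QX (A τ) l (gv σ τ p) + QX (A τ) l (gv σ τ q)) * qf_two (F := F)
  have hsm : Sm1 S fun s => α * (ee (p.1 s) (q.1 s) + ee (p.2 s) (q.1 s)) := by
    obtain ⟨W1, hW1, h1⟩ := hp.2.1
    obtain ⟨W2, hW2, h2⟩ := hp.1.1
    obtain ⟨W3, hW3, h3⟩ := hq.2.1
    refine ⟨W1 ⊓ (W2 ⊓ W3), S.inf hW1 (S.inf hW2 hW3), fun g w hw => ?_⟩
    beta_reduce
    rw [h1 g w hw.1, h2 g w hw.2.1, h3 g w hw.2.2]
  rw [e1] at z123
  rw [← e2]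
  refine (qf_cob h.loc z123 hsm fun s t => ?_).2
  rw [pair_id h hp hq]
  ring

end Pool.Agent.Work.MP_787500_nt.ER
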