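import Mathlib
import Pool.Agent.Work.MP_787500_nt.ER.QForm
import Pool.Agent.Work.MP_787500_nt.ER.Gen

/-!
# ER/RDim (size M): the space `RX` of the values of the cocycles with values in `U`

* `ker_gr`: a cocycle `r` with `r σ = 0`, `r (τ τ) = 0` has `r τ` fixed by `D` (`(1 + X) r τ = 0`; `rel_y`: `S r τ = ∑ X ^ k r τ = r τ`, `l` odd) and is
  determined by `r τ`; conversely for `m ∈ U^D` there is such an `r` with `r τ = m` (`r d = ε d • m`). So the kernel of `gr` on `cocS` has the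
  dimension of `U^D` and `finrank_RX`: `dim RX = n` (`finrank_coc`).
* `finrank_R1`: for every `Λ`, the space of the cocycles `r` with `gr r ∈ Λ` has dimension `dim (Λ ⊓ RX) + dim U^D`.
* `BX_RX`: `BX = 0` on `RX`: `iv_pair` for `(r, 0)`, `(r', 0)`: the cochain is 0. `zp_zero`: `(r, 0)` is a pair.
* `QX_RX`: for a pair `(b, kc A)` and `x ∈ RX`: `QX x = BX (x, gv (b, kc A)) ^ 2`: `iv_zq` for `(r, 0)`: `iv (hfT (α ee (r s) (A r t)))`; `KT.inv_kc` for the cocycle
  `β • r`, `β = rt α` (`β ^ 2 = α`): `iv (hfT (ee (kc s) (A (β r) t))) = iv (hfT (ee (β r s) (A (β r t))))`; so `hfT (α QX) = hfT (β BX) = hfT (β ^ 2 BX ^ 2)`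
  (`KS.hfT_sq`), for all `α` (`KS.hfT_nondeg`). (`iv_pair` for `(b, kc A)`, `(r, 0)`: `ee (kc s) (A r t)`.)
-/

set_option autoImplicit false
set_option linter.unusedSectionVars false

namespace Pool.Agent.Work.MP_787500_nt.ER

open Matrix
open Pool.Agent.Work.MP_787500_nt.GP (A0 hf hf_add hf_zero hf_two hf_neg smul_hf eq_hf hf_inj IsAct d0 d1
  d2 tw cup11 cup02)
open Pool.Agent.Work.MP_787500_nt.KR (FSys Sm1 Sm2 IsChar Smooth Z1 Z2 B2 LocH Pair LDual z1s b1s)
open Pool.Agent.Work.MP_787500_nt.KT hiding Str Rel Sel KH Ai IsP cc ff TT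
open Pool.Agent.Work.MP_787500_nt.KS (hfT hfT_apply hfT_sq hfT_two hfT_neg smul_hfT hfT_nondeg
  inv_zero smul_F dF1 rt rt_sq zmod2_cases ep)
open Pool.Agent.Work.MP_787500_nt.QL (TameF fixP fixG)
open Pool.Agent.Work.MP_787500_nt.KI (Y2 R1 LKr LVal)

variable {F : Type*} [Field F] [Finite F] [CharP F 2] [Algebra (ZMod 2) F] {n : ℕ} [Sy F n]
  {D : Type*} [Group D] {S : FSys D} {χ a : D → ℤ_[2]} {σ τ : D} {l : ℕ} {I : Subgroup D}
  {iv : (D → D → A0) → A0} {A : D →* Matrix (Fin n) (Fin n) F} {ε : D → ZMod 2}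
  {L : Submodule F ((D → Fin n → F) × (D → Fin n → F))}

theorem zp_zero (h : TR S χ a σ τ l I iv A ε) {r : D → Fin n → F} (hr : Z1 S (KT.act A) r) :
    ZP S A ε (r, 0) := by
  refine ⟨(cocS S (A : D → Matrix (Fin n) (Fin n) F)).zero_mem, hr.1, fun g k => ?_⟩
  show r (g * k) = r g + A g *ᵥ r k + ε g • (A g *ᵥ (0 : Fin n → F))
  rw [mulVec_zero, smul_zero, add_zero]
  exact hr.2 g k

/-- the cocycles with values at the generators in `Λ` -/
def cR (S : FSys D) (A : D →* Matrix (Fin n) (Fin n) F) (σ τ : D)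
    (Λ : Submodule F ((Fin n → F) × (Fin n → F))) : Submodule F (D → Fin n → F) :=
  cocS S (A : D → Matrix (Fin n) (Fin n) F) ⊓ Λ.comap (gr σ τ)

private theorem coc_det (h : TR S χ a σ τ l I iv A ε) {r : D → Fin n → F}
    (hr : Z1 S (KT.act A) r) (h1 : r σ = 0) (h2 : r τ = 0) : r = 0 := y_det h hr h1 h2

private theorem fix_of (h : TR S χ a σ τ l I iv A ε) {m : Fin n → F} (h1 : A σ *ᵥ m = m)
    (h2 : A τ *ᵥ m = m) : m ∈ QP.fixG A := fun g => fix_gen h h1 h2 g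

private theorem ker_fix (h : TR S χ a σ τ l I iv A ε) {r : D → Fin n → F}
    (hr : Z1 S (KT.act A) r) (h1 : r σ = 0) (h2 : r (τ * τ) = 0) : r τ ∈ QP.fixG A := by
  have e1 : A τ *ᵥ r τ = r τ := by
    have h3 := hr.2 τ τ
    rw [h2] at h3
    exact (QP.add_eq_zero2.1 h3.symm).symm
  have e2 : ∀ k : ℕ, A τ ^ k *ᵥ r τ = r τ := by
    intro k
    induction k with
    | zero => rw [pow_zero, one_mulVec]
    | succ k ih => rw [pow_succ, ← mulVec_mulVec, e1, ih]
  have e3 : A σ *ᵥ r τ = r τ := by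
    have h3 := rel_y h hr
    rw [h1, zero_add, mulVec_zero, add_zero] at h3
    rw [h3, Matrix.sum_mulVec, Finset.sum_congr rfl fun k _ => e2 k, Finset.sum_const,
      Finset.card_range]
    obtain ⟨j, hj⟩ := h.tame.lodd
    rw [hj, add_nsmul, one_nsmul, mul_nsmul', two_nsmul, QP.vadd_self, zero_add]
  exact fix_of h e3 e1

private theorem eps_coc (h : TR S χ a σ τ l I iv A ε) {m : Fin n → F} (hm : m ∈ QP.fixG A) :
    Z1 S (KT.act A) (fun d => ε d • m) := by
  constructor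
  · obtain ⟨W, hW, hw⟩ := h.esm
    exact ⟨W, hW, fun g w hgw => by beta_reduce; rw [hw g w hgw]⟩
  · intro g k
    show ε (g * k) • m = ε g • m + A g *ᵥ (ε k • m)
    rw [h.eadd, add_smul, QP.smul_Z (ε k) m, mulVec_smul, hm g]

private theorem fin_coc (h : TR S χ a σ τ l I iv A ε) {N : Submodule F (D → Fin n → F)}
    (hN : N ≤ cocS S (A : D → Matrix (Fin n) (Fin n) F)) : Module.Finite F N := by
  have := h.ld.fin
  have hf : Finite N := Finite.of_injective
    (fun x : N => (⟨x.1, hN x.2⟩ : {x : D → Fin n → F // Z1 S (KT.act A) x})) (by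
      intro x y hxy
      have h1 : (x : D → Fin n → F) = y :=
        congrArg (fun z : {x : D → Fin n → F // Z1 S (KT.act A) x} => z.1) hxy
      exact Subtype.ext h1)
  exact Module.Finite.of_finite

private theorem finrank_aux (h : TR S χ a σ τ l I iv A ε) {N : Submodule F (D → Fin n → F)}
    (hN : N ≤ cocS S (A : D → Matrix (Fin n) (Fin n) F))
    (hk : ∀ r, Z1 S (KT.act A) r → gr σ τ r = 0 → r ∈ N) :
    Module.finrank F N = Module.finrank F (N.map (gr σ τ)) + Module.finrank F (QP.fixG A) := by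
  have := fin_coc h hN
  have h1 := LinearMap.finrank_range_add_finrank_ker ((gr σ τ).domRestrict N)
  rw [LinearMap.range_domRestrict] at h1
  rw [← h1]
  congr 1
  let φ : LinearMap.ker ((gr σ τ).domRestrict N) →ₗ[F] QP.fixG A :=
    LinearMap.codRestrict (QP.fixG A) ((LinearMap.proj τ : (D → Fin n → F) →ₗ[F] (Fin n → F)) ∘ₗ
      N.subtype ∘ₗ (LinearMap.ker ((gr σ τ).domRestrict N)).subtype) (by
        rintro ⟨⟨r, hr⟩, h2⟩
        have h3 : (r σ, r (τ * τ)) = (0, 0) := h2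
        exact ker_fix h (hN hr) (congrArg Prod.fst h3) (congrArg Prod.snd h3))
  refine LinearEquiv.finrank_eq (LinearEquiv.ofBijective φ ⟨?_, ?_⟩)
  · rw [injective_iff_map_eq_zero]
    rintro ⟨⟨r, hr⟩, h2⟩ h4
    have h3 : (r σ, r (τ * τ)) = (0, 0) := h2
    have h5 : r τ = 0 := congrArg Subtype.val h4
    have h6 := coc_det h (hN hr) (congrArg Prod.fst h3) h5
    exact Subtype.ext (Subtype.ext h6)
  · rintro ⟨m, hm⟩
    have h2 := eps_coc h hm
    have h3 : gr σ τ (fun d => ε d • m) = 0 := by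
      refine Prod.ext ?_ ?_
      · show ε σ • m = 0
        rw [h.eσ, zero_smul]
      · show ε (τ * τ) • m = 0
        rw [h.eadd, h.eτ]
        have : (1 + 1 : ZMod 2) = 0 := by decide
        rw [this, zero_smul]
    refine ⟨⟨⟨fun d => ε d • m, hk _ h2 h3⟩, h3⟩, Subtype.ext ?_⟩
    show ε τ • m = m
    rw [h.eτ, one_smul]

theorem finrank_RX (h : TR S χ a σ τ l I iv A ε) : Module.finrank F (RX S A σ τ) = n := by
  have h1 := finrank_aux h (N := cocS S (A : D → Matrix (Fin n) (Fin n) F)) le_rfl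
    (fun r hr _ => hr)
  rw [finrank_coc h] at h1
  exact (Nat.add_right_cancel h1).symm

theorem finrank_cR (h : TR S χ a σ τ l I iv A ε) (Λ : Submodule F ((Fin n → F) × (Fin n → F))) :
    Module.finrank F (cR S A σ τ Λ) =
      Module.finrank F ↥(Λ ⊓ RX S A σ τ) + Module.finrank F (QP.fixG A) := by
  have h1 := finrank_aux h (N := cR S A σ τ Λ) inf_le_left (by
    intro r hr h2
    refine ⟨hr, ?_⟩
    show gr σ τ r ∈ Λ
    rw [h2]
    exact Λ.zero_mem)
  have h2 : (cR S A σ τ Λ).map (gr σ τ) = Λ ⊓ RX S A σ τ := by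
    ext x
    constructor
    · rintro ⟨r, ⟨h3, h4⟩, rfl⟩
      exact ⟨h4, ⟨r, h3, rfl⟩⟩
    · rintro ⟨h3, ⟨r, h4, rfl⟩⟩
      exact ⟨r, ⟨h4, h3⟩, rfl⟩
  rw [h1, h2]

private theorem gv_zero (r : D → Fin n → F) : gv σ τ (r, (0 : D → Fin n → F)) = gr σ τ r := rfl

theorem BX_RX (h : TR S χ a σ τ l I iv A ε) : ∀ x ∈ RX S A σ τ, ∀ y ∈ RX S A σ τ,
    BX (A τ) l x y = 0 := by
  rintro _ ⟨r, hr, rfl⟩ _ ⟨r', hr', rfl⟩
  refine hfT_nondeg fun α => ?_
  have h1 := iv_pair h (zp_zero h hr) (zp_zero h hr') α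
  rw [gv_zero, gv_zero] at h1
  rw [← h1]
  have h2 : (fun s t => hfT (α * (ee ((r, (0 : D → Fin n → F)).1 s)
      (A s *ᵥ (r', (0 : D → Fin n → F)).2 t) + ee ((r, (0 : D → Fin n → F)).2 s)
      (A s *ᵥ ((r', (0 : D → Fin n → F)).1 t + ε s • (r', (0 : D → Fin n → F)).2 t))))) =
      fun _ _ => (0 : A0) := by
    funext s t
    show hfT (α * (ee (r s) (A s *ᵥ (0 : Fin n → F)) +
      ee (0 : Fin n → F) (A s *ᵥ (r' t + ε s • (0 : Fin n → F))))) = 0
    rw [mulVec_zero, ee_zero_right, ee_zero_left, add_zero, mul_zero, map_zero]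
  rw [h2, inv_zero h.loc]

private theorem BX_comm (X : Matrix (Fin n) (Fin n) F) (l : ℕ) (p q : (Fin n → F) × (Fin n → F)) :
    BX X l p q = BX X l q p := by
  unfold BX
  ring

theorem QX_RX (h : TR S χ a σ τ l I iv A ε) {b : D → Fin n → F} (hb : ZP S A ε (b, kc A)) :
    ∀ x ∈ RX S A σ τ, QX (A τ) l x = BX (A τ) l x (gv σ τ (b, kc A)) ^ 2 := by
  rintro _ ⟨r, hr, rfl⟩
  rw [← sub_eq_zero]
  refine hfT_nondeg fun α => ?_
  have hβ : rt α ^ 2 = α := rt_sq α
  have h1 := iv_zq h (zp_zero h hr) α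
  have h2 := iv_pair h hb (zp_zero h hr) (rt α)
  rw [gv_zero] at h1 h2
  have hr2 : Z1 S (KT.act A) (rt α • r) := (cocS S (A : D → Matrix (Fin n) (Fin n) F)).smul_mem _ hr
  have h3 := KT.inv_kc h.loc h.sp h.sm hr2
  have e1 : cup11 (KT.act A) BU (kc A) (rt α • r) = fun s t => hfT (rt α *
      (ee ((b, kc A).1 s) (A s *ᵥ (r, (0 : D → Fin n → F)).2 t) +
      ee ((b, kc A).2 s) (A s *ᵥ ((r, (0 : D → Fin n → F)).1 t +
        ε s • (r, (0 : D → Fin n → F)).2 t)))) := by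
    funext s t
    show hfT (ee (kc A s) (A s *ᵥ (rt α • r t))) = hfT (rt α * (ee (b s) (A s *ᵥ (0 : Fin n → F)) +
      ee (kc A s) (A s *ᵥ (r t + ε s • (0 : Fin n → F)))))
    rw [mulVec_zero, ee_zero_right, smul_zero, add_zero, zero_add, mulVec_smul, ee_smul_right]
  have e2 : cup11 (KT.act A) BU (rt α • r) (rt α • r) =
      fun s t => hfT (α * zq A ε (r, (0 : D → Fin n → F)) s t) := by
    funext s t
    show hfT (ee (rt α • r s) (A s *ᵥ (rt α • r t))) = hfT (α * (ee (r s) (A s *ᵥ r t) +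
      ee (r s) (A s *ᵥ (0 : Fin n → F)) + ε s • ee (r s) (A s *ᵥ (0 : Fin n → F)) +
      ε s • ee (r t) (0 : Fin n → F)))
    rw [mulVec_zero, ee_zero_right, ee_zero_right, smul_zero, add_zero, add_zero, add_zero, mulVec_smul,
      ee_smul_right, ee_smul_left, ← mul_assoc, ← pow_two, hβ]
  rw [e1, e2, h2, h1] at h3
  have e3 : hfT (α * BX (A τ) l (gv σ τ (b, kc A)) (gr σ τ r) ^ 2) =
      hfT (rt α * BX (A τ) l (gv σ τ (b, kc A)) (gr σ τ r)) := by
    rw [← hfT_sq (rt α * _), mul_pow, hβ]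
  rw [mul_sub, map_sub, BX_comm (A τ) l (gr σ τ r), e3, h3, sub_self]

end Pool.Agent.Work.MP_787500_nt.ER
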