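import Mathlib
import Pool.Agent.Work.MP_787500_nt.ER.RDim

/-!
# ER/Ref (size M): the reference plane `LX`

`X = A τ`, `X⁴ = 1`, `S = A σ`, `l = 2 j + 1`, `c = cl l = (l ^ 2 - 1) / 8`.
* `sum_X`: `∑ (k < l) X ^ k + c X ^ 3 (1 + X) (1 + X ^ l) = X ^ j` (`l` modulo 8: 1, 3, 5, 7; characteristic 2, `X⁴ = 1`).
* `finrank_LX`, `QX_LX`: `LX ≃ U` by `m ↦ (c X ^ 3 m, m)`; `QX = c ee (X⁴ m) m + c² ee (X ^ 3 m) (X⁴ m) + c ee m (X m)`, `c² = c`,
  `ee (X ^ 3 m) m = ee m (X m)`.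
* `BX_nd`: `BX` is nondegenerate, `BX_symm`. (`BX (p, (0, v'))` for all `v'` and `BX (p, (u', 0))` for all `u'`; the first gives `X u = c (X + X ^ 3) v`.
  then `X v = (X + X ^ 3) u`-like relation gives `v = c (1 + X²)² ..  v = 0` since `(1 + X²)² = 1 + X⁴ = 0`.)
* `finrank_ref`: `dim (LX ⊓ RX) + dim U^D = dim ker (S'' + 1)`, `S'' = X ^ (3 j) S` (`= X ^ (- j) S`): by `finrank_cR` for `Λ = LX` it is the dimension of
  the space of the cocycles `r` with `r σ = c X ^ 3 (r τ + X r τ)`; `r ↦ r τ` is injective on it (`QL.zP_det`) and the relation (`rel_y`, `exists_coc`) is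
  `(1 + X ^ l) r σ = (S + ∑ X ^ k) r τ`, that is `(S + X ^ j) r τ = 0` by `sum_X`.
-/

set_option autoImplicit false
set_option linter.unusedSectionVars false

namespace Pool.Agent.Work.MP_787500_nt.ER

open Matrix
open Pool.Agent.Work.MP_787500_nt.GP (A0 hf hf_add hf_zero hf_two hf_neg smul_hf eq_hf hf_inj IsAct d0 d1
  d2 tw cup11 cup02)
open Pool.Agent.Work.MP_787500_nt.KR (FSys Sm1 Sm2 IsChar Smooth Z1 Z2 B2 LocH Pair LDual z1s b1s)
open Pool.Agent.Work.MP_787500_nt.KT hiding Str Rel Sel KH Ai IsP cc ff TT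
open Pool.Agent.Work.MP_787500_nt.KS (hfT hfT_apply hfT_sq hfT_two hfT_neg smul_hfT hfT_nondeg
  inv_zero smul_F dF1 rt rt_sq zmod2_cases ep)
open Pool.Agent.Work.MP_787500_nt.QL (TameF fixP fixG)
open Pool.Agent.Work.MP_787500_nt.KI (Y2 R1 LKr LVal)

variable {F : Type*} [Field F] [Finite F] [CharP F 2] [Algebra (ZMod 2) F] {n : ℕ} [Sy F n]
  {D : Type*} [Group D] {S : FSys D} {χ a : D → ℤ_[2]} {σ τ : D} {l : ℕ} {I : Subgroup D}
  {iv : (D → D → A0) → A0} {A : D →* Matrix (Fin n) (Fin n) F} {ε : D → ZMod 2}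
  {L : Submodule F ((D → Fin n → F) × (D → Fin n → F))}

private theorem M_add_self (M : Matrix (Fin n) (Fin n) F) : M + M = 0 := by
  ext i j
  exact add_self (M i j)

private theorem powP {X : Matrix (Fin n) (Fin n) F} (hX : X ^ 4 = 1) (q r : ℕ) :
    X ^ (4 * q + r) = X ^ r := by
  rw [pow_add, pow_mul, hX, one_pow, one_mul]

private theorem sumP {X : Matrix (Fin n) (Fin n) F} (hX : X ^ 4 = 1) (q r : ℕ) :
    ∑ k ∈ Finset.range (8 * q + r), X ^ k = ∑ k ∈ Finset.range r, X ^ k := by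
  have hA : ∀ m, ∑ k ∈ Finset.range (m + 8), X ^ k = ∑ k ∈ Finset.range m, X ^ k := by
    intro m
    have h5 : ∀ m, X ^ (m + 4) = X ^ m := fun m => by rw [pow_add, hX, mul_one]
    rw [Finset.sum_range_succ, Finset.sum_range_succ, Finset.sum_range_succ, Finset.sum_range_succ,
      Finset.sum_range_succ, Finset.sum_range_succ, Finset.sum_range_succ, Finset.sum_range_succ]
    have e3 : X ^ (m + 7) = X ^ (m + 3) := h5 (m + 3)
    have e2 : X ^ (m + 6) = X ^ (m + 2) := h5 (m + 2)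
    have e1 : X ^ (m + 5) = X ^ (m + 1) := h5 (m + 1)
    rw [e3, e2, e1, h5 m]
    have a0 := M_add_self (X ^ m)
    have a1 := M_add_self (X ^ (m + 1))
    have a2 := M_add_self (X ^ (m + 2))
    have a3 := M_add_self (X ^ (m + 3))
    calc _ = ∑ k ∈ Finset.range m, X ^ k + ((X ^ m + X ^ m) + (X ^ (m + 1) + X ^ (m + 1)) +
        (X ^ (m + 2) + X ^ (m + 2)) + (X ^ (m + 3) + X ^ (m + 3))) := by abel
      _ = _ := by rw [a0, a1, a2, a3]; simp
  induction q with
  | zero => simp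
  | succ q ih =>
    rw [show 8 * (q + 1) + r = (8 * q + r) + 8 by ring, hA, ih]

private theorem cl_sq (l : ℕ) : cl F l * cl F l = cl F l := by
  unfold cl
  rcases CharTwo.natCast_cases F ((l ^ 2 - 1) / 8) with h | h <;> rw [h] <;> simp

private theorem cl_mod (q r : ℕ) (hr : r % 2 = 1) : cl F (8 * q + r) = cl F r := by
  unfold cl
  obtain ⟨s, rfl⟩ : ∃ s, r = 2 * s + 1 := ⟨r / 2, by omega⟩
  have e : ((8 * q + (2 * s + 1)) ^ 2 - 1) / 8 =
      2 * (4 * q ^ 2 + q * (2 * s + 1)) + ((2 * s + 1) ^ 2 - 1) / 8 := by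
    have h1 : (8 * q + (2 * s + 1)) ^ 2 - 1 =
        8 * (2 * (4 * q ^ 2 + q * (2 * s + 1))) + ((2 * s + 1) ^ 2 - 1) := by
      have h2 : (8 * q + (2 * s + 1)) ^ 2 =
        8 * (2 * (4 * q ^ 2 + q * (2 * s + 1))) + (2 * s + 1) ^ 2 := by ring
      rw [h2]
      have h3 : 1 ≤ (2 * s + 1) ^ 2 := Nat.one_le_pow _ _ (by omega)
      omega
    rw [h1]
    omega
  rw [e]
  push_cast
  rw [show (2 : F) = 0 from CharTwo.two_eq_zero]
  ring

private theorem poly_id {X : Matrix (Fin n) (Fin n) F} (hX : X ^ 4 = 1)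
    {P Q R : Polynomial F} (h : P = Q + (Polynomial.X ^ 4 + 1) * R) :
    Polynomial.aeval X P = Polynomial.aeval X Q := by
  rw [h, map_add, map_mul, map_add, map_pow, Polynomial.aeval_X, hX, map_one, M_add_self, zero_mul,
    add_zero]

theorem sum_X {X : Matrix (Fin n) (Fin n) F} (hX : X ^ 4 = 1) {l : ℕ} (hl : Odd l) :
    ∑ k ∈ Finset.range l, X ^ k + cl F l • (X ^ 3 * (1 + X) * (1 + X ^ l)) = X ^ (l / 2) := by
  obtain ⟨q, r, hr, rfl⟩ : ∃ q r, (r = 1 ∨ r = 3 ∨ r = 5 ∨ r = 7) ∧ l = 8 * q + r := by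
    obtain ⟨m, rfl⟩ := hl
    exact ⟨(2 * m + 1) / 8, (2 * m + 1) % 8, by omega, by omega⟩
  have e1 : X ^ (8 * q + r) = X ^ r := by
    rw [show 8 * q + r = 4 * (2 * q) + r by ring]
    exact powP hX _ _
  have e2 : X ^ ((8 * q + r) / 2) = X ^ (r / 2) := by
    rw [show (8 * q + r) / 2 = 4 * q + r / 2 by omega]
    exact powP hX _ _
  rw [e1, e2, sumP hX, cl_mod q r (by omega)]
  have h2 : (2 : Polynomial F) = 0 := CharTwo.two_eq_zero
  rcases hr with rfl | rfl | rfl | rfl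
  · simp [cl]
  · have hc : cl F 3 = 1 := by simp [cl]
    rw [hc, one_smul]
    have h := poly_id hX (P := 1 + Polynomial.X + Polynomial.X ^ 2 +
      Polynomial.X ^ 3 * (1 + Polynomial.X) * (1 + Polynomial.X ^ 3)) (Q := Polynomial.X)
      (R := 1 + Polynomial.X ^ 2 + Polynomial.X ^ 3) (by
        ring)
    simpa [Finset.sum_range_succ] using h
  · have hc : cl F 5 = 1 := by
      show (((5 ^ 2 - 1) / 8 : ℕ) : F) = 1
      norm_num
      rw [show (3 : F) = 2 + 1 by norm_num, show (2 : F) = 0 from CharTwo.two_eq_zero, zero_add]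
    rw [hc, one_smul]
    have h := poly_id hX (P := 1 + Polynomial.X + Polynomial.X ^ 2 + Polynomial.X ^ 3 +
      Polynomial.X ^ 4 +
      Polynomial.X ^ 3 * (1 + Polynomial.X) * (1 + Polynomial.X ^ 5)) (Q := Polynomial.X ^ 2)
      (R := (1 + Polynomial.X) * (1 + Polynomial.X ^ 4)) (by
        linear_combination (Polynomial.X ^ 3 - Polynomial.X ^ 5 : Polynomial F) * h2)
    simpa [Finset.sum_range_succ] using h
  · have hc : cl F 7 = 0 := by
      show (((7 ^ 2 - 1) / 8 : ℕ) : F) = 0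
      norm_num
      rw [show (6 : F) = 2 * 3 by norm_num, show (2 : F) = 0 from CharTwo.two_eq_zero, zero_mul]
    rw [hc, zero_smul, add_zero]
    have h := poly_id hX (P := 1 + Polynomial.X + Polynomial.X ^ 2 + Polynomial.X ^ 3 +
      Polynomial.X ^ 4 + Polynomial.X ^ 5 + Polynomial.X ^ 6) (Q := Polynomial.X ^ 3)
      (R := 1 + Polynomial.X + Polynomial.X ^ 2) (by ring)
    simpa [Finset.sum_range_succ] using h

theorem finrank_LX (X : Matrix (Fin n) (Fin n) F) (l : ℕ) : Module.finrank F (LX X l) = n := by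
  let f : (Fin n → F) →ₗ[F] LX X l :=
    { toFun := fun m => ⟨(cl F l • ((X ^ 3) *ᵥ m), m), rfl⟩
      map_add' := fun a b => by
        apply Subtype.ext
        show (cl F l • ((X ^ 3) *ᵥ (a + b)), a + b) =
          (cl F l • ((X ^ 3) *ᵥ a) + cl F l • ((X ^ 3) *ᵥ b), a + b)
        rw [mulVec_add, smul_add]
      map_smul' := fun c a => by
        apply Subtype.ext
        show (cl F l • ((X ^ 3) *ᵥ (c • a)), c • a) =
          (c • (cl F l • ((X ^ 3) *ᵥ a)), c • a)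
        rw [mulVec_smul, smul_comm] }
  have h1 : Function.Injective f := fun a b h => congrArg (fun x : LX X l => x.1.2) h
  have h2 : Function.Surjective f := by
    rintro ⟨⟨p1, p2⟩, hp⟩
    refine ⟨p2, Subtype.ext (Prod.ext ?_ rfl)⟩
    exact (mem_LX.1 hp).symm
  have h3 := LinearEquiv.finrank_eq (LinearEquiv.ofBijective f ⟨h1, h2⟩)
  rw [← h3, Module.finrank_fin_fun]

theorem QX_LX {X : Matrix (Fin n) (Fin n) F} (hs : IsSp X) (hX : X ^ 4 = 1) (l : ℕ) :
    ∀ p ∈ LX X l, QX X l p = 0 := by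
  intro p hp
  have h1 : p.1 = cl F l • ((X ^ 3) *ᵥ p.2) := mem_LX.1 hp
  have h2 : X *ᵥ p.1 = cl F l • p.2 := by
    rw [h1, mulVec_smul, mulVec_mulVec, ← pow_succ', hX, one_mulVec]
  have h3 : ee ((X ^ 3) *ᵥ p.2) p.2 = ee p.2 (X *ᵥ p.2) := by
    rw [← ee_mulVec hs, mulVec_mulVec, ← pow_succ', hX, one_mulVec]
  unfold QX
  rw [h2, h1, ee_smul_left, ee_smul_left, ee_smul_right, ee_self, h3]
  have h4 := cl_sq (F := F) l
  have h5 := add_self (cl F l * ee p.2 (X *ᵥ p.2))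
  linear_combination (ee p.2 (X *ᵥ p.2)) * h4 + h5

theorem BX_symm (X : Matrix (Fin n) (Fin n) F) (l : ℕ) (p q : (Fin n → F) × (Fin n → F)) :
    BX X l p q = BX X l q p := by
  unfold BX
  ring

theorem BX_nd {X : Matrix (Fin n) (Fin n) F} (hs : IsSp X) (hX : X ^ 4 = 1) (l : ℕ)
    {p : (Fin n → F) × (Fin n → F)} (hp : ∀ q, BX X l p q = 0) : p = 0 := by
  obtain ⟨u, v⟩ := p
  have hX3 : ∀ x : Fin n → F, X *ᵥ ((X ^ 3) *ᵥ x) = x := fun x => by
    rw [mulVec_mulVec, ← pow_succ', hX, one_mulVec]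
  have e3 : ∀ x y : Fin n → F, ee x (X *ᵥ y) = ee ((X ^ 3) *ᵥ x) y := fun x y => by
    rw [← ee_mulVec hs ((X ^ 3) *ᵥ x) y, hX3]
  have h1 : X *ᵥ u + cl F l • ((X ^ 3) *ᵥ v + X *ᵥ v) = 0 := by
    refine ee_nondeg fun y => ?_
    have h := hp (0, y)
    unfold BX at h
    simp only [mulVec_zero, ee_zero_left, ee_zero_right] at h
    rw [e3 v y, ee_comm y (X *ᵥ v)] at h
    rw [ee_add_left, ee_smul_left, ee_add_left]
    linear_combination h
  have h2 : (X ^ 3) *ᵥ v + ((X ^ 3) *ᵥ u + X *ᵥ u) = 0 := by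
    refine ee_nondeg fun y => ?_
    have h := hp (y, 0)
    unfold BX at h
    simp only [mulVec_zero, ee_zero_left, ee_zero_right] at h
    rw [e3 u y, ee_comm y (X *ᵥ u), ee_comm (X *ᵥ y) v, e3 v y] at h
    rw [ee_add_left, ee_add_left]
    linear_combination h
  have h3 : v = u + (X ^ 2) *ᵥ u := by
    have h := congrArg (X *ᵥ ·) h2
    simp only [mulVec_add, mulVec_zero, hX3] at h
    rw [mulVec_mulVec, ← pow_two] at h
    have h5 := U_cancel h
    rwa [add_zero] at h5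
  have h4 : u = cl F l • (v + (X ^ 2) *ᵥ v) := by
    have h5 := U_cancel h1
    rw [add_zero] at h5
    have h := congrArg ((X ^ 3) *ᵥ ·) h5
    simp only [mulVec_add, mulVec_smul, mulVec_mulVec] at h
    rw [← pow_succ, hX, one_mulVec, ← pow_add, show 3 + 3 = 4 + 2 from rfl, pow_add, hX, one_mul,
      one_mulVec] at h
    rw [h, add_comm]
  have h5 : v + (X ^ 2) *ᵥ v = 0 := by
    have h6 : v + (X ^ 2) *ᵥ v = (u + (X ^ 2) *ᵥ u) + ((X ^ 2) *ᵥ u + (X ^ 2) *ᵥ ((X ^ 2) *ᵥ u)) := by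
      rw [← mulVec_add, ← h3]
    have h7 : (X ^ 2) *ᵥ ((X ^ 2) *ᵥ u) = u := by
      rw [mulVec_mulVec, ← pow_add, show 2 + 2 = 4 from rfl, hX, one_mulVec]
    rw [h6, h7, add_comm ((X ^ 2) *ᵥ u) u, U_add_self]
  have h6 : u = 0 := by rw [h4, h5, smul_zero]
  rw [h6, mulVec_zero, add_zero] at h3
  rw [h6, h3]
  rfl

/-- the polar form, as a bilinear map -/
noncomputable def BL (X : Matrix (Fin n) (Fin n) F) (l : ℕ) :
    ((Fin n → F) × (Fin n → F)) →ₗ[F] ((Fin n → F) × (Fin n → F)) →ₗ[F] F :=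
  LinearMap.mk₂ F (BX X l)
    (fun p p' q => by
      simp only [BX, Prod.fst_add, Prod.snd_add, mulVec_add, ee_add_left, ee_add_right]
      ring)
    (fun a p q => by
      simp only [BX, Prod.smul_fst, Prod.smul_snd, mulVec_smul, ee_smul_left, ee_smul_right,
        smul_eq_mul]
      ring)
    (fun p q q' => by
      simp only [BX, Prod.fst_add, Prod.snd_add, mulVec_add, ee_add_left, ee_add_right]
      ring)
    (fun a p q => by
      simp only [BX, Prod.smul_fst, Prod.smul_snd, mulVec_smul, ee_smul_left, ee_smul_right,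
        smul_eq_mul]
      ring)

theorem BL_apply (X : Matrix (Fin n) (Fin n) F) (l : ℕ) (p q : (Fin n → F) × (Fin n → F)) :
    BL X l p q = BX X l p q := rfl

theorem finrank_ref (h : TR S χ a σ τ l I iv A ε) :
    Module.finrank F ↥(LX (A τ) l ⊓ RX S A σ τ) + Module.finrank F (QP.fixG A) =
      Module.finrank F (fixv (A τ ^ (3 * (l / 2)) * A σ)) := by
  rw [← finrank_cR h]
  have hX := h.x4
  have hl := h.tame.lodd
  let f : cR S A σ τ (LX (A τ) l) →ₗ[F] (Fin n → F) :=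
    (LinearMap.proj τ).comp (Submodule.subtype _)
  have hf : ∀ r, f r = r.1 τ := fun r => rfl
  have hmem : ∀ r : D → Fin n → F, r ∈ cR S A σ τ (LX (A τ) l) ↔
      Z1 S (KT.act A) r ∧ r σ = cl F l • ((A τ ^ 3) *ᵥ r (τ * τ)) := fun r => Iff.rfl
  have hsq : ∀ r : D → Fin n → F, Z1 S (KT.act A) r → r (τ * τ) = r τ + A τ *ᵥ r τ :=
    fun r hr => hr.2 τ τ
  have hinj : Function.Injective f := by
    rw [injective_iff_map_eq_zero]
    rintro ⟨r, hr⟩ h0
    rw [hf] at h0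
    have h0' : r τ = 0 := h0
    obtain ⟨h1, h2⟩ := (hmem r).1 hr
    rw [hsq r h1, h0', mulVec_zero, add_zero, mulVec_zero, smul_zero] at h2
    apply Subtype.ext
    exact y_det h h1 h2 h0'
  have hran : LinearMap.range f = fixv (A τ ^ (3 * (l / 2)) * A σ) := by
    ext v
    rw [LinearMap.mem_range, mem_fixv]
    have hkey : ∀ u v : Fin n → F, u = cl F l • ((A τ ^ 3) *ᵥ (v + A τ *ᵥ v)) →
        (u + A σ *ᵥ v = (∑ k ∈ Finset.range l, A τ ^ k) *ᵥ v + A τ ^ l *ᵥ u ↔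
          A σ *ᵥ v = A τ ^ (l / 2) *ᵥ v) := by
      intro u v hu
      have h1 : (∑ k ∈ Finset.range l, A τ ^ k) *ᵥ v + (u + A τ ^ l *ᵥ u) =
          A τ ^ (l / 2) *ᵥ v := by
        rw [← sum_X hX hl, add_mulVec, smul_mulVec]
        congr 1
        have h2 : u = cl F l • ((A τ ^ 3 * (1 + A τ)) *ᵥ v) := by
          rw [hu, ← mulVec_mulVec, add_mulVec, one_mulVec]
        have h3 : u + A τ ^ l *ᵥ u = (1 + A τ ^ l) *ᵥ u := by rw [add_mulVec, one_mulVec]
        rw [h3, h2, mulVec_smul, mulVec_mulVec]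
        congr 2
        have c1 : Commute (1 + A τ ^ l) (A τ ^ 3 * (1 + A τ)) := by
          have c2 : Commute (1 + A τ ^ l) (A τ) :=
            (Commute.one_left _).add_left ((Commute.refl (A τ)).pow_left l)
          exact (c2.pow_right 3).mul_right ((Commute.one_right _).add_right c2)
        exact c1.eq
      constructor
      · intro h2
        rw [← h1]
        have h3 := U_cancel h2
        rw [← add_assoc] 
        have h4 : (∑ k ∈ Finset.range l, A τ ^ k) *ᵥ v + u + A τ ^ l *ᵥ u =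
            u + ((∑ k ∈ Finset.range l, A τ ^ k) *ᵥ v + A τ ^ l *ᵥ u) := by abel
        rw [h4, ← h2, ← add_assoc, U_add_self, zero_add]
      · intro h2
        rw [h2, ← h1]
        have h4 : u + ((∑ k ∈ Finset.range l, A τ ^ k) *ᵥ v + (u + A τ ^ l *ᵥ u)) =
            (u + u) + ((∑ k ∈ Finset.range l, A τ ^ k) *ᵥ v + A τ ^ l *ᵥ u) := by abel
        rw [h4, U_add_self, zero_add]
    have hfix : A σ *ᵥ v = A τ ^ (l / 2) *ᵥ v ↔ (A τ ^ (3 * (l / 2)) * A σ) *ᵥ v = v := by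
      have e4 : A τ ^ (3 * (l / 2)) * A τ ^ (l / 2) = 1 := by
        rw [← pow_add, show 3 * (l / 2) + l / 2 = 4 * (l / 2) by ring, pow_mul, hX, one_pow]
      have e4' : A τ ^ (l / 2) * A τ ^ (3 * (l / 2)) = 1 := by
        rw [← pow_add, show l / 2 + 3 * (l / 2) = 4 * (l / 2) by ring, pow_mul, hX, one_pow]
      constructor
      · intro h1
        rw [← mulVec_mulVec, h1, mulVec_mulVec, e4, one_mulVec]
      · intro h1
        conv_rhs => rw [← h1]
        rw [mulVec_mulVec, ← mul_assoc, e4', one_mul]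
    rw [← hfix]
    constructor
    · rintro ⟨⟨r, hr⟩, rfl⟩
      rw [hf]
      obtain ⟨h1, h2⟩ := (hmem r).1 hr
      rw [hsq r h1] at h2
      exact (hkey _ _ h2).1 (rel_y h h1)
    · intro h1
      obtain ⟨r, hr1, hr2, hr3⟩ := exists_coc h ((hkey _ v rfl).2 h1)
      refine ⟨⟨r, (hmem r).2 ⟨hr1, ?_⟩⟩, hr3⟩
      rw [hsq r hr1, hr3, hr2]
  rw [← hran, LinearMap.finrank_range_of_inj hinj]

end Pool.Agent.Work.MP_787500_nt.ER
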