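import Mathlib
import Pool.Agent.Work.MP_787500_nt.ER.Iota
import Pool.Agent.Work.MP_787500_nt.ER.Ref

/-!
# ER/Kap (size M-L): the value at the correction class for the reference plane is a Dickson number

`(b, k)`, `k = kc A`, a pair with `gv (b, k) ∈ LX`. Then the invariant of `⟨b s, A s k t⟩ + ε s mm (A t)` is `tauZ (S'')`, `S'' = X ^ (3 j) S`,
`X = A τ`, `S = A σ`, `l = 2 j + 1`.

PROOF. (1) SHIFT. Let `w` with `kk X = X w + w` (`KT.kk_fix`, `kk_of_fix`). Put `k' g = k g + A g w + w`, `b' g = b g + ε g (A g w)` (again a pair, `gv` unchanged,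
`k' τ = 0`), `m' g = mm (A g) + ee (kk (A g)) (A g w + w) + ee w (A g w)`. The cochains `⟨b s, A s k t⟩ + ε s mm (A t)` and `⟨b' s, A s k' t⟩ + ε s m' t` differ by the
coboundary of `ee (b' s) (A s w)` (all with the factor `α`): indeed `⟨b, A k⟩ = ⟨b', A k'⟩ + ⟨b' s, A s (A t + 1) w⟩ + ε s ee w (k' t) + ε s ee w ((A t + 1) w)` and
`⟨b' s, A s (A t + 1) w⟩` is the coboundary plus `ε s ee (k' t) (A t w)`. (2) `m' (g h) = m' g + m' h + ee (k' g) (A g k' h)` (`KT.mm_mul`, `kk_mul`), and if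
`k' g = A g v + v` then `tauZ (A g) = ee v (k' g) + m' g` (`KT.tauZ_map` with `v + w`).
(3) `X k' σ = k' σ`: the relation (`rel_y`) for `k'`, `k' τ = 0`: `k' σ = X ^ l k' σ`, `l` odd, `X⁴ = 1`. `rel_a`, `a_pow` (`k' τ = 0`):
`b' σ + S b' τ = (∑ X ^ k) b' τ + X ^ l b' σ + k' σ`; `gv ∈ LX` and `a_two`: `b' σ = c X ^ 3 (1 + X) b' τ`; `sum_X`: `S b' τ + X ^ j b' τ = k' σ`, so (multiply by
`X ^ (3 j)`, which fixes `k' σ`) `S'' b' τ + b' τ = k' σ = k' (τ ^ (3 j) σ)` (`k' (τ ^ i) = 0`). So `tauZ S'' = ee (b' τ) (k' σ) + m' (τ ^ (3 j) σ)`, and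
`m' (τ ^ (3 j) σ) = 3 j m' τ + m' σ` (the cross terms are 0).
(4) `iota` for `z (s, t) = ee (b' s) (A s k' t) + ε s m' t` (a 2-cocycle, `P_I`-invariant: `KT.leib_lift`, or direct from `b'`, `k'`, (2)):
`io z = 0 + ee (b' (τ ^ l)) (X ^ l k' σ) + m' σ + ∑ (i = 1 .. l - 1) (i : F) m' τ = ee (b' τ) (k' σ) + m' σ + j m' τ` (`b' (τ ^ l) = ∑ X ^ k b' τ`, `X k' σ = k' σ`, `l` odd;
there are `j` odd numbers below `l`; `3 j = j` modulo 2). So `io z = tauZ S''` and `hfT (α tauZ) = hf (trace α * tauZ)`.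
-/

set_option autoImplicit false
set_option linter.unusedSectionVars false

namespace Pool.Agent.Work.MP_787500_nt.ER

open Matrix
open Pool.Agent.Work.MP_787500_nt.GP (A0 hf hf_add hf_zero hf_two hf_neg smul_hf eq_hf hf_inj IsAct d0 d1
  d2 tw cup11 cup02)
open Pool.Agent.Work.MP_787500_nt.KR (FSys Sm1 Sm2 IsChar Smooth Z1 Z2 B2 LocH Pair LDual z1s b1s)
open Pool.Agent.Work.MP_787500_nt.KT hiding Str Rel Sel KH Ai IsP cc ff TT
open Pool.Agent.Work.MP_787500_nt.KS (hfT hfT_apply hfT_sq hfT_two hfT_neg smul_hfT hfT_nondeg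
  inv_zero smul_F dF1 rt rt_sq zmod2_cases ep)
open Pool.Agent.Work.MP_787500_nt.QL (TameF fixP fixG)
open Pool.Agent.Work.MP_787500_nt.KI (Y2 R1 LKr LVal)

variable {F : Type*} [Field F] [Finite F] [CharP F 2] [Algebra (ZMod 2) F] {n : ℕ} [Sy F n]
  {D : Type*} [Group D] {S : FSys D} {χ a : D → ℤ_[2]} {σ τ : D} {l : ℕ} {I : Subgroup D}
  {iv : (D → D → A0) → A0} {A : D →* Matrix (Fin n) (Fin n) F} {ε : D → ZMod 2}
  {L : Submodule F ((D → Fin n → F) × (D → Fin n → F))}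

/-- the shifted correction class -/
private noncomputable def kp (A : D →* Matrix (Fin n) (Fin n) F) (w : Fin n → F) (g : D) :
    Fin n → F := kk (A g) + (A g *ᵥ w + w)

/-- the shifted secondary class -/
private noncomputable def mp (A : D →* Matrix (Fin n) (Fin n) F) (w : Fin n → F) (g : D) : F :=
  mm (A g) + ee (kk (A g)) (A g *ᵥ w + w) + ee w (A g *ᵥ w)

/-- the shifted lift -/
private def bp (A : D →* Matrix (Fin n) (Fin n) F) (ε : D → ZMod 2) (b : D → Fin n → F)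
    (w : Fin n → F) (g : D) : Fin n → F := b g + ε g • (A g *ᵥ w)

private theorem kp_co (hA : ∀ g, IsSp (A g)) (w : Fin n → F) : IsCo A (kp A w) := by
  intro g k
  have h1 := kk_mul (hA g) (hA k)
  unfold kp
  simp only [map_mul, h1, mulVec_add, ← mulVec_mulVec]
  ext i
  simp only [Pi.add_apply]
  linear_combination (norm := (ring_nf; reduce_mod_char!))

private theorem kp_Z1 (h : TR S χ a σ τ l I iv A ε) (w : Fin n → F) :
    Z1 S (KT.act A) (kp A w) := by
  obtain ⟨W, hW, h1⟩ := smooth_A h.sm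
  refine ⟨⟨W, hW, fun g v hv => ?_⟩, fun g k => kp_co h.sp w g k⟩
  unfold kp
  rw [map_mul, h1 v hv, mul_one]

private theorem mp_mul (hA : ∀ g, IsSp (A g)) (w : Fin n → F) (g k : D) :
    mp A w (g * k) = mp A w g + mp A w k + ee (kp A w g) (A g *ᵥ kp A w k) := by
  have h1 := mm_mul (hA g) (hA k)
  have h2 := kk_mul (hA g) (hA k)
  unfold mp kp
  simp only [map_mul, h1, h2, mulVec_add, ← mulVec_mulVec, ee_add_left, ee_add_right,
    ee_mulVec (hA g), ee_self, ee_comm (A g *ᵥ kk (A k)) w]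
  simp only [ee_comm (kk (A k)) w]
  linear_combination (norm := (ring_nf; reduce_mod_char!))

private theorem kp_tau (hA : ∀ g, IsSp (A g)) {w v : Fin n → F} {g : D}
    (hv : kp A w g = A g *ᵥ v + v) :
    algebraMap (ZMod 2) F (tauZ (A g)) = ee v (kp A w g) + mp A w g := by
  have h0 : kk (A g) = A g *ᵥ (v + w) + (v + w) := by
    have h1 : kk (A g) = (A g *ᵥ v + v) + (A g *ᵥ w + w) := by
      rw [← hv]
      unfold kp
      rw [add_assoc, U_add_self, add_zero]
    rw [h1, mulVec_add]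
    abel
  rw [tauZ_map (hA g) h0]
  unfold mp
  rw [hv, h0]
  simp only [mulVec_add, ee_add_left, ee_add_right, ee_mulVec (hA g), ee_self]
  simp only [ee_comm (A g *ᵥ w) w, ee_comm (A g *ᵥ v) w]
  linear_combination (norm := (ring_nf; reduce_mod_char!))

private theorem bp_ZP (h : TR S χ a σ τ l I iv A ε) {b : D → Fin n → F}
    (hb : ZP S A ε (b, kc A)) (w : Fin n → F) : ZP S A ε (bp A ε b w, kp A w) := by
  refine ⟨kp_Z1 h w, ?_, fun g k => ?_⟩
  · obtain ⟨W, hW, h1⟩ := smooth_A h.sm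
    obtain ⟨W', hW', h2⟩ := h.esm
    obtain ⟨W'', hW'', h3⟩ := hb.2.1
    refine ⟨W ⊓ (W' ⊓ W''), S.inf hW (S.inf hW' hW''), fun g v hv => ?_⟩
    have h4 : b (g * v) = b g := h3 g v hv.2.2
    show b (g * v) + ε (g * v) • (A (g * v) *ᵥ w) = b g + ε g • (A g *ᵥ w)
    rw [h4, h2 g v hv.2.1, map_mul, h1 v hv.1, mul_one]
  · have h1 : b (g * k) = b g + A g *ᵥ b k + ε g • (A g *ᵥ kk (A k)) := hb.2.2 g k
    show b (g * k) + ε (g * k) • (A (g * k) *ᵥ w) = b g + ε g • (A g *ᵥ w) +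
      A g *ᵥ (b k + ε k • (A k *ᵥ w)) + ε g • (A g *ᵥ (kk (A k) + (A k *ᵥ w + w)))
    rw [h1, h.eadd, map_mul]
    simp only [smul_U, mulVec_add, mulVec_smul, ← mulVec_mulVec, map_add]
    ext i
    simp only [Pi.add_apply, Pi.smul_apply, smul_eq_mul]
    linear_combination (norm := (ring_nf; reduce_mod_char!))

/-- the cochains differ by a coboundary -/
private theorem kap_diff (h : TR S χ a σ τ l I iv A ε) {b : D → Fin n → F}
    (hb : ZP S A ε (b, kc A)) (w : Fin n → F) (s t : D) :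
    ee (b s) (A s *ᵥ kk (A t)) + ε s • mm (A t) =
      ee (bp A ε b w s) (A s *ᵥ kp A w t) + ε s • mp A w t +
        dF1 (fun g => ee (bp A ε b w g) (A g *ᵥ w)) s t := by
  have h1 := (bp_ZP h hb w).2.2 s t
  dsimp only at h1
  unfold dF1
  beta_reduce
  have h2 : b s = bp A ε b w s + ε s • (A s *ᵥ w) := by
    unfold bp
    rw [add_assoc, U_add_self, add_zero]
  have h3 : kk (A t) = kp A w t + (A t *ᵥ w + w) := by
    unfold kp
    rw [add_assoc, U_add_self, add_zero]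
  have h4 : mm (A t) = mp A w t + ee (kk (A t)) (A t *ᵥ w + w) + ee w (A t *ᵥ w) := by
    unfold mp
    linear_combination (norm := (ring_nf; reduce_mod_char!))
  rw [h1, h4, h3, map_mul, ← mulVec_mulVec]
  nth_rewrite 1 [h2]
  generalize bp A ε b w s = b1
  generalize bp A ε b w t = b2
  generalize kp A w t = k1
  generalize mp A w t = m1
  simp only [smul_U, smul_F, mulVec_add, ee_add_left, ee_add_right, ee_smul_left,
    ee_mulVec (h.sp s), ee_self]
  simp only [ee_comm (A t *ᵥ w) w, ee_comm w k1]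
  linear_combination (norm := (ring_nf; reduce_mod_char!))

/-- the 2-cochain -/
private noncomputable def zp (A : D →* Matrix (Fin n) (Fin n) F) (ε : D → ZMod 2)
    (b : D → Fin n → F) (w : Fin n → F) (s t : D) : F :=
  ee (bp A ε b w s) (A s *ᵥ kp A w t) + ε s • mp A w t

private theorem zp_sm (h : TR S χ a σ τ l I iv A ε) {b : D → Fin n → F}
    (hb : ZP S A ε (b, kc A)) (w : Fin n → F) : Sm2 S (zp A ε b w) := by
  obtain ⟨W1, hW1, h1⟩ := smooth_A h.sm
  obtain ⟨W2, hW2, h2⟩ := h.esm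
  obtain ⟨W3, hW3, h3⟩ := (bp_ZP h hb w).2.1
  obtain ⟨W4, hW4, h4⟩ := (kp_Z1 h w).1
  refine ⟨W1 ⊓ (W2 ⊓ (W3 ⊓ W4)), S.inf hW1 (S.inf hW2 (S.inf hW3 hW4)),
    fun g k v hv v' hv' => ?_⟩
  have e1 : bp A ε b w (g * v) = bp A ε b w g := h3 g v hv.2.2.1
  have e2 : mp A w (k * v') = mp A w k := by
    unfold mp
    rw [map_mul, h1 v' hv'.1, mul_one]
  unfold zp
  rw [e1, e2, h4 k v' hv'.2.2.2, h2 g v hv.2.1, map_mul, h1 v hv.1, mul_one]

private theorem zp_coc (h : TR S χ a σ τ l I iv A ε) {b : D → Fin n → F}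
    (hb : ZP S A ε (b, kc A)) (w : Fin n → F) (g k m : D) :
    zp A ε b w g k + zp A ε b w (g * k) m = zp A ε b w k m + zp A ε b w g (k * m) := by
  have h1 := leib_lift h.sp (bp_ZP h hb w).2.2 (kp_co h.sp w) g k m
  have h2 := mp_mul h.sp w k m
  unfold KS.dF2 at h1
  dsimp only at h1
  unfold zp
  rw [h.eadd, h2]
  simp only [smul_F, map_add] at h1 ⊢
  linear_combination (norm := (ring_nf; reduce_mod_char!)) h1

private theorem kp_pow (h : TR S χ a σ τ l I iv A ε) {w : Fin n → F} (hw : kp A w τ = 0) (i : ℕ) :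
    kp A w (τ ^ i) = 0 := by
  rw [y_pow (kp_Z1 h w) i, hw, mulVec_zero]

private theorem mp_pow (h : TR S χ a σ τ l I iv A ε) {w : Fin n → F} (hw : kp A w τ = 0) (i : ℕ) :
    mp A w (τ ^ i) = (i : F) * mp A w τ := by
  induction i with
  | zero =>
    have h1 := mp_mul h.sp w (τ ^ 0) (τ ^ 0)
    rw [kp_pow h hw 0, mulVec_zero, ee_zero_left, pow_zero, mul_one, add_zero] at h1
    rw [pow_zero, Nat.cast_zero, zero_mul]
    linear_combination -h1
  | succ i ih =>
    rw [pow_succ, mp_mul h.sp, ih, hw, mulVec_zero, ee_zero_right]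
    push_cast
    ring

private theorem kap_X (h : TR S χ a σ τ l I iv A ε) {u : Fin n → F} (hu : A τ ^ l *ᵥ u = u)
    (i : ℕ) : A τ ^ i *ᵥ u = u := by
  obtain ⟨m, hm⟩ := h.tame.lodd
  have h1 : A τ *ᵥ u = u := by
    have h2 : A τ ^ (l * l) *ᵥ u = u := by
      rw [pow_mul]
      have h3 : ∀ r : ℕ, (A τ ^ l) ^ r *ᵥ u = u := by
        intro r
        induction r with
        | zero => rw [pow_zero, one_mulVec]
        | succ r ih => rw [pow_succ, ← mulVec_mulVec, hu, ih]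
      exact h3 l
    have h4 : l * l = 4 * (m * (m + 1)) + 1 := by rw [hm]; ring
    rw [h4, pow_succ, pow_mul, h.x4, one_pow, one_mul] at h2
    exact h2
  induction i with
  | zero => rw [pow_zero, one_mulVec]
  | succ i ih => rw [pow_succ, ← mulVec_mulVec, h1, ih]

/-- the relation for the shifted pair -/
private theorem kap_rel (h : TR S χ a σ τ l I iv A ε) {b : D → Fin n → F}
    (hb : ZP S A ε (b, kc A)) (hg : gv σ τ (b, kc A) ∈ LX (A τ) l) {w : Fin n → F}
    (hw : kp A w τ = 0) :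
    kp A w (τ ^ (3 * (l / 2)) * σ) = A (τ ^ (3 * (l / 2)) * σ) *ᵥ bp A ε b w τ + bp A ε b w τ := by
  have hP := bp_ZP h hb w
  have hk1 : (A τ ^ l) *ᵥ kp A w σ = kp A w σ := by
    have h1 := rel_y h hP.1
    dsimp only at h1
    rw [hw, mulVec_zero, mulVec_zero, add_zero, zero_add] at h1
    exact h1.symm
  have e1 : bp A ε b w σ = b σ := by
    unfold bp
    rw [h.eσ, zero_smul, add_zero]
  have e2 : bp A ε b w (τ * τ) = b (τ * τ) := by
    unfold bp
    rw [h.eadd, h.eτ, CharTwo.add_self_eq_zero, zero_smul, add_zero]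
  have h2 : bp A ε b w (τ * τ) = bp A ε b w τ + A τ *ᵥ bp A ε b w τ := by
    have h3 := a_two h hP
    dsimp only at h3
    rw [h3, hw, mulVec_zero, add_zero]
  have h3 : b σ = cl F l • (A τ ^ 3 *ᵥ b (τ * τ)) := mem_LX.1 hg
  rw [← e1, ← e2, h2] at h3
  have h4 := rel_a h hP
  have h5 := a_pow h hP l
  dsimp only at h4 h5
  rw [h5, hw, mulVec_zero, add_zero, mulVec_add, hk1] at h4
  have h6 := sum_X h.x4 h.tame.lodd
  have h7 : (∑ k ∈ Finset.range l, A τ ^ k +
      cl F l • (A τ ^ 3 * (1 + A τ) * (1 + A τ ^ l))) *ᵥ bp A ε b w τ =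
      A τ ^ (l / 2) *ᵥ bp A ε b w τ := by rw [h6]
  rw [add_mulVec, smul_mulVec] at h7
  have hc : (A τ ^ 3 * (1 + A τ)) * (1 + A τ ^ l) = (1 + A τ ^ l) * (A τ ^ 3 * (1 + A τ)) :=
    (Commute.mul_left ((Commute.one_right _).add_right (Commute.pow_pow_self (A τ) 3 l))
      ((Commute.one_right _).add_right ((Commute.one_left _).add_left
        (Commute.self_pow (A τ) l)))).eq
  have h8 : cl F l • ((A τ ^ 3 * (1 + A τ) * (1 + A τ ^ l)) *ᵥ bp A ε b w τ) =
      bp A ε b w σ + A τ ^ l *ᵥ bp A ε b w σ := by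
    have h9 : cl F l • ((A τ ^ 3 * (1 + A τ)) *ᵥ bp A ε b w τ) = bp A ε b w σ := by
      rw [h3, ← mulVec_mulVec, add_mulVec, one_mulVec]
    rw [hc, ← mulVec_mulVec, ← mulVec_smul, h9, add_mulVec, one_mulVec]
  rw [h8] at h7
  have h10 : kp A w σ = A σ *ᵥ bp A ε b w τ + A τ ^ (l / 2) *ᵥ bp A ε b w τ := by
    rw [← h7]
    have h11 : kp A w σ = bp A ε b w σ + A σ *ᵥ bp A ε b w τ +
        ((∑ k ∈ Finset.range l, A τ ^ k) *ᵥ bp A ε b w τ + A τ ^ l *ᵥ bp A ε b w σ) := by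
      rw [h4]
      ext i
      simp only [Pi.add_apply]
      linear_combination (norm := (ring_nf; reduce_mod_char!))
    rw [h11]
    abel
  have h12 : kp A w (τ ^ (3 * (l / 2)) * σ) = A τ ^ (3 * (l / 2)) *ᵥ kp A w σ := by
    rw [kp_co h.sp w, kp_pow h hw, zero_add, map_pow]
  have h13 := kap_X h hk1 (3 * (l / 2))
  rw [h12]
  nth_rewrite 1 [h10]
  rw [mulVec_add, mulVec_mulVec, mulVec_mulVec, ← pow_add, map_mul, map_pow]
  have h14 : 3 * (l / 2) + l / 2 = 4 * (l / 2) := by ring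
  rw [h14, pow_mul (A τ) 4, h.x4, one_pow, one_mulVec]

private theorem hl_cast {l : ℕ} (hl : Odd l) : (l : F) = 1 := by
  obtain ⟨m, rfl⟩ := hl
  push_cast
  linear_combination (norm := (ring_nf; reduce_mod_char!))

private theorem kap_sum (m : ℕ) :
    ∑ i ∈ Finset.range (2 * m), ((i + 1 : ℕ) : F) = (m : F) := by
  induction m with
  | zero => simp
  | succ m ih =>
    rw [show 2 * (m + 1) = 2 * m + 1 + 1 from by ring, Finset.sum_range_succ,
      Finset.sum_range_succ, ih]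
    push_cast
    linear_combination (norm := (ring_nf; reduce_mod_char!))

private theorem kap_ee (h : TR S χ a σ τ l I iv A ε) {u v : Fin n → F}
    (hu : ∀ i : ℕ, A τ ^ i *ᵥ u = u) (r : ℕ) :
    ee ((∑ k ∈ Finset.range r, A τ ^ k) *ᵥ v) u = (r : F) * ee v u := by
  induction r with
  | zero => rw [Finset.sum_range_zero, zero_mulVec, ee_zero_left, Nat.cast_zero, zero_mul]
  | succ r ih =>
    rw [Finset.sum_range_succ, add_mulVec, ee_add_left, ih]
    have h1 : ee (A τ ^ r *ᵥ v) u = ee v u := by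
      nth_rewrite 1 [← hu r]
      exact isSp_pow (h.sp τ) r v u
    rw [h1]
    push_cast
    ring

/-- the value at the generators -/
private theorem kap_io (h : TR S χ a σ τ l I iv A ε) {b : D → Fin n → F}
    (hb : ZP S A ε (b, kc A)) (hg : gv σ τ (b, kc A) ∈ LX (A τ) l) {w : Fin n → F}
    (hw : kp A w τ = 0) :
    io σ τ l (zp A ε b w) = algebraMap (ZMod 2) F (tauZ (A τ ^ (3 * (l / 2)) * A σ)) := by
  have hP := bp_ZP h hb w
  have hk1 : (A τ ^ l) *ᵥ kp A w σ = kp A w σ := by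
    have h1 := rel_y h hP.1
    dsimp only at h1
    rw [hw, mulVec_zero, mulVec_zero, add_zero, zero_add] at h1
    exact h1.symm
  have hk2 := kap_X h hk1
  have h1 := kp_tau h.sp (kap_rel h hb hg hw)
  rw [map_mul, map_pow] at h1
  rw [h1]
  have h2 : kp A w (τ ^ (3 * (l / 2)) * σ) = kp A w σ := by
    rw [kp_co h.sp w, kp_pow h hw, zero_add, map_pow, hk2]
  rw [h2, mp_mul h.sp w, kp_pow h hw, ee_zero_left, add_zero, mp_pow h hw]
  have h3 : zp A ε b w σ τ = 0 := by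
    unfold zp
    rw [hw, mulVec_zero, ee_zero_right, h.eσ, zero_smul, add_zero]
  have h4 : ε (τ ^ l) = 1 := by
    rw [eps_pow h]
    obtain ⟨m, hm⟩ := h.tame.lodd
    rw [hm]
    push_cast
    rw [show (2 : ZMod 2) = 0 from rfl]
    ring
  have h5 : zp A ε b w (τ ^ l) σ = ee (bp A ε b w τ) (kp A w σ) + mp A w σ := by
    unfold zp
    have h6 := a_pow h hP l
    dsimp only at h6
    rw [h4, one_smul, map_pow, hk2, h6, hw, mulVec_zero, add_zero, kap_ee h hk2,
      hl_cast h.tame.lodd, one_mul]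
  have h6 : ∀ i, zp A ε b w (τ ^ (i + 1)) τ = ((i + 1 : ℕ) : F) * mp A w τ := by
    intro i
    unfold zp
    rw [hw, mulVec_zero, ee_zero_right, zero_add, eps_pow h, smul_F, map_natCast]
  unfold io
  rw [h3, h5, Finset.sum_congr rfl fun i _ => h6 i, ← Finset.sum_mul]
  obtain ⟨m, hm⟩ := h.tame.lodd
  have h7 : l - 1 = 2 * m := by omega
  have h8 : l / 2 = m := by omega
  rw [h7, h8, kap_sum]
  push_cast
  linear_combination (norm := (ring_nf; reduce_mod_char!))

/-- THE VALUE AT THE CORRECTION CLASS. -/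
theorem kap_val (h : TR S χ a σ τ l I iv A ε) {b : D → Fin n → F} (hb : ZP S A ε (b, kc A))
    (hg : gv σ τ (b, kc A) ∈ LX (A τ) l) (α : F) :
    iv (fun s t => hfT (α * ee (b s) (A s *ᵥ kc A t) + ε s • (α * mm (A t)))) =
      hf (Algebra.trace (ZMod 2) F α * tauZ (A τ ^ (3 * (l / 2)) * A σ)) := by
  obtain ⟨w, hw0⟩ := kk_fix (h.sp τ)
  have hw : kp A w τ = 0 := by
    unfold kp
    rw [kk_of_fix hw0, U_add_self]
  have hP := bp_ZP h hb w
  have h1 := iota h.tame h.loc h.ldF (zp_sm h hb w) (zp_coc h hb w)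
    (fun g k p hp hp' => by
      have e1 : bp A ε b w (g * p) = bp A ε b w g := a_mulP h hP g hp hp'
      unfold zp
      rw [e1, h.eadd, eps_P h (h.tame.Iχ p hp) hp', add_zero, map_mul, A_P h hp hp', mul_one])
    (fun g k p hp hp' => by
      have e1 : kp A w (k * p) = kp A w k := y_mulP h (kp_Z1 h w) k hp hp'
      have e2 : mp A w (k * p) = mp A w k := by
        unfold mp
        rw [map_mul, A_P h hp hp', mul_one]
      unfold zp
      rw [e1, e2]) α
  rw [kap_io h hb hg hw] at h1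
  have h2 : hfT (α * algebraMap (ZMod 2) F (tauZ (A τ ^ (3 * (l / 2)) * A σ))) =
      hf (Algebra.trace (ZMod 2) F α * tauZ (A τ ^ (3 * (l / 2)) * A σ)) := by
    rw [mul_comm α, ← Algebra.smul_def, KS.hfT_smul, mul_comm (tauZ _)]
  rw [h2] at h1
  rw [← h1]
  -- the cochains differ by a coboundary
  have hz1 : Sm1 S (fun g => hfT (α * ee (bp A ε b w g) (A g *ᵥ w))) := by
    obtain ⟨W1, hW1, h3⟩ := smooth_A h.sm
    obtain ⟨W2, hW2, h4⟩ := hP.2.1
    refine ⟨W1 ⊓ W2, S.inf hW1 hW2, fun g v hv => ?_⟩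
    have e1 : bp A ε b w (g * v) = bp A ε b w g := h4 g v hv.2
    have e2 : A (g * v) = A g := by rw [map_mul, h3 v hv.1, mul_one]
    beta_reduce
    rw [e1, e2]
  have hz2 : Z2 S (tw χ) (fun s t => hfT (α * zp A ε b w s t)) := by
    refine ⟨?_, fun g k m => ?_⟩
    · obtain ⟨W, hW, h3⟩ := zp_sm h hb w
      exact ⟨W, hW, fun g k v hv v' hv' => by
        beta_reduce
        rw [h3 g k v hv v' hv']⟩
    · have h3 := congrFun (congrFun (congrFun (KS.d2_hfT h.loc.char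
        (fun s t => α * zp A ε b w s t)) g) k) m
      rw [h3]
      unfold KS.dF2
      have h4 := zp_coc h hb w g k m
      have h5 : α * zp A ε b w k m + α * zp A ε b w (g * k) m + α * zp A ε b w g (k * m) +
          α * zp A ε b w g k = 0 := by
        have h6 : α * (zp A ε b w g k + zp A ε b w (g * k) m) =
          α * (zp A ε b w k m + zp A ε b w g (k * m)) := by rw [h4]
        linear_combination (norm := (ring_nf; reduce_mod_char!)) h6
      rw [h5, map_zero]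
  have e1 : (fun s t => hfT (α * ee (b s) (A s *ᵥ kc A t) + ε s • (α * mm (A t)))) =
      fun s t => (fun s t => hfT (α * zp A ε b w s t)) s t +
        d1 (tw χ) (fun g => hfT (α * ee (bp A ε b w g) (A g *ᵥ w))) s t := by
    funext s t
    have h3 := kap_diff h hb w s t
    show hfT (α * ee (b s) (A s *ᵥ kk (A t)) + ε s • (α * mm (A t))) = hfT (α * zp A ε b w s t) +
      (hfT (α * ee (bp A ε b w s) (A s *ᵥ w)) + χ s • hfT (α * ee (bp A ε b w t) (A t *ᵥ w)) -
        hfT (α * ee (bp A ε b w (s * t)) (A (s * t) *ᵥ w)))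
    rw [smul_hfT (h.loc.char.odd s), sub_eq_add_neg, hfT_neg, ← map_add, ← map_add, ← map_add]
    congr 1
    unfold dF1 at h3
    unfold zp
    rw [smul_F] at h3 ⊢
    rw [smul_F] at h3
    rw [smul_F]
    linear_combination α * h3
  rw [e1, h.loc.add _ _ hz2 (KR.d1_tw_Z2 h.loc.char hz1), h.loc.cob _ hz1, add_zero]

end Pool.Agent.Work.MP_787500_nt.ER
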