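import Mathlib
import Pool.Agent.Work.MP_787500_nt.KS.Lin

/-!
# ER/Triple (size M, pure linear algebra): the triple lemma with a characteristic vector

`W` is a space of dimension `2 n` over a field of characteristic 2 with a quadratic form `q` whose polar form `B` is
nondegenerate; `Λ₁`, `Λ₂` are subspaces of dimension `n` on which `q` is 0, `R` a subspace of dimension `n` on which `B`
is 0 and `q r = B (r, k₁) ^ 2`, `k₁ ∈ Λ₁`, `k₂ ∈ Λ₂`, `k₁ + k₂ ∈ R`.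

PROOF of `triple`. `B` is 0 on `Λ₁`, `Λ₂` (polarization), so each of the three spaces is its own orthogonal (dimension).
On `V = (Λ₁ + Λ₂) ⊓ R` let `c (r, r') = B (a, b')` where `r = a + b`, `r' = a' + b'`, `a, a' ∈ Λ₁`, `b, b' ∈ Λ₂`.
It is well defined (`a` is unique up to `Λ₁ ⊓ Λ₂`, which is orthogonal to `Λ₂`; same for `b'`), bilinear, symmetric
(`B (a, b') + B (a', b) = B (a + b, a' + b') = 0`), and `c (r, r) = B (a, b) = q (a + b) = q r = B (r, k₁) ^ 2 =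
B (b, k₁) ^ 2 = c (k₁ + k₂, r) ^ 2`. Radical: `(Λ₁ ⊓ R) + (Λ₂ ⊓ R)` (if `B (a, b') = 0` for all `r' = a' + b'` in `V`,
then `B (a, r') = 0` for all `r' ∈ V`, so `a ∈ V^⊥ = (Λ₁ ⊓ Λ₂) + R`, so `r = s + r₁ + b` with `s ∈ Λ₁ ⊓ Λ₂`, `r₁ ∈ R`,
`a = s + r₁`, `r₁ ∈ Λ₁ ⊓ R`, and `r - r₁ = s + b ∈ Λ₂ ⊓ R`), of dimension `dim (Λ₁ ⊓ R) + dim (Λ₂ ⊓ R) - dim (Λ₁ ⊓ Λ₂ ⊓ R)`;
`dim V = n - dim (Λ₁ ⊓ Λ₂) + dim (Λ₁ ⊓ Λ₂ ⊓ R)` (orthogonal of `(Λ₁ ⊓ Λ₂) + R`). Then `KS.sym_rank` with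
`k = k₁ + k₂`, `c (k, k) = B (k₁, k₂)`. A convenient way to define `c`: choose a linear section `f : V → Λ₁ × Λ₂` of
`(a, b) ↦ a + b` and put `c (r, r') = B ((f r).1, (f r').2)`.

`exists_kap`: `B (·, k)` is 0 on `Λ ⊓ R` since `q` is; so `k ∈ (Λ ⊓ R)^⊥ = Λ + R`.

`triple0`: the case `q = 0` on `R` (`k₁ = k₂ = 0`).
-/

set_option autoImplicit false
set_option linter.unusedSectionVars false

namespace Pool.Agent.Work.MP_787500_nt.ER

variable {F : Type*} [Field F] [CharP F 2] {W : Type*} [AddCommGroup W] [Module F W]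
  [FiniteDimensional F W]

private theorem tr_nd (B : W →ₗ[F] W →ₗ[F] F) (hs : ∀ x y, B x y = B y x)
    (nd : ∀ x, (∀ y, B x y = 0) → x = 0) : (B : LinearMap.BilinForm F W).Nondegenerate :=
  ⟨fun x h => nd x h, fun x h => nd x fun y => (hs x y).trans (h y)⟩

private theorem tr_refl (B : W →ₗ[F] W →ₗ[F] F) (hs : ∀ x y, B x y = B y x) :
    LinearMap.BilinForm.IsRefl (B : LinearMap.BilinForm F W) :=
  fun x y h => (hs y x).trans h

private theorem tr_self (B : W →ₗ[F] W →ₗ[F] F) (hs : ∀ x y, B x y = B y x)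
    (nd : ∀ x, (∀ y, B x y = 0) → x = 0) {n : ℕ} (hW : Module.finrank F W = 2 * n)
    {A : Submodule F W} (hA : Module.finrank F A = n) (h : ∀ x ∈ A, ∀ y ∈ A, B x y = 0) :
    LinearMap.BilinForm.orthogonal (B : LinearMap.BilinForm F W) A = A := by
  symm
  apply Submodule.eq_of_le_of_finrank_le
  · intro x hx y hy
    exact h y hy x hx
  · rw [LinearMap.BilinForm.finrank_orthogonal (tr_nd B hs nd), hW, hA]
    omega

private theorem tr_inf (B : W →ₗ[F] W →ₗ[F] F) (hs : ∀ x y, B x y = B y x)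
    (nd : ∀ x, (∀ y, B x y = 0) → x = 0) (A C : Submodule F W) :
    LinearMap.BilinForm.orthogonal (B : LinearMap.BilinForm F W)
      (LinearMap.BilinForm.orthogonal (B : LinearMap.BilinForm F W) A ⊓
        LinearMap.BilinForm.orthogonal (B : LinearMap.BilinForm F W) C) = A ⊔ C := by
  have h : LinearMap.BilinForm.orthogonal (B : LinearMap.BilinForm F W) A ⊓
        LinearMap.BilinForm.orthogonal (B : LinearMap.BilinForm F W) C =
      LinearMap.BilinForm.orthogonal (B : LinearMap.BilinForm F W) (A ⊔ C) := by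
    ext x
    rw [Submodule.mem_inf, LinearMap.BilinForm.mem_orthogonal_iff,
      LinearMap.BilinForm.mem_orthogonal_iff, LinearMap.BilinForm.mem_orthogonal_iff]
    constructor
    · rintro ⟨h1, h2⟩ y hy
      obtain ⟨a, ha, c, hc, rfl⟩ := Submodule.mem_sup.1 hy
      rw [map_add, LinearMap.add_apply, h1 a ha, h2 c hc, add_zero]
    · intro h
      exact ⟨fun a ha => h a (Submodule.mem_sup_left ha), fun c hc => h c (Submodule.mem_sup_right hc)⟩
  rw [h, LinearMap.BilinForm.orthogonal_orthogonal (tr_nd B hs nd) (tr_refl B hs)]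

private theorem tr_pol (B : W →ₗ[F] W →ₗ[F] F) (q : W → F)
    (hq : ∀ x y, q (x + y) = q x + q y + B x y) {A : Submodule F W} (h : ∀ x ∈ A, q x = 0) :
    ∀ x ∈ A, ∀ y ∈ A, B x y = 0 := by
  intro x hx y hy
  have h1 := hq x y
  rw [h _ (A.add_mem hx hy), h x hx, h y hy, zero_add, zero_add] at h1
  exact h1.symm

/-- THE TRIPLE LEMMA. -/
theorem triple (B : W →ₗ[F] W →ₗ[F] F) (q : W → F) (hs : ∀ x y, B x y = B y x)
    (hq : ∀ x y, q (x + y) = q x + q y + B x y) (nd : ∀ x, (∀ y, B x y = 0) → x = 0) {n : ℕ}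
    (hW : Module.finrank F W = 2 * n) {Λ₁ Λ₂ R : Submodule F W} (h1 : Module.finrank F Λ₁ = n)
    (h2 : Module.finrank F Λ₂ = n) (h3 : Module.finrank F R = n) (q1 : ∀ x ∈ Λ₁, q x = 0)
    (q2 : ∀ x ∈ Λ₂, q x = 0) (hR : ∀ x ∈ R, ∀ y ∈ R, B x y = 0) {k₁ k₂ : W} (hk1 : k₁ ∈ Λ₁)
    (hk2 : k₂ ∈ Λ₂) (hk : k₁ + k₂ ∈ R) (hqR : ∀ r ∈ R, q r = B r k₁ ^ 2) :
    ((Module.finrank F ↥(Λ₁ ⊓ R) + Module.finrank F ↥(Λ₂ ⊓ R) + n +
      Module.finrank F ↥(Λ₁ ⊓ Λ₂) : ℕ) : F) = B k₁ k₂ := by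
  have h2' : (2 : F) = 0 := CharTwo.two_eq_zero
  have b1 := tr_pol B q hq q1
  have b2 := tr_pol B q hq q2
  have o1 := tr_self B hs nd hW h1 b1
  have o2 := tr_self B hs nd hW h2 b2
  have o3 := tr_self B hs nd hW h3 hR
  set V : Submodule F W := (Λ₁ ⊔ Λ₂) ⊓ R with hVdef
  -- the orthogonal space of `V`
  have oV : LinearMap.BilinForm.orthogonal (B : LinearMap.BilinForm F W) V = (Λ₁ ⊓ Λ₂) ⊔ R := by
    have e1 : LinearMap.BilinForm.orthogonal (B : LinearMap.BilinForm F W) (Λ₁ ⊓ Λ₂) = Λ₁ ⊔ Λ₂ := by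
      have := tr_inf B hs nd Λ₁ Λ₂
      rwa [o1, o2] at this
    have := tr_inf B hs nd (Λ₁ ⊓ Λ₂) R
    rwa [e1, o3] at this
  have dV : Module.finrank F V + Module.finrank F ↥(Λ₁ ⊓ Λ₂) =
      n + Module.finrank F ↥(Λ₁ ⊓ Λ₂ ⊓ R) := by
    have e1 := LinearMap.BilinForm.finrank_orthogonal (tr_nd B hs nd) V
    rw [oV, hW] at e1
    have e2 := Submodule.finrank_sup_add_finrank_inf_eq (Λ₁ ⊓ Λ₂) R
    rw [h3] at e2
    have e3 : Module.finrank F V ≤ 2 * n := by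
      rw [← hW]
      exact Submodule.finrank_le V
    omega
  -- a section
  obtain ⟨f, hf⟩ : ∃ f : V →ₗ[F] (Λ₁ × Λ₂), ∀ v : V, ((f v).1 : W) + ((f v).2 : W) = v := by
    let g : (Λ₁ × Λ₂) →ₗ[F] W := Λ₁.subtype.coprod Λ₂.subtype
    have hg : LinearMap.range g = Λ₁ ⊔ Λ₂ := by
      rw [LinearMap.range_coprod, Submodule.range_subtype, Submodule.range_subtype]
    obtain ⟨s, hs'⟩ := LinearMap.exists_rightInverse_of_surjective g.rangeRestrict
      (LinearMap.range_rangeRestrict g)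
    have hle : V ≤ LinearMap.range g := by
      rw [hg]
      exact inf_le_left
    refine ⟨s ∘ₗ Submodule.inclusion hle, fun v => ?_⟩
    have e := congrArg (fun φ : LinearMap.range g →ₗ[F] LinearMap.range g =>
      ((φ (Submodule.inclusion hle v) : LinearMap.range g) : W)) hs'
    exact e
  let α : V →ₗ[F] W := Λ₁.subtype ∘ₗ LinearMap.fst F Λ₁ Λ₂ ∘ₗ f
  let β : V →ₗ[F] W := Λ₂.subtype ∘ₗ LinearMap.snd F Λ₁ Λ₂ ∘ₗ f
  have hα : ∀ v, α v ∈ Λ₁ := fun v => (f v).1.2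
  have hβ : ∀ v, β v ∈ Λ₂ := fun v => (f v).2.2
  have hαβ : ∀ v : V, α v + β v = v := hf
  let c : V →ₗ[F] V →ₗ[F] F := LinearMap.compl₁₂ B α β
  have hc : ∀ v w, c v w = B (α v) (β w) := fun v w => rfl
  have hR' : ∀ v w : V, B v w = 0 := fun v w => hR v v.2.2 w w.2.2
  have hcs : ∀ v w, c v w = c w v := by
    intro v w
    have e := hR' v w
    rw [← hαβ v, ← hαβ w] at e
    simp only [map_add, LinearMap.add_apply] at e
    rw [b1 _ (hα v) _ (hα w), b2 _ (hβ v) _ (hβ w), hs (β v) (α w)] at e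
    rw [hc, hc]
    linear_combination e - B (α w) (β v) * h2'
  have hkV : k₁ + k₂ ∈ V := ⟨Submodule.add_mem_sup hk1 hk2, hk⟩
  set k : V := ⟨k₁ + k₂, hkV⟩ with hkdef
  have hkc : ∀ v, c k v = B k₁ (β v) := by
    intro v
    have e1 : α k + β k = k₁ + k₂ := hαβ k
    have e2 : α k - k₁ ∈ Λ₂ := by
      have : α k - k₁ = k₂ - β k := by
        rw [sub_eq_sub_iff_add_eq_add, e1, add_comm]
      rw [this]
      exact Λ₂.sub_mem hk2 (hβ k)
    have e3 := b2 _ e2 _ (hβ v)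
    rw [map_sub, LinearMap.sub_apply, sub_eq_zero] at e3
    rw [hc, e3]
  have hckk : c k k = B k₁ k₂ := by
    rw [hkc]
    have e1 : α k + β k = k₁ + k₂ := hαβ k
    have e2 : β k - k₂ ∈ Λ₁ := by
      have : β k - k₂ = k₁ - α k := by
        rw [sub_eq_sub_iff_add_eq_add, add_comm, e1]
      rw [this]
      exact Λ₁.sub_mem hk1 (hα k)
    have e3 := b1 _ hk1 _ e2
    rw [map_sub, sub_eq_zero] at e3
    exact e3
  have hchar : ∀ v, c v v = c k v ^ 2 := by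
    intro v
    have e1 := hq (α v) (β v)
    rw [q1 _ (hα v), q2 _ (hβ v), zero_add, zero_add, hαβ, hqR _ v.2.2] at e1
    rw [hkc, hc, ← e1]
    congr 1
    rw [← hαβ v, map_add, LinearMap.add_apply, b1 _ (hα v) _ hk1, zero_add, hs]
  have hsym := KS.sym_rank c hcs k hchar
  rw [hckk] at hsym
  -- the radical
  have hker : (LinearMap.ker c).map V.subtype = (Λ₁ ⊓ R) ⊔ (Λ₂ ⊓ R) := by
    apply le_antisymm
    · rintro _ ⟨v, hv, rfl⟩
      have hv0 : ∀ w, c v w = 0 := by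
        intro w
        have : c v = 0 := hv
        rw [this]
        rfl
      have e1 : α v ∈ LinearMap.BilinForm.orthogonal (B : LinearMap.BilinForm F W) V := by
        rw [LinearMap.BilinForm.mem_orthogonal_iff]
        intro w hw
        have e2 := hv0 ⟨w, hw⟩
        rw [hc] at e2
        have e3 : w = α ⟨w, hw⟩ + β ⟨w, hw⟩ := (hαβ ⟨w, hw⟩).symm
        rw [hs, e3, map_add, b1 _ (hα v) _ (hα _), e2, add_zero]
      rw [oV] at e1
      obtain ⟨s, hs1, r, hr, hsr⟩ := Submodule.mem_sup.1 e1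
      have e4 : r ∈ Λ₁ := by
        have : r = α v - s := by rw [← hsr]; abel
        rw [this]
        exact Λ₁.sub_mem (hα v) hs1.1
      have e5 : (v : W) - r ∈ Λ₂ := by
        have : (v : W) - r = s + β v := by
          rw [← hαβ v, ← hsr]
          abel
        rw [this]
        exact Λ₂.add_mem hs1.2 (hβ v)
      have e6 : (v : W) = r + ((v : W) - r) := by abel
      rw [Submodule.subtype_apply, e6]
      exact Submodule.add_mem_sup ⟨e4, hr⟩ ⟨e5, R.sub_mem v.2.2 hr⟩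
    · apply sup_le
      · rintro v ⟨hv1, hv2⟩
        have hvV : v ∈ V := ⟨Submodule.mem_sup_left hv1, hv2⟩
        refine ⟨⟨v, hvV⟩, ?_, rfl⟩
        show c ⟨v, hvV⟩ = 0
        ext w
        rw [hc]
        have e1 : α ⟨v, hvV⟩ + β ⟨v, hvV⟩ = v := hαβ ⟨v, hvV⟩
        have e2 : α ⟨v, hvV⟩ = v - β ⟨v, hvV⟩ := eq_sub_of_add_eq e1
        rw [e2, map_sub, LinearMap.sub_apply, b2 _ (hβ _) _ (hβ w), sub_zero]
        have e3 : B v w = 0 := hR v hv2 w w.2.2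
        rw [← hαβ w, map_add, b1 _ hv1 _ (hα w), zero_add] at e3
        rw [e3]
        rfl
      · rintro v ⟨hv1, hv2⟩
        have hvV : v ∈ V := ⟨Submodule.mem_sup_right hv1, hv2⟩
        refine ⟨⟨v, hvV⟩, ?_, rfl⟩
        show c ⟨v, hvV⟩ = 0
        ext w
        rw [hc]
        have e1 : α ⟨v, hvV⟩ + β ⟨v, hvV⟩ = v := hαβ ⟨v, hvV⟩
        have e2 : α ⟨v, hvV⟩ = v - β ⟨v, hvV⟩ := eq_sub_of_add_eq e1
        have e3 : α ⟨v, hvV⟩ ∈ Λ₂ := by
          rw [e2]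
          exact Λ₂.sub_mem hv1 (hβ _)
        rw [b2 _ e3 _ (hβ w)]
        rfl
  have dK : Module.finrank F (LinearMap.ker c) + Module.finrank F ↥(Λ₁ ⊓ Λ₂ ⊓ R) =
      Module.finrank F ↥(Λ₁ ⊓ R) + Module.finrank F ↥(Λ₂ ⊓ R) := by
    have e1 : Module.finrank F (LinearMap.ker c) = Module.finrank F ↥((LinearMap.ker c).map V.subtype) :=
      (Submodule.equivMapOfInjective V.subtype V.injective_subtype _).finrank_eq
    have e2 := Submodule.finrank_sup_add_finrank_inf_eq (Λ₁ ⊓ R) (Λ₂ ⊓ R)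
    have e3 : (Λ₁ ⊓ R) ⊓ (Λ₂ ⊓ R) = Λ₁ ⊓ Λ₂ ⊓ R := by
      rw [inf_inf_inf_comm, inf_idem]
    rw [e3] at e2
    rw [e1, hker, e2]
  have c1 : (Module.finrank F V : F) + Module.finrank F ↥(Λ₁ ⊓ Λ₂) =
      n + Module.finrank F ↥(Λ₁ ⊓ Λ₂ ⊓ R) := by exact_mod_cast congrArg (Nat.cast : ℕ → F) dV
  have c2 : (Module.finrank F (LinearMap.ker c) : F) + Module.finrank F ↥(Λ₁ ⊓ Λ₂ ⊓ R) =
      Module.finrank F ↥(Λ₁ ⊓ R) + Module.finrank F ↥(Λ₂ ⊓ R) := by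
    exact_mod_cast congrArg (Nat.cast : ℕ → F) dK
  push_cast
  linear_combination -c1 - c2 + hsym + (Module.finrank F ↥(Λ₁ ⊓ Λ₂) +
    Module.finrank F (LinearMap.ker c) : F) * h2'

/-- the case of a third isotropic space -/
theorem triple0 (B : W →ₗ[F] W →ₗ[F] F) (q : W → F) (hs : ∀ x y, B x y = B y x)
    (hq : ∀ x y, q (x + y) = q x + q y + B x y) (nd : ∀ x, (∀ y, B x y = 0) → x = 0) {n : ℕ}
    (hW : Module.finrank F W = 2 * n) {Λ₁ Λ₂ Λ₃ : Submodule F W} (h1 : Module.finrank F Λ₁ = n)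
    (h2 : Module.finrank F Λ₂ = n) (h3 : Module.finrank F Λ₃ = n) (q1 : ∀ x ∈ Λ₁, q x = 0)
    (q2 : ∀ x ∈ Λ₂, q x = 0) (q3 : ∀ x ∈ Λ₃, q x = 0) :
    Even (Module.finrank F ↥(Λ₁ ⊓ Λ₃) + Module.finrank F ↥(Λ₂ ⊓ Λ₃) + n +
      Module.finrank F ↥(Λ₁ ⊓ Λ₂)) := by
  have h := triple B q hs hq nd hW h1 h2 h3 q1 q2 (tr_pol B q hq q3) Λ₁.zero_mem Λ₂.zero_mem
    (by rw [add_zero]; exact Λ₃.zero_mem) (fun r hr => by rw [q3 r hr, map_zero]; ring)
  rw [map_zero, (CharP.cast_eq_zero_iff F 2 _)] at h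
  exact even_iff_two_dvd.2 h

/-- A characteristic vector in an isotropic space. -/
theorem exists_kap (B : W →ₗ[F] W →ₗ[F] F) (q : W → F) (hs : ∀ x y, B x y = B y x)
    (hq : ∀ x y, q (x + y) = q x + q y + B x y) (nd : ∀ x, (∀ y, B x y = 0) → x = 0) {n : ℕ}
    (hW : Module.finrank F W = 2 * n) {Λ R : Submodule F W} (h1 : Module.finrank F Λ = n)
    (h3 : Module.finrank F R = n) (q1 : ∀ x ∈ Λ, q x = 0) (hR : ∀ x ∈ R, ∀ y ∈ R, B x y = 0) {k : W}
    (hqR : ∀ r ∈ R, q r = B r k ^ 2) : ∃ k' ∈ Λ, k' + k ∈ R := by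
  have b1 := tr_pol B q hq q1
  have o1 := tr_self B hs nd hW h1 b1
  have o3 := tr_self B hs nd hW h3 hR
  have e1 := tr_inf B hs nd Λ R
  rw [o1, o3] at e1
  have e2 : k ∈ LinearMap.BilinForm.orthogonal (B : LinearMap.BilinForm F W) (Λ ⊓ R) := by
    rw [LinearMap.BilinForm.mem_orthogonal_iff]
    intro x hx
    have e3 := hqR x hx.2
    rw [q1 x hx.1] at e3
    exact pow_eq_zero_iff (two_ne_zero) |>.1 e3.symm
  rw [e1] at e2
  obtain ⟨a, ha, r, hr, har⟩ := Submodule.mem_sup.1 e2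
  refine ⟨-a, Λ.neg_mem ha, ?_⟩
  have : -a + k = r := by rw [← har]; abel
  rw [this]
  exact hr

end Pool.Agent.Work.MP_787500_nt.ER
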