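import Mathlib
import Pool.Agent.Work.MP_787500_nt.ER.Kap
import Pool.Agent.Work.MP_787500_nt.ER.Triple

/-!
# ER/Asm (size M): THE LOCAL CONTRIBUTION AT A RAMIFIED TAME PLACE

For every Lagrangian condition `L` (`LR`): `m + t = dim (Λ ⊓ LX)` modulo 2, `Λ = L.map gv`.

PROOF. `dim L = dim R1 + dim Y2 = 2 n` (rank and nullity of `p ↦ p.2`), so `dim R1 - dim Y2 = 2 (dim R1 - n)`: `m = dim R1 - n`. `R1 L = cR S A σ τ Λ`: if
`(r, 0) ∈ L` then `gr r = gv (r, 0) ∈ Λ`; if `gr r = gv q`, `q ∈ L`, then `(r, 0) - q` is a pair killed by `gv`, so a coboundary (`ker_gv`), in `L` (`hL.cob`). So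
`dim R1 = dim (Λ ⊓ RX) + h0`, `h0 = dim U^D` (`finrank_cR`). `Λ`: dimension `n` (`finrank_map`), `QX = 0` (`iv_zq`, `hL.iso`, `KS.hfT_nondeg`).
`κ₁ = gv (a, kc A)` for `(a, kc A) ∈ L` (`hL.lkr.kmem`): `QX_RX`. `exists_kap` with `Λ = LX` (`BL`, `QX_LX`, `finrank_LX`, `BX_nd`): `κ' ∈ LX` with `κ' + κ₁ = gr r`, `r`
a cocycle; `b = a + r`: `gv (b, kc A) = κ' ∈ LX`, so `kap_val`. `triple` with `Λ₁ = Λ`, `Λ₂ = LX`, `R = RX`, `k₁ = κ₁`, `k₂ = κ'`:
`dim (Λ ⊓ RX) + dim (LX ⊓ RX) + n + dim (Λ ⊓ LX) = BX κ₁ κ'` in `F`. And `finrank_ref`: `dim (LX ⊓ RX) + h0 = dim ker (S'' + 1) = tauZ S''`.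
The value: for `(a', kc A) ∈ L`: `iv (α ⟨a', A k⟩ + ε α mm) = iv (α ⟨b, A k⟩ + ε α mm) + iv (α ⟨a' - b, A k⟩)`, the last is, with `r' = a' - b` a cocycle,
`hfT (α BX (gv (r', 0), gv (b, k)))` (`iv_pair`: `ee (r' s) (A s k t)`), `gv (r', 0) = gv (a', k) + κ'`, so it is `hfT (α BX (gv (a', k), κ'))`, and `gv (a', k) - κ₁ = gr (a' - a)`,
`BX (gr (a' - a), κ')`: `= ` its square root condition gives 0: `(a' - a, 0) ∈ L`, so `QX (gr (a' - a)) = 0 = BX (gr (a' - a), κ') ^ 2` (`QX_RX` for `b`). So the value is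
`tauZ S'' + BX (κ₁, κ')`, a number of the prime field: `t` = a natural number with this class (`BX (κ₁, κ')` is a natural number by `triple`).
`m + t = dim (Λ ⊓ RX) + h0 + n + tauZ S'' + BX κ₁ κ' = dim (Λ ⊓ LX)` modulo 2 (`n` is even is not needed).
-/

set_option autoImplicit false
set_option linter.unusedSectionVars false

namespace Pool.Agent.Work.MP_787500_nt.ER

open Matrix
open Pool.Agent.Work.MP_787500_nt.GP (A0 hf hf_add hf_zero hf_two hf_neg smul_hf eq_hf hf_inj IsAct d0 d1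
  d2 tw cup11 cup02)
open Pool.Agent.Work.MP_787500_nt.KR (FSys Sm1 Sm2 IsChar Smooth Z1 Z2 B2 LocH Pair LDual z1s b1s)
open Pool.Agent.Work.MP_787500_nt.KT hiding Str Rel Sel KH Ai IsP cc ff TT
open Pool.Agent.Work.MP_787500_nt.KS (hfT hfT_apply hfT_sq hfT_two hfT_neg smul_hfT hfT_nondeg
  inv_zero smul_F dF1 rt rt_sq zmod2_cases ep)
open Pool.Agent.Work.MP_787500_nt.QL (TameF fixP fixG)
open Pool.Agent.Work.MP_787500_nt.KI (Y2 R1 LKr LVal)

variable {F : Type*} [Field F] [Finite F] [CharP F 2] [Algebra (ZMod 2) F] {n : ℕ} [Sy F n]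
  {D : Type*} [Group D] {S : FSys D} {χ a : D → ℤ_[2]} {σ τ : D} {l : ℕ} {I : Subgroup D}
  {iv : (D → D → A0) → A0} {A : D →* Matrix (Fin n) (Fin n) F} {ε : D → ZMod 2}
  {L : Submodule F ((D → Fin n → F) × (D → Fin n → F))}

/-! ### local cochains -/

private theorem sm2_cup {E : Type*} [Group E] {SE : FSys E} {B : E →* Matrix (Fin n) (Fin n) F}
    (hs : Smooth SE (KT.act B)) {b z : E → Fin n → F} (hb : Sm1 SE b) (hz : Sm1 SE z) :
    Sm2 SE (fun u w => ee (b u) (B u *ᵥ z w)) := by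
  obtain ⟨W, hW, h1⟩ := smooth_A hs
  obtain ⟨W', hW', h2⟩ := hb
  obtain ⟨W'', hW'', h3⟩ := hz
  refine ⟨W ⊓ (W' ⊓ W''), SE.inf hW (SE.inf hW' hW''), fun g h w hw w' hw' => ?_⟩
  beta_reduce
  rw [h2 g w hw.2.1, h3 h w' hw'.2.2, map_mul, h1 w hw.1, mul_one]

private theorem sm2_two {E : Type*} [Group E] {SE : FSys E} {b c : E → E → F} (hb : Sm2 SE b)
    (hc : Sm2 SE c) (f : F → F → F) : Sm2 SE (fun u w => f (b u w) (c u w)) := by
  obtain ⟨W, hW, h1⟩ := hb
  obtain ⟨W', hW', h2⟩ := hc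
  refine ⟨W ⊓ W', SE.inf hW hW', fun g h w hw w' hw' => ?_⟩
  beta_reduce
  rw [h1 g h w hw.1 w' hw'.1, h2 g h w hw.2 w' hw'.2]

private theorem Z2_hfT {E : Type*} [Group E] {SE : FSys E} {ψ : E → ℤ_[2]} (hψ : IsChar SE ψ)
    {b : E → E → F} (hb : Sm2 SE b) (h : ∀ g h k, hfT (KS.dF2 b g h k) = 0) :
    Z2 SE (tw ψ) (fun u v => hfT (b u v)) := by
  constructor
  · obtain ⟨W, hW, h1⟩ := hb
    refine ⟨W, hW, fun g h w hw w' hw' => ?_⟩
    beta_reduce
    rw [h1 g h w hw w' hw']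
  · intro a b' c
    rw [KS.d2_hfT hψ]
    exact h a b' c

private theorem dF2_comb {E : Type*} [Group E] (b c d : E → E → F) (α β : F) (g h k : E) :
    KS.dF2 (fun g h => α * b g h + c g h + β * d g h) g h k =
      α * KS.dF2 b g h k + KS.dF2 c g h k + β * KS.dF2 d g h k := by
  unfold KS.dF2
  ring

private theorem val_dF2 {E : Type*} [Group E] {B : E →* Matrix (Fin n) (Fin n) F}
    (hB : ∀ g, IsSp (B g)) {η : E → ZMod 2} (he : ∀ g h, η (g * h) = η g + η h)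
    {v : E → Fin n → F} (hv : IsLift B η v (kc B)) (α : F) (g h k : E) :
    hfT (KS.dF2 (fun s t => α * ee (v s) (B s *ᵥ kc B t) + η s • (α * mm (B t))) g h k) = 0 := by
  have h1 := dF2_comb (fun s t => ee (v s) (B s *ᵥ kc B t)) (fun s t => η s • (α * mm (B t)))
    (fun _ _ => 0) α 0 g h k
  simp only [mul_zero, add_zero, zero_mul] at h1
  rw [h1, leib_lift hB hv (z := kc B) (kk_coc hB), KS.leib_chi he (fun h => α * mm (B h))]
  have h2 : dF1 (fun h => α * mm (B h)) h k = α * ee (kk (B h)) (B h *ᵥ kk (B k)) := by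
    rw [← mm_coc hB]
    unfold dF1
    ring
  rw [h2]
  have h3 : α * η g • ee (kc B h) (B h *ᵥ kc B k) +
      η g • (α * ee (kk (B h)) (B h *ᵥ kk (B k))) = 0 := by
    show α * η g • ee (kk (B h)) (B h *ᵥ kk (B k)) +
      η g • (α * ee (kk (B h)) (B h *ᵥ kk (B k))) = 0
    simp only [smul_F]
    linear_combination (norm := (ring_nf; reduce_mod_char!))
  rw [h3, map_zero]

/-! ### pairs -/

private theorem zp_add {p q : (D → Fin n → F) × (D → Fin n → F)} (hp : ZP S A ε p)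
    (hq : ZP S A ε q) : ZP S A ε (p + q) := by
  obtain ⟨p1, ⟨W, hW, h2⟩, p3⟩ := hp
  obtain ⟨q1, ⟨W', hW', h2'⟩, q3⟩ := hq
  refine ⟨(cocS S (A : D → Matrix (Fin n) (Fin n) F)).add_mem p1 q1,
    ⟨W ⊓ W', S.inf hW hW', fun g w hw => ?_⟩, fun g h => ?_⟩
  · show p.1 (g * w) + q.1 (g * w) = p.1 g + q.1 g
    rw [h2 g w hw.1, h2' g w hw.2]
  · show p.1 (g * h) + q.1 (g * h) = p.1 g + q.1 g + A g *ᵥ (p.1 h + q.1 h) +
      ε g • (A g *ᵥ (p.2 h + q.2 h))
    rw [p3 g h, q3 g h, mulVec_add, mulVec_add, smul_add]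
    abel

private theorem two_pair (x : (Fin n → F) × (Fin n → F)) : x + x = 0 := by
  refine Prod.ext ?_ ?_
  · funext i
    exact CharTwo.add_self_eq_zero _
  · funext i
    exact CharTwo.add_self_eq_zero _

private theorem fin_L (hL : LR S iv A ε L) : Module.Finite F L := by
  rcases Nat.eq_zero_or_pos n with h0 | hn
  · have h1 : Subsingleton L := by
      refine ⟨fun x y => Subtype.ext (Prod.ext ?_ ?_)⟩
      · funext d i
        exact absurd i.2 (by omega)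
      · funext d i
        exact absurd i.2 (by omega)
    have h2 : Finite L := Finite.of_subsingleton
    exact Module.Finite.of_finite
  · exact Module.finite_of_finrank_pos (by rw [hL.dim]; omega)

/-- rank and nullity -/
private theorem rank_L (hL : LR S iv A ε L) :
    Module.finrank F (R1 L) + Module.finrank F (Y2 L) = 2 * n := by
  have hfin := fin_L hL
  let f : L →ₗ[F] (D → Fin n → F) :=
    (LinearMap.snd F (D → Fin n → F) (D → Fin n → F)).domRestrict L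
  have h1 := LinearMap.finrank_range_add_finrank_ker f
  have h2 : LinearMap.range f = Y2 L := by
    ext y
    rw [KI.mem_Y2]
    constructor
    · rintro ⟨⟨⟨b, z⟩, hx⟩, rfl⟩
      exact ⟨b, hx⟩
    · rintro ⟨b, hb⟩
      exact ⟨⟨(b, y), hb⟩, rfl⟩
  let g : R1 L →ₗ[F] LinearMap.ker f :=
    { toFun := fun r => ⟨⟨(r.1, 0), r.2⟩, rfl⟩
      map_add' := fun r r' => Subtype.ext (Subtype.ext (Prod.ext rfl (add_zero _).symm))
      map_smul' := fun c r => Subtype.ext (Subtype.ext (Prod.ext rfl (smul_zero _).symm)) }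
  have hg : Function.Bijective g := by
    constructor
    · intro r r' hr
      exact Subtype.ext (congrArg (fun x : LinearMap.ker f => (x : L).1.1) hr)
    · rintro ⟨⟨⟨b, y⟩, hx⟩, hy⟩
      have hy0 : y = 0 := hy
      subst hy0
      exact ⟨⟨b, hx⟩, rfl⟩
  have h3 : Module.finrank F (R1 L) = Module.finrank F (LinearMap.ker f) :=
    (LinearEquiv.ofBijective g hg).finrank_eq
  rw [h2, hL.dim] at h1
  omega

private theorem R1_eq (h : TR S χ a σ τ l I iv A ε) (hL : LR S iv A ε L) :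
    R1 L = cR S A σ τ (L.map (gv σ τ)) := by
  ext r
  rw [KI.mem_R1]
  constructor
  · intro hr
    exact ⟨((hL.lkr.rel r).1 hr).1, ⟨(r, 0), hr, rfl⟩⟩
  · rintro ⟨hr, ⟨q, hq, hqr⟩⟩
    have hr' : Z1 S (KT.act A) r := hr
    have h1 : ZP S A ε ((r, 0) + q) := zp_add (zp_zero h hr') (hL.lkr.coc q hq)
    have h2 : gv σ τ ((r, 0) + q) = 0 := by
      rw [map_add, hqr]
      exact two_pair _
    obtain ⟨b, hb⟩ := ker_gv h h1 h2
    have h3 := hL.cob 0 b
    have h4 : ((fun d => A d *ᵥ (0 + ε d • b) + 0, fun d => A d *ᵥ b + b) :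
        (D → Fin n → F) × (D → Fin n → F)) = (r, 0) + q := by
      rw [hb]
      refine Prod.ext ?_ rfl
      funext d
      show A d *ᵥ (0 + ε d • b) + 0 = ε d • (A d *ᵥ b)
      rw [zero_add, add_zero, smul_U, mulVec_smul, ← smul_U]
    rw [h4] at h3
    have h5 := L.sub_mem h3 hq
    rwa [add_sub_cancel_right] at h5

/-- THE CONTRIBUTION OF A RAMIFIED TAME PLACE. -/
theorem main_res (h : TR S χ a σ τ l I iv A ε) (hL : LR S iv A ε L) :
    ∃ (t : ℕ) (m : ℤ), LVal iv A ε L t ∧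
      (Module.finrank F (R1 L) : ℤ) = Module.finrank F (Y2 L) + 2 * m ∧
      Even (m + t + Module.finrank F ↥(L.map (gv σ τ) ⊓ LX (A τ) l)) := by
  have hcoc : ∀ q ∈ L, ZP S A ε q := hL.lkr.coc
  have hX := h.x4
  have hsX := h.sp τ
  have hP := pair_BU h.loc.char h.sp h.sm
  -- `Λ`
  have dΛ : Module.finrank F (L.map (gv σ τ)) = n := by
    have e1 := finrank_map h hL
    rw [hL.dim] at e1
    omega
  have qΛ : ∀ x ∈ L.map (gv σ τ), QX (A τ) l x = 0 := by
    rintro _ ⟨q, hq, rfl⟩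
    refine hfT_nondeg fun α => ?_
    rw [← iv_zq h (hcoc q hq) α]
    exact hL.iso q hq α
  -- `κ₁`
  obtain ⟨a₁, ha₁⟩ := hL.lkr.kmem
  have hW : Module.finrank F ((Fin n → F) × (Fin n → F)) = 2 * n := by
    rw [Module.finrank_prod, Module.finrank_fin_fun]
    ring
  have hqR := QX_RX h (hcoc _ ha₁)
  obtain ⟨κ', hκ', hκR⟩ := exists_kap (BL (A τ) l) (QX (A τ) l) (BX_symm (A τ) l)
    (polar (A τ) l) (fun x hx => BX_nd hsX hX l hx) hW (finrank_LX (A τ) l) (finrank_RX h)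
    (QX_LX hsX hX l) (BX_RX h) (k := gv σ τ (a₁, kc A)) hqR
  obtain ⟨r, hr, hrκ⟩ := hκR
  have hr' : Z1 S (KT.act A) r := hr
  -- `b`
  have hb : ZP S A ε (a₁ + r, kc A) := by
    have e1 := zp_add (hcoc _ ha₁) (zp_zero h hr')
    have e2 : ((a₁, kc A) : (D → Fin n → F) × (D → Fin n → F)) + (r, 0) = (a₁ + r, kc A) :=
      Prod.ext rfl (add_zero _)
    rwa [e2] at e1
  have hgb : gv σ τ (a₁ + r, kc A) = κ' := by
    have e1 : gv σ τ (a₁ + r, kc A) = gv σ τ (a₁, kc A) + gr σ τ r := rfl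
    rw [e1, hrκ, add_comm, add_assoc, two_pair, add_zero]
  have hkv := kap_val h hb (by rw [hgb]; exact hκ')
  -- the triple lemma
  have htr := triple (BL (A τ) l) (QX (A τ) l) (BX_symm (A τ) l)
    (polar (A τ) l) (fun x hx => BX_nd hsX hX l hx) hW dΛ (finrank_LX (A τ) l) (finrank_RX h)
    qΛ (QX_LX hsX hX l) (BX_RX h) (k₁ := gv σ τ (a₁, kc A)) (k₂ := κ') ⟨_, ha₁, rfl⟩ hκ'
    (by rw [add_comm]; exact ⟨r, hr, hrκ⟩) hqR
  have href := finrank_ref h
  have hcR := finrank_cR h (L.map (gv σ τ))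
  rw [← R1_eq h hL] at hcR
  have hrk := rank_L hL
  set N : ℕ := Module.finrank F ↥(L.map (gv σ τ) ⊓ RX S A σ τ) +
    Module.finrank F ↥(LX (A τ) l ⊓ RX S A σ τ) + n +
      Module.finrank F ↥(L.map (gv σ τ) ⊓ LX (A τ) l) with hN
  set M : ℕ := Module.finrank F (fixv (A τ ^ (3 * (l / 2)) * A σ)) with hM
  have hself : ∀ x ∈ LX (A τ) l, BX (A τ) l x x = 0 := by
    intro x hx
    have e1 := polar (A τ) l x x
    rw [two_pair, QX_LX hsX hX l x hx, QX_LX hsX hX l 0 (LX (A τ) l).zero_mem] at e1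
    rw [zero_add, zero_add] at e1
    exact e1.symm
  refine ⟨N + M, (Module.finrank F (R1 L) : ℤ) - n, ?_, by omega, ?_⟩
  · -- the value
    intro a₂ ha₂ α
    have hr2 : (a₂ + a₁, (0 : D → Fin n → F)) ∈ L := by
      have e1 := L.add_mem ha₂ ha₁
      have e2 : ((a₂, kc A) : (D → Fin n → F) × (D → Fin n → F)) + (a₁, kc A) =
          (a₂ + a₁, 0) := by
        refine Prod.ext rfl ?_
        funext d i
        exact CharTwo.add_self_eq_zero _
      rwa [e2] at e1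
    have hz2 := (hL.lkr.rel _).1 hr2
    have hαr : Z1 S (KT.act A) (α • r) := (cocS S (A : D → Matrix (Fin n) (Fin n) F)).smul_mem α hr'
    have hα2 : Z1 S (KT.act A) (α • (a₂ + a₁)) :=
      (cocS S (A : D → Matrix (Fin n) (Fin n) F)).smul_mem α hz2.1
    have hk : Z1 S (KT.act A) (kc A) := kc_Z1 h.sp h.sm
    have e1 : (fun s t => hfT (α * ee (a₂ s) (A s *ᵥ kc A t) + ε s • (α * mm (A t)))) =
        fun s t => (fun s t => hfT (α * ee ((a₁ + r) s) (A s *ᵥ kc A t) +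
          ε s • (α * mm (A t)))) s t +
          (fun s t => cup11 (KT.act A) BU (α • r) (kc A) s t +
            cup11 (KT.act A) BU (α • (a₂ + a₁)) (kc A) s t) s t := by
      funext s t
      show _ = hfT (α * ee (a₁ s + r s) (A s *ᵥ kc A t) + ε s • (α * mm (A t))) +
        (hfT (ee (α • r s) (A s *ᵥ kc A t)) + hfT (ee (α • (a₂ s + a₁ s)) (A s *ᵥ kc A t)))
      rw [← map_add, ← map_add]
      congr 1
      rw [ee_smul_left, ee_smul_left, ee_add_left, ee_add_left]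
      linear_combination (norm := (ring_nf; reduce_mod_char!))
    have hZb : Z2 S (tw χ) (fun s t => hfT (α * ee ((a₁ + r) s) (A s *ᵥ kc A t) +
        ε s • (α * mm (A t)))) := by
      refine Z2_hfT h.loc.char ?_ (fun g k m => val_dF2 h.sp h.eadd hb.2.2 α g k m)
      exact sm2_two (sm2_cup h.sm hb.2.1 hk.1)
        (KS.sm_eps h.esm (KS.sm1_one (mm_sm h.sm) (fun u => α * u))) (fun x y => α * x + y)
    have hZ1 := KR.cup11_Z2 hP hαr hk
    have hZ2 := KR.cup11_Z2 hP hα2 hk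
    have hadd : Z2 S (tw χ) (fun s t => cup11 (KT.act A) BU (α • r) (kc A) s t +
        cup11 (KT.act A) BU (α • (a₂ + a₁)) (kc A) s t) := by
      have e2 : (fun s t => cup11 (KT.act A) BU (α • r) (kc A) s t +
          cup11 (KT.act A) BU (α • (a₂ + a₁)) (kc A) s t) =
          cup11 (KT.act A) BU (α • r + α • (a₂ + a₁)) (kc A) := by
        funext s t
        show hfT (ee (α • r s) (A s *ᵥ kc A t)) + hfT (ee (α • (a₂ s + a₁ s)) (A s *ᵥ kc A t)) =
          hfT (ee (α • r s + α • (a₂ s + a₁ s)) (A s *ᵥ kc A t))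
        rw [← map_add, ee_add_left]
      rw [e2]
      exact KR.cup11_Z2 hP ((cocS S (A : D → Matrix (Fin n) (Fin n) F)).add_mem hαr hα2) hk
    rw [e1, h.loc.add _ _ hZb hadd, h.loc.add _ _ hZ1 hZ2, hkv α]
    have e3 : iv (cup11 (KT.act A) BU (α • (a₂ + a₁)) (kc A)) = 0 := by
      have e4 := hz2.2 _ (L.smul_mem α ha₁)
      have e5 : cup11 (KT.act A) BU (a₂ + a₁) (α • (a₁, kc A)).2 =
          cup11 (KT.act A) BU (α • (a₂ + a₁)) (kc A) := by
        funext s t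
        show hfT (ee (a₂ s + a₁ s) (A s *ᵥ (α • kc A t))) =
          hfT (ee (α • (a₂ s + a₁ s)) (A s *ᵥ kc A t))
        rw [mulVec_smul, ee_smul_left, ee_smul_right]
      rw [← e5]
      exact e4
    have e6 : iv (cup11 (KT.act A) BU (α • r) (kc A)) =
        hfT (α * BX (A τ) l (gr σ τ r) κ') := by
      have e7 := iv_pair h (zp_zero h hr') hb α
      rw [hgb] at e7
      refine Eq.trans ?_ e7
      congr 1
      funext s t
      show hfT (ee (α • r s) (A s *ᵥ kc A t)) = hfT (α * (ee (r s) (A s *ᵥ kc A t) +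
        ee 0 (A s *ᵥ ((a₁ + r) t + ε s • kc A t))))
      rw [ee_zero_left, add_zero, ee_smul_left]
    have e8 : BX (A τ) l (gr σ τ r) κ' = (N : F) := by
      rw [hrκ]
      have e9 : BX (A τ) l (κ' + gv σ τ (a₁, kc A)) κ' =
          BX (A τ) l κ' κ' + BX (A τ) l (gv σ τ (a₁, kc A)) κ' := by
        have e10 := LinearMap.congr_fun (map_add (BL (A τ) l) κ' (gv σ τ (a₁, kc A))) κ'
        exact e10
      rw [e9, hself κ' hκ', zero_add]
      exact htr.symm
    rw [e3, add_zero, e6, e8]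
    have e11 : hfT (α * (N : F)) = hf (Algebra.trace (ZMod 2) F α * (N : ZMod 2)) := by
      have e12 : α * (N : F) = (N : ZMod 2) • α := by
        rw [smul_F, map_natCast, mul_comm]
      rw [e12, hfT_apply, map_smul, smul_eq_mul, mul_comm]
    rw [e11, ← hf_add, ← mul_add]
    congr 2
    show (M : ZMod 2) + (N : ZMod 2) = ((N + M : ℕ) : ZMod 2)
    push_cast
    ring
  · -- the parity
    refine ⟨(Module.finrank F ↥(L.map (gv σ τ) ⊓ RX S A σ τ) : ℤ) + Module.finrank F (QP.fixG A) +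
      Module.finrank F ↥(LX (A τ) l ⊓ RX S A σ τ) +
      Module.finrank F ↥(L.map (gv σ τ) ⊓ LX (A τ) l), ?_⟩
    push_cast
    omega

end Pool.Agent.Work.MP_787500_nt.ER
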