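import Mathlib
import Pool.Agent.Work.MP_787500_nt.ER.Asm
import Pool.Agent.Work.MP_787500_nt.KI.OfLag

/-!
# ER/LocI (size M-L): the contribution `LocPar` of a Lagrangian condition for `U × U` at a ramified tame place

`lr_of_lag`: `LY A c Y` satisfies `LR`. `lkr`: `KI.lkr_of_lag`. `cob`: `QS.Lag.cob` and the coordinates `cv` of KI/OfLag (copy the private lemmas `cv`, `ac_cv`,
`d0_cv`, `be_cv`, `la_cv`, `Zq_cv` that you need). `iso`: `hY.iso` and `Zq_cv`: `Zq α` of the cocycle `d ↦ (p.1 d, A c (p.1 d + p.2 d))` is `hfT (α zq)`.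
`dim`: `|Y|² = |Z¹| |B¹|` (`hY.self`, `GP.card_perp`, compare `QL.card_perp_zur`), `|Z¹| = |B¹| h1`, `h1 = |M^D|²` (`QL.h1_eq` for the quadratic pair `hq.pair`,
`ldM`), `|B¹| |M^D| = |M|` (`QL.card_b1s`), `M = U × U`: `|Y| = |M| = |F| ^ (2 n)`; `LY ≃ Y`.

`locPar_res`: `Y₀ = Y` in `LocPar`, `m`, `t` from `main_res`; `dim Y + dim (Y ⊓ Y) = 4 n` is even.
`gvY`: the generator values of `LY A c Y` are those of the first components of `Y`.
-/

set_option autoImplicit false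
set_option linter.unusedSectionVars false

namespace Pool.Agent.Work.MP_787500_nt.ER

open Matrix
open Pool.Agent.Work.MP_787500_nt.GP (A0 hf hf_add hf_zero hf_two hf_neg smul_hf eq_hf hf_inj IsAct d0 d1
  d2 tw cup11 cup02)
open Pool.Agent.Work.MP_787500_nt.KR (FSys Sm1 Sm2 IsChar Smooth Z1 Z2 B2 LocH Pair LDual z1s b1s)
open Pool.Agent.Work.MP_787500_nt.KT hiding Str Rel Sel KH Ai IsP cc ff TT
open Pool.Agent.Work.MP_787500_nt.KS (hfT hfT_apply hfT_sq hfT_two hfT_neg smul_hfT hfT_nondeg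
  inv_zero smul_F dF1 rt rt_sq zmod2_cases ep)
open Pool.Agent.Work.MP_787500_nt.QL (TameF fixP fixG)
open Pool.Agent.Work.MP_787500_nt.KI (Y2 R1 LKr LVal)

open Pool.Agent.Work.MP_787500_nt.QS (Two ac2 be2 la2 Lag QM pB)
open Pool.Agent.Work.MP_787500_nt.QS (Zq)
open Pool.Agent.Work.MP_787500_nt.KI (LocPar LY bC)

variable {F : Type*} [Field F] [Finite F] [CharP F 2] [Algebra (ZMod 2) F] {n : ℕ} [Sy F n]
  {G Γ : Type*} [Group G] [Group Γ] {e : G →* Γ} {c : Γ} {κ : G →* G} {P : Type*} [Group P]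
  {T : FSys P} {jp : P →* Γ} {χq : Γ → ℤ_[2]} {a : P → ℤ_[2]} {σ τ : P} {l : ℕ} {In : Subgroup P}
  {iv : (P → P → A0) → A0} {A : Γ →* Matrix (Fin n) (Fin n) F}
  {Y : Submodule F (P → (Fin n → F) × (Fin n → F))}

/-! ## Coordinates (as in KI/OfLag) -/

/-- the change of coordinates -/
private def cv (A : Γ →* Matrix (Fin n) (Fin n) F) (c : Γ) (p : (Fin n → F) × (Fin n → F)) :
    (Fin n → F) × (Fin n → F) := (p.1, A c *ᵥ (p.1 + p.2))

private theorem cc_vec (X : Two e c κ) (m : Fin n → F) : A c *ᵥ (A c *ᵥ m) = m := by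
  rw [mulVec_mulVec, ← map_mul, X.cc, map_one, one_mulVec]

private theorem ep_e' (g : G) : ep e (e g) = 0 := if_pos ⟨g, rfl⟩

private theorem ep_ec' (X : Two e c κ) (g : G) : ep e (e g * c) = 1 :=
  if_neg fun ⟨g', h⟩ => X.out g g' h

private theorem cv_smul (a : F) (p : (Fin n → F) × (Fin n → F)) : cv A c (a • p) = a • cv A c p := by
  refine Prod.ext rfl ?_
  show A c *ᵥ (a • p.1 + a • p.2) = a • (A c *ᵥ (p.1 + p.2))
  rw [← smul_add, mulVec_smul]

private theorem cv_inj (X : Two e c κ) {p q : (Fin n → F) × (Fin n → F)} (h : cv A c p = cv A c q) :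
    p = q := by
  have h1 : (cv A c p).1 = (cv A c q).1 := congrArg Prod.fst h
  have h2 : (cv A c p).2 = (cv A c q).2 := congrArg Prod.snd h
  change p.1 = q.1 at h1
  change A c *ᵥ (p.1 + p.2) = A c *ᵥ (q.1 + q.2) at h2
  have h3 := congrArg (fun m => A c *ᵥ m) h2
  beta_reduce at h3
  rw [cc_vec X, cc_vec X, h1] at h3
  exact Prod.ext h1 (add_left_cancel h3)

private theorem cv_surj (X : Two e c κ) (v : (Fin n → F) × (Fin n → F)) :
    cv A c (v.1, v.1 + A c *ᵥ v.2) = v := by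
  refine Prod.ext rfl ?_
  show A c *ᵥ (v.1 + (v.1 + A c *ᵥ v.2)) = v.2
  rw [← add_assoc, QP.vadd_self, zero_add, cc_vec X]

private theorem ac_cv (X : Two e c κ) (σ : Γ) (p : (Fin n → F) × (Fin n → F)) :
    ac2 e c κ (KT.act (A.comp e)) σ (cv A c p) =
      cv A c (A σ *ᵥ (p.1 + ep e σ • p.2), A σ *ᵥ p.2) := by
  rcases X.cases σ with ⟨g, rfl⟩ | ⟨g, rfl⟩
  · rw [X.ac_e, ep_e', zero_smul, add_zero]
    refine Prod.ext rfl ?_
    show A (e (κ g)) *ᵥ (A c *ᵥ (p.1 + p.2)) = A c *ᵥ (A (e g) *ᵥ p.1 + A (e g) *ᵥ p.2)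
    rw [← mulVec_add, X.kap, map_mul, map_mul, ← mulVec_mulVec, ← mulVec_mulVec, cc_vec X]
  · rw [X.ac_ec, ep_ec' X, one_smul]
    refine Prod.ext ?_ ?_
    · show A (e g) *ᵥ (A c *ᵥ (p.1 + p.2)) = A (e g * c) *ᵥ (p.1 + p.2)
      rw [mulVec_mulVec, map_mul]
    · show A (e (κ g)) *ᵥ p.1 = A c *ᵥ (A (e g * c) *ᵥ (p.1 + p.2) + A (e g * c) *ᵥ p.2)
      rw [← mulVec_add, add_assoc, QP.vadd_self, add_zero, X.kap, map_mul, map_mul, map_mul,
        ← mulVec_mulVec, ← mulVec_mulVec, ← mulVec_mulVec]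

private theorem be_cv (X : Two e c κ) (p q : (Fin n → F) × (Fin n → F)) :
    be2 (bC A c) (cv A c p) (cv A c q) = hfT (ee p.1 (q.1 + q.2)) := by
  rw [QS.be2_apply, KI.bC_apply]
  show hfT (ee p.1 (A c *ᵥ (A c *ᵥ (q.1 + q.2)))) = _
  rw [cc_vec X]

private theorem la_cv (X : Two e c κ) (hsp : ∀ g, IsSp (A g)) (α : F) (σ : Γ)
    (p : (Fin n → F) × (Fin n → F)) :
    la2 e c κ (KT.act (A.comp e)) (bC A c) α σ (cv A c p) = hfT (ep e σ • (α * ee p.1 p.2)) := by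
  rcases X.cases σ with ⟨g, rfl⟩ | ⟨g, rfl⟩
  · rw [X.la_e, ep_e', zero_smul, map_zero]
  · have h0 : ¬∃ g', e g' = e g * c := fun ⟨g', h⟩ => X.out g g' h
    unfold la2
    rw [if_neg h0, ac_cv X, ← cv_smul, be_cv X, ep_ec' X, one_smul, one_smul]
    congr 1
    show ee (α • (A (e g * c) *ᵥ (p.1 + p.2))) (A (e g * c) *ᵥ (p.1 + p.2) + A (e g * c) *ᵥ p.2) = _
    rw [ee_smul_left, ← mulVec_add, ee_mulVec (hsp _)]
    simp only [ee_add_left, ee_add_right, ee_self, zero_add, add_zero]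

private theorem Zq_cv (X : Two e c κ) (hsp : ∀ g, IsSp (A g)) (α : F)
    (p : (P → Fin n → F) × (P → Fin n → F)) (s t : P) :
    Zq (fun d => ac2 e c κ (KT.act (A.comp e)) (jp d)) (be2 (bC A c))
      (fun (a : F) d => la2 e c κ (KT.act (A.comp e)) (bC A c) a (jp d)) α
      (fun d => cv A c (p.1 d, p.2 d)) s t =
    hfT (α * (ee (p.1 s) (A (jp s) *ᵥ p.1 t) + ee (p.1 s) (A (jp s) *ᵥ p.2 t) +
      ep e (jp s) • ee (p.1 s) (A (jp s) *ᵥ p.2 t)) +
      ep e (jp s) • (α * ee (p.1 t) (p.2 t))) := by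
  show be2 (bC A c) (α • cv A c (p.1 s, p.2 s))
    (ac2 e c κ (KT.act (A.comp e)) (jp s) (cv A c (p.1 t, p.2 t))) +
    la2 e c κ (KT.act (A.comp e)) (bC A c) α (jp s) (cv A c (p.1 t, p.2 t)) = _
  rw [← cv_smul, ac_cv X, be_cv X, la_cv X hsp, ← map_add]
  congr 1
  show ee (α • p.1 s) (A (jp s) *ᵥ (p.1 t + ep e (jp s) • p.2 t) + A (jp s) *ᵥ p.2 t) +
    ep e (jp s) • (α * ee (p.1 t) (p.2 t)) = _
  rw [ee_smul_left, mulVec_add, ee_add_right, ee_add_right, smul_U (ep e (jp s)) (p.2 t), mulVec_smul,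
    ee_smul_right, smul_F (ep e (jp s)) (ee (p.1 s) (A (jp s) *ᵥ p.2 t))]
  ring

private theorem sub_U (u v : Fin n → F) : u - v = u + v := by
  ext i
  rw [Pi.sub_apply, Pi.add_apply, sub_eq_add_neg, CharTwo.neg_eq]

private theorem cv_sub (p q : (Fin n → F) × (Fin n → F)) : cv A c p - cv A c q = cv A c (p + q) := by
  refine Prod.ext (sub_U _ _) ?_
  show A c *ᵥ (p.1 + p.2) - A c *ᵥ (q.1 + q.2) = A c *ᵥ (p.1 + q.1 + (p.2 + q.2))
  rw [sub_U, ← mulVec_add]
  congr 1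
  abel

private theorem d0_cv (X : Two e c κ) (a m : Fin n → F) :
    d0 (fun d => ac2 e c κ (KT.act (A.comp e)) (jp d)) (cv A c (a, m)) =
      fun d => cv A c (A (jp d) *ᵥ (a + ep e (jp d) • m) + a, A (jp d) *ᵥ m + m) := by
  funext d
  show ac2 e c κ (KT.act (A.comp e)) (jp d) (cv A c (a, m)) - cv A c (a, m) = _
  rw [ac_cv X, cv_sub]
  rfl

private theorem exists_pair (X : Two e c κ) (y : P → (Fin n → F) × (Fin n → F)) :
    ∃ p : (P → Fin n → F) × (P → Fin n → F), (fun d => cv A c (p.1 d, p.2 d)) = y :=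
  ⟨(fun d => (y d).1, fun d => (y d).1 + A c *ᵥ (y d).2), funext fun d => cv_surj X (y d)⟩

/-- the values of the first components at `σ` and `τ²` -/
def gY (σ τ : P) : (P → (Fin n → F) × (Fin n → F)) →ₗ[F] (Fin n → F) × (Fin n → F) where
  toFun x := ((x σ).1, (x (τ * τ)).1)
  map_add' _ _ := rfl
  map_smul' _ _ := rfl

theorem gvY (X : Two e c κ) : (LY A c Y).map (gv σ τ) = Y.map (gY σ τ) := by
  ext x
  constructor
  · rintro ⟨p, hp, rfl⟩
    exact ⟨_, hp, rfl⟩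
  · rintro ⟨y, hy, rfl⟩
    obtain ⟨p, rfl⟩ := exists_pair (A := A) X y
    exact ⟨p, hy, rfl⟩

/-- the dimension of a Lagrangian condition -/
private theorem dim_Y
    (h : TR T (fun d => χq (jp d)) a σ τ l In iv (A.comp jp) (fun d => ep e (jp d)))
    (hq : QM T (fun d => χq (jp d)) F (fun d => ac2 e c κ (KT.act (A.comp e)) (jp d))
      (be2 (bC A c)) (fun (a : F) d => la2 e c κ (KT.act (A.comp e)) (bC A c) a (jp d)))
    (hl : LDual T iv (fun d => ac2 e c κ (KT.act (A.comp e)) (jp d))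
      (fun d => ac2 e c κ (KT.act (A.comp e)) (jp d)) (pB (be2 (bC A c))))
    (hY : Lag T iv (fun d => ac2 e c κ (KT.act (A.comp e)) (jp d)) (be2 (bC A c))
      (fun (a : F) d => la2 e c κ (KT.act (A.comp e)) (bC A c) a (jp d)) Y) :
    Finite Y ∧ Module.finrank F Y = 2 * n := by
  have hp := hq.pair
  have f1 : Finite (z1s T hp.act) := hl.fin
  have hle : Y.toAddSubgroup ≤ z1s T hp.act := fun x hx => hY.coc x hx
  have e := GP.card_perp (QL.zB h.loc hp) (Y.toAddSubgroup.addSubgroupOf (z1s T hp.act))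
    (fun x hx => by
      obtain ⟨m, hm⟩ := hl.one x.1 x.2 fun y hy => hx ⟨y, hy⟩
      rw [AddSubgroup.mem_addSubgroupOf]
      show x.1 ∈ Y
      rw [hm]
      exact QS.Lag.cob h.loc hq hY m)
  rw [QL.card_radL h.loc hp hl] at e
  have e1 : GP.perpL (QL.zB h.loc hp) (Y.toAddSubgroup.addSubgroupOf (z1s T hp.act)) =
      Y.toAddSubgroup.addSubgroupOf (z1s T hp.act) := by
    ext y
    constructor
    · intro hy
      rw [AddSubgroup.mem_addSubgroupOf]
      show y.1 ∈ Y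
      refine (hY.self _ y.2).2 fun x hx => ?_
      rw [QS.iv_symm h.loc hq y.2 (hY.coc x hx)]
      exact hy ⟨x, hY.coc x hx⟩ hx
    · intro hy x hx
      have hy' : y.1 ∈ Y := hy
      have hx' : x.1 ∈ Y := hx
      exact (hY.self _ x.2).1 hx' _ hy'
  rw [e1] at e
  have e2 : Nat.card (Y.toAddSubgroup.addSubgroupOf (z1s T hp.act)) = Nat.card Y :=
    Nat.card_congr (AddSubgroup.addSubgroupOfEquivOfLe hle).toEquiv
  rw [e2, ← KR.card_z1s hp, QL.h1_eq h.tame h.loc hp hl] at e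
  have e3 := QL.card_b1s hp
  have e4 : Nat.card (QL.fixG hp.act') = Nat.card (QL.fixG hp.act) := rfl
  rw [e4] at e
  have e5 : Nat.card Y * Nat.card Y = Nat.card ((Fin n → F) × (Fin n → F)) *
      Nat.card ((Fin n → F) × (Fin n → F)) := by
    rw [e, ← e3]
    ring
  have e6 : Nat.card Y = Nat.card ((Fin n → F) × (Fin n → F)) := Nat.mul_self_inj.1 e5
  have hfin : Finite Y := by
    apply Nat.finite_of_card_ne_zero
    rw [e6]
    exact Nat.card_pos.ne'
  refine ⟨hfin, ?_⟩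
  have hmf : Module.Finite F Y := Module.Finite.of_finite
  have e7 : Nat.card Y = Nat.card F ^ Module.finrank F Y := Module.natCard_eq_pow_finrank
  have e8 : Nat.card ((Fin n → F) × (Fin n → F)) = Nat.card F ^ (2 * n) := by
    rw [Module.natCard_eq_pow_finrank (K := F), Module.finrank_prod, Module.finrank_fin_fun]
    congr 1
    ring
  rw [e7, e8] at e6
  exact Nat.pow_right_injective Finite.one_lt_card e6

private theorem dim_LY (X : Two e c κ) [Finite Y] {m : ℕ} (hm : Module.finrank F Y = m) :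
    Module.finrank F (LY A c Y) = m := by
  have hmf : Module.Finite F Y := Module.Finite.of_finite
  have e1 : Nat.card (LY A c Y) = Nat.card Y := by
    refine Nat.card_congr (Equiv.ofBijective (fun p : LY A c Y =>
      (⟨fun d => cv A c (p.1.1 d, p.1.2 d), p.2⟩ : Y)) ⟨?_, ?_⟩)
    · rintro ⟨p, hp⟩ ⟨q, hq⟩ hpq
      have h1 : (fun d => cv A c (p.1 d, p.2 d)) = fun d => cv A c (q.1 d, q.2 d) :=
        congrArg Subtype.val hpq
      have h2 : ∀ d, (p.1 d, p.2 d) = (q.1 d, q.2 d) := fun d => cv_inj X (congrFun h1 d)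
      refine Subtype.ext (Prod.ext (funext fun d => ?_) (funext fun d => ?_))
      · exact congrArg Prod.fst (h2 d)
      · exact congrArg Prod.snd (h2 d)
    · rintro ⟨y, hy⟩
      obtain ⟨p, rfl⟩ := exists_pair (A := A) X y
      exact ⟨⟨p, hy⟩, rfl⟩
  have hf : Finite (LY A c Y) := by
    apply Nat.finite_of_card_ne_zero
    rw [e1]
    exact Nat.card_pos.ne'
  have hmf2 : Module.Finite F (LY A c Y) := Module.Finite.of_finite
  rw [Module.natCard_eq_pow_finrank (K := F) (V := LY A c Y),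
    Module.natCard_eq_pow_finrank (K := F) (V := Y), hm] at e1
  exact Nat.pow_right_injective Finite.one_lt_card e1

theorem lr_of_lag (X : Two e c κ)
    (h : TR T (fun d => χq (jp d)) a σ τ l In iv (A.comp jp) (fun d => ep e (jp d)))
    (hsp : ∀ g, IsSp (A g))
    (hq : QM T (fun d => χq (jp d)) F (fun d => ac2 e c κ (KT.act (A.comp e)) (jp d))
      (be2 (bC A c)) (fun (a : F) d => la2 e c κ (KT.act (A.comp e)) (bC A c) a (jp d)))
    (hl : LDual T iv (fun d => ac2 e c κ (KT.act (A.comp e)) (jp d))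
      (fun d => ac2 e c κ (KT.act (A.comp e)) (jp d)) (pB (be2 (bC A c))))
    (hY : Lag T iv (fun d => ac2 e c κ (KT.act (A.comp e)) (jp d)) (be2 (bC A c))
      (fun (a : F) d => la2 e c κ (KT.act (A.comp e)) (bC A c) a (jp d)) Y) :
    LR T iv (A.comp jp) (fun d => ep e (jp d)) (LY A c Y) where
  lkr := KI.lkr_of_lag X h.loc hsp h.sm h.esm h.ld hY
  cob a m := by
    have h1 := QS.Lag.cob h.loc hq hY (cv A c (a, m))
    rw [d0_cv X] at h1
    exact h1
  iso p hp α := by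
    have h1 := hY.iso α _ hp
    rw [← h1]
    congr 1
    funext s t
    refine Eq.trans ?_ (Zq_cv X hsp α p s t).symm
    congr 1
    show α * (ee (p.1 s) (A (jp s) *ᵥ p.1 t) + ee (p.1 s) (A (jp s) *ᵥ p.2 t) +
      ep e (jp s) • ee (p.1 s) (A (jp s) *ᵥ p.2 t) + ep e (jp s) • ee (p.1 t) (p.2 t)) = _
    rw [mul_add, mul_smul_comm (ep e (jp s)) α (ee (p.1 t) (p.2 t))]
  dim := by
    obtain ⟨h1, h2⟩ := dim_Y h hq hl hY
    exact dim_LY X h2

/-- THE CONTRIBUTION OF A RAMIFIED TAME PLACE, for conditions for `U × U`. -/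
theorem locPar_res (X : Two e c κ)
    (h : TR T (fun d => χq (jp d)) a σ τ l In iv (A.comp jp) (fun d => ep e (jp d)))
    (hsp : ∀ g, IsSp (A g))
    (hq : QM T (fun d => χq (jp d)) F (fun d => ac2 e c κ (KT.act (A.comp e)) (jp d))
      (be2 (bC A c)) (fun (a : F) d => la2 e c κ (KT.act (A.comp e)) (bC A c) a (jp d)))
    (hl : LDual T iv (fun d => ac2 e c κ (KT.act (A.comp e)) (jp d))
      (fun d => ac2 e c κ (KT.act (A.comp e)) (jp d)) (pB (be2 (bC A c))))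
    (hY : Lag T iv (fun d => ac2 e c κ (KT.act (A.comp e)) (jp d)) (be2 (bC A c))
      (fun (a : F) d => la2 e c κ (KT.act (A.comp e)) (bC A c) a (jp d)) Y) {δ : ℕ}
    (hδ : Even (Module.finrank F ↥(Y.map (gY σ τ) ⊓ LX (A (jp τ)) l) + δ)) :
    LocPar T jp iv e c κ A Y δ := by
  obtain ⟨-, h2⟩ := dim_Y h hq hl hY
  obtain ⟨t, m, h3, h4, h5⟩ := main_res h (lr_of_lag X h hsp hq hl hY)
  rw [gvY (A := A) X] at h5
  refine ⟨Y, t, m, hY, h3, h4, ?_⟩
  rw [inf_idem, h2]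
  have h6 : Even (m + t + Module.finrank F ↥(Y.map (gY σ τ) ⊓ LX (A (jp τ)) l)) := h5
  obtain ⟨a1, h7⟩ := h6
  obtain ⟨b1, h8⟩ := hδ
  refine ⟨a1 + b1 + 2 * n - Module.finrank F ↥(Y.map (gY σ τ) ⊓ LX (A (jp τ)) l), ?_⟩
  have h9 : ((Module.finrank F ↥(Y.map (gY σ τ) ⊓ LX (A (jp τ)) l) + δ : ℕ) : ℤ) =
    ((b1 + b1 : ℕ) : ℤ) := by rw [h8]
  push_cast at h9 ⊢
  linear_combination h7 + h9

/-- the generator values of a Lagrangian condition: dimension `n`, isotropic -/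
theorem gY_lag (X : Two e c κ)
    (h : TR T (fun d => χq (jp d)) a σ τ l In iv (A.comp jp) (fun d => ep e (jp d)))
    (hsp : ∀ g, IsSp (A g))
    (hq : QM T (fun d => χq (jp d)) F (fun d => ac2 e c κ (KT.act (A.comp e)) (jp d))
      (be2 (bC A c)) (fun (a : F) d => la2 e c κ (KT.act (A.comp e)) (bC A c) a (jp d)))
    (hl : LDual T iv (fun d => ac2 e c κ (KT.act (A.comp e)) (jp d))
      (fun d => ac2 e c κ (KT.act (A.comp e)) (jp d)) (pB (be2 (bC A c))))
    (hY : Lag T iv (fun d => ac2 e c κ (KT.act (A.comp e)) (jp d)) (be2 (bC A c))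
      (fun (a : F) d => la2 e c κ (KT.act (A.comp e)) (bC A c) a (jp d)) Y) :
    Module.finrank F (Y.map (gY σ τ)) = n ∧ ∀ x ∈ Y.map (gY σ τ), QX (A (jp τ)) l x = 0 := by
  have hL := lr_of_lag X h hsp hq hl hY
  rw [← gvY (A := A) X]
  constructor
  · have h1 := finrank_map h hL
    rw [hL.dim] at h1
    omega
  · rintro _ ⟨p, hp, rfl⟩
    refine hfT_nondeg fun α => ?_
    have h1 := iv_zq h (hL.lkr.coc p hp) α
    rw [hL.iso p hp α] at h1
    exact h1.symm

end Pool.Agent.Work.MP_787500_nt.ER
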