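import Mathlib
import Pool.Agent.Work.MP_787500_nt.ER.LDefs
import Pool.Agent.Work.MP_787500_nt.ER.LocI
import Pool.Agent.Work.MP_787500_nt.KI.LevQ
import Pool.Agent.Work.MP_787500_nt.QU.UrV

/-!
# ER/Rep (size M-L): the matrices of the representation at a place ramified in the quadratic field

`e θ * c = jp τ`, `e s = jp σ`, `g = θ κ(θ)` (`e g = jp (τ τ)` because `c e(θ) c = e (κ θ)`), `N = ρ g - 1`, `K = ρ (κ θ)`. Hypothesis `hun`: `(ρ g - 1)² = 0` for all `g` in the inertia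
group over the quadratic field.
* `rho_P`: `ρ g = 1` if `e g = jp d`, `d ∈ In`, `a d = 0`: for every `ε` there is `W` such that `ρ` is `ε`-close to 1 on `W` (`hr.sm`, `p.up`, `p.js`), `d ^ r ∈ W` with `r` odd
  (`TameF.odd_quot`), `ρ g ^ r = 1 + r (ρ g - 1)`, so `ρ g - 1` is `ε`-small.
* `chi_th`: `χ θ = -1` (`χq (jp τ) = 1`, `χq c = -1`).
* `rel_th`: `ρ (κ s) * ρ (κ θ) = ρ (κ g) ^ j * ρ (κ θ) * ρ s`, `q = 2 j + 1`: `σ τ = τ ^ q σ p` (`h.rel`, `p ∈ In`, `a p = 0`) reads `s θ = g ^ j θ κ(s)` up to an element killed by `ρ`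
  (and `ρ ∘ κ`: conjugate by `c`, equivalently by `τ` and `θ`), apply `κ`.
* `bt_of`: `BT`. `nn`: `hun`. `skew`: `bil b x (K y) = bil b (K y) x = - bil b (ρ θ K y) (K x)` (`hr.dual θ`, `χ θ = -1`, `hl.symm`), `ρ θ K = ρ g = 1 + N`. `sN`: `σ τ² = τ ^ (2 q) σ p'`:
  `ρ s ρ g = ρ g ^ q ρ s`, `ρ g ^ q = 1 + q N`: `r = q`. `inv`: `N s = q⁻¹ s N`; `bil b (s N x) (K s y) = bil b (s N x) (ρ (κ g) ^ (-j) ρ (κ s) K y) = bil b (ρ g ^ j s N x) (ρ (κ s) K y)`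
  (`hr.dual g`, `χ g = 1`), `ρ g ^ j s N x = s N x` (`N s N = q⁻¹ s N N = 0`), `= χ(s) bil b (N x) (K y)`, `χ s = q` (`h.σχ`). `su`, `nT`, `kT`: `ρ` is a representation (`hr.one`, `hr.mul`) that preserves `T`.
* `link_of`: `LinkX`: `A (jp τ) = A (e θ * c) = A c * A (e (κ θ))` (`e θ * c = c * e (κ θ)`), `hc.ae`, `hc.fr` (`bC_apply`), `bN_val` (`N = 1`).
-/

set_option autoImplicit false
set_option linter.unusedSectionVars false

namespace Pool.Agent.Work.MP_787500_nt.ER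

open Matrix
open Pool.Agent.Work.MP_787500_nt.GP (A0 pr0 OE MN Wq mq mq_add mq_sub mq_smul mq_eq mq_eq_zero lft mq_lft
  bil bil_add_left bil_add_right bil_sub_left bil_sub_right bil_smul_left bil_smul_right bil_symm Lat
  lamN bN bN_val actN actQ actQ_mq)
open Pool.Agent.Work.MP_787500_nt.KR (FSys Sm1 Sm2 IsChar Smooth Z1 Z2 B2 LocH Pair LDual LocRep SDualF
  sdualF_MN)
open Pool.Agent.Work.MP_787500_nt.PA (toE)
open Pool.Agent.Work.MP_787500_nt.KS (hfT hfT_nondeg ep)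
open Pool.Agent.Work.MP_787500_nt.KT (Sy ee IsSp)
open Pool.Agent.Work.MP_787500_nt.QL (TameF)
open Pool.Agent.Work.MP_787500_nt.QS (Two ac2 be2 la2 Lag QM pB)
open Pool.Agent.Work.MP_787500_nt.QV (rho2 blk T2 J2 v1 v2 isoN)
open Pool.Agent.Work.MP_787500_nt.QU (urV)
open Pool.Agent.Work.MP_787500_nt.KI (SIso LocPar LocM LY bC Crd PlQ YM tra siso_f2)

universe w

variable {G Γ : Type*} [Group G] [Group Γ] {S : FSys G} {Sq : FSys Γ} {χ : G → ℤ_[2]}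
  {χq : Γ → ℤ_[2]} {e : G →* Γ} {c : Γ} {κ : G →* G} {P : Type*} [Group P] {TP : FSys P}
  {jp : P →* Γ} {iv : (P → P → A0) → A0} {E : Type w} [NormedField E] [NormedAlgebra ℚ_[2] E]
  [FiniteDimensional ℚ_[2] E] {m : ℕ} {b : Matrix (Fin m) (Fin m) E} {l : OE E}
  {t : E →ₗ[ℚ_[2]] ℚ_[2]} {T : Submodule (OE E) (Fin m → E)} {ρ : G → Matrix (Fin m) (Fin m) E}
  {a : P → ℤ_[2]} {σ τ : P} {q : ℕ} {In : Subgroup P} {θ s : G}

private theorem rho_pow (hr : LocRep S χ T b ρ (fun g => ρ (κ g))) {g : G}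
    (h0 : (ρ g - 1) * (ρ g - 1) = 0) (k : ℕ) : ρ (g ^ k) = 1 + (k : E) • (ρ g - 1) := by
  induction k with
  | zero => rw [pow_zero, hr.one, Nat.cast_zero, zero_smul, add_zero]
  | succ k ih =>
    rw [pow_succ, hr.mul, ih]
    have e1 : (ρ g - 1) * ρ g = ρ g - 1 := by
      have e2 : (ρ g - 1) * ρ g = (ρ g - 1) * (ρ g - 1) + (ρ g - 1) := by
        rw [mul_sub (ρ g - 1) (ρ g) 1, mul_one, sub_add_cancel]
      rw [e2, h0, zero_add]
    rw [add_mul, one_mul, smul_mul_assoc, e1, Nat.cast_succ, add_smul, one_smul]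
    abel

theorem rho_P (p : PlQ.{w} S Sq χ χq e c κ TP jp iv)
    (hr : LocRep S χ T b ρ (fun g => ρ (κ g)))
    (h : TameF TP (fun d => χq (jp d)) a σ τ q In)
    (hun : ∀ g, (∃ d ∈ In, jp d = e g) → (ρ g - 1) * (ρ g - 1) = 0) {g : G} {d : P} (hd : d ∈ In)
    (ha : a d = 0) (hg : jp d = e g) : ρ g = 1 := by
  have hdP : d ∈ h.P := ⟨h.Iχ d hd, ha⟩
  have h0 := hun g ⟨d, hd, hg⟩
  have hz : ∀ x : Fin m → E, (ρ g - 1) *ᵥ x = 0 := by
    intro x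
    by_contra hx
    have hpos : 0 < ‖(ρ g - 1) *ᵥ x‖ := norm_pos_iff.2 hx
    have hε0 : 0 < ‖(ρ g - 1) *ᵥ x‖ / (2 * (‖x‖ + 1)) := by positivity
    obtain ⟨W, hW, hW1⟩ := hr.sm _ hε0
    obtain ⟨W', hW', h1⟩ := p.up W hW
    obtain ⟨W'', hW'', h2⟩ := p.js W' hW'
    obtain ⟨r, hro, hr2⟩ : ∃ r : ℕ, Odd r ∧ d ^ r ∈ W'' := by
      have ho := h.odd_quot hW''
      have hn := TP.normal hW''
      refine ⟨_, ho, ?_⟩
      have e1 : ((⟨d, hdP⟩ : h.P) : h.P ⧸ W''.subgroupOf h.P) ^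
          Nat.card (h.P ⧸ W''.subgroupOf h.P) = 1 := pow_card_eq_one'
      rw [← QuotientGroup.mk_pow, QuotientGroup.eq_one_iff, Subgroup.mem_subgroupOf] at e1
      exact e1
    obtain ⟨g', hg', hg''⟩ := h1 _ (h2 _ hr2)
    have h3 : g' = g ^ r := p.two.inj (by rw [hg'', map_pow, map_pow, hg])
    subst h3
    have h4 := hW1 _ hg' x
    rw [rho_pow hr h0, add_mulVec, one_mulVec, smul_mulVec, add_sub_cancel_left, norm_smul] at h4
    have h5 : ‖(r : E)‖ = 1 := by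
      rw [← map_natCast (algebraMap ℚ_[2] E) r, norm_algebraMap']
      rw [Padic.norm_natCast_eq_one_iff]
      exact (Nat.coprime_two_left).2 hro
    rw [h5, one_mul] at h4
    have h6 : ‖(ρ g - 1) *ᵥ x‖ / (2 * (‖x‖ + 1)) * ‖x‖ < ‖(ρ g - 1) *ᵥ x‖ := by
      rw [div_mul_eq_mul_div, div_lt_iff₀ (by positivity)]
      have := norm_nonneg x
      nlinarith
    exact absurd h4 (not_le.2 h6)
  have h7 : ρ g - 1 = 0 := by
    ext i j
    have h8 := congrFun (hz (Pi.single j 1)) i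
    rw [Matrix.mulVec_single_one] at h8
    exact h8
  exact sub_eq_zero.1 h7

theorem chi_th (p : PlQ.{w} S Sq χ χq e c κ TP jp iv)
    (h : TameF TP (fun d => χq (jp d)) a σ τ q In) (hθ : e θ * c = jp τ) : χ θ = -1 := by
  have h1 : χq (jp τ) = 1 := h.τχ
  rw [← hθ, p.mul, p.chi, p.chic, mul_neg, mul_one] at h1
  rw [← h1, neg_neg]

section bt

/-- `g = θ κ(θ)` -/
private theorem e_gg (X : Two e c κ) (hθ : e θ * c = jp τ) : jp (τ * τ) = e (θ * κ θ) := by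
  rw [map_mul, ← hθ, map_mul, X.kap]
  simp only [mul_assoc]

private theorem p0_In (h : TameF TP (fun d => χq (jp d)) a σ τ q In) {p0 : P}
    (hrel : σ * τ = τ ^ q * σ * p0) : p0 ∈ In := by
  have hn := h.In
  have e1 : p0 = σ⁻¹ * (τ ^ q)⁻¹ * σ * τ := by
    have : p0 = (τ ^ q * σ)⁻¹ * (σ * τ) := by rw [hrel]; group
    rw [this]
    group
  rw [e1]
  refine In.mul_mem ?_ h.τI
  have := hn.conj_mem _ (In.inv_mem (In.pow_mem h.τI q)) σ⁻¹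
  rwa [inv_inv] at this

private theorem exists_g0 (X : Two e c κ) (hθ : e θ * c = jp τ) (hs : e s = jp σ) (hq : Odd q)
    {p0 : P} (hrel : σ * τ = τ ^ q * σ * p0) : ∃ g0, jp p0 = e g0 := by
  rcases X.cases (jp p0) with ⟨g, hg⟩ | ⟨g, hg⟩
  · exact ⟨g, hg.symm⟩
  · exfalso
    have hσ : ep e (jp σ) = 0 := by rw [← hs, QP.ep_e]
    have hτ : ep e (jp τ) = 1 := by rw [← hθ, QP.ep_ec X]
    have hp : ep e (jp p0) = 1 := by rw [← hg, QP.ep_ec X]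
    have hτq : ∀ k : ℕ, ep e (jp (τ ^ k)) = k := by
      intro k
      induction k with
      | zero =>
        rw [pow_zero, map_one, ← map_one e, QP.ep_e, Nat.cast_zero]
      | succ k ih => rw [pow_succ, map_mul, QP.ep_add2 X, ih, hτ, Nat.cast_succ]
    have h1 := congrArg (fun x => ep e (jp x)) hrel
    beta_reduce at h1
    rw [map_mul, QP.ep_add2 X, map_mul, QP.ep_add2 X, map_mul, QP.ep_add2 X, hσ, hτ, hp, hτq] at h1
    obtain ⟨j, rfl⟩ := hq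
    push_cast at h1
    have h2 : (2 : ZMod 2) = 0 := rfl
    rw [h2, zero_mul] at h1
    revert h1
    decide

private theorem rel_G (X : Two e c κ) (hθ : e θ * c = jp τ) (hs : e s = jp σ) {j : ℕ}
    {p0 : P} (hrel : σ * τ = τ ^ (2 * j + 1) * σ * p0) {g0 : G} (hg0 : jp p0 = e g0) :
    κ s * κ θ = (κ (θ * κ θ)) ^ j * κ θ * s * g0 := by
  have h1 := congrArg jp hrel
  have h2 : jp (τ ^ (2 * j + 1)) = e (θ * κ θ) ^ j * (e θ * c) := by
    rw [pow_succ, pow_mul, pow_two, map_mul, map_pow, e_gg X hθ, hθ]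
  rw [map_mul, map_mul, map_mul, h2, hg0, ← hs, ← hθ] at h1
  have h3 : e (s * θ) * c = e ((θ * κ θ) ^ j * θ * κ s * κ g0) * c := by
    rw [map_mul, mul_assoc, h1]
    rw [map_mul e ((θ * κ θ) ^ j * θ * κ s), map_mul e ((θ * κ θ) ^ j * θ),
      map_mul e ((θ * κ θ) ^ j), map_pow, X.kap s, X.kap g0]
    simp only [mul_assoc]
    have hcc : ∀ y : Γ, c * (c * y) = y := fun y => by rw [← mul_assoc, X.cc, one_mul]
    rw [X.cc, mul_one, hcc]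
  have h4 : s * θ = (θ * κ θ) ^ j * θ * κ s * κ g0 := X.inj (mul_right_cancel h3)
  have h5 := congrArg κ h4
  rw [map_mul, map_mul, map_mul, map_mul, map_pow, X.kk s, X.kk g0] at h5
  exact h5

end bt

theorem bt_of (p : PlQ.{w} S Sq χ χq e c κ TP jp iv) (hl : Lat b l t T)
    (hr : LocRep S χ T b ρ (fun g => ρ (κ g)))
    (h : TameF TP (fun d => χq (jp d)) a σ τ q In)
    (hun : ∀ g, (∃ d ∈ In, jp d = e g) → (ρ g - 1) * (ρ g - 1) = 0) (hθ : e θ * c = jp τ)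
    (hs : e s = jp σ) : BT b T (ρ (θ * κ θ) - 1) (ρ s) (ρ (κ θ)) := by
  have X := p.two
  have hgg := e_gg X hθ
  have hτI2 : τ * τ ∈ In := In.mul_mem h.τI h.τI
  have hnn : (ρ (θ * κ θ) - 1) * (ρ (θ * κ θ) - 1) = 0 := hun _ ⟨_, hτI2, hgg⟩
  obtain ⟨p0, hp0, hrel⟩ := h.rel
  have hp0I := p0_In h hrel
  obtain ⟨g0, hg0⟩ := exists_g0 X hθ hs h.lodd hrel
  have hρg0 : ρ g0 = 1 := rho_P p hr h hun hp0I hp0.2 hg0
  obtain ⟨j, hj⟩ := h.lodd
  have hq0 : (q : E) ≠ 0 := by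
    have := h.lt
    have h2 : (algebraMap ℚ_[2] E) (q : ℚ_[2]) ≠ 0 := by
      rw [map_ne_zero_iff _ (algebraMap ℚ_[2] E).injective]
      exact_mod_cast (by omega : q ≠ 0)
    rwa [map_natCast] at h2
  -- the characters
  have hχg : χ (θ * κ θ) = 1 := by
    rw [← p.chi, ← hgg]
    exact h.Iχ _ hτI2
  have hχs : χ s = q := by
    rw [← p.chi, hs]
    exact h.σχ
  have hm := p.mul
  -- the relation
  have hR : ρ (κ s) * ρ (κ θ) = ρ (κ ((θ * κ θ) ^ j)) * ρ (κ θ) * ρ s := by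
    have h1 := rel_G X hθ hs (hj ▸ hrel) hg0
    rw [← hr.mul, h1, hr.mul, hr.mul, hr.mul, hρg0, mul_one, map_pow]
  -- the second relation
  have hN : ρ s * (ρ (θ * κ θ) - 1) = (q : E) • ((ρ (θ * κ θ) - 1) * ρ s) := by
    have hp1 : τ⁻¹ * p0 * τ ∈ In := by
      have := h.In.conj_mem _ hp0I τ⁻¹
      rwa [inv_inv] at this
    have hp1a : a (τ⁻¹ * p0 * τ) = 0 := by
      have := (h.P_normal.conj_mem _ hp0 τ⁻¹).2
      rwa [inv_inv] at this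
    have hg1 : jp (τ⁻¹ * p0 * τ) = e (κ (θ⁻¹ * g0 * θ)) := by
      have hc1 : c⁻¹ = c := inv_eq_of_mul_eq_one_left X.cc
      rw [map_mul, map_mul, map_inv, hg0, ← hθ, X.kap, _root_.mul_inv_rev, hc1, map_mul, map_mul, map_inv]
      simp only [mul_assoc]
    have hρg1 : ρ (κ (θ⁻¹ * g0 * θ)) = 1 := rho_P p hr h hun hp1 hp1a hg1
    have h1 : s * (θ * κ θ) = (θ * κ θ) ^ q * s * g0 * κ (θ⁻¹ * g0 * θ) := by
      apply X.inj
      have h2 : e (s * (θ * κ θ)) = jp (σ * τ * τ) := by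
        rw [map_mul, hs, ← hgg, mul_assoc, ← map_mul]
      have h3 : e ((θ * κ θ) ^ q * s * g0 * κ (θ⁻¹ * g0 * θ)) =
          jp ((τ * τ) ^ q * σ * p0 * (τ⁻¹ * p0 * τ)) := by
        rw [map_mul e, map_mul e, map_mul e, map_pow e, hs, ← hgg, ← hg0, ← hg1,
          map_mul jp ((τ * τ) ^ q * σ * p0), map_mul jp ((τ * τ) ^ q * σ),
          map_mul jp ((τ * τ) ^ q), map_pow jp]
      rw [h2, h3]
      congr 1
      have h4 : σ * τ * τ = τ ^ q * (σ * τ) * (τ⁻¹ * p0 * τ) := by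
        have e1 : τ ^ q * (σ * τ) * (τ⁻¹ * p0 * τ) = τ ^ q * σ * p0 * τ := by group
        rw [e1, ← hrel]
      rw [h4, hrel, (Commute.refl τ).mul_pow q]
      simp only [mul_assoc]
    have h5 := congrArg ρ h1
    rw [hr.mul s, hr.mul ((θ * κ θ) ^ q * s * g0), hρg1, mul_one, hr.mul ((θ * κ θ) ^ q * s) g0,
      hρg0, mul_one, hr.mul ((θ * κ θ) ^ q), rho_pow hr hnn] at h5
    have h6 : ρ s * ρ (θ * κ θ) = ρ s * (ρ (θ * κ θ) - 1) + ρ s := by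
      rw [mul_sub, mul_one, sub_add_cancel]
    rw [h6, add_mul, one_mul, smul_mul_assoc, add_comm (ρ s)] at h5
    exact add_right_cancel h5
  refine ⟨hnn, ?_, ?_, ⟨q, hq0, hN⟩, ?_, ?_, ?_⟩
  · intro x y
    have h1 := hr.dual θ (ρ (κ θ) *ᵥ y) x
    have h2 : y + (ρ (θ * κ θ) - 1) *ᵥ y = ρ θ *ᵥ (ρ (κ θ) *ᵥ y) := by
      rw [sub_mulVec, one_mulVec, add_sub_cancel, hr.mul, mulVec_mulVec]
    rw [h2, h1, chi_th p h hθ, bil_symm hl.symm x]
    have h3 : toE E (-1) = -1 := by simp [toE]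
    rw [h3]
    ring
  · intro x y
    have hχj : χ ((θ * κ θ) ^ j) = 1 := by
      rw [← p.chi, map_pow, ← hgg, ← map_pow]
      exact h.Iχ _ (In.pow_mem hτI2 j)
    have h1 := hr.dual ((θ * κ θ) ^ j) ((ρ (θ * κ θ) - 1) *ᵥ (ρ s *ᵥ x)) (ρ (κ θ) *ᵥ (ρ s *ᵥ y))
    have h2 : ρ ((θ * κ θ) ^ j) *ᵥ ((ρ (θ * κ θ) - 1) *ᵥ (ρ s *ᵥ x)) =
        (ρ (θ * κ θ) - 1) *ᵥ (ρ s *ᵥ x) := by
      rw [rho_pow hr hnn, add_mulVec, one_mulVec, smul_mulVec, mulVec_mulVec _ (ρ (θ * κ θ) - 1)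
        (ρ (θ * κ θ) - 1), hnn, zero_mulVec, smul_zero, add_zero]
    have h3 : ρ (κ ((θ * κ θ) ^ j)) *ᵥ (ρ (κ θ) *ᵥ (ρ s *ᵥ y)) = ρ (κ s) *ᵥ (ρ (κ θ) *ᵥ y) := by
      rw [mulVec_mulVec, mulVec_mulVec, ← hR, mulVec_mulVec]
    rw [hχj] at h1
    beta_reduce at h1
    rw [h2, h3] at h1
    have h4 : toE E 1 = 1 := by simp [toE]
    rw [h4, one_mul] at h1
    have h5 := hr.dual s ((ρ (θ * κ θ) - 1) *ᵥ x) (ρ (κ θ) *ᵥ y)
    rw [mulVec_mulVec, hN, smul_mulVec, bil_smul_left, ← mulVec_mulVec, hχs] at h5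
    beta_reduce at h5
    rw [h1] at h5
    have h6 : toE E (q : ℤ_[2]) = (q : E) := by simp [toE]
    rw [h6] at h5
    exact mul_left_cancel₀ hq0 h5
  · refine IsUnit.of_mul_eq_one (ρ s⁻¹) ?_
    rw [← hr.mul, mul_inv_cancel, hr.one]
  · intro x hx
    rw [sub_mulVec, one_mulVec]
    exact T.sub_mem (hr.st _ x hx) hx
  · intro x
    refine ⟨fun hx => ?_, hr.st _ x⟩
    have h1 := hr.st (κ θ)⁻¹ _ hx
    rwa [mulVec_mulVec, ← hr.mul, inv_mul_cancel, hr.one, one_mulVec] at h1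

theorem link_of [IsLocalRing (OE E)] [Finite (IsLocalRing.ResidueField (OE E))]
    [CharP (IsLocalRing.ResidueField (OE E)) 2] [Algebra (ZMod 2) (IsLocalRing.ResidueField (OE E))]
    {n : ℕ} [Sy (IsLocalRing.ResidueField (OE E)) n] (p : PlQ.{w} S Sq χ χq e c κ TP jp iv)
    (hl : Lat b l t T) (hr : LocRep S χ T b ρ (fun g => ρ (κ g))) {C : MN T l 1 → MN T l 1}
    {L : MN T l 1 ≃+ (Fin n → IsLocalRing.ResidueField (OE E))}
    {A : Γ →* Matrix (Fin n) (Fin n) (IsLocalRing.ResidueField (OE E))}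
    (hc : Crd e c (OE E) (actN l 1 ρ hr.st) (bN hl 1) C L A) (hθ : e θ * c = jp τ) :
    LinkX L b t (ρ (κ θ)) (A (jp τ)) := by
  rintro x y u v ⟨zx, h1, rfl⟩ ⟨zy, h2, rfl⟩
  have X := p.two
  have h3 : jp τ = c * e (κ θ) := by
    rw [← hθ, X.kap]
    rw [← mul_assoc, ← mul_assoc, X.cc, one_mul]
  rw [h3, map_mul, ← mulVec_mulVec, hc.ae]
  have h4 := hc.fr zx (actN l 1 ρ hr.st (κ θ) zy)
  rw [KI.bC_apply] at h4
  rw [← h4]
  have h5 : mq T (ρ (κ θ) *ᵥ y) = (actN l 1 ρ hr.st (κ θ) zy : Wq T) := by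
    rw [GP.coe_actN, h2, actQ_mq (hr.st _)]
  rw [GP.bN_val hl 1 zx (actN l 1 ρ hr.st (κ θ) zy) h1.symm h5, pow_one]

end Pool.Agent.Work.MP_787500_nt.ER
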