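import Mathlib
import Pool.Agent.Work.MP_787500_nt.ER.Rep

/-!
# ER/FixR (size M): the dimension of `W5` in terms of invariants

`VI` = the vectors fixed by the inertia group over the quadratic field, `QI` = the vectors `v` with `ρ g v - v ∈ VI` for all `g` in the decomposition group over it.
* `fixI`: `VI = ker N` (`N = ρ (θ κ θ) - 1`). `⊆`: `jp (τ τ) = e (θ κ θ)`, `τ τ ∈ In`. `⊇`: let `N v = 0`, `d ∈ In`, `jp d = e g`; for `ε > 0` take `W` with `ρ` `ε`-close to 1 on `W` (`hr.sm`, `p.up`,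
  `p.js`); as in the proof of `KI.hom_I`, `d = τ ^ k n'`, `n' ∈ In`, `2 ^ M ∣ a n'`, `n' ^ r ∈ W`, `r` odd; `k` is even (`ε (n') = 0` because an odd power of `n'` is in `W`, on which `ep` is 0), so
  `ρ (τ ^ k) v = v`, and `ρ (n') ^ r = 1 + r (ρ (n') - 1)` (`hun`) is close to 1, so `ρ (n')` is `ε`-close to 1: `‖ρ g v - v‖ ≤ ε ‖v‖`.
* `fixQ`: `QI = {v | N (ρ s v - v) = 0}`. `⊆`: `fixI` for `s`. `⊇`: `g` with `e g = jp d`: `d = σ ^ i n w` (`h.frob`), `n ∈ In`; modulo `VI = ker N` (stable under `ρ s`: `BT.sN`) `ρ s` fixes `v`, `ρ n` maps `v` to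
  `v + (ρ n - 1) v` and `(ρ n - 1) v ∈ VI` (`hun`: polarize? use `fixI`: `N (ρ n - 1) v = 0` because `ρ n - 1` is a limit of multiples of `N`, or `(ρ n - 1) (ρ n - 1) = 0` and the group generated is
  procyclic); `w` is close to 1; `ker N` is closed.
* `dim_W5`: `dim W5 + dim QI = m + dim VI`: the map `w ↦ (s - 1) w` from `V` to `V / ker N` has kernel `QI` and image `W5 / ker N`.
-/

set_option autoImplicit false
set_option linter.unusedSectionVars false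

namespace Pool.Agent.Work.MP_787500_nt.ER

open Matrix
open Pool.Agent.Work.MP_787500_nt.GP (A0 pr0 OE MN Wq mq mq_add mq_sub mq_smul mq_eq mq_eq_zero lft mq_lft
  bil bil_add_left bil_add_right bil_sub_left bil_sub_right bil_smul_left bil_smul_right bil_symm Lat
  lamN bN bN_val actN actQ actQ_mq)
open Pool.Agent.Work.MP_787500_nt.KR (FSys Sm1 Sm2 IsChar Smooth Z1 Z2 B2 LocH Pair LDual LocRep SDualF
  sdualF_MN)
open Pool.Agent.Work.MP_787500_nt.PA (toE)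
open Pool.Agent.Work.MP_787500_nt.KS (hfT hfT_nondeg ep)
open Pool.Agent.Work.MP_787500_nt.KT (Sy ee IsSp)
open Pool.Agent.Work.MP_787500_nt.QL (TameF)
open Pool.Agent.Work.MP_787500_nt.QS (Two ac2 be2 la2 Lag QM pB)
open Pool.Agent.Work.MP_787500_nt.QV (rho2 blk T2 J2 v1 v2 isoN)
open Pool.Agent.Work.MP_787500_nt.QU (urV)
open Pool.Agent.Work.MP_787500_nt.KI (SIso LocPar LocM LY bC Crd PlQ YM tra siso_f2)

universe w

variable {G Γ : Type*} [Group G] [Group Γ] {S : FSys G} {Sq : FSys Γ} {χ : G → ℤ_[2]}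
  {χq : Γ → ℤ_[2]} {e : G →* Γ} {c : Γ} {κ : G →* G} {P : Type*} [Group P] {TP : FSys P}
  {jp : P →* Γ} {iv : (P → P → A0) → A0} {E : Type w} [NormedField E] [NormedAlgebra ℚ_[2] E]
  [FiniteDimensional ℚ_[2] E] {m : ℕ} {b : Matrix (Fin m) (Fin m) E} {l : OE E}
  {t : E →ₗ[ℚ_[2]] ℚ_[2]} {T : Submodule (OE E) (Fin m → E)} {ρ : G → Matrix (Fin m) (Fin m) E}
  {a : P → ℤ_[2]} {σ τ : P} {q : ℕ} {In : Subgroup P} {θ s : G}

/-- the vectors fixed by inertia over the quadratic field -/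
def VI (e : G →* Γ) (jp : P →* Γ) (In : Subgroup P) (ρ : G → Matrix (Fin m) (Fin m) E) :
    Submodule E (Fin m → E) where
  carrier := {v | ∀ g, (∃ d ∈ In, jp d = e g) → ρ g *ᵥ v = v}
  add_mem' := fun h h' g hg => by rw [mulVec_add, h g hg, h' g hg]
  zero_mem' := fun g _ => mulVec_zero _
  smul_mem' := fun x v h g hg => by rw [mulVec_smul, h g hg]

/-- the vectors fixed modulo `VI` by the decomposition group over the quadratic field -/
def QI (e : G →* Γ) (jp : P →* Γ) (In : Subgroup P) (ρ : G → Matrix (Fin m) (Fin m) E) :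
    Submodule E (Fin m → E) where
  carrier := {v | ∀ g, (∃ d, jp d = e g) → ρ g *ᵥ v - v ∈ VI e jp In ρ}
  add_mem' := fun {v w} h h' g hg => by
    have e1 : ρ g *ᵥ (v + w) - (v + w) = (ρ g *ᵥ v - v) + (ρ g *ᵥ w - w) := by
      rw [mulVec_add]
      abel
    rw [e1]
    exact (VI e jp In ρ).add_mem (h g hg) (h' g hg)
  zero_mem' := fun g _ => by
    rw [mulVec_zero, sub_zero]
    exact (VI e jp In ρ).zero_mem
  smul_mem' := fun x v h g hg => by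
    rw [mulVec_smul, ← smul_sub]
    exact (VI e jp In ρ).smul_mem x (h g hg)

/-- an element of inertia is an element with an odd power in `W` times a power of `τ` -/
private theorem tau_dec {D : Type*} [Group D] {S : FSys D} {χ a : D → ℤ_[2]} {σ τ : D} {l : ℕ}
    {I : Subgroup D} (h : TameF S χ a σ τ l I) {W : Subgroup D} (hW : S.mem W) {g : D}
    (hg : g ∈ I) : ∃ (j : ℕ) (g' : D) (r : ℕ), g' ∈ I ∧ g = g' * τ ^ j ∧ Odd r ∧ g' ^ r ∈ W := by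
  have hWn := S.normal hW
  obtain ⟨N, hN⟩ := h.sep W hW
  obtain ⟨j, hj⟩ := GP.g1_nat (a g) N
  obtain ⟨g', hg'⟩ : ∃ g', g' = g * (τ ^ j)⁻¹ := ⟨_, rfl⟩
  have e1 : g' * τ ^ j = g := by
    rw [hg']
    exact inv_mul_cancel_right _ _
  have hτj : τ ^ j ∈ I := I.pow_mem h.τI j
  have hgI : g' ∈ I := by
    rw [hg']
    exact I.mul_mem hg (I.inv_mem hτj)
  have e2 : a g' = a g - j := by
    have e := congrArg a e1
    rw [h.coc, (h.tau_pow j).2, h.Iχ g' hgI, one_mul] at e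
    linear_combination e
  obtain ⟨p, hp1, hp2, hp3⟩ := hN g' (by
    rw [h.Iχ g' hgI, sub_self]
    exact dvd_zero _) (by
    rw [e2]
    exact hj)
  have hPn := h.P_normal
  have hodd := h.odd_quot hW
  obtain ⟨r, hro, hr⟩ : ∃ r : ℕ, Odd r ∧ p ^ r ∈ W := by
    refine ⟨_, hodd, ?_⟩
    have h1 : ((⟨p, hp1, hp2⟩ : h.P) : h.P ⧸ W.subgroupOf h.P) ^
        Nat.card (h.P ⧸ W.subgroupOf h.P) = 1 := pow_card_eq_one'
    rw [← QuotientGroup.mk_pow, QuotientGroup.eq_one_iff, Subgroup.mem_subgroupOf] at h1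
    exact h1
  refine ⟨j, g', r, hgI, e1.symm, hro, ?_⟩
  have h5 : ((g' : D) : D ⧸ W) = ((p : D) : D ⧸ W) := (QuotientGroup.eq.2 hp3).symm
  have h6 : ((g' ^ r : D) : D ⧸ W) = ((p ^ r : D) : D ⧸ W) := by
    rw [QuotientGroup.mk_pow, QuotientGroup.mk_pow, h5]
  rw [(QuotientGroup.eq_one_iff _).2 hr] at h6
  exact (QuotientGroup.eq_one_iff _).1 h6

private theorem rho_pow (hr : LocRep S χ T b ρ (fun g => ρ (κ g))) (g : G) (k : ℕ) :
    ρ (g ^ k) = ρ g ^ k := by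
  induction k with
  | zero => rw [pow_zero, pow_zero, hr.one]
  | succ k ih => rw [pow_succ, pow_succ, hr.mul, ih]

private theorem unip_pow {R : Type*} [Ring R] {B : R} (hB : B * B = 0) (k : ℕ) :
    (1 + B) ^ k = 1 + k • B := by
  induction k with
  | zero => rw [pow_zero, zero_smul, add_zero]
  | succ k ih =>
    rw [pow_succ, ih, mul_add, mul_one, add_mul, one_mul, smul_mul_assoc, hB, smul_zero, add_zero,
      succ_nsmul]
    abel

private theorem norm_odd_nsmul {r : ℕ} (hr : Odd r) (y : Fin m → E) : ‖r • y‖ = ‖y‖ := by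
  have h1 : r • y = ((r : ℕ) : ℚ_[2]) • y := (Nat.cast_smul_eq_nsmul ℚ_[2] r y).symm
  rw [h1, norm_smul]
  have h2 : ‖((r : ℕ) : ℚ_[2])‖ = 1 := by
    rw [Padic.norm_natCast_eq_one_iff]
    exact (Nat.coprime_two_left).2 hr
  rw [h2, one_mul]

private theorem e_th (p : PlQ.{w} S Sq χ χq e c κ TP jp iv) (hθ : e θ * c = jp τ) :
    jp (τ * τ) = e (θ * κ θ) := by
  rw [map_mul, map_mul, ← hθ, p.two.kap]
  simp only [mul_assoc]

private theorem approx (p : PlQ.{w} S Sq χ χq e c κ TP jp iv)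
    (hr : LocRep S χ T b ρ (fun g => ρ (κ g))) (h : TameF TP (fun d => χq (jp d)) a σ τ q In)
    (hun : ∀ g, (∃ d ∈ In, jp d = e g) → (ρ g - 1) * (ρ g - 1) = 0) (hθ : e θ * c = jp τ)
    {ε : ℝ} (hε : 0 < ε) {g : G} {d : P} (hd : d ∈ In) (hg : jp d = e g) :
    ∃ (i : ℕ) (g' : G), g = g' * (θ * κ θ) ^ i ∧ ∀ x : Fin m → E, ‖ρ g' *ᵥ x - x‖ ≤ ε * ‖x‖ := by
  obtain ⟨W, hW, hWs⟩ := hr.sm ε hε
  obtain ⟨W', hW', hup⟩ := p.up W hW
  obtain ⟨W'', hW'', hjs⟩ := p.js W' hW'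
  obtain ⟨j, d', r, hd'I, hdd, hro, hrW⟩ := tau_dec h hW'' hd
  -- parity
  have hf : ∀ x y : P, ep e (jp (x * y)) = ep e (jp x) + ep e (jp y) := fun x y => by
    rw [map_mul, QP.ep_add2 p.two]
  have hf1 : ep e (jp 1) = 0 := by
    have := hf 1 1
    rw [mul_one] at this
    exact left_eq_add.1 this
  have hfp : ∀ (x : P) (k : ℕ), ep e (jp (x ^ k)) = (k : ZMod 2) * ep e (jp x) := by
    intro x k
    induction k with
    | zero => rw [pow_zero, hf1, Nat.cast_zero, zero_mul]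
    | succ k ih => rw [pow_succ, hf, ih, Nat.cast_succ, add_mul, one_mul]
  obtain ⟨w, hw, hwe⟩ := hup _ (hjs _ hrW)
  have h1 : ep e (jp d') = 0 := by
    have h2 := hfp d' r
    rw [← hwe, QP.ep_e, (ZMod.natCast_eq_one_iff_odd).2 hro, one_mul] at h2
    exact h2.symm
  have h2 : ep e (jp τ) = 1 := by
    rw [← hθ, QP.ep_ec p.two]
  have h3 : (j : ZMod 2) = 0 := by
    have h4 := hf d' (τ ^ j)
    rw [← hdd, hg, QP.ep_e, h1, hfp, h2, mul_one, zero_add] at h4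
    exact h4.symm
  obtain ⟨i, hi⟩ := (ZMod.natCast_eq_zero_iff_even).1 h3
  have h4 : jp (τ ^ j) = e ((θ * κ θ) ^ i) := by
    rw [hi, ← two_mul, pow_mul, pow_two, map_pow, e_th p hθ, map_pow]
  refine ⟨i, g * ((θ * κ θ) ^ i)⁻¹, (inv_mul_cancel_right _ _).symm, ?_⟩
  have h5 : jp d' = e (g * ((θ * κ θ) ^ i)⁻¹) := by
    rw [map_mul, map_inv, ← h4, ← hg, hdd, map_mul]
    exact (mul_inv_cancel_right _ _).symm
  have h6 : (g * ((θ * κ θ) ^ i)⁻¹) ^ r = w := by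
    apply p.two.inj
    rw [hwe, map_pow, ← h5, map_pow]
  intro x
  have h7 := hWs w hw x
  have h8 := hun _ ⟨d', hd'I, h5⟩
  have h9 : ρ w *ᵥ x - x = r • (ρ (g * ((θ * κ θ) ^ i)⁻¹) *ᵥ x - x) := by
    have h10 := unip_pow h8 r
    rw [add_sub_cancel, ← rho_pow hr, h6] at h10
    rw [h10, add_mulVec, one_mulVec, add_sub_cancel_left, smul_mulVec, sub_mulVec, one_mulVec]
  rw [h9, norm_odd_nsmul hro] at h7
  exact h7

private theorem eq_zero_of_le {y : Fin m → E} {C : ℝ} (h : ∀ ε : ℝ, 0 < ε → ‖y‖ ≤ ε * C) :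
    y = 0 := by
  by_contra hy
  have h0 : 0 < ‖y‖ := norm_pos_iff.2 hy
  have hC : 0 < C := by
    by_contra hC
    have := h 1 one_pos
    rw [one_mul] at this
    linarith [not_lt.1 hC]
  have := h (‖y‖ / (2 * C)) (by positivity)
  have e1 : ‖y‖ / (2 * C) * C = ‖y‖ / 2 := by
    field_simp
  rw [e1] at this
  linarith

theorem fixI (p : PlQ.{w} S Sq χ χq e c κ TP jp iv) (hr : LocRep S χ T b ρ (fun g => ρ (κ g)))
    (h : TameF TP (fun d => χq (jp d)) a σ τ q In)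
    (hun : ∀ g, (∃ d ∈ In, jp d = e g) → (ρ g - 1) * (ρ g - 1) = 0) (hθ : e θ * c = jp τ) :
    VI e jp In ρ = kerN (ρ (θ * κ θ) - 1) := by
  ext v
  rw [mem_kerN, sub_mulVec, one_mulVec]
  constructor
  · intro hv
    have h1 : ρ (θ * κ θ) *ᵥ v = v := hv _ ⟨τ * τ, In.mul_mem h.τI h.τI, e_th p hθ⟩
    rw [h1, sub_self]
  · intro hv g hg
    obtain ⟨d, hd, hde⟩ := hg
    have hv' : ρ (θ * κ θ) *ᵥ v = v := sub_eq_zero.1 hv
    have hvi : ∀ i : ℕ, ρ ((θ * κ θ) ^ i) *ᵥ v = v := by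
      intro i
      induction i with
      | zero => rw [pow_zero, hr.one, one_mulVec]
      | succ i ih => rw [pow_succ, hr.mul, ← mulVec_mulVec, hv', ih]
    refine sub_eq_zero.1 (eq_zero_of_le (C := ‖v‖) fun ε hε => ?_)
    obtain ⟨i, g', rfl, h2⟩ := approx p hr h hun hθ hε hd hde
    rw [hr.mul, ← mulVec_mulVec, hvi]
    exact h2 v

/-- matrices are bounded -/
private theorem bdd_mat (N : Matrix (Fin m) (Fin m) E) : ∃ C : ℝ, 0 ≤ C ∧
    ∀ x : Fin m → E, ‖N *ᵥ x‖ ≤ C * ‖x‖ := by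
  have hfd : FiniteDimensional ℚ_[2] (Fin m → E) := inferInstance
  let f : (Fin m → E) →L[ℚ_[2]] (Fin m → E) :=
    LinearMap.toContinuousLinearMap (N.mulVecLin.restrictScalars ℚ_[2])
  exact ⟨‖f‖, norm_nonneg f, fun x => f.le_opNorm x⟩

/-- inertia acts trivially modulo its fixed vectors -/
private theorem triv_mod (p : PlQ.{w} S Sq χ χq e c κ TP jp iv)
    (hr : LocRep S χ T b ρ (fun g => ρ (κ g)))
    (h : TameF TP (fun d => χq (jp d)) a σ τ q In)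
    (hun : ∀ g, (∃ d ∈ In, jp d = e g) → (ρ g - 1) * (ρ g - 1) = 0) (hθ : e θ * c = jp τ)
    {g : G} {d : P} (hd : d ∈ In) (hg : jp d = e g) (v : Fin m → E) :
    ρ g *ᵥ v - v ∈ kerN (ρ (θ * κ θ) - 1) := by
  rw [mem_kerN]
  obtain ⟨C, hC, hN⟩ := bdd_mat (ρ (θ * κ θ) - 1)
  have h8 := hun _ ⟨τ * τ, In.mul_mem h.τI h.τI, e_th p hθ⟩
  refine eq_zero_of_le (C := C * (‖v‖ + ‖(ρ (θ * κ θ) - 1) *ᵥ v‖)) fun ε hε => ?_
  obtain ⟨i, g', rfl, h2⟩ := approx p hr h hun hθ hε hd hg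
  have h9 : ρ ((θ * κ θ) ^ i) = 1 + i • (ρ (θ * κ θ) - 1) := by
    have h10 := unip_pow h8 i
    rw [add_sub_cancel, ← rho_pow hr] at h10
    exact h10
  have h10 : ρ ((θ * κ θ) ^ i) *ᵥ v = v + i • ((ρ (θ * κ θ) - 1) *ᵥ v) := by
    rw [h9, add_mulVec, one_mulVec, smul_mulVec]
  have h11 : (ρ (θ * κ θ) - 1) *ᵥ (ρ (g' * (θ * κ θ) ^ i) *ᵥ v - v) =
      (ρ (θ * κ θ) - 1) *ᵥ (ρ g' *ᵥ (ρ ((θ * κ θ) ^ i) *ᵥ v) - ρ ((θ * κ θ) ^ i) *ᵥ v) := by
    rw [hr.mul g' _, ← mulVec_mulVec]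
    have e1 : ρ g' *ᵥ (ρ ((θ * κ θ) ^ i) *ᵥ v) - v =
        (ρ g' *ᵥ (ρ ((θ * κ θ) ^ i) *ᵥ v) - ρ ((θ * κ θ) ^ i) *ᵥ v) +
          (ρ ((θ * κ θ) ^ i) *ᵥ v - v) := by abel
    rw [e1, mulVec_add, h10, add_sub_cancel_left, mulVec_smul, mulVec_mulVec, h8, zero_mulVec,
      smul_zero, add_zero]
  rw [h11]
  have h12 : ‖ρ ((θ * κ θ) ^ i) *ᵥ v‖ ≤ ‖v‖ + ‖(ρ (θ * κ θ) - 1) *ᵥ v‖ := by
    rw [h10]
    refine (norm_add_le _ _).trans (add_le_add le_rfl ?_)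
    have e1 : i • ((ρ (θ * κ θ) - 1) *ᵥ v) = ((i : ℕ) : ℚ_[2]) • ((ρ (θ * κ θ) - 1) *ᵥ v) :=
      (Nat.cast_smul_eq_nsmul ℚ_[2] i _).symm
    rw [e1, norm_smul]
    have e2 : ‖((i : ℕ) : ℚ_[2])‖ ≤ 1 := by
      have := PadicInt.norm_le_one ((i : ℕ) : ℤ_[2])
      rwa [PadicInt.norm_def, PadicInt.coe_natCast] at this
    calc ‖((i : ℕ) : ℚ_[2])‖ * ‖(ρ (θ * κ θ) - 1) *ᵥ v‖ ≤ 1 * ‖(ρ (θ * κ θ) - 1) *ᵥ v‖ :=
          mul_le_mul_of_nonneg_right e2 (norm_nonneg _)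
      _ = _ := one_mul _
  calc _ ≤ C * ‖ρ g' *ᵥ (ρ ((θ * κ θ) ^ i) *ᵥ v) - ρ ((θ * κ θ) ^ i) *ᵥ v‖ := hN _
    _ ≤ C * (ε * ‖ρ ((θ * κ θ) ^ i) *ᵥ v‖) := mul_le_mul_of_nonneg_left (h2 _) hC
    _ ≤ C * (ε * (‖v‖ + ‖(ρ (θ * κ θ) - 1) *ᵥ v‖)) :=
      mul_le_mul_of_nonneg_left (mul_le_mul_of_nonneg_left h12 hε.le) hC
    _ = ε * (C * (‖v‖ + ‖(ρ (θ * κ θ) - 1) *ᵥ v‖)) := by ring

private theorem fixQ (p : PlQ.{w} S Sq χ χq e c κ TP jp iv)
    (hr : LocRep S χ T b ρ (fun g => ρ (κ g)))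
    (h : TameF TP (fun d => χq (jp d)) a σ τ q In)
    (hun : ∀ g, (∃ d ∈ In, jp d = e g) → (ρ g - 1) * (ρ g - 1) = 0) (hθ : e θ * c = jp τ)
    (hs : e s = jp σ) (v : Fin m → E) :
    v ∈ QI e jp In ρ ↔ (ρ (θ * κ θ) - 1) *ᵥ (ρ s *ᵥ v - v) = 0 := by
  have hfix := fixI p hr h hun hθ
  -- stability of the fixed vectors
  have hIn := h.In
  have hst : ∀ g, (∃ d, jp d = e g) → ∀ x ∈ kerN (ρ (θ * κ θ) - 1),
      ρ g *ᵥ x ∈ kerN (ρ (θ * κ θ) - 1) := by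
    rintro g ⟨d, hd⟩ x hx
    rw [← hfix] at hx ⊢
    rintro k ⟨i, hi, hik⟩
    have h1 : ρ (g⁻¹ * k * g) *ᵥ x = x := hx _ ⟨d⁻¹ * i * d, by
      have := hIn.conj_mem i hi d⁻¹
      rwa [inv_inv] at this, by
      rw [map_mul, map_mul, map_inv, hd, hik, map_mul, map_mul, map_inv]⟩
    have h2 : k * g = g * (g⁻¹ * k * g) := by group
    rw [mulVec_mulVec, ← hr.mul, h2, hr.mul, ← mulVec_mulVec, h1]
  constructor
  · intro hv
    have h1 : ρ s *ᵥ v - v ∈ VI e jp In ρ := hv s ⟨σ, hs.symm⟩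
    rw [hfix, mem_kerN] at h1
    exact h1
  · intro hv
    change ∀ g, (∃ d, jp d = e g) → ρ g *ᵥ v - v ∈ VI e jp In ρ
    rw [hfix]
    -- powers of `s`
    have hsi : ∀ i : ℕ, ρ (s ^ i) *ᵥ v - v ∈ kerN (ρ (θ * κ θ) - 1) := by
      intro i
      induction i with
      | zero =>
        rw [pow_zero, hr.one, one_mulVec, sub_self]
        exact Submodule.zero_mem _
      | succ i ih =>
        have e1 : ρ (s ^ (i + 1)) *ᵥ v - v =
            ρ (s ^ i) *ᵥ (ρ s *ᵥ v - v) + (ρ (s ^ i) *ᵥ v - v) := by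
          rw [pow_succ, hr.mul, ← mulVec_mulVec, mulVec_sub]
          abel
        rw [e1]
        refine Submodule.add_mem _ (hst _ ⟨σ ^ i, ?_⟩ _ (mem_kerN.2 hv)) ih
        rw [map_pow, map_pow, hs]
    -- the inverse of an arbitrary element
    have key : ∀ g, (∃ d, jp d = e g) → ρ g⁻¹ *ᵥ v - v ∈ kerN (ρ (θ * κ θ) - 1) := by
      rintro g ⟨d, hd⟩
      rw [mem_kerN]
      obtain ⟨C, hC, hN⟩ := bdd_mat (ρ (θ * κ θ) - 1)
      refine eq_zero_of_le (C := C * ‖v‖) fun ε hε => ?_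
      obtain ⟨W, hW, hWs⟩ := hr.sm ε hε
      obtain ⟨W', hW', hup⟩ := p.up W hW
      obtain ⟨W'', hW'', hjs⟩ := p.js W' hW'
      obtain ⟨i, n, hn, hiw⟩ := h.frob d W'' hW''
      obtain ⟨w, hw, hwe⟩ := hup _ (hjs _ hiw)
      -- `g = s ^ i n' w`
      obtain ⟨n', hn'⟩ : ∃ n', n' = (s ^ i)⁻¹ * g * w⁻¹ := ⟨_, rfl⟩
      have h1 : jp n = e n' := by
        rw [hn', map_mul, map_mul, map_inv, map_inv, map_pow, hwe, hs, ← hd, map_mul, map_inv,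
          map_mul, map_pow]
        group
      have h2 : g⁻¹ * (s ^ i * n') = w⁻¹ := by
        rw [hn']
        group
      have h3 : ρ (s ^ i * n') *ᵥ v - v ∈ kerN (ρ (θ * κ θ) - 1) := by
        have e1 : ρ (s ^ i * n') *ᵥ v - v =
            ρ (s ^ i) *ᵥ (ρ n' *ᵥ v - v) + (ρ (s ^ i) *ᵥ v - v) := by
          rw [hr.mul, ← mulVec_mulVec, mulVec_sub]
          abel
        rw [e1]
        refine Submodule.add_mem _ (hst _ ⟨σ ^ i, ?_⟩ _ (triv_mod p hr h hun hθ hn h1 v)) (hsi i)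
        rw [map_pow, map_pow, hs]
      have h4 : ρ g⁻¹ *ᵥ (ρ (s ^ i * n') *ᵥ v - v) ∈ kerN (ρ (θ * κ θ) - 1) :=
        hst _ ⟨d⁻¹, by rw [map_inv, map_inv, hd]⟩ _ h3
      have h5 : ρ w⁻¹ *ᵥ v = ρ g⁻¹ *ᵥ (ρ (s ^ i * n') *ᵥ v) := by
        rw [mulVec_mulVec, ← hr.mul, h2]
      have h6 : (ρ (θ * κ θ) - 1) *ᵥ (ρ g⁻¹ *ᵥ v - v) =
          (ρ (θ * κ θ) - 1) *ᵥ (ρ w⁻¹ *ᵥ v - v) := by
        have e1 : ρ w⁻¹ *ᵥ v - v =
            ρ g⁻¹ *ᵥ (ρ (s ^ i * n') *ᵥ v - v) + (ρ g⁻¹ *ᵥ v - v) := by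
          rw [h5, mulVec_sub]
          abel
        rw [e1, mulVec_add, mem_kerN.1 h4, zero_add]
      rw [h6]
      calc _ ≤ C * ‖ρ w⁻¹ *ᵥ v - v‖ := hN _
        _ ≤ C * (ε * ‖v‖) := mul_le_mul_of_nonneg_left (hWs _ (W.inv_mem hw) v) hC
        _ = ε * (C * ‖v‖) := by ring
    intro g hg
    have h1 := key g⁻¹ (by
      obtain ⟨d, hd⟩ := hg
      exact ⟨d⁻¹, by rw [map_inv, map_inv, hd]⟩)
    rwa [inv_inv] at h1

private theorem finrank_map_ker {f : (Fin m → E) →ₗ[E] (Fin m → E)}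
    {W : Submodule E (Fin m → E)} (hW : LinearMap.ker f ≤ W) :
    Module.finrank E (W.map f) + Module.finrank E (LinearMap.ker f) = Module.finrank E W := by
  have h1 := LinearMap.finrank_range_add_finrank_ker (f.domRestrict W)
  rw [LinearMap.range_domRestrict, LinearMap.ker_domRestrict] at h1
  have h2 : Module.finrank E ((LinearMap.ker f).submoduleOf W) =
      Module.finrank E (LinearMap.ker f) :=
    (Submodule.submoduleOfEquivOfLe hW).finrank_eq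
  rw [← h2, ← h1]
  rfl

theorem dim_W5 (p : PlQ.{w} S Sq χ χq e c κ TP jp iv) (hl : Lat b l t T)
    (hr : LocRep S χ T b ρ (fun g => ρ (κ g)))
    (h : TameF TP (fun d => χq (jp d)) a σ τ q In)
    (hun : ∀ g, (∃ d ∈ In, jp d = e g) → (ρ g - 1) * (ρ g - 1) = 0) (hθ : e θ * c = jp τ)
    (hs : e s = jp σ) :
    Module.finrank E (W5 (ρ (θ * κ θ) - 1) (ρ s)) + Module.finrank E (QI e jp In ρ) =
      m + Module.finrank E (VI e jp In ρ) := by
  rw [fixI p hr h hun hθ]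
  obtain ⟨f, hf⟩ : ∃ f, f = (ρ (θ * κ θ) - 1).mulVecLin := ⟨_, rfl⟩
  have h1 := finrank_map_ker (f := f) (W := W5 (ρ (θ * κ θ) - 1) (ρ s)) (by
    rw [hf]
    exact le_sup_right)
  have h2 : (W5 (ρ (θ * κ θ) - 1) (ρ s)).map f = LinearMap.range (f ∘ₗ (ρ s - 1).mulVecLin) := by
    rw [W5, Submodule.map_sup, LinearMap.range_comp]
    refine sup_eq_left.2 ?_
    rintro _ ⟨x, hx, rfl⟩
    have : f x = 0 := by
      rw [hf]
      exact hx
    rw [this]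
    exact Submodule.zero_mem _
  have h3 : QI e jp In ρ = LinearMap.ker (f ∘ₗ (ρ s - 1).mulVecLin) := by
    ext v
    rw [fixQ p hr h hun hθ hs, LinearMap.mem_ker, LinearMap.comp_apply, hf, mulVecLin_apply,
      mulVecLin_apply, sub_mulVec (ρ s), one_mulVec]
  have h4 := LinearMap.finrank_range_add_finrank_ker (f ∘ₗ (ρ s - 1).mulVecLin)
  rw [← h2, ← h3, Module.finrank_fin_fun] at h4
  have h5 : LinearMap.ker f = kerN (ρ (θ * κ θ) - 1) := by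
    rw [hf]
    rfl
  rw [h5] at h1
  omega

end Pool.Agent.Work.MP_787500_nt.ER
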