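import Mathlib
import Pool.Agent.Work.MP_787500_nt.ER.LDefs

/-!
# ER/RedA (size M): reductions

* `rq_mem`, `exists_rq`, `rq_unique`, `rq_zero`: `x` has a reduction iff `l x ∈ T`, it is unique, it is 0 iff `x ∈ T`.
* `finrank_imW`: `dim_F (imW W) = dim_E W`: `GP.card_lamN` with `D = PUnit` for the subspace of the functions `PUnit → E ^ m` with value in `W` (compare
  `KR.card_MN` in KR/NZero): `|lamN T l 1 W| = |F| ^ dim W`, and `lamN ≃ imW W` by `L`.
* `card_n`: `n = m` (`KR.card_MN`, `N = 1`).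
-/

set_option autoImplicit false
set_option linter.unusedSectionVars false

namespace Pool.Agent.Work.MP_787500_nt.ER

open Matrix
open Pool.Agent.Work.MP_787500_nt.GP (A0 pr0 OE MN Wq mq mq_add mq_sub mq_smul mq_eq mq_eq_zero lft mq_lft
  bil bil_add_left bil_add_right bil_sub_left bil_sub_right bil_smul_left bil_smul_right bil_symm Lat
  lamN bN bN_val actN actQ actQ_mq)
open Pool.Agent.Work.MP_787500_nt.KS (hfT hfT_nondeg)
open Pool.Agent.Work.MP_787500_nt.KT (Sy ee IsSp)
open Pool.Agent.Work.MP_787500_nt.KI (SIso)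

universe w

variable {E : Type w} [NormedField E] [NormedAlgebra ℚ_[2] E] [FiniteDimensional ℚ_[2] E]
  [IsLocalRing (OE E)] [Finite (IsLocalRing.ResidueField (OE E))] {m n : ℕ}
  {b : Matrix (Fin m) (Fin m) E} {l : OE E} {t : E →ₗ[ℚ_[2]] ℚ_[2]}
  {T : Submodule (OE E) (Fin m → E)} {N s K : Matrix (Fin m) (Fin m) E}
  {L : MN T l 1 ≃+ (Fin n → IsLocalRing.ResidueField (OE E))}

theorem rq_mem {x : Fin m → E} {u : Fin n → IsLocalRing.ResidueField (OE E)} (h : Rq L x u) :
    (l : E) • x ∈ T := by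
  obtain ⟨z, h1, -⟩ := h
  have h2 := z.2
  rw [Submodule.mem_torsionBy_iff, h1, ← mq_smul, mq_eq_zero] at h2
  simpa using h2

theorem exists_rq {x : Fin m → E} (h : (l : E) • x ∈ T) : ∃ u, Rq L x u := by
  refine ⟨L ⟨mq T x, ?_⟩, ⟨_, rfl, rfl⟩⟩
  rw [Submodule.mem_torsionBy_iff, ← mq_smul, mq_eq_zero]
  simpa using h

theorem rq_unique {x y : Fin m → E} {u v : Fin n → IsLocalRing.ResidueField (OE E)}
    (h : Rq L x u) (h' : Rq L y v) : u = v ↔ x - y ∈ T := by
  obtain ⟨z, h1, rfl⟩ := h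
  obtain ⟨z', h1', rfl⟩ := h'
  rw [L.injective.eq_iff, ← mq_eq, ← h1, ← h1']
  exact Subtype.ext_iff

theorem finrank_imW (hl : Lat b l t T) (hL : SIso (OE E) (IsLocalRing.ResidueField (OE E)) L)
    (W : Submodule E (Fin m → E)) :
    Module.finrank (IsLocalRing.ResidueField (OE E)) (imW hL W) = Module.finrank E W := by
  let e := LinearEquiv.funUnique PUnit.{1} E (Fin m → E)
  let W' : Submodule E (PUnit.{1} → Fin m → E) := W.comap (e : (PUnit.{1} → Fin m → E) →ₗ[E] _)
  have hW : Module.finrank E W' = Module.finrank E W :=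
    LinearEquiv.finrank_eq (LinearEquiv.ofSubmodule' e W)
  have h1 := GP.card_lamN (D := PUnit.{1}) hl 1 W'
    (fun X _ => ⟨‖X PUnit.unit‖, fun d => le_rfl⟩)
  have h2 : Nat.card (lamN T l 1 W') = Nat.card (imW hL W) := by
    refine Nat.card_congr (Equiv.ofBijective (fun x => (⟨L (x.1 PUnit.unit), ?_⟩ : imW hL W))
      ⟨?_, ?_⟩)
    · obtain ⟨X, hX, hx⟩ := x.2
      exact ⟨X PUnit.unit, hX, x.1 PUnit.unit, hx PUnit.unit, rfl⟩
    · intro x y hxy
      apply Subtype.ext
      funext d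
      exact L.injective (congrArg Subtype.val hxy)
    · rintro ⟨u, x, hx, z, h1, rfl⟩
      exact ⟨⟨fun _ => z, fun _ => x, hx, fun _ => h1⟩, rfl⟩
  have h3 : Nat.card (imW hL W) = Nat.card (IsLocalRing.ResidueField (OE E)) ^
      Module.finrank (IsLocalRing.ResidueField (OE E)) (imW hL W) :=
    Module.natCard_eq_pow_finrank
  rw [h2, h3, one_mul] at h1
  rw [← hW]
  exact Nat.pow_right_injective (Finite.one_lt_card) h1

theorem card_n (hl : Lat b l t T) (hL : SIso (OE E) (IsLocalRing.ResidueField (OE E)) L) :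
    n = m := by
  have h1 := KR.card_MN hl 1
  rw [Nat.card_congr L.toEquiv, Nat.card_fun, Nat.card_fin, one_mul] at h1
  exact Nat.pow_right_injective (Finite.one_lt_card) h1

end Pool.Agent.Work.MP_787500_nt.ER
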