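import Mathlib
import Pool.Agent.Work.MP_787500_nt.ER.RedA
import Pool.Agent.Work.MP_787500_nt.GP.F04_Alt
import Pool.Agent.Work.MP_787500_nt.GP.L03_Ring

/-!
# ER/AltX (size M): a finite module with a nondegenerate alternating form, and a quotient of lattices

* `alt_quot`: `X` a finite `O`-module, `β : X → X → A0` balanced over `O`, alternating (`β (a x) x = 0`), nondegenerate. Then `|X / l X|` is an even power of `q = |O / max|`:
  `GP.alt_card` for `β` (radical 0): `|X| = q ^ (2 m₁)`; `GP.alt_card` for `β (l x) y` (radical `X[l]`): `|X| = q ^ (2 m₂) |X[l]|`; `|X / l X| = |X[l]|`.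
* `even_lat`: `J₂ ≤ J₅ ≤ T` submodules over `O`, `p : J₅ × J₅ → E` biadditive with: `p (a x) y` and `p x (a y)` and `a p x y` are congruent modulo `O` for `a : O`; `p x x ∈ O`;
  `x ∈ J₂ ↔ ∀ y ∈ J₅, p x y ∈ O`; `p x y ∈ O` if `y ∈ J₂`. Then `|J₅ / (J₂ + l J₅)| = q ^ (2 m)`. PROOF: `X = J₅ / J₂` with `β = pr0 (t (p x y))` (`hl.tdual`: if `pr0 (t (a p)) = 0`
  for all `a` then `p ∈ O`); `X` is finite: `p` is bounded on `J₅` (hypothesis `hb`), so `l ^ k J₅ ≤ J₂`, and `J₅` is finitely generated (a submodule of the finitely generated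
  `O`-module `T`, `O` is a PID: `GP.isPID`; or `J₅ / l ^ k J₅` is finite because it is a quotient of.. see `GP.MN_finite`). `X / l X = J₅ / (J₂ + l J₅)`.
-/

set_option autoImplicit false
set_option linter.unusedSectionVars false

namespace Pool.Agent.Work.MP_787500_nt.ER

open Matrix
open Pool.Agent.Work.MP_787500_nt.GP (A0 pr0 OE MN Wq mq mq_add mq_sub mq_smul mq_eq mq_eq_zero lft mq_lft
  bil bil_add_left bil_add_right bil_sub_left bil_sub_right bil_smul_left bil_smul_right bil_symm Lat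
  lamN bN bN_val actN actQ actQ_mq)
open Pool.Agent.Work.MP_787500_nt.KS (hfT hfT_nondeg)
open Pool.Agent.Work.MP_787500_nt.KT (Sy ee IsSp)
open Pool.Agent.Work.MP_787500_nt.KI (SIso)

universe w

variable {E : Type w} [NormedField E] [NormedAlgebra ℚ_[2] E] [FiniteDimensional ℚ_[2] E]
  [IsLocalRing (OE E)] [Finite (IsLocalRing.ResidueField (OE E))] {m n : ℕ}
  {b : Matrix (Fin m) (Fin m) E} {l : OE E} {t : E →ₗ[ℚ_[2]] ℚ_[2]}
  {T : Submodule (OE E) (Fin m → E)} {N s K : Matrix (Fin m) (Fin m) E}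
  {L : MN T l 1 ≃+ (Fin n → IsLocalRing.ResidueField (OE E))}

theorem alt_quot {O : Type*} [CommRing O] [IsLocalRing O] [IsPrincipalIdealRing O]
    [Finite (IsLocalRing.ResidueField O)] {X : Type*} [AddCommGroup X] [Module O X] [Finite X]
    (β : X →+ X →+ A0) (hbal : ∀ (a : O) x y, β (a • x) y = β x (a • y))
    (halt : ∀ (a : O) x, β (a • x) x = 0) (hnd : ∀ x, (∀ y, β x y = 0) → x = 0) (l : O) :
    ∃ k : ℕ, Nat.card (X ⧸ LinearMap.range (LinearMap.lsmul O X l)) =
      Nat.card (IsLocalRing.ResidueField O) ^ (2 * k) := by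
  obtain ⟨m₁, h1⟩ := GP.alt_card β hbal halt (⊥ : Submodule O X) (by
    intro x
    rw [Submodule.mem_bot]
    constructor
    · rintro rfl y
      rw [map_zero]
      rfl
    · exact hnd x)
  obtain ⟨m₂, h2⟩ := GP.alt_card (β.comp (LinearMap.lsmul O X l).toAddMonoidHom) (by
    intro a x y
    show β (l • a • x) y = β (l • x) (a • y)
    rw [smul_comm, hbal]) (by
    intro a x
    show β (l • a • x) x = 0
    rw [smul_smul, halt]) (LinearMap.ker (LinearMap.lsmul O X l)) (by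
    intro x
    rw [LinearMap.mem_ker]
    constructor
    · intro h y
      show β (LinearMap.lsmul O X l x) y = 0
      rw [h, map_zero]
      rfl
    · intro h
      exact hnd _ h)
  have hb1 : Nat.card (⊥ : Submodule O X) = 1 := by
    rw [Nat.card_eq_one_iff_unique]
    exact ⟨inferInstance, ⟨0⟩⟩
  rw [hb1, mul_one] at h1
  set Kr := LinearMap.ker (LinearMap.lsmul O X l) with hKr
  set Rg := LinearMap.range (LinearMap.lsmul O X l) with hRg
  have h3 : Nat.card X = Nat.card Kr * Nat.card Rg := by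
    rw [Submodule.card_eq_card_quotient_mul_card Kr,
      Nat.card_congr (LinearMap.lsmul O X l).quotKerEquivRange.toEquiv]
  have h4 : Nat.card X = Nat.card Rg * Nat.card (X ⧸ Rg) :=
    Submodule.card_eq_card_quotient_mul_card Rg
  have hRpos : 0 < Nat.card Rg := Nat.card_pos
  have h5 : Nat.card (X ⧸ Rg) = Nat.card Kr := by
    have : Nat.card Rg * Nat.card (X ⧸ Rg) = Nat.card Rg * Nat.card Kr := by
      rw [← h4, h3, mul_comm]
    exact Nat.eq_of_mul_eq_mul_left hRpos this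
  have hq := GP.q_two_le (O := O)
  have hle : 2 * m₂ ≤ 2 * m₁ := by
    refine (Nat.pow_dvd_pow_iff_le_right (x := Nat.card (IsLocalRing.ResidueField O)) hq).1 ?_
    rw [← h1, h2]
    exact dvd_mul_right _ _
  refine ⟨m₁ - m₂, ?_⟩
  rw [h5]
  have h6 : Nat.card (IsLocalRing.ResidueField O) ^ (2 * m₂) * Nat.card Kr =
      Nat.card (IsLocalRing.ResidueField O) ^ (2 * m₂) *
        Nat.card (IsLocalRing.ResidueField O) ^ (2 * (m₁ - m₂)) := by
    rw [← h2, h1, ← pow_add]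
    congr 1
    omega
  exact Nat.eq_of_mul_eq_mul_left (pow_pos (by omega) _) h6

private theorem fin_quot {O : Type*} [CommRing O] {X : Type*} [AddCommGroup X] [Module O X]
    [Module.Finite O X] (c : O) (hc : ∀ x : X, c • x = 0) [Finite (O ⧸ Ideal.span {c})] :
    Finite X := by
  obtain ⟨n, s, hs⟩ := Module.Finite.exists_fin (R := O) (M := X)
  refine Finite.of_surjective
    (fun a : Fin n → O ⧸ Ideal.span {c} => ∑ i, (Quotient.out (a i)) • s i) ?_
  intro x
  have hx : x ∈ Submodule.span O (Set.range s) := by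
    rw [hs]
    trivial
  obtain ⟨a, ha⟩ := (Submodule.mem_span_range_iff_exists_fun O).1 hx
  refine ⟨fun i => Ideal.Quotient.mk _ (a i), ?_⟩
  show ∑ i, (Quotient.out (Ideal.Quotient.mk (Ideal.span {c}) (a i))) • s i = x
  rw [← ha]
  refine Finset.sum_congr rfl fun i _ => ?_
  have h1 : Ideal.Quotient.mk (Ideal.span {c})
      (Quotient.out (Ideal.Quotient.mk (Ideal.span {c}) (a i))) =
      Ideal.Quotient.mk (Ideal.span {c}) (a i) := Quotient.out_eq _
  rw [Ideal.Quotient.eq, Ideal.mem_span_singleton] at h1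
  obtain ⟨d, hd⟩ := h1
  have h2 : (Quotient.out (Ideal.Quotient.mk (Ideal.span {c}) (a i)) - a i) • s i = 0 := by
    rw [hd, mul_smul, hc]
  rwa [sub_smul, sub_eq_zero] at h2

theorem even_lat (hl : Lat b l t T) {J₂ J₅ : Submodule (OE E) (Fin m → E)} (h25 : J₂ ≤ J₅)
    (h5T : J₅ ≤ T) (p : (Fin m → E) → (Fin m → E) → E)
    (hadd : ∀ x ∈ J₅, ∀ y ∈ J₅, ∀ z ∈ J₅, ‖p (x + y) z - p x z - p y z‖ ≤ 1 ∧
      ‖p z (x + y) - p z x - p z y‖ ≤ 1)
    (hsm : ∀ (a : OE E), ∀ x ∈ J₅, ∀ y ∈ J₅, ‖p ((a : E) • x) y - a * p x y‖ ≤ 1 ∧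
      ‖p x ((a : E) • y) - a * p x y‖ ≤ 1)
    (halt : ∀ x ∈ J₅, ‖p x x‖ ≤ 1) (hrad : ∀ x ∈ J₅, x ∈ J₂ ↔ ∀ y ∈ J₅, ‖p x y‖ ≤ 1)
    (hb : ∃ R : ℝ, ∀ x ∈ J₅, ∀ y ∈ J₅, ‖p x y‖ ≤ R) :
    ∃ k : ℕ, Nat.card (J₅ ⧸ (J₂.comap J₅.subtype ⊔
      LinearMap.range (LinearMap.lsmul (OE E) J₅ l))) =
      Nat.card (IsLocalRing.ResidueField (OE E)) ^ (2 * k) := by
  have hpid : IsPrincipalIdealRing (OE E) := GP.isPID hl.lne hl.llt hl.lmax
  have hl0 : 0 < ‖(l : E)‖ := norm_pos_iff.2 hl.lne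
  -- integral elements
  have oadd : ∀ {x y : E}, ‖x‖ ≤ 1 → ‖y‖ ≤ 1 → ‖x + y‖ ≤ 1 := fun {x y} hx hy =>
    (OE E).add_mem (x := x) (y := y) hx hy
  have osub : ∀ {x y : E}, ‖x‖ ≤ 1 → ‖y‖ ≤ 1 → ‖x - y‖ ≤ 1 := fun {x y} hx hy =>
    (OE E).sub_mem (x := x) (y := y) hx hy
  have omul : ∀ {x y : E}, ‖x‖ ≤ 1 → ‖y‖ ≤ 1 → ‖x * y‖ ≤ 1 := fun {x y} hx hy =>
    (OE E).mul_mem (x := x) (y := y) hx hy
  -- the class of an element of `E`
  let cl : E →+ A0 := (pr0.toAddMonoidHom).comp t.toAddMonoidHom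
  have hcl : ∀ z, cl z = pr0 (t z) := fun z => rfl
  have cl0 : ∀ z : E, ‖z‖ ≤ 1 → cl z = 0 := fun z hz =>
    GP.pr0_zero_of_norm (hl.tint z hz)
  have cleq : ∀ z z' : E, ‖z - z'‖ ≤ 1 → cl z = cl z' := fun z z' h => by
    have := cl0 _ h
    rwa [map_sub, sub_eq_zero] at this
  -- values on `J₂`
  have hr2 : ∀ x ∈ J₂, ∀ y ∈ J₅, ‖p x y‖ ≤ 1 := fun x hx => (hrad x (h25 hx)).1 hx
  have hsk : ∀ x ∈ J₅, ∀ y ∈ J₅, ‖p x y + p y x‖ ≤ 1 := by
    intro x hx y hy
    have h1 := halt (x + y) (J₅.add_mem hx hy)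
    have h2 := (hadd x hx y hy (x + y) (J₅.add_mem hx hy)).1
    have h3 := (hadd x hx y hy x hx).2
    have h4 := (hadd x hx y hy y hy).2
    have e : p x y + p y x = p (x + y) (x + y) - (p (x + y) (x + y) - p x (x + y) - p y (x + y)) -
        (p x (x + y) - p x x - p x y) - (p y (x + y) - p y x - p y y) - p x x - p y y := by ring
    rw [e]
    exact osub (osub (osub (osub (osub h1 h2) h3) h4) (halt x hx)) (halt y hy)
  have hr2' : ∀ x ∈ J₂, ∀ y ∈ J₅, ‖p y x‖ ≤ 1 := by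
    intro x hx y hy
    have h1 := hsk x (h25 hx) y hy
    have h2 := osub h1 (hr2 x hx y hy)
    rwa [add_sub_cancel_left] at h2
  -- the form on `J₅`
  let B1 : J₅ → J₅ →+ A0 := fun x => AddMonoidHom.mk' (fun y : J₅ => cl (p x y)) fun y z => by
    rw [← map_add]
    refine cleq _ _ ?_
    have h := (hadd y y.2 z z.2 x x.2).2
    rw [Submodule.coe_add, ← sub_sub]
    exact h
  let B2 : J₅ →+ J₅ →+ A0 := AddMonoidHom.mk' B1 fun x x' => by
    refine DFunLike.ext _ _ fun y => ?_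
    show cl (p ((x + x' : J₅) : Fin m → E) y) = cl (p x y) + cl (p x' y)
    rw [← map_add]
    refine cleq _ _ ?_
    have h := (hadd x x.2 x' x'.2 y y.2).1
    rw [Submodule.coe_add, ← sub_sub]
    exact h
  have hB2 : ∀ x y : J₅, B2 x y = cl (p x y) := fun x y => rfl
  let S : Submodule (OE E) J₅ := J₂.comap J₅.subtype
  have hS : ∀ x : J₅, x ∈ S ↔ (x : Fin m → E) ∈ J₂ := fun x => Iff.rfl
  let X := J₅ ⧸ S
  let B3 : J₅ →+ X →+ A0 := AddMonoidHom.mk'
    (fun x => QuotientAddGroup.lift S.toAddSubgroup (B2 x) (fun y hy => by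
      show cl (p x y) = 0
      exact cl0 _ (hr2' y hy x x.2))) fun x x' => by
      refine DFunLike.ext _ _ fun y => ?_
      obtain ⟨y, rfl⟩ := Submodule.mkQ_surjective S y
      show B2 (x + x') y = B2 x y + B2 x' y
      rw [map_add]
      rfl
  have hB3 : ∀ x y : J₅, B3 x (S.mkQ y) = cl (p x y) := fun x y => rfl
  let β : X →+ X →+ A0 := QuotientAddGroup.lift S.toAddSubgroup B3 (fun x hx => by
    refine DFunLike.ext _ _ fun y => ?_
    obtain ⟨y, rfl⟩ := Submodule.mkQ_surjective S y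
    show cl (p x y) = 0
    exact cl0 _ (hr2 x hx y y.2))
  have hβ : ∀ x y : J₅, β (S.mkQ x) (S.mkQ y) = cl (p x y) := fun x y => rfl
  have hbal : ∀ (a : OE E) x y, β (a • x) y = β x (a • y) := by
    intro a x y
    obtain ⟨x, rfl⟩ := Submodule.mkQ_surjective S x
    obtain ⟨y, rfl⟩ := Submodule.mkQ_surjective S y
    rw [← map_smul, ← map_smul, hβ, hβ]
    have h := hsm a x x.2 y y.2
    refine (cleq _ (a * p x y) ?_).trans (cleq _ (a * p x y) ?_).symm
    · exact h.1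
    · exact h.2
  have halt' : ∀ (a : OE E) x, β (a • x) x = 0 := by
    intro a x
    obtain ⟨x, rfl⟩ := Submodule.mkQ_surjective S x
    rw [← map_smul, hβ]
    have h := (hsm a x x.2 x x.2).1
    refine (cleq _ (a * p x x) h).trans (cl0 _ (omul a.2 (halt x x.2)))
  have hnd : ∀ x, (∀ y, β x y = 0) → x = 0 := by
    intro x hx
    obtain ⟨x, rfl⟩ := Submodule.mkQ_surjective S x
    refine (Submodule.Quotient.mk_eq_zero S).2 ((hS x).2 ((hrad x x.2).2 fun y hy => ?_))
    refine hl.tdual _ fun a ha => ?_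
    have h1 := hx (S.mkQ ((⟨a, ha⟩ : OE E) • (⟨y, hy⟩ : J₅)))
    rw [hβ] at h1
    have h2 := (hsm ⟨a, ha⟩ x x.2 y hy).2
    have h3 : cl (a * p x y) = 0 := (cleq _ _ h2).symm.trans h1
    rw [hcl, GP.pr0_eq_zero] at h3
    obtain ⟨c, hc⟩ := h3
    rw [← hc]
    exact c.2
  -- finiteness
  have hfg : Module.Finite (OE E) J₅ := by
    obtain ⟨R, hR⟩ := hl.bdd
    obtain ⟨k, hk⟩ := exists_pow_lt_of_lt_one (show 0 < 1 / (|R| + 1) by positivity) hl.llt
    have hk' : ‖(l : E)‖ ^ k * R ≤ 1 := by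
      rw [lt_div_iff₀ (by positivity)] at hk
      have h1 : ‖(l : E)‖ ^ k * R ≤ ‖(l : E)‖ ^ k * (|R| + 1) :=
        mul_le_mul_of_nonneg_left (by linarith [le_abs_self R]) (by positivity)
      linarith
    have hin : ∀ x ∈ J₅, ∀ i, ‖(l : E) ^ k * x i‖ ≤ 1 := by
      intro x hx i
      rw [norm_mul, norm_pow]
      have h1 : ‖x i‖ ≤ R := (norm_le_pi_norm x i).trans (hR x (h5T hx))
      exact (mul_le_mul_of_nonneg_left h1 (by positivity)).trans hk'
    let f : J₅ →ₗ[OE E] (Fin m → OE E) :=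
      { toFun := fun x i => ⟨(l : E) ^ k * (x : Fin m → E) i, hin x x.2 i⟩
        map_add' := fun x y => by
          funext i
          refine Subtype.ext ?_
          show (l : E) ^ k * ((x : Fin m → E) i + (y : Fin m → E) i) = _
          rw [mul_add]
          rfl
        map_smul' := fun a x => by
          funext i
          refine Subtype.ext ?_
          show (l : E) ^ k * ((a : E) * (x : Fin m → E) i) =
            (a : E) * ((l : E) ^ k * (x : Fin m → E) i)
          ring }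
    have hf : Function.Injective f := by
      intro x y hxy
      refine Subtype.ext (funext fun i => ?_)
      have h1 : (l : E) ^ k * (x : Fin m → E) i = (l : E) ^ k * (y : Fin m → E) i :=
        congrArg Subtype.val (congrFun hxy i)
      exact mul_left_cancel₀ (pow_ne_zero _ hl.lne) h1
    have : IsNoetherian (OE E) (Fin m → OE E) := inferInstance
    exact Module.Finite.of_injective f hf
  have hfin : Finite X := by
    obtain ⟨R, hR⟩ := hb
    obtain ⟨k, hk⟩ := exists_pow_lt_of_lt_one (show 0 < 1 / (|R| + 1) by positivity) hl.llt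
    have hk' : ‖(l : E)‖ ^ k * R ≤ 1 := by
      rw [lt_div_iff₀ (by positivity)] at hk
      have h1 : ‖(l : E)‖ ^ k * R ≤ ‖(l : E)‖ ^ k * (|R| + 1) :=
        mul_le_mul_of_nonneg_left (by linarith [le_abs_self R]) (by positivity)
      linarith
    have : Module.Finite (OE E) X := Module.Finite.of_surjective S.mkQ (Submodule.mkQ_surjective S)
    have hcard := GP.card_quot hl.lne hl.llt hl.lmax k
    have : Finite (OE E ⧸ Ideal.span {l ^ k}) := by
      refine Nat.finite_of_card_ne_zero ?_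
      rw [hcard]
      exact pow_ne_zero _ Nat.card_pos.ne'
    refine fin_quot (l ^ k) fun x => ?_
    obtain ⟨x, rfl⟩ := Submodule.mkQ_surjective S x
    rw [← map_smul]
    refine (Submodule.Quotient.mk_eq_zero S).2 ((hS _).2 ((hrad _ (l ^ k • x : J₅).2).2
      fun y hy => ?_))
    have h1 := (hsm (l ^ k) x x.2 y hy).1
    have h2 : ‖((l ^ k : OE E) : E) * p x y‖ ≤ 1 := by
      rw [norm_mul, Subring.coe_pow, norm_pow]
      exact (mul_le_mul_of_nonneg_left (hR x x.2 y hy) (by positivity)).trans hk'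
    have h3 := oadd h1 h2
    rwa [sub_add_cancel] at h3
  obtain ⟨k, hk⟩ := alt_quot β hbal halt' hnd l
  refine ⟨k, ?_⟩
  rw [← hk]
  have hmap : (LinearMap.range (LinearMap.lsmul (OE E) J₅ l)).map S.mkQ =
      LinearMap.range (LinearMap.lsmul (OE E) X l) := by
    ext y
    constructor
    · rintro ⟨_, ⟨x, rfl⟩, rfl⟩
      exact ⟨S.mkQ x, by simp⟩
    · rintro ⟨x, rfl⟩
      obtain ⟨x, rfl⟩ := Submodule.mkQ_surjective S x
      exact ⟨LinearMap.lsmul (OE E) J₅ l x, ⟨x, rfl⟩, by simp⟩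
  rw [← hmap]
  exact Nat.card_congr (Submodule.quotientQuotientEquivQuotientSup S
    (LinearMap.range (LinearMap.lsmul (OE E) J₅ l))).symm.toEquiv

end Pool.Agent.Work.MP_787500_nt.ER
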