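import Mathlib
import Pool.Agent.Work.MP_787500_nt.ER.LDefs
import Pool.Agent.Work.MP_787500_nt.QU.UrV

/-!
# ER/Gam (size M): the forms `β` and `γ`

`β (x, y) = bil b x (K y)`, `γ (x, y) = bil b (N x) (K y)`. All from `BT`.
* `be_g`: `β (x + N x, y + N y) = β (x, y)` (`skew` twice).
* `be_NN`: `β (N x, N y) = 0`; `be_Nk`, `be_kN`: `β (N x, z) = 0 = β (z, N x)` for `N z = 0`: by `skew` `β (x, z) = - β (z, x)` and `β (x + N x, z) = - β (z, x + N x)`..: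
  `β (x + N x, z) = - β (z + 0, x + N x)`.. use `be_g` with `y = z`: `β (x + N x, z) = β (x, z)`, so `β (N x, z) = 0`, and `skew`. `N (N y) = 0`.
* `ga_symm`: `γ (x, y) = γ (y, x)`: `skew`: `β (N x, y) = - β (y + N y, N x)`, `β (N y, N x) = 0`, and `be_g` expanded: `β (N x, y) + β (x, N y) = 0`.
* `ga_self`: `γ (x, x) = - 2 β (x, x)`; `ga_skew`: `γ (x, y) = - β (x, y) - β (y, x)`.
* `ga_s`: `B.inv`. `ga_ker`: if `γ (x, y) = 0` for all `y` then `N x = 0` (`K` is injective and onto by `kT` and `hl.bdd`, `hl.opn`; `b` is nondegenerate: `QU.lat_det` or `hl.dual`).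
* `be_dual`: `x ∈ T ↔ ∀ y ∈ T, ‖β (x, y)‖ ≤ 1`; `be_rep`: every `E`-linear `f : V → E` is `β (v, ·)` for a unique `v`, with `v ∈ T` if `f` is integral on `T`.
* `orth_ker`: if `β (x, z) = 0` for all `z ∈ ker N` then `x ∈ range N` (dimensions: the left orthogonal of `ker N` has dimension `m - dim ker N = dim range N` and contains `range N`).
* `s_ker`: `N x = 0 ↔ N (s x) = 0`.
-/

set_option autoImplicit false
set_option linter.unusedSectionVars false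

namespace Pool.Agent.Work.MP_787500_nt.ER

open Matrix
open Pool.Agent.Work.MP_787500_nt.GP (A0 pr0 OE MN Wq mq mq_add mq_sub mq_smul mq_eq mq_eq_zero lft mq_lft
  bil bil_add_left bil_add_right bil_sub_left bil_sub_right bil_smul_left bil_smul_right bil_symm Lat
  lamN bN bN_val actN actQ actQ_mq)
open Pool.Agent.Work.MP_787500_nt.KS (hfT hfT_nondeg)
open Pool.Agent.Work.MP_787500_nt.KT (Sy ee IsSp)
open Pool.Agent.Work.MP_787500_nt.KI (SIso)

universe w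

variable {E : Type w} [NormedField E] [NormedAlgebra ℚ_[2] E] [FiniteDimensional ℚ_[2] E] {m : ℕ}
  {b : Matrix (Fin m) (Fin m) E} {l : OE E} {t : E →ₗ[ℚ_[2]] ℚ_[2]}
  {T : Submodule (OE E) (Fin m → E)} {N s K : Matrix (Fin m) (Fin m) E}

private theorem nn_x (B : BT b T N s K) (x : Fin m → E) : N *ᵥ (N *ᵥ x) = 0 := by
  rw [mulVec_mulVec, B.nn, zero_mulVec]

private theorem be_al (x x' y : Fin m → E) :
    bil b (x + x') (K *ᵥ y) = bil b x (K *ᵥ y) + bil b x' (K *ᵥ y) := bil_add_left _ _ _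

private theorem be_ar (x y y' : Fin m → E) :
    bil b x (K *ᵥ (y + y')) = bil b x (K *ᵥ y) + bil b x (K *ᵥ y') := by
  rw [mulVec_add, bil_add_right]

private theorem be_sl (x x' y : Fin m → E) :
    bil b (x - x') (K *ᵥ y) = bil b x (K *ᵥ y) - bil b x' (K *ᵥ y) := bil_sub_left _ _ _

private theorem be_sr (x y y' : Fin m → E) :
    bil b x (K *ᵥ (y - y')) = bil b x (K *ᵥ y) - bil b x (K *ᵥ y') := by
  rw [mulVec_sub, bil_sub_right]

private theorem k_unit (hl : Lat b l t T) (B : BT b T N s K) : IsUnit K := by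
  refine Matrix.mulVec_injective_iff_isUnit.1 ?_
  have key : ∀ x : Fin m → E, K *ᵥ x = 0 → x = 0 := by
    intro v hv
    by_contra hne
    have h2 : ∀ c : E, c • v ∈ T := fun c => (B.kT _).1 (by
      rw [mulVec_smul, hv, smul_zero]
      exact T.zero_mem)
    obtain ⟨R, hR⟩ := hl.bdd
    have hl0 : 0 < ‖(l : E)‖ := norm_pos_iff.2 hl.lne
    have hv1 : 0 < ‖v‖ := norm_pos_iff.2 hne
    obtain ⟨k, hk⟩ := pow_unbounded_of_one_lt (R / ‖v‖) (one_lt_inv_iff₀.2 ⟨hl0, hl.llt⟩)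
    have h3 := hR _ (h2 (((l : E)⁻¹) ^ k))
    rw [norm_smul, norm_pow, norm_inv] at h3
    rw [div_lt_iff₀ hv1] at hk
    linarith
  intro x y hxy
  have h0 : K *ᵥ x = K *ᵥ y := hxy
  exact sub_eq_zero.1 (key _ (by rw [mulVec_sub, h0, sub_self]))

private theorem bk_unit (hl : Lat b l t T) (B : BT b T N s K) : IsUnit (b * K) :=
  ((Matrix.isUnit_iff_isUnit_det _).2 (isUnit_iff_ne_zero.2 (QU.lat_det hl))).mul (k_unit hl B)

private theorem be_eq (x y : Fin m → E) : bil b x (K *ᵥ y) = (x ᵥ* (b * K)) ⬝ᵥ y := by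
  unfold bil
  rw [mulVec_mulVec, dotProduct_mulVec]

private theorem be_nd (hl : Lat b l t T) (B : BT b T N s K) {v : Fin m → E}
    (h : ∀ y, bil b v (K *ᵥ y) = 0) : v = 0 := by
  have h1 : v ᵥ* (b * K) = 0 := by
    refine dotProduct_eq_zero _ fun y => ?_
    rw [← be_eq]
    exact h y
  have h2 : v ᵥ* (b * K) ᵥ* (b * K)⁻¹ = 0 := by rw [h1, zero_vecMul]
  rwa [vecMul_vecMul, Matrix.mul_nonsing_inv _ ((Matrix.isUnit_iff_isUnit_det _).1 (bk_unit hl B)),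
    vecMul_one] at h2

theorem be_g (B : BT b T N s K) (x y : Fin m → E) :
    bil b (x + N *ᵥ x) (K *ᵥ (y + N *ᵥ y)) = bil b x (K *ᵥ y) := by
  rw [B.skew x y, B.skew (y + N *ᵥ y) x, neg_neg]

theorem be_Nk (B : BT b T N s K) (x : Fin m → E) {z : Fin m → E} (hz : N *ᵥ z = 0) :
    bil b (N *ᵥ x) (K *ᵥ z) = 0 ∧ bil b z (K *ᵥ (N *ᵥ x)) = 0 := by
  have h1 : bil b (N *ᵥ x) (K *ᵥ z) = 0 := by
    have h := be_g B x z
    rw [hz, add_zero, be_al] at h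
    exact left_eq_add.1 h.symm
  refine ⟨h1, ?_⟩
  rw [B.skew z (N *ᵥ x), nn_x B, add_zero, h1, neg_zero]

theorem be_NN (B : BT b T N s K) (x y : Fin m → E) : bil b (N *ᵥ x) (K *ᵥ (N *ᵥ y)) = 0 :=
  (be_Nk B x (nn_x B y)).1

private theorem be_N2 (B : BT b T N s K) (x y : Fin m → E) :
    bil b x (K *ᵥ (N *ᵥ y)) = -bil b (N *ᵥ x) (K *ᵥ y) := by
  have h := be_g B x y
  rw [be_al, be_ar, be_ar, be_NN B] at h
  linear_combination h

theorem ga_symm (B : BT b T N s K) (x y : Fin m → E) :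
    bil b (N *ᵥ x) (K *ᵥ y) = bil b (N *ᵥ y) (K *ᵥ x) := by
  have h1 := B.skew (N *ᵥ x) y
  rw [be_al, be_NN B, be_N2 B y x] at h1
  rw [h1]
  ring

theorem ga_skew (B : BT b T N s K) (x y : Fin m → E) :
    bil b (N *ᵥ x) (K *ᵥ y) = -(bil b x (K *ᵥ y) + bil b y (K *ᵥ x)) := by
  have h := B.skew y x
  rw [be_al] at h
  rw [h]
  ring

theorem ga_ker (hl : Lat b l t T) (B : BT b T N s K) {x : Fin m → E}
    (h : ∀ y, bil b (N *ᵥ x) (K *ᵥ y) = 0) : N *ᵥ x = 0 := be_nd hl B h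

theorem be_dual (hl : Lat b l t T) (B : BT b T N s K) (x : Fin m → E) :
    x ∈ T ↔ ∀ y ∈ T, ‖bil b x (K *ᵥ y)‖ ≤ 1 := by
  rw [hl.dual x]
  constructor
  · intro h y hy
    exact h _ ((B.kT y).2 hy)
  · intro h y hy
    have e : K *ᵥ (K⁻¹ *ᵥ y) = y := by
      rw [mulVec_mulVec, Matrix.mul_nonsing_inv _ ((Matrix.isUnit_iff_isUnit_det _).1 (k_unit hl B)),
        one_mulVec]
    have h1 := h (K⁻¹ *ᵥ y) ((B.kT _).1 (by rw [e]; exact hy))
    rwa [e] at h1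

theorem be_rep (hl : Lat b l t T) (B : BT b T N s K) (f : (Fin m → E) →ₗ[E] E) :
    ∃ v, ∀ x, f x = bil b v (K *ᵥ x) := by
  refine ⟨(fun i => f (Pi.single i 1)) ᵥ* (b * K)⁻¹, fun x => ?_⟩
  rw [be_eq, vecMul_vecMul, Matrix.nonsing_inv_mul _ ((Matrix.isUnit_iff_isUnit_det _).1
    (bk_unit hl B)), vecMul_one]
  have e : x = ∑ i, x i • (Pi.single i 1 : Fin m → E) := by
    simpa using (pi_eq_sum_univ' x)
  conv_lhs => rw [e]
  rw [map_sum, dotProduct]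
  refine Finset.sum_congr rfl fun i _ => ?_
  rw [map_smul, smul_eq_mul, mul_comm]

theorem orth_ker (hl : Lat b l t T) (B : BT b T N s K) {x : Fin m → E}
    (h : ∀ z, N *ᵥ z = 0 → bil b x (K *ᵥ z) = 0) : ∃ w, x = N *ᵥ w := by
  set g : (Fin m → E) →ₗ[E] E :=
    { toFun := fun z => bil b x (K *ᵥ z)
      map_add' := fun y z => be_ar x y z
      map_smul' := fun c z => by
        rw [mulVec_smul, bil_smul_right, RingHom.id_apply, smul_eq_mul] } with hg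
  have hgz : ∀ z, g z = bil b x (K *ᵥ z) := fun z => rfl
  have hmem : g ∈ LinearMap.range (N.mulVecLin).dualMap := by
    rw [LinearMap.range_dualMap_eq_dualAnnihilator_ker, Submodule.mem_dualAnnihilator]
    intro z hz
    exact h z hz
  obtain ⟨f, hf⟩ := hmem
  obtain ⟨v, hv⟩ := be_rep hl B f
  have h1 : ∀ z, bil b x (K *ᵥ z) = bil b v (K *ᵥ (N *ᵥ z)) := by
    intro z
    rw [← hv, ← hgz, ← hf]
    rfl
  refine ⟨-v, ?_⟩
  rw [mulVec_neg]
  refine eq_neg_of_add_eq_zero_left (be_nd hl B fun y => ?_)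
  rw [be_al, h1, be_N2 B v y]
  ring

theorem s_ker (B : BT b T N s K) (x : Fin m → E) : N *ᵥ (s *ᵥ x) = 0 ↔ N *ᵥ x = 0 := by
  obtain ⟨r, hr, h⟩ := B.sN
  have h1 : s *ᵥ (N *ᵥ x) = r • (N *ᵥ (s *ᵥ x)) := by
    rw [mulVec_mulVec, h, smul_mulVec, mulVec_mulVec]
  constructor
  · intro h0
    rw [h0, smul_zero] at h1
    have h2 : Function.Injective s.mulVec := Matrix.mulVec_injective_iff_isUnit.2 B.su
    exact h2 (by rw [h1, mulVec_zero])
  · intro h0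
    rw [h0, mulVec_zero] at h1
    exact (smul_eq_zero.1 h1.symm).resolve_left hr

/-- the key identity: `p (u, u') + p (u', u) = - γ (u, u')` -/
theorem p_symm (B : BT b T N s K) {x w x' w' : Fin m → E} (h : N *ᵥ (x - (s *ᵥ w - w)) = 0)
    (h' : N *ᵥ (x' - (s *ᵥ w' - w')) = 0) :
    bil b (N *ᵥ w) (K *ᵥ x') + bil b (N *ᵥ w') (K *ᵥ x) = -bil b (N *ᵥ x) (K *ᵥ x') := by
  have e : N *ᵥ x = N *ᵥ (s *ᵥ w) - N *ᵥ w := by
    rw [mulVec_sub, mulVec_sub, sub_eq_zero] at h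
    exact h
  have e' : N *ᵥ x' = N *ᵥ (s *ᵥ w') - N *ᵥ w' := by
    rw [mulVec_sub, mulVec_sub, sub_eq_zero] at h'
    exact h'
  have h1 : bil b (N *ᵥ w) (K *ᵥ x') =
      bil b (N *ᵥ (s *ᵥ w')) (K *ᵥ w) - bil b (N *ᵥ w') (K *ᵥ w) := by
    rw [ga_symm B, e', be_sl]
  have h2 : bil b (N *ᵥ w') (K *ᵥ x) =
      bil b (N *ᵥ (s *ᵥ w)) (K *ᵥ w') - bil b (N *ᵥ w) (K *ᵥ w') := by
    rw [ga_symm B, e, be_sl]
  have h3 : bil b (N *ᵥ x) (K *ᵥ x') = (bil b (N *ᵥ (s *ᵥ w')) (K *ᵥ (s *ᵥ w)) -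
      bil b (N *ᵥ w') (K *ᵥ (s *ᵥ w))) - (bil b (N *ᵥ (s *ᵥ w')) (K *ᵥ w) -
      bil b (N *ᵥ w') (K *ᵥ w)) := by
    rw [e, be_sl, ga_symm B (s *ᵥ w) x', ga_symm B w x', e', be_sl, be_sl]
  rw [h1, h2, h3, B.inv, ga_symm B w' (s *ᵥ w), ga_symm B w w']
  ring

end Pool.Agent.Work.MP_787500_nt.ER
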