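import Mathlib
import Pool.Agent.Work.MP_787500_nt.ER.AltX
import Pool.Agent.Work.MP_787500_nt.ER.Gam

/-!
# ER/Alt (size M-L): THE ALTERNATING FORM

`dim (first projection of Lam2) = dim_E W5` modulo 2.

NOTATION `β (x, y) = bil b x (K y)`, `γ (x, y) = β (N x, y)`. FACTS (module ER/Gam): `γ` is symmetric, `s`-invariant, `γ (x, z) = γ (z, x) = 0` for `z ∈ ker N`,
`γ (u, u) = - 2 β (u, u)`, unimodularity of `β` on `T` (`gam_T`), the left orthogonal of `ker N` is the image of `N`.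
`J₅ = T ⊓ W5`, `J₂ = {u ∈ T | ∃ w, N w ∈ T, N (u - (s w - w)) = 0}`. `l⁻¹ J₂`, `l⁻¹ J₅` have as reductions the first projection of `Lam2` and `imW W5`.
`p (u, u') = β (N w, u')` where `u = (s - 1) w + z`, `z ∈ ker N`: choose a linear `f : W5 → V` with `u - (s - 1) (f u) ∈ ker N` (`p u u' = bil b (N (f u)) (K u')`, bilinear on `W5`).
It does not depend on `w` for `u' ∈ W5`: if `(s - 1) w ∈ ker N` and `u' = (s - 1) w' + z'` then `β (N w, u') = γ (w, (s - 1) w') = γ (s w, s w') - γ (w, w') - γ ((s - 1) w, s w') = 0`.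
`p (u, u') + p (u', u) = - γ (u, u')`, `2 p (u, u) = - γ (u, u)`, so `p (u, u) = β (u, u) ∈ O` for `u ∈ T`. RADICAL: `u ∈ J₂` (with `w`, `N w ∈ T`): `p (u, u') = β (N w, u') ∈ O`.
Conversely let `p (u, ·)` be integral on `J₅ = T ⊓ W5`; the functional `u' ↦ β (N w, u')` on `J₅` extends to an integral functional on `T` (`J₅` is a direct summand: `T / J₅` is
finitely generated and torsion free over the PID `O`), which is `β (v, ·)` with `v ∈ T` (unimodular); `N w - v` is left orthogonal to `W5 ⊇ ker N`, so `N w - v = N w₁`, and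
`γ (w₁, (s - 1) w') = 0` for all `w'` gives `γ ((s⁻¹ - 1) w₁, ·) = 0`, so `(s - 1) w₁ ∈ ker N`: replace `w` by `w - w₁`: `N (w - w₁) = v ∈ T`, `u ∈ J₂`.
Then `even_lat`: `|J₅ / (J₂ + l J₅)| = q ^ (2 k)`; `J₅ / l J₅ ≃ imW W5` (`T ⊓ W5 ⊓ l T = l (T ⊓ W5)`), the image of `J₂` is the first projection of `Lam2`:
`dim imW W5 - dim (fst Lam2) = 2 k`; `finrank_imW`.
-/

set_option autoImplicit false
set_option linter.unusedSectionVars false

namespace Pool.Agent.Work.MP_787500_nt.ER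

open Matrix
open Pool.Agent.Work.MP_787500_nt.GP (A0 pr0 OE MN Wq mq mq_add mq_sub mq_smul mq_eq mq_eq_zero lft mq_lft
  bil bil_add_left bil_add_right bil_sub_left bil_sub_right bil_smul_left bil_smul_right bil_symm Lat
  lamN bN bN_val actN actQ actQ_mq)
open Pool.Agent.Work.MP_787500_nt.KS (hfT hfT_nondeg)
open Pool.Agent.Work.MP_787500_nt.KT (Sy ee IsSp)
open Pool.Agent.Work.MP_787500_nt.KI (SIso)

universe w

variable {E : Type w} [NormedField E] [NormedAlgebra ℚ_[2] E] [FiniteDimensional ℚ_[2] E]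
  [IsLocalRing (OE E)] [Finite (IsLocalRing.ResidueField (OE E))] {m n : ℕ}
  {b : Matrix (Fin m) (Fin m) E} {l : OE E} {t : E →ₗ[ℚ_[2]] ℚ_[2]}
  {T : Submodule (OE E) (Fin m → E)} {N s K : Matrix (Fin m) (Fin m) E}
  {L : MN T l 1 ≃+ (Fin n → IsLocalRing.ResidueField (OE E))}

private theorem al_pow (hllt : ‖(l : E)‖ < 1) (C ε : ℝ) (hε : 0 < ε) :
    ∃ k : ℕ, ‖(l : E)‖ ^ k * C < ε := by
  have h1 : Filter.Tendsto (fun k : ℕ => ‖(l : E)‖ ^ k * C) Filter.atTop (nhds (0 * C)) :=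
    (tendsto_pow_atTop_nhds_zero_of_lt_one (norm_nonneg _) hllt).mul_const C
  rw [zero_mul] at h1
  exact (h1.eventually (gt_mem_nhds hε)).exists

private theorem al_frac (hlne : (l : E) ≠ 0) (hllt : ‖(l : E)‖ < 1) :
    IsFractionRing (OE E) E := by
  refine IsFractionRing.of_field (R := OE E) (K := E) fun z => ?_
  obtain ⟨k, hk⟩ := al_pow hllt ‖z‖ 1 one_pos
  refine ⟨⟨(l : E) ^ k * z, ?_⟩, l ^ k, ?_⟩
  · rw [GP.mem_OE, norm_mul, norm_pow]
    exact hk.le
  · show z = ((l : E) ^ k * z) / (((l ^ k : OE E)) : E)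
    rw [Subring.coe_pow, mul_div_cancel_left₀ _ (pow_ne_zero _ hlne)]

private theorem al_scale (hl : Lat b l t T) (x : Fin m → E) : ∃ k : ℕ, (l : E) ^ k • x ∈ T := by
  obtain ⟨r, hr, hT⟩ := hl.opn
  obtain ⟨k, hk⟩ := al_pow hl.llt ‖x‖ r hr
  refine ⟨k, hT _ ?_⟩
  rw [norm_smul, norm_pow]
  exact hk

private theorem al_basis (hl : Lat b l t T) :
    ∃ k : ℕ, Nonempty (Module.Basis (Fin k) (OE E) T) := by
  have hpid : IsPrincipalIdealRing (OE E) := GP.isPID hl.lne hl.llt hl.lmax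
  obtain ⟨R, hR⟩ := hl.bdd
  obtain ⟨k, hk⟩ := al_pow hl.llt R 1 one_pos
  let Φ : T →ₗ[OE E] (Fin m → OE E) :=
    { toFun := fun x i => ⟨(l : E) ^ k * x.1 i, by
        rw [GP.mem_OE, norm_mul, norm_pow]
        exact (mul_le_mul_of_nonneg_left ((norm_le_pi_norm x.1 i).trans (hR _ x.2))
          (by positivity)).trans hk.le⟩
      map_add' := fun x y => by
        funext i
        apply Subtype.ext
        exact mul_add _ _ _
      map_smul' := fun a x => by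
        funext i
        apply Subtype.ext
        show (l : E) ^ k * ((a : E) * x.1 i) = (a : E) * ((l : E) ^ k * x.1 i)
        ring }
  have hΦ : Function.Injective Φ := by
    intro x y hxy
    apply Subtype.ext
    funext i
    have h1 : (l : E) ^ k * x.1 i = (l : E) ^ k * y.1 i := congrArg Subtype.val (congrFun hxy i)
    exact mul_left_cancel₀ (pow_ne_zero _ hl.lne) h1
  obtain ⟨r, ⟨β⟩⟩ := Submodule.nonempty_basis_of_pid (Pi.basisFun (OE E) (Fin m))
    (LinearMap.range Φ)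
  exact ⟨r, ⟨β.map (LinearEquiv.ofInjective Φ hΦ).symm⟩⟩

/-- an integral functional on a subspace extends to an integral functional -/
private theorem ext_func (hl : Lat b l t T) (W : Submodule E (Fin m → E)) (φ : W →ₗ[E] E)
    (hφ : ∀ x (hx : x ∈ W), x ∈ T → ‖φ ⟨x, hx⟩‖ ≤ 1) :
    ∃ Ψ : (Fin m → E) →ₗ[E] E, (∀ x (hx : x ∈ W), Ψ x = φ ⟨x, hx⟩) ∧ ∀ x ∈ T, ‖Ψ x‖ ≤ 1 := by
  classical
  have hpid : IsPrincipalIdealRing (OE E) := GP.isPID hl.lne hl.llt hl.lmax
  have hfrac := al_frac hl.lne hl.llt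
  have hu := Gn.ultra 2 E
  obtain ⟨k, ⟨b0⟩⟩ := al_basis hl
  let N : Submodule (OE E) T := (W.restrictScalars (OE E)).comap T.subtype
  obtain ⟨r, ⟨bM, bN, f, a, snf⟩⟩ := Submodule.smithNormalForm b0 N
  have hli : LinearIndependent E (fun i => (bM i : Fin m → E)) := by
    rw [← LinearIndependent.iff_fractionRing (R := OE E)]
    exact bM.linearIndependent.map' T.subtype (Submodule.ker_subtype _)
  have hxs : ∀ x : T, (x : Fin m → E) =
      ∑ i, ((bM.repr x i : OE E) : E) • (bM i : Fin m → E) := by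
    intro x
    have h1 := congrArg Subtype.val (bM.sum_repr x)
    rw [Submodule.coe_sum] at h1
    exact h1.symm
  have hsp : ⊤ ≤ Submodule.span E (Set.range fun i => (bM i : Fin m → E)) := by
    rintro x -
    obtain ⟨j, hj⟩ := al_scale hl x
    have h1 := hxs ⟨_, hj⟩
    have h2 : x = ((l : E) ^ j)⁻¹ •
        ∑ i, ((bM.repr ⟨_, hj⟩ i : OE E) : E) • (bM i : Fin m → E) := by
      rw [← h1, smul_smul, inv_mul_cancel₀ (pow_ne_zero _ hl.lne), one_smul]
    rw [h2]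
    exact Submodule.smul_mem _ _ (Submodule.sum_mem _ fun i _ =>
      Submodule.smul_mem _ _ (Submodule.subset_span ⟨i, rfl⟩))
  let bE : Module.Basis (Fin k) E (Fin m → E) := Module.Basis.mk hli hsp
  have hbE : ∀ i, bE i = (bM i : Fin m → E) := fun i => Module.Basis.mk_apply hli hsp i
  have ha : ∀ j, a j ≠ 0 := by
    intro j h0
    have h1 := snf j
    rw [h0, zero_smul] at h1
    exact bN.ne_zero j (Subtype.ext h1)
  have ha' : ∀ j, (a j : E) ≠ 0 := fun j h0 => ha j (Subtype.ext h0)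
  have heN : ∀ j, (bM (f j) : Fin m → E) ∈ W := by
    intro j
    have h1 : ((bN j : T) : Fin m → E) ∈ W := (bN j).2
    rw [snf j] at h1
    have h2 : (bM (f j) : Fin m → E) = (a j : E)⁻¹ • ((a j • bM (f j) : T) : Fin m → E) := by
      show _ = (a j : E)⁻¹ • (a j : E) • (bM (f j) : Fin m → E)
      rw [smul_smul, inv_mul_cancel₀ (ha' j), one_smul]
    rw [h2]
    exact W.smul_mem _ h1
  let v : Fin k → E := fun i => if h : (bM i : Fin m → E) ∈ W then φ ⟨_, h⟩ else 0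
  have hv : ∀ i, ‖v i‖ ≤ 1 := by
    intro i
    by_cases h : (bM i : Fin m → E) ∈ W
    · show ‖dite _ _ _‖ ≤ 1
      rw [dif_pos h]
      exact hφ _ h (bM i).2
    · show ‖dite _ _ _‖ ≤ 1
      rw [dif_neg h, norm_zero]
      exact zero_le_one
  refine ⟨bE.constr E v, fun x hx => ?_, fun x hx => ?_⟩
  · have hspan : ∀ x (hx : x ∈ W), x ∈ T → bE.constr E v x = φ ⟨x, hx⟩ := by
      intro x hx hxT
      have hmem : (⟨x, hxT⟩ : T) ∈ N := hx
      have h1 := congrArg (fun z : N => ((z : T) : Fin m → E)) (bN.sum_repr ⟨⟨x, hxT⟩, hmem⟩)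
      simp only [Submodule.coe_sum] at h1
      have h2 : x = ∑ i, (((bN.repr ⟨⟨x, hxT⟩, hmem⟩ i : OE E) : E) * (a i : E)) •
          (bM (f i) : Fin m → E) := by
        conv_lhs => rw [← h1]
        refine Finset.sum_congr rfl fun i _ => ?_
        have h3 := congrArg Subtype.val (snf i)
        show ((bN.repr ⟨⟨x, hxT⟩, hmem⟩ i : OE E) : E) • ((bN i : T) : Fin m → E) = _
        rw [h3, mul_smul]
        rfl
      have h4 : (⟨x, hx⟩ : W) = ∑ i, (((bN.repr ⟨⟨x, hxT⟩, hmem⟩ i : OE E) : E) * (a i : E)) •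
          (⟨_, heN i⟩ : W) := by
        apply Subtype.ext
        rw [Submodule.coe_sum]
        exact h2
      rw [h4, map_sum]
      conv_lhs => rw [h2, map_sum]
      refine Finset.sum_congr rfl fun i _ => ?_
      have h5 : bE.constr E v (bM (f i) : Fin m → E) = v (f i) := by
        rw [← hbE, Module.Basis.constr_basis]
      have h6 : v (f i) = φ ⟨_, heN i⟩ := dif_pos (heN i)
      rw [map_smul, map_smul, h5, h6]
    obtain ⟨j, hj⟩ := al_scale hl x
    have h1 := hspan _ (W.smul_mem _ hx) hj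
    rw [map_smul] at h1
    have h2 : (⟨(l : E) ^ j • x, W.smul_mem _ hx⟩ : W) = (l : E) ^ j • ⟨x, hx⟩ := rfl
    rw [h2, map_smul] at h1
    exact mul_left_cancel₀ (pow_ne_zero j hl.lne) h1
  · have h1 : bE.constr E v x = ∑ i, ((bM.repr ⟨x, hx⟩ i : OE E) : E) • v i := by
      conv_lhs => rw [show x = ((⟨x, hx⟩ : T) : Fin m → E) from rfl, hxs ⟨x, hx⟩]
      rw [map_sum]
      refine Finset.sum_congr rfl fun i _ => ?_
      rw [map_smul, ← hbE, Module.Basis.constr_basis]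
    rw [h1]
    refine IsUltrametricDist.norm_sum_le_of_forall_le_of_nonneg zero_le_one fun i _ => ?_
    rw [norm_smul]
    exact mul_le_one₀ (bM.repr ⟨x, hx⟩ i).2 (norm_nonneg _) (hv i)


private theorem al_bdd (f : (Fin m → E) →ₗ[E] (Fin m → E)) :
    ∃ C : ℝ, 0 ≤ C ∧ ∀ x, ‖f x‖ ≤ C * ‖x‖ := by
  have e : ∀ x, f x = (LinearMap.toMatrix' f) *ᵥ x := fun x => by
    rw [← Matrix.toLin'_apply, Matrix.toLin'_toMatrix']
  set A := LinearMap.toMatrix' f with hA
  refine ⟨∑ i, ∑ j, ‖A i j‖, Finset.sum_nonneg fun i _ => Finset.sum_nonneg fun j _ => norm_nonneg _,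
    fun x => ?_⟩
  rw [e]
  refine (pi_norm_le_iff_of_nonneg (by positivity)).2 fun i => ?_
  show ‖∑ j, A i j * x j‖ ≤ _
  refine (norm_sum_le _ _).trans ?_
  calc ∑ j, ‖A i j * x j‖ ≤ ∑ j, ‖A i j‖ * ‖x‖ := by
        refine Finset.sum_le_sum fun j _ => ?_
        rw [norm_mul]
        exact mul_le_mul_of_nonneg_left (norm_le_pi_norm x j) (norm_nonneg _)
    _ = (∑ j, ‖A i j‖) * ‖x‖ := by rw [Finset.sum_mul]
    _ ≤ (∑ i, ∑ j, ‖A i j‖) * ‖x‖ := by
        refine mul_le_mul_of_nonneg_right ?_ (norm_nonneg _)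
        exact Finset.single_le_sum (f := fun i => ∑ j, ‖A i j‖)
          (fun i _ => Finset.sum_nonneg fun j _ => norm_nonneg _) (Finset.mem_univ i)

/-- the elements of `T` in `W5` -/
private def J5 (T : Submodule (OE E) (Fin m → E)) (N s : Matrix (Fin m) (Fin m) E) :
    Submodule (OE E) (Fin m → E) := T ⊓ (W5 N s).restrictScalars (OE E)

/-- the elements `u` of `T` with `N (u - (s - 1) w) = 0` and `N w ∈ T` -/
private def J2 (T : Submodule (OE E) (Fin m → E)) (N s : Matrix (Fin m) (Fin m) E) :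
    Submodule (OE E) (Fin m → E) where
  carrier := {u | u ∈ T ∧ ∃ w, N *ᵥ w ∈ T ∧ N *ᵥ (u - (s *ᵥ w - w)) = 0}
  add_mem' := by
    rintro x y ⟨h1, w, h2, h3⟩ ⟨h1', w', h2', h3'⟩
    refine ⟨T.add_mem h1 h1', w + w', ?_, ?_⟩
    · rw [mulVec_add]
      exact T.add_mem h2 h2'
    · have e : x + y - (s *ᵥ (w + w') - (w + w')) =
          (x - (s *ᵥ w - w)) + (y - (s *ᵥ w' - w')) := by
        rw [mulVec_add]
        abel
      rw [e, mulVec_add, h3, h3', add_zero]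
  zero_mem' := ⟨T.zero_mem, 0, by
    rw [mulVec_zero]
    exact T.zero_mem, by rw [mulVec_zero, sub_zero, sub_zero, mulVec_zero]⟩
  smul_mem' := by
    rintro a x ⟨h1, w, h2, h3⟩
    refine ⟨T.smul_mem a h1, (a : E) • w, ?_, ?_⟩
    · rw [mulVec_smul]
      exact T.smul_mem a h2
    · show N *ᵥ ((a : E) • x - (s *ᵥ ((a : E) • w) - (a : E) • w)) = 0
      rw [mulVec_smul, ← smul_sub, ← smul_sub, mulVec_smul, h3, smul_zero]

private theorem mem_W5 {x : Fin m → E} :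
    x ∈ W5 N s ↔ ∃ w, N *ᵥ (x - (s *ᵥ w - w)) = 0 := by
  unfold W5
  rw [Submodule.mem_sup]
  constructor
  · rintro ⟨y, ⟨w, hw⟩, z, hz, rfl⟩
    refine ⟨w, ?_⟩
    have e : y = s *ᵥ w - w := by
      rw [← hw, mulVecLin_apply, sub_mulVec, one_mulVec]
    rw [← e, add_sub_cancel_left]
    exact hz
  · rintro ⟨w, hw⟩
    refine ⟨s *ᵥ w - w, ⟨w, ?_⟩, x - (s *ᵥ w - w), hw, add_sub_cancel _ _⟩
    rw [mulVecLin_apply, sub_mulVec, one_mulVec]

/-- a linear choice of the vectors `w` -/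
private theorem exists_F (N s : Matrix (Fin m) (Fin m) E) :
    ∃ F : (Fin m → E) →ₗ[E] (Fin m → E), ∀ x ∈ W5 N s, N *ᵥ (x - (s *ᵥ F x - F x)) = 0 := by
  let g : (Fin m → E) →ₗ[E] (Fin m → E) := (N * (s - 1)).mulVecLin
  have hg : ∀ w, g w = N *ᵥ (s *ᵥ w - w) := fun w => by
    show (N * (s - 1)) *ᵥ w = _
    rw [← mulVec_mulVec, sub_mulVec, one_mulVec]
  obtain ⟨σ, hσ⟩ := g.rangeRestrict.exists_rightInverse_of_surjective g.range_rangeRestrict
  obtain ⟨p, hp⟩ := (LinearMap.range g).subtype.exists_leftInverse_of_injective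
    (Submodule.ker_subtype _)
  refine ⟨σ ∘ₗ p ∘ₗ N.mulVecLin, fun x hx => ?_⟩
  obtain ⟨w, hw⟩ := mem_W5.1 hx
  have h1 : N *ᵥ x = g w := by
    rw [hg]
    rw [mulVec_sub] at hw
    exact sub_eq_zero.1 hw
  have h2 : p (N *ᵥ x) = ⟨g w, w, rfl⟩ := by
    rw [h1]
    exact LinearMap.congr_fun hp ⟨g w, w, rfl⟩
  have h3 : g (σ (p (N *ᵥ x))) = g w := by
    have h4 := congrArg Subtype.val (LinearMap.congr_fun hσ (p (N *ᵥ x)))
    rw [h2] at h4 ⊢
    exact h4
  show N *ᵥ (x - (s *ᵥ σ (p (N *ᵥ x)) - σ (p (N *ᵥ x)))) = 0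
  rw [mulVec_sub, ← hg, h3, h1, sub_self]

private theorem be_indep (B : BT b T N s K) {x w w' y : Fin m → E}
    (h : N *ᵥ (x - (s *ᵥ w - w)) = 0) (h' : N *ᵥ (x - (s *ᵥ w' - w')) = 0) (hy : y ∈ W5 N s) :
    bil b (N *ᵥ w) (K *ᵥ y) = bil b (N *ᵥ w') (K *ᵥ y) := by
  obtain ⟨v, hv⟩ := mem_W5.1 hy
  have h1 := p_symm B h hv
  have h2 := p_symm B h' hv
  exact add_right_cancel (h1.trans h2.symm)

private theorem lat_dim (hl : Lat b l t T) (B : BT b T N s K) :
    ∃ k : ℕ, Nat.card (J5 T N s ⧸ ((J2 T N s).comap (J5 T N s).subtype ⊔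
      LinearMap.range (LinearMap.lsmul (OE E) (J5 T N s) l))) =
      Nat.card (IsLocalRing.ResidueField (OE E)) ^ (2 * k) := by
  obtain ⟨F, hF⟩ := exists_F N s
  refine even_lat hl (fun x hx => ⟨hx.1, mem_W5.2 ?_⟩) inf_le_left
    (fun x y => bil b (N *ᵥ F x) (K *ᵥ y)) (fun x _ y _ z _ => ⟨?_, ?_⟩)
    (fun a x _ y _ => ⟨?_, ?_⟩) (fun x hx => ?_) (fun x hx => ⟨fun h y hy => ?_, fun h => ?_⟩) ?_
  · obtain ⟨-, w, -, h⟩ := hx
    exact ⟨w, h⟩
  · have e : bil b (N *ᵥ F (x + y)) (K *ᵥ z) - bil b (N *ᵥ F x) (K *ᵥ z) -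
        bil b (N *ᵥ F y) (K *ᵥ z) = 0 := by
      rw [map_add, mulVec_add, bil_add_left]
      ring
    rw [e, norm_zero]
    exact zero_le_one
  · have e : bil b (N *ᵥ F z) (K *ᵥ (x + y)) - bil b (N *ᵥ F z) (K *ᵥ x) -
        bil b (N *ᵥ F z) (K *ᵥ y) = 0 := by
      rw [mulVec_add, bil_add_right]
      ring
    rw [e, norm_zero]
    exact zero_le_one
  · have e : bil b (N *ᵥ F ((a : E) • x)) (K *ᵥ y) - a * bil b (N *ᵥ F x) (K *ᵥ y) = 0 := by
      rw [map_smul, mulVec_smul, bil_smul_left]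
      ring
    rw [e, norm_zero]
    exact zero_le_one
  · have e : bil b (N *ᵥ F x) (K *ᵥ ((a : E) • y)) - a * bil b (N *ᵥ F x) (K *ᵥ y) = 0 := by
      rw [mulVec_smul, bil_smul_right]
      ring
    rw [e, norm_zero]
    exact zero_le_one
  · -- alternating
    have h1 := p_symm B (hF x hx.2) (hF x hx.2)
    have h0 := ga_skew B x x
    have h2 : bil b (N *ᵥ F x) (K *ᵥ x) = bil b x (K *ᵥ x) := by
      have h3 : (2 : E) * bil b (N *ᵥ F x) (K *ᵥ x) = 2 * bil b x (K *ᵥ x) := by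
        linear_combination h1 - h0
      have hc0 : CharZero E := charZero_of_injective_algebraMap (algebraMap ℚ_[2] E).injective
      exact mul_left_cancel₀ two_ne_zero h3
    rw [h2]
    exact (be_dual hl B x).1 hx.1 x hx.1
  · obtain ⟨-, w, h2, h3⟩ := h
    rw [be_indep B (hF x hx.2) h3 hy.2]
    exact (be_dual hl B _).1 h2 y hy.1
  · let φ : W5 N s →ₗ[E] E :=
      { toFun := fun y => bil b (N *ᵥ F x) (K *ᵥ (y : Fin m → E))
        map_add' := fun y z => by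
          rw [Submodule.coe_add, mulVec_add, bil_add_right]
        map_smul' := fun a y => by
          rw [Submodule.coe_smul, mulVec_smul, bil_smul_right, RingHom.id_apply, smul_eq_mul] }
    obtain ⟨Ψ, h1, h2⟩ := ext_func hl (W5 N s) φ fun y hy hyT => h y ⟨hyT, hy⟩
    obtain ⟨v, hv⟩ := be_rep hl B Ψ
    have hvT : v ∈ T := (be_dual hl B v).2 fun y hy => by
      rw [← hv]
      exact h2 y hy
    have h3 : ∀ y ∈ W5 N s, bil b (N *ᵥ F x - v) (K *ᵥ y) = 0 := by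
      intro y hy
      have h4 := h1 y hy
      rw [hv] at h4
      rw [bil_sub_left, h4]
      exact sub_self _
    obtain ⟨w₁, hw⟩ := orth_ker hl B (x := N *ᵥ F x - v) fun z hz => h3 z (mem_W5.2 ⟨0, by
      rw [mulVec_zero, sub_zero, sub_zero, hz]⟩)
    have hs : ∀ y, ∃ y', y = s *ᵥ y' := by
      intro y
      obtain ⟨u, hu⟩ := B.su
      refine ⟨(↑u⁻¹ : Matrix (Fin m) (Fin m) E) *ᵥ y, ?_⟩
      rw [mulVec_mulVec, ← hu, Units.mul_inv, one_mulVec]
    have h5 : N *ᵥ (s *ᵥ w₁ - w₁) = 0 := by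
      refine ga_ker hl B fun y => ?_
      obtain ⟨y', rfl⟩ := hs y
      have h6 := h3 (s *ᵥ y' - y') (mem_W5.2 ⟨y', by rw [sub_self, mulVec_zero]⟩)
      rw [hw, mulVec_sub, bil_sub_right] at h6
      rw [mulVec_sub, bil_sub_left, B.inv]
      linear_combination -h6
    refine ⟨hx.1, F x - w₁, ?_, ?_⟩
    · rw [mulVec_sub, ← hw, sub_sub_cancel]
      exact hvT
    · have e : x - (s *ᵥ (F x - w₁) - (F x - w₁)) = (x - (s *ᵥ F x - F x)) + (s *ᵥ w₁ - w₁) := by
        rw [mulVec_sub]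
        abel
      rw [e, mulVec_add, hF x hx.2, h5, add_zero]
  · -- bounded
    obtain ⟨C, hC, hCb⟩ := al_bdd (N.mulVecLin ∘ₗ F)
    obtain ⟨R, hR⟩ := hl.bdd
    obtain ⟨r, hr, hT⟩ := hl.opn
    obtain ⟨k, hk⟩ := al_pow hl.llt (C * R) r hr
    refine ⟨(‖(l : E)‖ ^ k)⁻¹, fun x hx y hy => ?_⟩
    have h1 : (l : E) ^ k • (N *ᵥ F x) ∈ T := by
      refine hT _ ?_
      rw [norm_smul, norm_pow]
      refine lt_of_le_of_lt ?_ hk
      refine mul_le_mul_of_nonneg_left ?_ (by positivity)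
      exact (hCb x).trans (mul_le_mul_of_nonneg_left (hR x hx.1) hC)
    have h2 := (be_dual hl B _).1 h1 y hy.1
    rw [bil_smul_left, norm_mul, norm_pow] at h2
    have h3 : 0 < ‖(l : E)‖ ^ k := pow_pos (norm_pos_iff.2 hl.lne) k
    rw [← one_div, le_div_iff₀ h3, mul_comm]
    exact h2

private theorem exists_k {q x y k : ℕ} (hq : 1 < q)
    (h : q ^ y = q ^ (2 * k) * q ^ x) : Even (x + y) := by
  rw [← pow_add] at h
  have h1 := Nat.pow_right_injective hq h
  exact ⟨x + k, by omega⟩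

/-- THE ALTERNATING FORM. -/
theorem alt_even (hl : Lat b l t T) (B : BT b T N s K)
    (hL : SIso (OE E) (IsLocalRing.ResidueField (OE E)) L) :
    Even (Module.finrank (IsLocalRing.ResidueField (OE E))
      ((Lam2 hL N s).map (LinearMap.fst _ (Fin n → IsLocalRing.ResidueField (OE E))
        (Fin n → IsLocalRing.ResidueField (OE E)))) + Module.finrank E (W5 N s)) := by
  set U := Fin n → IsLocalRing.ResidueField (OE E) with hU
  obtain ⟨k, hk⟩ := lat_dim hl B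
  set M₂ : Submodule (IsLocalRing.ResidueField (OE E)) U :=
    (Lam2 hL N s).map (LinearMap.fst _ U U) with hM₂
  set M₅ : Submodule (IsLocalRing.ResidueField (OE E)) U := imW hL (W5 N s) with hM₅
  have hmem2 : ∀ u, u ∈ M₂ ↔ ∃ x w, Rq L x u ∧ (l : E) • (N *ᵥ w) ∈ T ∧
      N *ᵥ (x - (s *ᵥ w - w)) = 0 := by
    intro u
    constructor
    · rintro ⟨⟨u', v⟩, ⟨x, w, h1, h2, h3⟩, rfl⟩
      exact ⟨x, w, h1, rq_mem h2, h3⟩
    · rintro ⟨x, w, h1, h2, h3⟩
      obtain ⟨v, hv⟩ := exists_rq h2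
      exact ⟨(u, v), ⟨x, w, h1, hv, h3⟩, rfl⟩
  have h25 : M₂ ≤ M₅ := by
    intro u hu
    obtain ⟨x, w, h1, -, h3⟩ := (hmem2 u).1 hu
    exact ⟨x, mem_W5.2 ⟨w, h3⟩, h1⟩
  -- the reduction
  have hex : ∀ x : J5 T N s, ∃ u : M₅, Rq L ((l : E)⁻¹ • (x : Fin m → E)) u := by
    intro x
    have h1 : (l : E) • ((l : E)⁻¹ • (x : Fin m → E)) ∈ T := by
      rw [smul_smul, mul_inv_cancel₀ hl.lne, one_smul]
      exact x.2.1
    obtain ⟨u, hu⟩ := exists_rq (L := L) h1
    exact ⟨⟨u, _, (W5 N s).smul_mem _ x.2.2, hu⟩, hu⟩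
  choose f hf using hex
  let M₂' : AddSubgroup M₅ := (M₂.comap M₅.subtype).toAddSubgroup
  let Φ : J5 T N s →+ M₅ ⧸ M₂' := AddMonoidHom.mk' (fun x => (f x : M₅ ⧸ M₂')) fun x y => by
    have h1 : f (x + y) = f x + f y := by
      apply Subtype.ext
      have h2 := (hf x).add (hf y)
      rw [← smul_add] at h2
      exact (rq_unique (hf (x + y)) h2).2 (by
        rw [Submodule.coe_add, sub_self]
        exact T.zero_mem)
    show ((f (x + y) : M₅) : M₅ ⧸ M₂') = (f x : M₅ ⧸ M₂') + (f y : M₅ ⧸ M₂')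
    rw [h1]
    rfl
  have hsurj : Function.Surjective Φ := by
    intro z
    obtain ⟨⟨u, x, hx, hu⟩, rfl⟩ := QuotientAddGroup.mk_surjective z
    refine ⟨⟨(l : E) • x, rq_mem hu, (W5 N s).smul_mem _ hx⟩, ?_⟩
    have h1 : f ⟨(l : E) • x, rq_mem hu, (W5 N s).smul_mem _ hx⟩ = ⟨u, x, hx, hu⟩ := by
      apply Subtype.ext
      refine (rq_unique (hf _) hu).2 ?_
      show (l : E)⁻¹ • (l : E) • x - x ∈ T
      rw [smul_smul, inv_mul_cancel₀ hl.lne, one_smul, sub_self]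
      exact T.zero_mem
    show ((f _ : M₅) : M₅ ⧸ M₂') = _
    rw [h1]
  have hker : ∀ x : J5 T N s, Φ x = 0 ↔ x ∈ (J2 T N s).comap (J5 T N s).subtype ⊔
      LinearMap.range (LinearMap.lsmul (OE E) (J5 T N s) l) := by
    intro x
    have h0 : Φ x = 0 ↔ ((f x : M₅) : U) ∈ M₂ := QuotientAddGroup.eq_zero_iff _
    rw [h0, hmem2, Submodule.mem_sup]
    constructor
    · rintro ⟨y, w, h1, h2, h3⟩
      have h4 : (l : E)⁻¹ • (x : Fin m → E) - y ∈ T := (rq_unique (hf x) h1).1 rfl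
      have hyW : y ∈ W5 N s := mem_W5.2 ⟨w, h3⟩
      have h5 : (l : E) • y ∈ T := rq_mem h1
      have h6 : (l : E) • y ∈ J2 T N s := by
        refine ⟨h5, (l : E) • w, ?_, ?_⟩
        · rw [mulVec_smul]
          exact h2
        · rw [mulVec_smul, ← smul_sub, ← smul_sub, mulVec_smul, h3, smul_zero]
      refine ⟨⟨(l : E) • y, h5, (W5 N s).smul_mem _ hyW⟩, h6, l • ⟨(l : E)⁻¹ • (x : Fin m → E) - y,
        h4, (W5 N s).sub_mem ((W5 N s).smul_mem _ x.2.2) hyW⟩, ⟨_, rfl⟩, ?_⟩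
      apply Subtype.ext
      show (l : E) • y + (l : E) • ((l : E)⁻¹ • (x : Fin m → E) - y) = x
      rw [smul_sub, smul_smul, mul_inv_cancel₀ hl.lne, one_smul]
      abel
    · rintro ⟨y, ⟨h1, w, h2, h3⟩, _, ⟨z, rfl⟩, hyz⟩
      have h4 : (x : Fin m → E) = y + (l : E) • (z : Fin m → E) := (congrArg Subtype.val hyz).symm
      have h5 : (l : E) • ((l : E)⁻¹ • (y : Fin m → E)) ∈ T := by
        rw [smul_smul, mul_inv_cancel₀ hl.lne, one_smul]
        exact y.2.1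
      obtain ⟨u, hu⟩ := exists_rq (L := L) h5
      have h6 : ((f x : M₅) : U) = u := (rq_unique (hf x) hu).2 (by
        rw [h4, smul_add, smul_smul, inv_mul_cancel₀ hl.lne, one_smul, add_sub_cancel_left]
        exact z.2.1)
      refine ⟨(l : E)⁻¹ • (y : Fin m → E), (l : E)⁻¹ • w, by rw [h6]; exact hu, ?_, ?_⟩
      · rw [mulVec_smul, smul_smul, mul_inv_cancel₀ hl.lne, one_smul]
        exact h2
      · rw [mulVec_smul, ← smul_sub, ← smul_sub, mulVec_smul]
        have h7 : N *ᵥ ((y : Fin m → E) - (s *ᵥ w - w)) = 0 := h3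
        rw [h7, smul_zero]
  have hcard : Nat.card (M₅ ⧸ M₂') = Nat.card (IsLocalRing.ResidueField (OE E)) ^ (2 * k) := by
    rw [← hk]
    have e1 : Φ.ker = ((J2 T N s).comap (J5 T N s).subtype ⊔
        LinearMap.range (LinearMap.lsmul (OE E) (J5 T N s) l)).toAddSubgroup := by
      ext x
      exact hker x
    refine (Nat.card_congr ((QuotientAddGroup.quotientKerEquivOfSurjective Φ hsurj).toEquiv.symm)).trans ?_
    rw [e1]
    rfl
  have hfin : Finite M₅ := inferInstance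
  have hc5 : Nat.card M₅ = Nat.card (M₅ ⧸ M₂') * Nat.card M₂ := by
    rw [AddSubgroup.card_eq_card_quotient_mul_card_addSubgroup M₂']
    congr 1
    exact Nat.card_congr (Submodule.submoduleOfEquivOfLe h25).toEquiv
  rw [hcard, Module.natCard_eq_pow_finrank (K := IsLocalRing.ResidueField (OE E)) (V := M₅),
    Module.natCard_eq_pow_finrank (K := IsLocalRing.ResidueField (OE E)) (V := M₂)] at hc5
  have h := exists_k Finite.one_lt_card hc5
  rwa [finrank_imW hl hL] at h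

end Pool.Agent.Work.MP_787500_nt.ER
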