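import Mathlib
import Pool.Agent.Work.MP_787500_nt.ER.RedA
import Pool.Agent.Work.MP_787500_nt.ER.Gam
import Pool.Agent.Work.MP_787500_nt.ER.Ref

/-!
# ER/LamA (size M): the planes `Lam2` and `LamP` in `U × U`

`β (x, y) = bil b x (K y)`. Tool `link0`: if `x`, `y` reduce to `u`, `v` and `l² β (x, y)` has norm `< 1` (that is `l β (x, y) ∈ O`) then `ee u (X v) = 0`: apply `hX` to `a x`, `a : O`
(`Rq.smul`): `hfT (algebraMap a * ee u (X v)) = pr0 (t (a l β)) = 0` for all `a`, `hfT_nondeg` (`hL.surj`). More generally a sum of terms `ee u_i (X v_i)` is 0 if the sum of the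
`l β (x_i, y_i)` is in `O`.
* `lamP_dim`: `dim LamP = n`: `finrank_imW`, `dim ker N + dim range N = m = n` (`card_n`).
* `lamP_q`: `QX = 0` on `LamP`: `u` from `z ∈ ker N`, `v` from `N w`: `ee (X u) v = ee v (X u)` from `β (N w, z) = 0` (`be_Nk`), `ee u (X u)` from `β (z, z)`: `skew` gives
  `β (z, z) = - β (z, z)`, so 0; `ee v (X v)` from `β (N w, N w) = 0` (`be_NN`).
* `lamP_ref`: `dim (LX ⊓ LamP)` and `dim_E range N` have the same parity. `P = imW (ranN N)`, `K' = imW (kerN N)`. `K' = {u | ee u (X q) = 0 for all q ∈ P}` (inclusion by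
  `be_Nk`, equality by dimensions: `ee` nondegenerate, `X` invertible: `X⁴ = 1`). If `cl l = 0`: `LX ⊓ LamP = 0 × P`. If `cl l = 1` (`cl l ∈ {0, 1}`): `(X³ m, m)` with `m ∈ P`,
  `X³ m ∈ K'`: `ee (X³ m) (X q) = ee m (X⁴ .. q) = ee m (X⁻² q)..`: `ee (X³ m) (X q) = ee (X⁴ m) (X² q) = ee m (X² q)` and `X² q = q` for `q ∈ P ⊆ K'` (`X² = ` reduction of
  `1 + N`; from `skew` and `hX`: `ee u (X v) = ee (v + 0) (X u)`.. that is `ee u (X v) = ee v (X u)` when `v` comes from `ker N`, so `X v = X⁻¹ v`). So the condition is `m` in the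
  radical of `ee` on `P`; an alternating form has even rank (`KS.alt_even` or `KS.sym_rank` with `k = 0`).
* `lam2_B`: `BX = 0` on `Lam2`: for `(x, N w)`, `(x', N w')`: the sum is `β (N w', x) + β (N w, x') + β (x, x') + β (x', x) = - γ (x, x') + β (x, x') + β (x', x) =
  2 (β (x, x') + β (x', x))` (`p_symm`, `ga_skew`), `l x, l x' ∈ T`, so `β ∈ l⁻² O` and `l · 2 · l⁻² ∈ O` (`‖2‖ ≤ ‖l‖`: `hl.lmax`); the terms with `cl l` are 0 (`be_NN`).
* `lam2_snd`: second components are in `P`. `lam2_dim`: `dim Lam2 + dim K' = dim (Lam2 ⊓ LamP) + dim (fst Lam2)`: the map `Lam2 → U / K'`, `(u, v) ↦ u`, has kernel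
  `Lam2 ⊓ LamP` (`lam2_snd`) and image `(fst Lam2) / K'`; `K' ≤ fst Lam2` (`w = 0`).
-/

set_option autoImplicit false
set_option linter.unusedSectionVars false

namespace Pool.Agent.Work.MP_787500_nt.ER

open Matrix
open Pool.Agent.Work.MP_787500_nt.GP (A0 pr0 OE MN Wq mq mq_add mq_sub mq_smul mq_eq mq_eq_zero lft mq_lft
  bil bil_add_left bil_add_right bil_sub_left bil_sub_right bil_smul_left bil_smul_right bil_symm Lat
  lamN bN bN_val actN actQ actQ_mq)
open Pool.Agent.Work.MP_787500_nt.KS (hfT hfT_nondeg)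
open Pool.Agent.Work.MP_787500_nt.KT (Sy ee IsSp)
open Pool.Agent.Work.MP_787500_nt.KI (SIso)

universe w

variable {E : Type w} [NormedField E] [NormedAlgebra ℚ_[2] E] [FiniteDimensional ℚ_[2] E]
  [IsLocalRing (OE E)] [Finite (IsLocalRing.ResidueField (OE E))]
  [CharP (IsLocalRing.ResidueField (OE E)) 2] [Algebra (ZMod 2) (IsLocalRing.ResidueField (OE E))]
  {m n : ℕ} [Sy (IsLocalRing.ResidueField (OE E)) n]
  {b : Matrix (Fin m) (Fin m) E} {l : OE E} {t : E →ₗ[ℚ_[2]] ℚ_[2]}
  {T : Submodule (OE E) (Fin m → E)} {N s K : Matrix (Fin m) (Fin m) E}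
  {L : MN T l 1 ≃+ (Fin n → IsLocalRing.ResidueField (OE E))}
  {X : Matrix (Fin n) (Fin n) (IsLocalRing.ResidueField (OE E))}

/-- `z` is the reduction of `l² y` in the sense of the pairing with all scalars -/
private def Lk (l : OE E) (t : E →ₗ[ℚ_[2]] ℚ_[2]) (z : (IsLocalRing.ResidueField (OE E))) (y : E) : Prop :=
  ∀ a : OE E, hfT (algebraMap (OE E) (IsLocalRing.ResidueField (OE E)) a * z) = pr0 (t ((l : E) * ((a : E) * y)))

private theorem lk_of (hL : SIso (OE E) (IsLocalRing.ResidueField (OE E)) L) (hX : LinkX L b t K X) {x y : Fin m → E}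
    {u v : Fin n → (IsLocalRing.ResidueField (OE E))} (h : Rq L x u) (h' : Rq L y v) :
    Lk l t (ee u (X *ᵥ v)) (bil b x (K *ᵥ y)) := by
  intro a
  have h1 := hX _ _ _ _ (h.smul hL a) h'
  rw [KT.ee_smul_left, bil_smul_left] at h1
  exact h1

private theorem lk_add {z z' : (IsLocalRing.ResidueField (OE E))} {y y' : E} (h : Lk l t z y) (h' : Lk l t z' y') :
    Lk l t (z + z') (y + y') := by
  intro a
  rw [mul_add, map_add, h a, h' a, mul_add, mul_add, map_add, map_add]

private theorem lk_zero (hl : Lat b l t T) (hL : SIso (OE E) (IsLocalRing.ResidueField (OE E)) L) {z : (IsLocalRing.ResidueField (OE E))} {y : E}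
    (h : Lk l t z y) (hy : ‖(l : E) * y‖ ≤ 1) : z = 0 := by
  refine hfT_nondeg fun a' => ?_
  obtain ⟨a, rfl⟩ := hL.surj a'
  rw [h a]
  refine GP.pr0_zero_of_norm (hl.tint _ ?_)
  have e1 : (l : E) * ((a : E) * y) = (a : E) * ((l : E) * y) := by ring
  rw [e1, norm_mul]
  exact mul_le_one₀ a.2 (norm_nonneg _) hy

private theorem link0 (hl : Lat b l t T) (hL : SIso (OE E) (IsLocalRing.ResidueField (OE E)) L) (hX : LinkX L b t K X)
    {x y : Fin m → E} {u v : Fin n → (IsLocalRing.ResidueField (OE E))} (h : Rq L x u) (h' : Rq L y v)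
    (h0 : bil b x (K *ᵥ y) = 0) : ee u (X *ᵥ v) = 0 := by
  refine lk_zero hl hL (lk_of hL hX h h') ?_
  rw [h0, mul_zero, norm_zero]
  exact zero_le_one

private theorem two_ne : (2 : E) ≠ 0 := by
  have h2 : (algebraMap ℚ_[2] E) (2 : ℚ_[2]) ≠ 0 := by
    rw [map_ne_zero_iff _ (algebraMap ℚ_[2] E).injective]
    exact two_ne_zero
  rwa [map_ofNat] at h2

private theorem norm_two_lt : ‖(2 : E)‖ < 1 := by
  rw [← map_ofNat (algebraMap ℚ_[2] E) 2, norm_algebraMap']
  have := Padic.norm_p_lt_one (p := 2)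
  exact_mod_cast this

/-- the values on the kernel of `N` -/
private theorem be_kk (B : BT b T N s K) {z z' : Fin m → E} (hz : N *ᵥ z = 0) :
    bil b z (K *ᵥ z) = 0 := by
  have h1 := B.skew z z
  rw [hz, add_zero] at h1
  have h2 : (2 : E) * bil b z (K *ᵥ z) = 0 := by linear_combination h1
  exact (mul_eq_zero.1 h2).resolve_left two_ne

private theorem dim_fst {F W W' : Type*} [Field F] [AddCommGroup W] [Module F W] [AddCommGroup W']
    [Module F W'] [FiniteDimensional F W] [FiniteDimensional F W'] (Λ : Submodule F (W × W')) :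
    Module.finrank F Λ = Module.finrank F (Λ.map (LinearMap.fst F W W')) +
      Module.finrank F ↥(Λ ⊓ LinearMap.ker (LinearMap.fst F W W')) := by
  have h1 := LinearMap.finrank_range_add_finrank_ker ((LinearMap.fst F W W').domRestrict Λ)
  rw [← h1]
  congr 1
  · have e1 : LinearMap.range ((LinearMap.fst F W W').domRestrict Λ) =
        Λ.map (LinearMap.fst F W W') := by
      show LinearMap.range ((LinearMap.fst F W W').comp Λ.subtype) = _
      rw [LinearMap.range_comp, Submodule.range_subtype]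
    rw [e1]
  · have e1 : LinearMap.ker ((LinearMap.fst F W W').domRestrict Λ) =
        (LinearMap.ker (LinearMap.fst F W W')).comap Λ.subtype := by
      show LinearMap.ker ((LinearMap.fst F W W').comp Λ.subtype) = _
      rw [LinearMap.ker_comp]
    rw [e1, ← Submodule.finrank_map_subtype_eq, Submodule.map_comap_subtype]

private theorem dim_prod {F W W' : Type*} [Field F] [AddCommGroup W] [Module F W] [AddCommGroup W']
    [Module F W'] [FiniteDimensional F W] [FiniteDimensional F W'] (A : Submodule F W)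
    (B : Submodule F W') :
    Module.finrank F (A.prod B) = Module.finrank F A + Module.finrank F B := by
  rw [dim_fst (A.prod B)]
  congr 1
  · rw [Submodule.prod_map_fst]
  · have e1 : A.prod B ⊓ LinearMap.ker (LinearMap.fst F W W') = B.map (LinearMap.inr F W W') := by
      ext ⟨x, y⟩
      simp only [Submodule.mem_inf, Submodule.mem_prod, LinearMap.mem_ker, LinearMap.fst_apply,
        Submodule.mem_map, LinearMap.inr_apply, Prod.mk.injEq]
      constructor
      · rintro ⟨⟨-, h2⟩, h3⟩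
        exact ⟨y, h2, h3.symm, rfl⟩
      · rintro ⟨y', h2, h3, rfl⟩
        rw [← h3]
        exact ⟨⟨A.zero_mem, h2⟩, rfl⟩
    rw [e1]
    exact (Submodule.equivMapOfInjective _ LinearMap.inr_injective B).finrank_eq.symm

theorem lamP_dim (hl : Lat b l t T) (hL : SIso (OE E) (IsLocalRing.ResidueField (OE E)) L) :
    Module.finrank (IsLocalRing.ResidueField (OE E)) (LamP hL N) = n := by
  unfold LamP
  rw [dim_prod, finrank_imW hl, finrank_imW hl, card_n hl hL, add_comm]
  have h1 := LinearMap.finrank_range_add_finrank_ker N.mulVecLin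
  rw [Module.finrank_fin_fun] at h1
  exact h1

theorem lamP_q (hl : Lat b l t T) (B : BT b T N s K)
    (hL : SIso (OE E) (IsLocalRing.ResidueField (OE E)) L) (hX : LinkX L b t K X) (hs : IsSp X)
    (q : ℕ) : ∀ p ∈ LamP hL N, QX X q p = 0 := by
  rintro ⟨u, v⟩ ⟨⟨z, hz, hu⟩, x, ⟨w, hw⟩, hv⟩
  have hw' : N *ᵥ w = x := hw
  subst hw'
  unfold QX
  rw [KT.ee_comm (X *ᵥ u) v, link0 hl hL hX hv hu (be_Nk B w hz).1,
    link0 hl hL hX hu hu (be_kk B (z' := z) hz), link0 hl hL hX hv hv (be_NN B w w), mul_zero,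
    add_zero, add_zero]

/-- the kernel plane is the orthogonal of the image plane -/
private theorem mem_kp (hl : Lat b l t T) (B : BT b T N s K) (hL : SIso (OE E) (IsLocalRing.ResidueField (OE E)) L)
    (hX : LinkX L b t K X) (hs : IsSp X) (u : Fin n → (IsLocalRing.ResidueField (OE E))) :
    u ∈ imW hL (kerN N) ↔ ∀ v ∈ imW hL (ranN N), ee v (X *ᵥ u) = 0 := by
  have hinj : Function.Injective X.mulVecLin := by
    rw [injective_iff_map_eq_zero]
    intro x hx
    exact KT.sp_inj hs hx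
  have hle : imW hL (kerN N) ≤ (KS.ann (Sy.e : (Fin n → (IsLocalRing.ResidueField (OE E))) →ₗ[(IsLocalRing.ResidueField (OE E))] (Fin n → (IsLocalRing.ResidueField (OE E))) →ₗ[(IsLocalRing.ResidueField (OE E))] (IsLocalRing.ResidueField (OE E)))
      (imW hL (ranN N))).comap X.mulVecLin := by
    rintro u ⟨z, hz, hu⟩ v ⟨x, ⟨w, hw⟩, hv⟩
    have hw' : N *ᵥ w = x := hw
    subst hw'
    exact (KT.ee_comm (X *ᵥ u) v).trans (link0 hl hL hX hv hu (be_Nk B w hz).1)
  have heq : imW hL (kerN N) = (KS.ann (Sy.e : (Fin n → (IsLocalRing.ResidueField (OE E))) →ₗ[(IsLocalRing.ResidueField (OE E))] (Fin n → (IsLocalRing.ResidueField (OE E))) →ₗ[(IsLocalRing.ResidueField (OE E))] (IsLocalRing.ResidueField (OE E)))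
      (imW hL (ranN N))).comap X.mulVecLin := by
    refine Submodule.eq_of_le_of_finrank_eq hle ?_
    have h1 := KS.finrank_ann (b := (Sy.e : (Fin n → (IsLocalRing.ResidueField (OE E))) →ₗ[(IsLocalRing.ResidueField (OE E))] (Fin n → (IsLocalRing.ResidueField (OE E))) →ₗ[(IsLocalRing.ResidueField (OE E))] (IsLocalRing.ResidueField (OE E))))
      KT.e_symm (N := imW hL (ranN N)) (by rw [KT.ker_e]; exact bot_le)
    rw [KT.ker_e, finrank_bot, add_zero, Module.finrank_fin_fun, finrank_imW hl] at h1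
    have h2 := LinearMap.finrank_range_add_finrank_ker N.mulVecLin
    rw [Module.finrank_fin_fun] at h2
    have hnm := card_n hl hL
    rw [finrank_imW hl]
    have h3 : Module.finrank (IsLocalRing.ResidueField (OE E)) ((KS.ann (Sy.e : (Fin n → (IsLocalRing.ResidueField (OE E))) →ₗ[(IsLocalRing.ResidueField (OE E))] (Fin n → (IsLocalRing.ResidueField (OE E))) →ₗ[(IsLocalRing.ResidueField (OE E))] (IsLocalRing.ResidueField (OE E)))
        (imW hL (ranN N))).comap X.mulVecLin) = Module.finrank (IsLocalRing.ResidueField (OE E)) (KS.ann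
        (Sy.e : (Fin n → (IsLocalRing.ResidueField (OE E))) →ₗ[(IsLocalRing.ResidueField (OE E))] (Fin n → (IsLocalRing.ResidueField (OE E))) →ₗ[(IsLocalRing.ResidueField (OE E))] (IsLocalRing.ResidueField (OE E))) (imW hL (ranN N))) := by
      have e1 : X.mulVecLin = (LinearEquiv.ofInjectiveEndo X.mulVecLin hinj : (Fin n → (IsLocalRing.ResidueField (OE E))) →ₗ[(IsLocalRing.ResidueField (OE E))]
        (Fin n → (IsLocalRing.ResidueField (OE E)))) := rfl
      rw [e1, Submodule.comap_equiv_eq_map_symm]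
      exact LinearEquiv.finrank_map_eq _ _
    rw [h3]
    have h5 : Module.finrank E (ranN N) + Module.finrank E (kerN N) = m := h2
    omega
  rw [heq]
  constructor
  · intro h v hv
    rw [KT.ee_comm]
    exact h v hv
  · intro h v hv
    exact (KT.ee_comm _ _).trans (h v hv)

theorem lamP_ref (hl : Lat b l t T) (B : BT b T N s K)
    (hL : SIso (OE E) (IsLocalRing.ResidueField (OE E)) L) (hX : LinkX L b t K X) (hs : IsSp X)
    (h4 : X ^ 4 = 1) (q : ℕ) :
    Even (Module.finrank (IsLocalRing.ResidueField (OE E)) ↥(LX X q ⊓ LamP hL N) +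
      Module.finrank E (ranN N)) := by
  set R : Submodule (IsLocalRing.ResidueField (OE E)) (Fin n → (IsLocalRing.ResidueField (OE E))) := imW hL (ranN N) ⊓
    (imW hL (kerN N)).comap (cl (IsLocalRing.ResidueField (OE E)) q • (X ^ 3).mulVecLin) with hR
  have e1 : LX X q ⊓ LamP hL N = R.map ((cl (IsLocalRing.ResidueField (OE E)) q • (X ^ 3).mulVecLin).prod LinearMap.id) := by
    ext ⟨u, v⟩
    rw [Submodule.mem_inf, mem_LX, Submodule.mem_map]
    constructor
    · rintro ⟨h1, h2, h3⟩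
      have h1' : u = cl (IsLocalRing.ResidueField (OE E)) q • ((X ^ 3) *ᵥ v) := h1
      refine ⟨v, ⟨h3, ?_⟩, ?_⟩
      · show cl (IsLocalRing.ResidueField (OE E)) q • ((X ^ 3) *ᵥ v) ∈ imW hL (kerN N)
        rw [← h1']
        exact h2
      · exact Prod.ext h1'.symm rfl
    · rintro ⟨v', ⟨h1, h2⟩, h3⟩
      have e1 : cl (IsLocalRing.ResidueField (OE E)) q • ((X ^ 3) *ᵥ v') = u := congrArg Prod.fst h3
      have e2 : v' = v := congrArg Prod.snd h3
      subst e2
      refine ⟨e1.symm, ?_, h1⟩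
      rw [← e1]
      exact h2
  have hinj : Function.Injective ((cl (IsLocalRing.ResidueField (OE E)) q • (X ^ 3).mulVecLin).prod
      (LinearMap.id : (Fin n → (IsLocalRing.ResidueField (OE E))) →ₗ[(IsLocalRing.ResidueField (OE E))] (Fin n → (IsLocalRing.ResidueField (OE E))))) := fun x y h => congrArg Prod.snd h
  rw [e1, ← (Submodule.equivMapOfInjective _ hinj R).finrank_eq, ← finrank_imW hl hL]
  have hcl : cl (IsLocalRing.ResidueField (OE E)) q = 0 ∨ cl (IsLocalRing.ResidueField (OE E)) q = 1 := by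
    unfold cl
    rcases Nat.even_or_odd' ((q ^ 2 - 1) / 8) with ⟨k, hk | hk⟩
    · left
      rw [hk]
      push_cast
      rw [CharTwo.two_eq_zero, zero_mul]
    · right
      rw [hk]
      push_cast
      rw [CharTwo.two_eq_zero, zero_mul, zero_add]
  rcases hcl with hc | hc
  · have e2 : R = imW hL (ranN N) := by
      rw [hR, hc, zero_smul, Submodule.comap_zero, inf_top_eq]
    rw [e2]
    exact Even.add_self _
  · obtain ⟨k, hk⟩ := KS.alt_even ((Sy.e : (Fin n → (IsLocalRing.ResidueField (OE E))) →ₗ[(IsLocalRing.ResidueField (OE E))] (Fin n → (IsLocalRing.ResidueField (OE E))) →ₗ[(IsLocalRing.ResidueField (OE E))] (IsLocalRing.ResidueField (OE E))).domRestrict₁₂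
      (imW hL (ranN N)) (imW hL (ranN N))) (fun x => Sy.alt (x : Fin n → (IsLocalRing.ResidueField (OE E))))
    have e2 : R = (LinearMap.ker ((Sy.e : (Fin n → (IsLocalRing.ResidueField (OE E))) →ₗ[(IsLocalRing.ResidueField (OE E))] (Fin n → (IsLocalRing.ResidueField (OE E))) →ₗ[(IsLocalRing.ResidueField (OE E))] (IsLocalRing.ResidueField (OE E))).domRestrict₁₂
        (imW hL (ranN N)) (imW hL (ranN N)))).map (imW hL (ranN N)).subtype := by
      ext v
      rw [hR, Submodule.mem_inf, Submodule.mem_map]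
      have key : v ∈ (imW hL (kerN N)).comap (cl (IsLocalRing.ResidueField (OE E)) q • (X ^ 3).mulVecLin) ↔
          ∀ y ∈ imW hL (ranN N), ee v y = 0 := by
        rw [Submodule.mem_comap, hc, one_smul]
        show (X ^ 3) *ᵥ v ∈ _ ↔ _
        rw [mem_kp hl B hL hX hs]
        have e3 : X *ᵥ ((X ^ 3) *ᵥ v) = v := by
          rw [mulVec_mulVec, ← pow_succ', h4, one_mulVec]
        rw [e3]
        exact forall_congr' fun y => imp_congr_right fun _ => by rw [KT.ee_comm]
      rw [key]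
      constructor
      · rintro ⟨h1, h2⟩
        refine ⟨⟨v, h1⟩, ?_, rfl⟩
        rw [LinearMap.mem_ker]
        ext y
        exact h2 y y.2
      · rintro ⟨⟨v', h1⟩, h2, rfl⟩
        refine ⟨h1, fun y hy => ?_⟩
        rw [LinearMap.mem_ker] at h2
        exact DFunLike.congr_fun h2 (⟨y, hy⟩ : imW hL (ranN N))
    rw [e2, Submodule.finrank_map_subtype_eq, hk]
    exact ⟨Module.finrank (IsLocalRing.ResidueField (OE E)) (LinearMap.ker ((Sy.e : (Fin n → (IsLocalRing.ResidueField (OE E))) →ₗ[(IsLocalRing.ResidueField (OE E))] (Fin n → (IsLocalRing.ResidueField (OE E))) →ₗ[(IsLocalRing.ResidueField (OE E))]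
      (IsLocalRing.ResidueField (OE E))).domRestrict₁₂ (imW hL (ranN N)) (imW hL (ranN N)))) + k, by ring⟩

/-- the bound for two vectors with a reduction -/
private theorem norm_be (hl : Lat b l t T) (B : BT b T N s K) {x y : Fin m → E}
    (hx : (l : E) • x ∈ T) (hy : (l : E) • y ∈ T) : ‖(l : E) * (2 * bil b x (K *ᵥ y))‖ ≤ 1 := by
  have h1 : ‖bil b ((l : E) • x) (K *ᵥ ((l : E) • y))‖ ≤ 1 := (hl.dual _).1 hx _ ((B.kT _).2 hy)
  rw [bil_smul_left, mulVec_smul, bil_smul_right, norm_mul, norm_mul] at h1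
  have h2 : ‖(2 : E)‖ ≤ ‖(l : E)‖ := hl.lmax _ norm_two_lt
  rw [norm_mul, norm_mul]
  refine le_trans ?_ h1
  exact mul_le_mul_of_nonneg_left (mul_le_mul_of_nonneg_right h2 (norm_nonneg _)) (norm_nonneg _)

theorem lam2_B (hl : Lat b l t T) (B : BT b T N s K)
    (hL : SIso (OE E) (IsLocalRing.ResidueField (OE E)) L) (hX : LinkX L b t K X) (hs : IsSp X)
    (q : ℕ) : ∀ p ∈ Lam2 hL N s, ∀ p' ∈ Lam2 hL N s, BX X q p p' = 0 := by
  rintro ⟨u, v⟩ ⟨x, w, h1, h2, h3⟩ ⟨u', v'⟩ ⟨x', w', h1', h2', h3'⟩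
  dsimp only at h1 h2 h1' h2'
  unfold BX
  rw [link0 hl hL hX h2 h2' (be_NN B w w'), link0 hl hL hX h2' h2 (be_NN B w' w), add_zero,
    mul_zero, add_zero, KT.ee_comm (X *ᵥ u) v', KT.ee_comm (X *ᵥ u') v]
  have hs1 := lk_add (lk_add (lk_of hL hX h2' h1) (lk_of hL hX h2 h1'))
    (lk_add (lk_of hL hX h1 h1') (lk_of hL hX h1' h1))
  refine lk_zero hl hL hs1 ?_
  have e1 := p_symm B h3 h3'
  have e2 := ga_skew B x x'
  have e3 : bil b (N *ᵥ w') (K *ᵥ x) + bil b (N *ᵥ w) (K *ᵥ x') +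
      (bil b x (K *ᵥ x') + bil b x' (K *ᵥ x)) =
      2 * bil b x (K *ᵥ x') + 2 * bil b x' (K *ᵥ x) := by
    linear_combination e1 - e2
  rw [e3, mul_add]
  have := Gn.ultra 2 E
  exact (IsUltrametricDist.norm_add_le_max _ _).trans
    (max_le (norm_be hl B (rq_mem h1) (rq_mem h1')) (norm_be hl B (rq_mem h1') (rq_mem h1)))

theorem lam2_snd (hL : SIso (OE E) (IsLocalRing.ResidueField (OE E)) L)
    {p : (Fin n → IsLocalRing.ResidueField (OE E)) × (Fin n → IsLocalRing.ResidueField (OE E))}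
    (hp : p ∈ Lam2 hL N s) : p.2 ∈ imW hL (ranN N) := by
  obtain ⟨x, w, -, h2, -⟩ := hp
  exact ⟨_, ⟨w, rfl⟩, h2⟩

theorem lam2_dim (hl : Lat b l t T) (hL : SIso (OE E) (IsLocalRing.ResidueField (OE E)) L) :
    Module.finrank (IsLocalRing.ResidueField (OE E)) (Lam2 hL N s) + Module.finrank E (kerN N) =
      Module.finrank (IsLocalRing.ResidueField (OE E)) ↥(Lam2 hL N s ⊓ LamP hL N) +
      Module.finrank (IsLocalRing.ResidueField (OE E))
      ((Lam2 hL N s).map (LinearMap.fst _ (Fin n → IsLocalRing.ResidueField (OE E))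
        (Fin n → IsLocalRing.ResidueField (OE E)))) := by
  rw [dim_fst (Lam2 hL N s), dim_fst (Lam2 hL N s ⊓ LamP hL N), ← finrank_imW hl hL]
  have e1 : (Lam2 hL N s ⊓ LamP hL N).map (LinearMap.fst (IsLocalRing.ResidueField (OE E)) (Fin n → (IsLocalRing.ResidueField (OE E))) (Fin n → (IsLocalRing.ResidueField (OE E)))) =
      imW hL (kerN N) := by
    ext u
    rw [Submodule.mem_map]
    constructor
    · rintro ⟨⟨u', v⟩, ⟨-, h2, -⟩, rfl⟩
      exact h2
    · rintro ⟨z, hz, hu⟩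
      refine ⟨(u, 0), ⟨⟨z, 0, hu, ?_, ?_⟩, ⟨z, hz, hu⟩, Submodule.zero_mem _⟩, rfl⟩
      · rw [mulVec_zero]
        exact Rq.zero
      · rw [mulVec_zero, sub_zero, sub_zero]
        exact hz
  have e2 : Lam2 hL N s ⊓ LamP hL N ⊓ LinearMap.ker (LinearMap.fst (IsLocalRing.ResidueField (OE E)) (Fin n → (IsLocalRing.ResidueField (OE E))) (Fin n → (IsLocalRing.ResidueField (OE E)))) =
      Lam2 hL N s ⊓ LinearMap.ker (LinearMap.fst (IsLocalRing.ResidueField (OE E)) (Fin n → (IsLocalRing.ResidueField (OE E))) (Fin n → (IsLocalRing.ResidueField (OE E)))) := by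
    ext ⟨u, v⟩
    simp only [Submodule.mem_inf, LinearMap.mem_ker, LinearMap.fst_apply]
    constructor
    · rintro ⟨⟨h1, -⟩, h3⟩
      exact ⟨h1, h3⟩
    · rintro ⟨h1, h3⟩
      subst h3
      exact ⟨⟨h1, Submodule.zero_mem _, lam2_snd hL h1⟩, rfl⟩
  rw [e1, e2]
  omega

end Pool.Agent.Work.MP_787500_nt.ER
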