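import Mathlib
import Pool.Agent.Work.MP_787500_nt.ER.LamA
import Pool.Agent.Work.MP_787500_nt.ER.Alt
import Pool.Agent.Work.MP_787500_nt.ER.Triple

/-!
# ER/Res2 (size S-M): the parity of `dim (Λ ⊓ LX)` for the plane of the unramified classes

`Λ ≤ Lam2`, `dim Λ = n`, `QX = 0` on `Λ`. Then `Λ = Lam2` (`Lam2` is orthogonal to itself, `lam2_B`, so contained in `Λ^⊥ = Λ`: `BX` is nondegenerate, `dim Λ = n`) and
`dim (Λ ⊓ LX) = dim_E W5` modulo 2: `triple0` for `Λ`, `LX`, `LamP` (`BL`, `polar`, `BX_symm`, `BX_nd`, `QX_LX`, `finrank_LX`, `lamP_dim`, `lamP_q`):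
`dim (Λ ⊓ LamP) + dim (LX ⊓ LamP) + n + dim (Λ ⊓ LX)` even; `lam2_dim`: `dim (Λ ⊓ LamP) = n + dim ker N - dim fst`; `lamP_ref`; `dim ker N + dim range N = m = n`; `alt_even`;
`n` is even (`KT.n_even`).
-/

set_option autoImplicit false
set_option linter.unusedSectionVars false

namespace Pool.Agent.Work.MP_787500_nt.ER

open Matrix
open Pool.Agent.Work.MP_787500_nt.GP (A0 pr0 OE MN Wq mq mq_add mq_sub mq_smul mq_eq mq_eq_zero lft mq_lft
  bil bil_add_left bil_add_right bil_sub_left bil_sub_right bil_smul_left bil_smul_right bil_symm Lat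
  lamN bN bN_val actN actQ actQ_mq)
open Pool.Agent.Work.MP_787500_nt.KS (hfT hfT_nondeg)
open Pool.Agent.Work.MP_787500_nt.KT (Sy ee IsSp)
open Pool.Agent.Work.MP_787500_nt.KI (SIso)

universe w

variable {E : Type w} [NormedField E] [NormedAlgebra ℚ_[2] E] [FiniteDimensional ℚ_[2] E]
  [IsLocalRing (OE E)] [Finite (IsLocalRing.ResidueField (OE E))]
  [CharP (IsLocalRing.ResidueField (OE E)) 2] [Algebra (ZMod 2) (IsLocalRing.ResidueField (OE E))]
  {m n : ℕ} [Sy (IsLocalRing.ResidueField (OE E)) n]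
  {b : Matrix (Fin m) (Fin m) E} {l : OE E} {t : E →ₗ[ℚ_[2]] ℚ_[2]}
  {T : Submodule (OE E) (Fin m → E)} {N s K : Matrix (Fin m) (Fin m) E}
  {L : MN T l 1 ≃+ (Fin n → IsLocalRing.ResidueField (OE E))}
  {X : Matrix (Fin n) (Fin n) (IsLocalRing.ResidueField (OE E))}

private theorem polar2 {F : Type*} [Field F] [Finite F] [CharP F 2] [Algebra (ZMod 2) F] {n : ℕ} [Sy F n]
    (X : Matrix (Fin n) (Fin n) F) (l : ℕ) (p q : (Fin n → F) × (Fin n → F)) :
    QX X l (p + q) = QX X l p + QX X l q + BX X l p q := by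
  simp only [QX, BX, Prod.fst_add, Prod.snd_add, mulVec_add, KT.ee_add_left, KT.ee_add_right]
  ring

/-- THE PARITY FOR THE UNRAMIFIED PLANE. -/
theorem res2 (hl : Lat b l t T) (B : BT b T N s K)
    (hL : SIso (OE E) (IsLocalRing.ResidueField (OE E)) L) (hX : LinkX L b t K X) (hs : IsSp X)
    (h4 : X ^ 4 = 1) (q : ℕ)
    {Λ : Submodule (IsLocalRing.ResidueField (OE E))
      ((Fin n → IsLocalRing.ResidueField (OE E)) × (Fin n → IsLocalRing.ResidueField (OE E)))}
    (hle : Λ ≤ Lam2 hL N s) (hd : Module.finrank (IsLocalRing.ResidueField (OE E)) Λ = n)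
    (hq : ∀ x ∈ Λ, QX X q x = 0) :
    Even (Module.finrank (IsLocalRing.ResidueField (OE E)) ↥(Λ ⊓ LX X q) +
      Module.finrank E (W5 N s)) := by
  have hW : Module.finrank (IsLocalRing.ResidueField (OE E))
      ((Fin n → IsLocalRing.ResidueField (OE E)) × (Fin n → IsLocalRing.ResidueField (OE E))) =
      2 * n := by
    rw [Module.finrank_prod, Module.finrank_fin_fun]
    omega
  have hsy : ∀ x y, BL X q x y = BL X q y x := fun x y => BX_symm X q x y
  have hnd : ∀ x, (∀ y, BL X q x y = 0) → x = 0 := fun x hx => BX_nd hs h4 q hx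
  have hND : (BL X q : LinearMap.BilinForm (IsLocalRing.ResidueField (OE E))
      ((Fin n → IsLocalRing.ResidueField (OE E)) × (Fin n → IsLocalRing.ResidueField (OE E)))).Nondegenerate :=
    ⟨fun x h => hnd x h, fun x h => hnd x fun y => (hsy x y).trans (h y)⟩
  have h1 : Module.finrank (IsLocalRing.ResidueField (OE E)) (Lam2 hL N s) ≤ n := by
    have e1 := LinearMap.BilinForm.finrank_orthogonal hND (Lam2 hL N s)
    have e2 : Lam2 hL N s ≤ LinearMap.BilinForm.orthogonal (BL X q : LinearMap.BilinForm _ _)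
        (Lam2 hL N s) := by
      intro x hx y hy
      exact lam2_B hl B hL hX hs q y hy x hx
    have e3 := Submodule.finrank_mono e2
    rw [e1, hW] at e3
    have e4 : Module.finrank (IsLocalRing.ResidueField (OE E)) (Lam2 hL N s) ≤ 2 * n := by
      rw [← hW]
      exact Submodule.finrank_le _
    omega
  have h2 : Λ = Lam2 hL N s := Submodule.eq_of_le_of_finrank_le hle (by rw [hd]; exact h1)
  have h3 := triple0 (BL X q) (QX X q) hsy (fun x y => polar2 X q x y) hnd hW hd (finrank_LX X q)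
    (lamP_dim (N := N) hl hL) hq (QX_LX hs h4 q) (lamP_q hl B hL hX hs q)
  have h5 := lamP_ref hl B hL hX hs h4 q
  have h6 := lam2_dim (N := N) (s := s) hl hL
  have h7 := alt_even hl B hL
  have h8 : Module.finrank E (ranN N) + Module.finrank E (kerN N) = m := by
    have := LinearMap.finrank_range_add_finrank_ker N.mulVecLin
    rwa [Module.finrank_fin_fun] at this
  have h9 := card_n hl hL
  have h10 := KT.n_even (IsLocalRing.ResidueField (OE E)) n
  rw [← h2, hd] at h6
  rw [← h2] at h7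
  obtain ⟨a1, h3⟩ := h3
  obtain ⟨a2, h5⟩ := h5
  obtain ⟨a3, h7⟩ := h7
  obtain ⟨a4, h10⟩ := h10
  rw [Nat.even_iff]
  omega

end Pool.Agent.Work.MP_787500_nt.ER
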