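import Mathlib
import Pool.Agent.Work.MP_787500_nt.ER.LDefs
import Pool.Agent.Work.MP_787500_nt.ER.LocI
import Pool.Agent.Work.MP_787500_nt.KI.LevQ
import Pool.Agent.Work.MP_787500_nt.QU.UrV

/-!
# ER/YGen (size M): the generator values of the unramified classes are in `Lam2`; the structure `TR`

`ygen`: `x ∈ tra (YM T l (urV ..))`: there is `X ∈ urV` with `(f2 L).symm (x d) = isoN (..)`, whose first component is `mq (v1 (X d))` (`mem_YM` after `mem_tra`, the lemmas on `isoN` of QV/App,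
`lamN`), so `Rq L (v1 (X d)) (x d).1`. `X i = rho2 (jp i) W - W` on `In`: for `i = τ τ`, `jp (τ τ) = e (θ κ(θ))`: `v1 (X (τ τ)) = N w`, `w = v1 W` (`QV.v1_rho`). `Z = X - δ W` is a cocycle that
is 0 on `In`; `Z (τ τ σ) = ρ₂ (τ τ) Z σ` and `Z (σ (σ⁻¹ τ τ σ)) = Z σ`, so `v1 (Z σ) = v1 (X σ) - (ρ s w - w)` is killed by `N`.

`tr_of`: `TR` for the coordinates `A`: `loc`, `ld`, `sm`, `esm` from `PlQ` (`p.smA`, `p.ldA`, `p.esm`), `ldF`: `p.loc.ld` for the trivial module `F` with the form `mF` (a `Pair`: `mF` is nondegenerate,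
`KS.hfT_nondeg`, values of exponent 2 and `χ` odd: `smul_hfT`); `eσ`, `eτ`: `ep e (e s) = 0`, `ep e (e θ * c) = 1` (KI, QP: `ep_e`, `ep_out`). `i4`: `d ∈ In`: if `jp d = e g` then `ρ g² = 1 + 2 (ρ g - 1)`
acts as 1 on `l⁻¹ T / T` (`‖2‖ ≤ ‖l‖`), so `A (jp d) ^ 2 = 1`; if `jp d = e g * c` then `jp (d d)` is of the first kind. `x4`: `i4` for `τ`.
-/

set_option autoImplicit false
set_option linter.unusedSectionVars false

namespace Pool.Agent.Work.MP_787500_nt.ER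

open Matrix
open Pool.Agent.Work.MP_787500_nt.GP (A0 pr0 OE MN Wq mq mq_add mq_sub mq_smul mq_eq mq_eq_zero lft mq_lft
  bil bil_add_left bil_add_right bil_sub_left bil_sub_right bil_smul_left bil_smul_right bil_symm Lat
  lamN bN bN_val actN actQ actQ_mq)
open Pool.Agent.Work.MP_787500_nt.KR (FSys Sm1 Sm2 IsChar Smooth Z1 Z2 B2 LocH Pair LDual LocRep SDualF
  sdualF_MN)
open Pool.Agent.Work.MP_787500_nt.PA (toE)
open Pool.Agent.Work.MP_787500_nt.KS (hfT hfT_nondeg ep)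
open Pool.Agent.Work.MP_787500_nt.KT (Sy ee IsSp)
open Pool.Agent.Work.MP_787500_nt.QL (TameF)
open Pool.Agent.Work.MP_787500_nt.QS (Two ac2 be2 la2 Lag QM pB)
open Pool.Agent.Work.MP_787500_nt.QV (rho2 blk T2 J2 v1 v2 isoN)
open Pool.Agent.Work.MP_787500_nt.QU (urV)
open Pool.Agent.Work.MP_787500_nt.KI (SIso LocPar LocM LY bC Crd PlQ YM tra siso_f2)

universe w

variable {G Γ : Type*} [Group G] [Group Γ] {S : FSys G} {Sq : FSys Γ} {χ : G → ℤ_[2]}
  {χq : Γ → ℤ_[2]} {e : G →* Γ} {c : Γ} {κ : G →* G} {P : Type*} [Group P] {TP : FSys P}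
  {jp : P →* Γ} {iv : (P → P → A0) → A0} {E : Type w} [NormedField E] [NormedAlgebra ℚ_[2] E]
  [FiniteDimensional ℚ_[2] E] {m : ℕ} {b : Matrix (Fin m) (Fin m) E} {l : OE E}
  {t : E →ₗ[ℚ_[2]] ℚ_[2]} {T : Submodule (OE E) (Fin m → E)} {ρ : G → Matrix (Fin m) (Fin m) E}
  {a : P → ℤ_[2]} {σ τ : P} {q : ℕ} {In : Subgroup P} {θ s : G}

variable [IsLocalRing (OE E)] [Finite (IsLocalRing.ResidueField (OE E))]
  [CharP (IsLocalRing.ResidueField (OE E)) 2] [Algebra (ZMod 2) (IsLocalRing.ResidueField (OE E))]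
  {n : ℕ} [Sy (IsLocalRing.ResidueField (OE E)) n] {C : MN T l 1 → MN T l 1}
  {L : MN T l 1 ≃+ (Fin n → IsLocalRing.ResidueField (OE E))}
  {A : Γ →* Matrix (Fin n) (Fin n) (IsLocalRing.ResidueField (OE E))}

private theorem v1_add' {k : ℕ} (v w : Fin (k + k) → E) : v1 (v + w) = v1 v + v1 w := rfl

private theorem v1_sub' {k : ℕ} (v w : Fin (k + k) → E) : v1 (v - w) = v1 v - v1 w := rfl

omit [CharP (IsLocalRing.ResidueField (OE E)) 2] in
private theorem rq_of {x : P → MN (T2 T) l 1} {X : P → Fin (m + m) → E}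
    (hX : ∀ d, (x d : Wq (T2 T)) = mq (T2 T) (X d))
    {y : P → (Fin n → IsLocalRing.ResidueField (OE E)) × (Fin n → IsLocalRing.ResidueField (OE E))}
    (hy : ∀ d, KI.f2 L (isoN T l 1 (x d)) = y d) (d : P) : Rq L (v1 (X d)) (y d).1 := by
  refine ⟨(isoN T l 1 (x d)).1, QV.iso_one (hX d), ?_⟩
  rw [← hy d]
  rfl

theorem ygen (X : Two e c κ) (hl : Lat b l t T) (hr : LocRep S χ T b ρ (fun g => ρ (κ g)))
    (h : TameF TP (fun d => χq (jp d)) a σ τ q In) (hθ : e θ * c = jp τ) (hs : e s = jp σ)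
    (hc : Crd e c (OE E) (actN l 1 ρ hr.st) (bN hl 1) C L A) :
    (tra (siso_f2 hc.iso) (YM T l (urV TP In (fun d => rho2 e c κ ρ (jp d))))).map (gY σ τ) ≤
      Lam2 hc.iso (ρ (θ * κ θ) - 1) (ρ s) := by
  rintro _ ⟨y, hy, rfl⟩
  have hy1 := (KI.mem_tra (siso_f2 hc.iso)).1 hy
  obtain ⟨X0, hX0, hXY⟩ := (KI.mem_tra (KI.siso_iso T l)).1 hy1
  obtain ⟨hZ, W, hW⟩ := QU.mem_urV.1 hX0
  have hrq := rq_of (L := L) (X := X0) (y := y) hXY fun d => by
    have h1 : isoN T l 1 ((isoN T l 1).symm ((KI.f2 L).symm (y d))) = (KI.f2 L).symm (y d) :=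
      (isoN T l 1).apply_symm_apply _
    exact (congrArg (KI.f2 L) h1).trans ((KI.f2 L).apply_symm_apply _)
  have hττ : τ * τ ∈ In := In.mul_mem h.τI h.τI
  have hjτ : jp (τ * τ) = e (θ * κ θ) := by
    rw [map_mul, ← hθ, map_mul, X.kap]
    group
  refine mem_Lam2.2 ⟨v1 (X0 σ), v1 W, hrq σ, ?_, ?_⟩
  · have h1 := hrq (τ * τ)
    have h2 : v1 (X0 (τ * τ)) = (ρ (θ * κ θ) - 1) *ᵥ v1 W := by
      rw [hW _ hττ, v1_sub', hjτ, QV.v1_rho X, sub_mulVec, one_mulVec]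
    rw [h2] at h1
    exact h1
  · have hk : σ⁻¹ * (τ * τ) * σ ∈ In := by
      have := h.In.conj_mem _ hττ σ⁻¹
      rwa [inv_inv] at this
    have e1 : τ * τ * σ = σ * (σ⁻¹ * (τ * τ) * σ) := by group
    have hc1 := hZ.2 (τ * τ) σ
    have hc2 := hZ.2 σ (σ⁻¹ * (τ * τ) * σ)
    beta_reduce at hc1 hc2
    rw [e1, hc2, hW _ hττ, hW _ hk] at hc1
    have e2 : rho2 e c κ ρ (jp σ) *ᵥ (rho2 e c κ ρ (jp (σ⁻¹ * (τ * τ) * σ)) *ᵥ W - W) =
        rho2 e c κ ρ (jp (τ * τ)) *ᵥ (rho2 e c κ ρ (jp σ) *ᵥ W) - rho2 e c κ ρ (jp σ) *ᵥ W := by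
      rw [mulVec_sub, mulVec_mulVec, mulVec_mulVec, ← QV.rho2_mul X hr.mul,
        ← QV.rho2_mul X hr.mul, ← map_mul, ← map_mul, ← e1]
    rw [e2] at hc1
    have hc3 := congrArg v1 hc1
    rw [v1_add', v1_sub', v1_add', v1_sub', hjτ, QV.v1_rho X, QV.v1_rho X, QV.v1_rho X,
      ← hs, QV.v1_rho X] at hc3
    rw [sub_mulVec, one_mulVec, mulVec_sub, mulVec_sub]
    linear_combination (exp := 1) -hc3

omit [FiniteDimensional ℚ_[2] E] [IsLocalRing (OE E)] [Finite (IsLocalRing.ResidueField (OE E))]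
  [CharP (IsLocalRing.ResidueField (OE E)) 2]
  [Algebra (ZMod 2) (IsLocalRing.ResidueField (OE E))] in
/-- twice an element of level one is in the lattice -/
private theorem two_mem (hl : Lat b l t T) {v : Fin m → E} (hv : (l : E) • v ∈ T) : v + v ∈ T := by
  have h2 : ‖(2 : E)‖ = 2⁻¹ := by
    have h := Gn.norm_p 2 E
    push_cast at h
    exact h
  have h3 : ‖(2 : E)‖ ≤ ‖(l : E)‖ := hl.lmax _ (by rw [h2]; norm_num)
  have h4 : ‖(2 : E) * (l : E)⁻¹‖ ≤ 1 := by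
    rw [norm_mul, norm_inv, ← div_eq_mul_inv]
    exact div_le_one_of_le₀ h3 (norm_nonneg _)
  have h5 := T.smul_mem (⟨(2 : E) * (l : E)⁻¹, h4⟩ : OE E) hv
  have h6 : (⟨(2 : E) * (l : E)⁻¹, h4⟩ : OE E) • ((l : E) • v) = v + v := by
    show ((2 : E) * (l : E)⁻¹) • ((l : E) • v) = v + v
    rw [smul_smul, mul_assoc, inv_mul_cancel₀ hl.lne, mul_one, two_smul]
  rwa [h6] at h5

private theorem sq_one (hl : Lat b l t T) (hr : LocRep S χ T b ρ (fun g => ρ (κ g)))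
    (hc : Crd e c (OE E) (actN l 1 ρ hr.st) (bN hl 1) C L A) {g : G}
    (hg : (ρ g - 1) * (ρ g - 1) = 0) : A (e g) ^ 2 = 1 := by
  have key : ∀ x : MN T l 1, actN l 1 ρ hr.st (g * g) x = x := by
    intro x
    apply Subtype.ext
    rw [GP.coe_actN]
    obtain ⟨v, hv⟩ : ∃ v, v = lft (x : Wq T) := ⟨_, rfl⟩
    have h1 : mq T v = (x : Wq T) := by rw [hv, mq_lft]
    have h2 : (l : E) • v ∈ T := by
      have := x.lft_mem
      rw [pow_one] at this
      rw [hv]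
      exact this
    rw [← h1, actQ_mq (hr.st _), mq_eq, hr.mul]
    have h3 : ρ g * ρ g - 1 = (ρ g - 1) + (ρ g - 1) := by
      have h4 : (ρ g - 1) * (ρ g - 1) = ρ g * ρ g - 1 - ((ρ g - 1) + (ρ g - 1)) := by
        noncomm_ring
      rw [hg] at h4
      exact (sub_eq_zero.1 h4.symm)
    have h5 : (ρ g * ρ g) *ᵥ v - v = ρ g *ᵥ (v + v) - (v + v) := by
      have h6 : (ρ g * ρ g) *ᵥ v - v = (ρ g * ρ g - 1) *ᵥ v := by
        rw [sub_mulVec, one_mulVec]
      rw [h6, h3, add_mulVec, sub_mulVec, one_mulVec, mulVec_add]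
      abel
    rw [h5]
    have h7 := two_mem hl h2
    exact T.sub_mem (hr.st _ _ h7) h7
  have h1 : ∀ u, A (e g) *ᵥ (A (e g) *ᵥ u) = u := by
    intro u
    obtain ⟨x, rfl⟩ := L.surjective u
    have h2 := hc.ae (g * g) x
    rw [key, map_mul, map_mul, ← mulVec_mulVec] at h2
    exact h2
  have h2 : (A (e g) * A (e g)).mulVec = (1 : Matrix (Fin n) (Fin n) _).mulVec := by
    funext u
    rw [← mulVec_mulVec, h1, one_mulVec]
  rw [pow_two]
  exact Matrix.mulVec_injective h2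

theorem tr_of (p : PlQ.{w} S Sq χ χq e c κ TP jp iv) (hl : Lat b l t T)
    (hr : LocRep S χ T b ρ (fun g => ρ (κ g)))
    (h : TameF TP (fun d => χq (jp d)) a σ τ q In)
    (hun : ∀ g, (∃ d ∈ In, jp d = e g) → (ρ g - 1) * (ρ g - 1) = 0) (hθ : e θ * c = jp τ)
    (hs : e s = jp σ) (hc : Crd e c (OE E) (actN l 1 ρ hr.st) (bN hl 1) C L A) :
    TR TP (fun d => χq (jp d)) a σ τ q In iv (A.comp jp) (fun d => ep e (jp d)) := by
  have hsm : Smooth S (actN l 1 ρ hr.st) :=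
    (sdualF_MN hl hr (Θ := ∅) (fun p hp => absurd hp (Set.notMem_empty p)) 1).sm
  have hch := p.loc.toLocH.char
  have hfin : Finite (MN T l 1) := GP.MN_finite hl 1
  have i4 : ∀ g ∈ In, (A.comp jp) g ^ 4 = 1 := by
    intro d hd
    show A (jp d) ^ 4 = 1
    rcases p.two.cases (jp d) with ⟨g, hg⟩ | ⟨g, hg⟩
    · have h1 := sq_one hl hr hc (hun g ⟨d, hd, hg.symm⟩)
      rw [← hg, show (4 : ℕ) = 2 * 2 from rfl, pow_mul, h1, one_pow]
    · have h0 : jp (d * d) = e (g * κ g) := by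
        rw [map_mul, ← hg, map_mul, p.two.kap]
        group
      have h1 := sq_one hl hr hc (hun (g * κ g) ⟨d * d, In.mul_mem hd hd, h0⟩)
      rw [← h0, map_mul, map_mul, ← pow_two, ← pow_mul] at h1
      exact h1
  exact
    { tame := h
      loc := p.loc.toLocH
      sp := fun g => hc.sp _
      sm := p.smA hc hsm
      ld := p.ldA hc hsm
      ldF := p.loc.ld
        { act := ⟨fun _ => rfl, fun _ _ _ => rfl, fun _ _ _ => rfl⟩
          act' := ⟨fun _ => rfl, fun _ _ _ => rfl, fun _ _ _ => rfl⟩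
          sm := by
            obtain ⟨W, hW⟩ := TP.ex
            exact ⟨W, hW, fun _ _ _ => rfl⟩
          sm' := by
            obtain ⟨W, hW⟩ := TP.ex
            exact ⟨W, hW, fun _ _ _ => rfl⟩
          eqv := fun g x y => by
            rw [mF_apply]
            exact (KS.smul_hfT (hch.odd g) (x * y)).symm
          nd := fun x hx => hfT_nondeg fun y => by
            rw [mul_comm]
            exact hx y
          nd' := fun x hx => hfT_nondeg fun y => hx y }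
      eadd := fun g k => by
        rw [map_mul, QP.ep_add2 p.two]
      esm := p.esm
      eσ := by
        rw [← hs, QP.ep_e]
      eτ := by
        rw [← hθ, QP.ep_ec p.two]
      x4 := i4 τ h.τI
      i4 := i4 }

end Pool.Agent.Work.MP_787500_nt.ER
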