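import Mathlib
import Pool.Agent.Work.MP_787500_nt.ER.Rep
import Pool.Agent.Work.MP_787500_nt.ER.YGen
import Pool.Agent.Work.MP_787500_nt.ER.Res2

/-!
# ER/LocR (size S-M): THE CONTRIBUTION `LocM` OF A RAMIFIED PLACE

In coordinates `hc`: `Y = tra (siso_f2 hc.iso) (YM ..)` is Lagrangian (`KI.lag_tra` as in `KI.locM_split`, `hY`), `tr_of`, `locPar_res` with `hδ` from `res2` (`gY_lag`, `ygen`, `bt_of`,
`link_of`, `hc.sp`, `x4` from `tr_of`); the quadratic module and duality: `p.qm hs` transported (`KI.qm_tra`), or directly `KI.qm` in coordinates, `p.loc.ld`.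
-/

set_option autoImplicit false
set_option linter.unusedSectionVars false

namespace Pool.Agent.Work.MP_787500_nt.ER

open Matrix
open Pool.Agent.Work.MP_787500_nt.GP (A0 pr0 OE MN Wq mq mq_add mq_sub mq_smul mq_eq mq_eq_zero lft mq_lft
  bil bil_add_left bil_add_right bil_sub_left bil_sub_right bil_smul_left bil_smul_right bil_symm Lat
  lamN bN bN_val actN actQ actQ_mq)
open Pool.Agent.Work.MP_787500_nt.KR (FSys Sm1 Sm2 IsChar Smooth Z1 Z2 B2 LocH Pair LDual LocRep SDualF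
  sdualF_MN)
open Pool.Agent.Work.MP_787500_nt.PA (toE)
open Pool.Agent.Work.MP_787500_nt.KS (hfT hfT_nondeg ep)
open Pool.Agent.Work.MP_787500_nt.KT (Sy ee IsSp)
open Pool.Agent.Work.MP_787500_nt.QL (TameF)
open Pool.Agent.Work.MP_787500_nt.QS (Two ac2 be2 la2 Lag QM pB)
open Pool.Agent.Work.MP_787500_nt.QV (rho2 blk T2 J2 v1 v2 isoN)
open Pool.Agent.Work.MP_787500_nt.QU (urV)
open Pool.Agent.Work.MP_787500_nt.KI (SIso LocPar LocM LY bC Crd PlQ YM tra siso_f2)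

universe w

variable {G Γ : Type*} [Group G] [Group Γ] {S : FSys G} {Sq : FSys Γ} {χ : G → ℤ_[2]}
  {χq : Γ → ℤ_[2]} {e : G →* Γ} {c : Γ} {κ : G →* G} {P : Type*} [Group P] {TP : FSys P}
  {jp : P →* Γ} {iv : (P → P → A0) → A0} {E : Type w} [NormedField E] [NormedAlgebra ℚ_[2] E]
  [FiniteDimensional ℚ_[2] E] {m : ℕ} {b : Matrix (Fin m) (Fin m) E} {l : OE E}
  {t : E →ₗ[ℚ_[2]] ℚ_[2]} {T : Submodule (OE E) (Fin m → E)} {ρ : G → Matrix (Fin m) (Fin m) E}
  {a : P → ℤ_[2]} {σ τ : P} {q : ℕ} {In : Subgroup P} {θ s : G}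

variable [IsLocalRing (OE E)] [Finite (IsLocalRing.ResidueField (OE E))]
  [CharP (IsLocalRing.ResidueField (OE E)) 2] [Algebra (ZMod 2) (IsLocalRing.ResidueField (OE E))]

/-- THE CONTRIBUTION OF A RAMIFIED PLACE. -/
theorem locM_R (p : PlQ.{w} S Sq χ χq e c κ TP jp iv) (hl : Lat b l t T)
    (hr : LocRep S χ T b ρ (fun g => ρ (κ g)))
    (h : TameF TP (fun d => χq (jp d)) a σ τ q In)
    (hun : ∀ g, (∃ d ∈ In, jp d = e g) → (ρ g - 1) * (ρ g - 1) = 0) (hθ : e θ * c = jp τ)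
    (hs : e s = jp σ) {C : MN T l 1 → MN T l 1}
    (hY : Lag TP iv (fun d => ac2 e c κ (actN l 1 ρ hr.st) (jp d)) (be2 (bN hl 1))
      (fun (x : OE E) d => la2 e c κ (actN l 1 ρ hr.st) (bN hl 1) x (jp d))
      (YM T l (urV TP In (fun d => rho2 e c κ ρ (jp d))))) {δ : ℕ}
    (hδ : Even (Module.finrank E (W5 (ρ (θ * κ θ) - 1) (ρ s)) + δ)) :
    LocM TP jp iv e c κ (IsLocalRing.ResidueField (OE E)) (actN l 1 ρ hr.st) (bN hl 1) C
      (YM T l (urV TP In (fun d => rho2 e c κ ρ (jp d)))) δ := by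
  intro n iS L A hc
  have X := p.two
  have hfin : Finite (MN T l 1) := GP.MN_finite hl 1
  have hsd : SDualF S χ κ ∅ (OE E) (actN l 1 ρ hr.st) (bN hl 1) :=
    sdualF_MN hl hr (fun p hp => absurd hp (Set.notMem_empty p)) 1
  have hq : QM TP (fun d => χq (jp d)) (IsLocalRing.ResidueField (OE E))
      (fun d => ac2 e c κ (KT.act (A.comp e)) (jp d)) (be2 (bC A c))
      (fun (a : IsLocalRing.ResidueField (OE E)) d =>
        la2 e c κ (KT.act (A.comp e)) (bC A c) a (jp d)) :=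
    KI.qm_tra (siso_f2 hc.iso) (fun d v => hc.act2 X (jp d) v) hc.be
      (fun a d v => hc.la X a (jp d) v) (p.qm hsd)
  have hY' : Lag TP iv (fun d => ac2 e c κ (KT.act (A.comp e)) (jp d)) (be2 (bC A c))
      (fun (a : IsLocalRing.ResidueField (OE E)) d =>
        la2 e c κ (KT.act (A.comp e)) (bC A c) a (jp d))
      (tra (siso_f2 hc.iso) (YM T l (urV TP In (fun d => rho2 e c κ ρ (jp d))))) :=
    KI.lag_tra (siso_f2 hc.iso) (fun d v => hc.act2 X (jp d) v) hc.be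
      (fun a d v => hc.la X a (jp d) v) hY
  have hld := p.loc.ld hq.pair
  have ht := tr_of p hl hr h hun hθ hs hc
  obtain ⟨h1, h2⟩ := gY_lag X ht hc.sp hq hld hY'
  refine locPar_res X ht hc.sp hq hld hY' ?_
  have h3 := res2 hl (bt_of p hl hr h hun hθ hs) hc.iso (link_of p hl hr hc hθ) (hc.sp (jp τ)) ht.x4 q
    (ygen X hl hr h hθ hs hc) h1 h2
  obtain ⟨x, hx⟩ := h3
  obtain ⟨y, hy⟩ := hδ
  exact ⟨x + y - Module.finrank E (W5 (ρ (θ * κ θ) - 1) (ρ s)), by omega⟩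

end Pool.Agent.Work.MP_787500_nt.ER
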