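import Mathlib
import Pool.Agent.Work.MP_787500_nt.ER.Defs

/-!
# ER/Sig (size M): a Frobenius element with `ε σ = 0`

`ε : D → ZMod 2` a smooth homomorphism with `ε τ = 1`. If `ε σ = 0` nothing to do. If `ε σ = 1`: `σ' = σ τ` has `ε σ' = 0`, `χ σ' = l`, `a σ' = l`. Put
`a' g = a g - l * θ g`, `θ g = (χ g - 1) / (l - 1)` in `ℤ_[2]`: it exists because `l - 1` divides `χ g - 1` (`h.dens`: `χ g` is congruent to `l ^ i` modulo every power of 2, and
`l - 1` divides `l ^ i - 1`; `ℤ_[2]` is complete, or: `2 ^ N ∣ χ g - l ^ i` with `N` the valuation of `l - 1`); `θ (g k) = θ g + χ g θ k`, so `a'` is a cocycle, `a' τ = 1`,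
`a' σ' = l - l = 0`, `a' = a` where `χ = 1`. `TameF S χ a' σ' τ l I`: `dens`, `po`, `In`, `Iχ`, `τI`, `τa`, `τχ`, `char` are clear; `sep`: for `W` take `n' = n + v`, `v` the valuation of
`l - 1`: `2 ^ n' ∣ χ g - 1` gives `2 ^ n ∣ θ g`; `frob`: `σ' ^ i n' = σ ^ i (τ-part) n'`: for `g` and `W` take `i`, `n` for `σ`; `σ' ^ i = σ ^ i m` with `m ∈ I` (`I` is normal, `τ ∈ I`), so
`σ ^ i n = σ' ^ i (m⁻¹ n)`.
-/

set_option autoImplicit false
set_option linter.unusedSectionVars false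

namespace Pool.Agent.Work.MP_787500_nt.ER

open Matrix
open Pool.Agent.Work.MP_787500_nt.GP (A0 hf hf_add hf_zero hf_two hf_neg smul_hf eq_hf hf_inj IsAct d0 d1
  d2 tw cup11 cup02)
open Pool.Agent.Work.MP_787500_nt.KR (FSys Sm1 Sm2 IsChar Smooth Z1 Z2 B2 LocH Pair LDual z1s b1s)
open Pool.Agent.Work.MP_787500_nt.KT hiding Str Rel Sel KH Ai IsP cc ff TT
open Pool.Agent.Work.MP_787500_nt.KS (hfT hfT_apply hfT_sq hfT_two hfT_neg smul_hfT hfT_nondeg
  inv_zero smul_F dF1 rt rt_sq zmod2_cases ep)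
open Pool.Agent.Work.MP_787500_nt.QL (TameF fixP fixG)
open Pool.Agent.Work.MP_787500_nt.KI (Y2 R1 LKr LVal)

variable {D : Type*} [Group D] {S : FSys D} {χ a : D → ℤ_[2]} {σ τ : D} {l : ℕ} {I : Subgroup D}

/-- the quotient `(χ g - 1) / (l - 1)` -/
private theorem exists_th (h : TameF S χ a σ τ l I) :
    ∃ (v : ℕ) (th : D → ℤ_[2]), (∀ g, ((l : ℤ_[2]) - 1) * th g = χ g - 1) ∧
      ∀ (n : ℕ) (x : ℤ_[2]), (2 : ℤ_[2]) ^ (n + v) ∣ ((l : ℤ_[2]) - 1) * x → (2 : ℤ_[2]) ^ n ∣ x := by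
  have hl0 : ((l : ℤ_[2]) - 1) ≠ 0 := by
    intro h0
    have h1 : (l : ℤ_[2]) = ((1 : ℕ) : ℤ_[2]) := by
      rw [Nat.cast_one]
      exact sub_eq_zero.1 h0
    have h2 : l = 1 := Nat.cast_injective h1
    have := h.lt
    omega
  set u := PadicInt.unitCoeff hl0 with hu
  set v := PadicInt.valuation ((l : ℤ_[2]) - 1) with hv
  have huv : ((l : ℤ_[2]) - 1) = (u : ℤ_[2]) * (2 : ℤ_[2]) ^ v := by
    have e := PadicInt.unitCoeff_spec hl0
    rw [← hu] at e
    push_cast at e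
    exact e
  have hd : ∀ g, ((l : ℤ_[2]) - 1) ∣ χ g - 1 := by
    intro g
    obtain ⟨i, hi⟩ := h.dens g v
    have h1 : ((l : ℤ_[2]) - 1) ∣ (l : ℤ_[2]) ^ i - 1 := by
      have := sub_dvd_pow_sub_pow (l : ℤ_[2]) 1 i
      rwa [one_pow] at this
    have h2 : ((l : ℤ_[2]) - 1) ∣ χ g - (l : ℤ_[2]) ^ i := by
      rw [huv]
      exact (Units.isUnit u).mul_left_dvd.2 hi
    have e : χ g - 1 = (χ g - (l : ℤ_[2]) ^ i) + ((l : ℤ_[2]) ^ i - 1) := by ring
    rw [e]
    exact dvd_add h2 h1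
  choose th hth using hd
  refine ⟨v, th, fun g => (hth g).symm, fun n x hx => ?_⟩
  rw [huv, mul_assoc] at hx
  have h1 : (2 : ℤ_[2]) ^ (n + v) ∣ (2 : ℤ_[2]) ^ v * x := ((Units.isUnit u).dvd_mul_left).1 hx
  rw [pow_add, mul_comm] at h1
  have h2 : (2 : ℤ_[2]) ^ v ≠ 0 := pow_ne_zero _ two_ne_zero
  exact (mul_dvd_mul_iff_left h2).1 h1

private theorem eps_one {ε : D → ZMod 2} (hε : ∀ g k, ε (g * k) = ε g + ε k) : ε 1 = 0 := by
  have e := hε 1 1
  rw [mul_one] at e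
  exact left_eq_add.1 e

private theorem eps_npow {ε : D → ZMod 2} (hε : ∀ g k, ε (g * k) = ε g + ε k) (g : D) (k : ℕ) :
    ε (g ^ k) = k * ε g := by
  induction k with
  | zero => rw [pow_zero, eps_one hε, Nat.cast_zero, zero_mul]
  | succ k ih =>
    rw [pow_succ, hε, ih, Nat.cast_succ]
    ring

/-- A FROBENIUS ELEMENT IN THE KERNEL OF A RAMIFIED QUADRATIC CHARACTER. -/
theorem exists_sig (h : TameF S χ a σ τ l I) {ε : D → ZMod 2} (hε : ∀ g k, ε (g * k) = ε g + ε k)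
    (hτ : ε τ = 1) :
    ∃ (a' : D → ℤ_[2]) (σ' : D), TameF S χ a' σ' τ l I ∧ ε σ' = 0 ∧
      ∀ g, χ g = 1 → a' g = a g := by
  by_cases h0 : ε σ = 0
  · exact ⟨a, σ, h, h0, fun g _ => rfl⟩
  have h1 : ε σ = 1 := by
    revert h0
    generalize ε σ = x
    revert x
    decide
  obtain ⟨v, th, hth, hv⟩ := exists_th h
  have hl0 : ((l : ℤ_[2]) - 1) ≠ 0 := by
    intro h0
    have h1 : (l : ℤ_[2]) = ((1 : ℕ) : ℤ_[2]) := by
      rw [Nat.cast_one]
      exact sub_eq_zero.1 h0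
    have h2 : l = 1 := Nat.cast_injective h1
    have := h.lt
    omega
  have hthm : ∀ g k, th (g * k) = th g + χ g * th k := by
    intro g k
    apply mul_left_cancel₀ hl0
    rw [mul_add, mul_left_comm, hth, hth, hth, h.char.mul]
    ring
  have hth1 : ∀ g, χ g = 1 → th g = 0 := by
    intro g hg
    apply mul_left_cancel₀ hl0
    rw [hth, hg, sub_self, mul_zero]
  have hχ' : χ (σ * τ) = l := by rw [h.char.mul, h.σχ, h.τχ, mul_one]
  have ha' : a (σ * τ) = l := by rw [h.coc, h.σa, h.σχ, h.τa, zero_add, mul_one]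
  have hths : th (σ * τ) = 1 := by
    apply mul_left_cancel₀ hl0
    rw [hth, hχ', mul_one]
  have hn := h.In
  refine ⟨fun g => a g - l * th g, σ * τ, ?_, ?_, fun g hg => ?_⟩
  · refine
      { char := h.char
        coc := fun g k => ?_
        lodd := h.lodd
        lt := h.lt
        σχ := hχ'
        σa := ?_
        τχ := h.τχ
        τa := ?_
        dens := h.dens
        po := fun g hg hag => ?_
        sep := fun W hW => ?_
        In := h.In
        Iχ := h.Iχ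
        τI := h.τI
        frob := fun g W hW => ?_ }
    · show a (g * k) - l * th (g * k) = a g - l * th g + χ g * (a k - l * th k)
      rw [h.coc, hthm]
      ring
    · show a (σ * τ) - l * th (σ * τ) = 0
      rw [ha', hths, mul_one, sub_self]
    · show a τ - l * th τ = 1
      rw [h.τa, hth1 τ h.τχ, mul_zero, sub_zero]
    · have e : a g - l * th g = 0 := hag
      rw [hth1 g hg, mul_zero, sub_zero] at e
      exact h.po g hg e
    · obtain ⟨n, hn⟩ := h.sep W hW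
      refine ⟨n + v, fun g h1 h2 => ?_⟩
      have h3 : (2 : ℤ_[2]) ^ n ∣ th g := by
        apply hv
        rw [hth]
        exact h1
      have h4 : (2 : ℤ_[2]) ^ n ∣ (2 : ℤ_[2]) ^ (n + v) := pow_dvd_pow _ (Nat.le_add_right _ _)
      have h5 : (2 : ℤ_[2]) ^ n ∣ a g := by
        have e : a g = (a g - l * th g) + l * th g := by ring
        rw [e]
        exact dvd_add (h4.trans h2) (h3.mul_left _)
      obtain ⟨p, hp1, hp2, hp3⟩ := hn g (h4.trans h1) h5
      refine ⟨p, hp1, ?_, hp3⟩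
      show a p - l * th p = 0
      rw [hp2, hth1 p hp1, mul_zero, sub_zero]
    · obtain ⟨i, m, hm, hi⟩ := h.frob g W hW
      have hc : (σ ^ i)⁻¹ * (σ * τ) ^ i ∈ I := by
        rw [← QuotientGroup.eq_one_iff, QuotientGroup.mk_mul, QuotientGroup.mk_inv,
          QuotientGroup.mk_pow, QuotientGroup.mk_pow, QuotientGroup.mk_mul,
          (QuotientGroup.eq_one_iff τ).2 h.τI, mul_one, inv_mul_cancel]
      refine ⟨i, ((σ ^ i)⁻¹ * (σ * τ) ^ i)⁻¹ * m, I.mul_mem (I.inv_mem hc) hm, ?_⟩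
      have e : (σ * τ) ^ i * (((σ ^ i)⁻¹ * (σ * τ) ^ i)⁻¹ * m) = σ ^ i * m := by
        generalize (σ * τ) ^ i = x
        generalize σ ^ i = y
        group
      rw [e]
      exact hi
  · rw [hε, h1, hτ]
    decide
  · show a g - l * th g = a g
    rw [hth1 g hg, mul_zero, sub_zero]

/-- a generator of the 2-part of inertia at which a given ramified quadratic character is 1 -/
theorem eps_tau (h : TameF S χ a σ τ l I) {ε : D → ZMod 2} (hε : ∀ g k, ε (g * k) = ε g + ε k)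
    (hεs : Sm1 S ε) (hI : ∃ d ∈ I, ε d ≠ 0) : ε τ = 1 := by
  by_contra hne
  have h0 : ε τ = 0 := by
    revert hne
    generalize ε τ = x
    revert x
    decide
  obtain ⟨d, hd, hdε⟩ := hI
  obtain ⟨W, hW, hWs⟩ := hεs
  have hWn := S.normal hW
  have hW0 : ∀ w ∈ W, ε w = 0 := by
    intro w hw
    have e := hWs 1 w hw
    rw [one_mul, eps_one hε] at e
    exact e
  have hP : ∀ p, χ p = 1 → a p = 0 → ε p = 0 := by
    intro p hp1 hp2
    have hodd := h.odd_quot hW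
    have hn' : (W.subgroupOf h.P).Normal := inferInstance
    have e1 : ((⟨p, hp1, hp2⟩ : h.P) ^ Nat.card (h.P ⧸ W.subgroupOf h.P)) ∈ W.subgroupOf h.P := by
      rw [← QuotientGroup.eq_one_iff, QuotientGroup.mk_pow]
      exact pow_card_eq_one'
    rw [Subgroup.mem_subgroupOf] at e1
    have e2 := hW0 _ e1
    rw [Subgroup.coe_pow, eps_npow hε] at e2
    have e3 : ((Nat.card (h.P ⧸ W.subgroupOf h.P) : ℕ) : ZMod 2) = 1 :=
      (ZMod.natCast_eq_one_iff_odd).2 hodd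
    rw [e3, one_mul] at e2
    exact e2
  obtain ⟨n, hn⟩ := h.sep W hW
  obtain ⟨j, hj⟩ := GP.g1_nat (a d) n
  have hχd := h.Iχ d hd
  have e0 : τ ^ j * ((τ ^ j)⁻¹ * d) = d := mul_inv_cancel_left _ _
  have e1 : χ ((τ ^ j)⁻¹ * d) = 1 := by
    have e := congrArg χ e0
    rwa [h.char.mul, (h.tau_pow j).1, one_mul, hχd] at e
  have e2 : a ((τ ^ j)⁻¹ * d) = a d - j := by
    have e := congrArg a e0
    rw [h.coc, (h.tau_pow j).1, (h.tau_pow j).2, one_mul] at e
    linear_combination e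
  obtain ⟨p, hp1, hp2, hp3⟩ := hn ((τ ^ j)⁻¹ * d) (by rw [e1, sub_self]; exact dvd_zero _)
    (by rw [e2]; exact hj)
  have e3 : p * (p⁻¹ * ((τ ^ j)⁻¹ * d)) = (τ ^ j)⁻¹ * d := mul_inv_cancel_left _ _
  have e4 : ε ((τ ^ j)⁻¹ * d) = 0 := by
    have e := congrArg ε e3
    rw [hε, hP p hp1 hp2, hW0 _ hp3, add_zero] at e
    exact e.symm
  apply hdε
  have e := congrArg ε e0
  rw [hε, e4, eps_npow hε, h0, mul_zero, add_zero] at e
  exact e.symm

end Pool.Agent.Work.MP_787500_nt.ER
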