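import Mathlib
import Pool.Agent.Work.MP_787500_nt.ER.LocR
import Pool.Agent.Work.MP_787500_nt.ER.FixR
import Pool.Agent.Work.MP_787500_nt.ER.Sig
import Pool.Agent.Work.MP_787500_nt.ER.FDefs
import Pool.Agent.Work.MP_787500_nt.KI.LevR
import Pool.Agent.Work.MP_787500_nt.QX.Lev

/-!
# ER/Fam: THE CONTRIBUTION OF THE RAMIFIED PRIMES in the arithmetic families

`V` is semistable at the place over `p`: `(ρ g - 1) ^ 2 = 0` for `g` in the inertia group over the quadratic field. The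
contribution is the dimension of `(V / V ^ I) ^ D` (modulo 2).

* `locM_RI`: abstract form; `delV`: the contribution.
* `locX_ramE`: the family of an arbitrary imaginary quadratic field (`QX.InX`).
* `locM_pDE`: the family `QU.Inst`.
-/

set_option autoImplicit false
set_option linter.unusedSectionVars false

namespace Pool.Agent.Work.MP_787500_nt.ER

open Matrix NumberField
open Pool.Agent.Work.MP_787500_nt.GP (A0 OE bil Lat inT stabD EvPow actN lamN MN bN mq Wq actQ IsAct)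
open Pool.Agent.Work.MP_787500_nt.KR (FSys IsChar ZV zV LocRep LocD fullC fullD fullK fullQ big SDualF
  sdualF_MN)
open Pool.Agent.Work.MP_787500_nt.PA (toE cyc)
open Pool.Agent.Work.MP_787500_nt.HP (IsQ Spl IsP inr stb cyQ)
open Pool.Agent.Work.MP_787500_nt.KS (iK ep)
open Pool.Agent.Work.MP_787500_nt.QL (TameF)
open Pool.Agent.Work.MP_787500_nt.QS (Two Lag ac2 be2 la2 prY)
open Pool.Agent.Work.MP_787500_nt.QV (rho2 selNQ QRep T2 J2 blk beN laN isoN iso_one iso_two)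
open Pool.Agent.Work.MP_787500_nt.QU (urV Inst)
open Pool.Agent.Work.MP_787500_nt.QW (famL Ari sysQ)
open Pool.Agent.Work.MP_787500_nt.GA (HQ SQ jQ iQ)
open Pool.Agent.Work.MP_787500_nt.QP (InvC ep_e ep_ec ep_add2)
open Pool.Agent.Work.MP_787500_nt.KI (LocM YM PlQ)

universe u w

section abs

variable {G Γ : Type*} [Group G] [Group Γ] {S : FSys G} {Sq : FSys Γ} {χ : G → ℤ_[2]}
  {χq : Γ → ℤ_[2]} {e : G →* Γ} {c : Γ} {κ : G →* G} {P : Type*} [Group P] {TP : FSys P}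
  {jp : P →* Γ} {iv : (P → P → A0) → A0} {E : Type w} [NormedField E] [NormedAlgebra ℚ_[2] E]
  [FiniteDimensional ℚ_[2] E] {m : ℕ} {b : Matrix (Fin m) (Fin m) E} {l : OE E}
  {t : E →ₗ[ℚ_[2]] ℚ_[2]} {T : Submodule (OE E) (Fin m → E)} {ρ : G → Matrix (Fin m) (Fin m) E}
  {a : P → ℤ_[2]} {σ τ : P} {q : ℕ} {In : Subgroup P}

theorem VI_le_QI (hV : ∀ g v, (∃ d, jp d = e g) → v ∈ VI e jp In ρ → ρ g *ᵥ v ∈ VI e jp In ρ) :
    VI e jp In ρ ≤ QI e jp In ρ := fun v hv g hg =>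
  (VI e jp In ρ).sub_mem (hV g v hg hv) hv

variable [IsLocalRing (OE E)] [Finite (IsLocalRing.ResidueField (OE E))]
  [CharP (IsLocalRing.ResidueField (OE E)) 2] [Algebra (ZMod 2) (IsLocalRing.ResidueField (OE E))]

/-- THE CONTRIBUTION OF A RAMIFIED PLACE, in terms of the invariants of inertia. -/
theorem locM_RI (p : PlQ.{w} S Sq χ χq e c κ TP jp iv) (hl : Lat b l t T)
    (hr : LocRep S χ T b ρ (fun g => ρ (κ g)))
    (h : TameF TP (fun d => χq (jp d)) a σ τ q In) (hI : ∃ d ∈ In, ep e (jp d) ≠ 0)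
    (hun : ∀ g, (∃ d ∈ In, jp d = e g) → (ρ g - 1) * (ρ g - 1) = 0) {C : MN T l 1 → MN T l 1}
    (hY : Lag TP iv (fun d => ac2 e c κ (actN l 1 ρ hr.st) (jp d)) (be2 (bN hl 1))
      (fun (x : OE E) d => la2 e c κ (actN l 1 ρ hr.st) (bN hl 1) x (jp d))
      (YM T l (urV TP In (fun d => rho2 e c κ ρ (jp d))))) (hm : Even m) {δ : ℕ}
    (hδ : Even (Module.finrank E (QI e jp In ρ) + Module.finrank E (VI e jp In ρ) + δ)) :
    LocM TP jp iv e c κ (IsLocalRing.ResidueField (OE E)) (actN l 1 ρ hr.st) (bN hl 1) C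
      (YM T l (urV TP In (fun d => rho2 e c κ ρ (jp d)))) δ := by
  have hε : ∀ g k : P, ep e (jp (g * k)) = ep e (jp g) + ep e (jp k) := fun g k => by
    rw [map_mul, ep_add2 p.two]
  have hτ : ep e (jp τ) = 1 := eps_tau h (ε := fun d => ep e (jp d)) hε p.esm hI
  obtain ⟨a', σ', h', hσ', -⟩ := exists_sig h (ε := fun d => ep e (jp d)) hε hτ
  obtain ⟨s, hs⟩ : ∃ s, e s = jp σ' := by
    rcases p.two.cases (jp σ') with h1 | ⟨g, h1⟩
    · exact h1
    · exfalso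
      have h2 : ep e (jp σ') = 0 := hσ'
      rw [← h1, ep_ec p.two] at h2
      exact one_ne_zero h2
  obtain ⟨θ, hθ⟩ : ∃ θ, e θ * c = jp τ := by
    rcases p.two.cases (jp τ) with ⟨g, h1⟩ | h1
    · exfalso
      rw [← h1, ep_e] at hτ
      exact zero_ne_one hτ
    · exact h1
  refine locM_R p hl hr h' hun hθ hs hY ?_
  have h1 := dim_W5 p hl hr h' hun hθ hs
  obtain ⟨x, hx⟩ := hm
  obtain ⟨y, hy⟩ := hδ
  have h2 : Module.finrank E (W5 (ρ (θ * κ θ) - 1) (ρ s)) + δ =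
      2 * (x + y) - 2 * Module.finrank E (QI e jp In ρ) := by omega
  rw [h2, ← Nat.mul_sub]
  exact even_two_mul _

end abs

variable {K : Type u} [Field K] [NumberField K]
  {c : AlgebraicClosure K ≃+* AlgebraicClosure K} {κ : AbsGal K →* AbsGal K} {T : Finset ℕ}
  {P : ℕ → Ideal (𝓞 (AlgebraicClosure K))} {N₀ : Subgroup (AbsGal K)}
  {iv ivF : ∀ w : Option T, (stb (HP.PP P w) → stb (HP.PP P w) → A0) → A0}
  {tr : (((AlgebraicClosure K ≃+* AlgebraicClosure K) → (AlgebraicClosure K ≃+* AlgebraicClosure K) →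
      (AlgebraicClosure K ≃+* AlgebraicClosure K) → A0) ×
      (∀ i : Option (Option T), HQ c P i → HQ c P i → A0)) →+ A0}
  {E : Type w} [NormedField E] [NormedAlgebra ℚ_[2] E] [FiniteDimensional ℚ_[2] E]
  {n : ℕ} {ρ : AbsGal K →* Matrix (Fin n) (Fin n) E} {b : Matrix (Fin n) (Fin n) E}
  {l : OE E} {t : E →ₗ[ℚ_[2]] ℚ_[2]} {L₀ : Submodule (OE E) (Fin n → E)}

theorem mem_stb {Q : Ideal (𝓞 (AlgebraicClosure K))} {g : AbsGal K} : iK K g ∈ stb Q ↔ g ∈ stabD Q :=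
  GA.emb_refl_stb

theorem VI_arith (Q : Ideal (𝓞 (AlgebraicClosure K))) :
    VI (iK K) (stb Q).subtype ((inr Q).subgroupOf (stb Q)) (fun g => ρ g) =
      Parity.fixedBy (fun σ : Q.inertia (AbsGal K) => ρ σ) := by
  ext v
  refine ⟨fun h g => ?_, fun h g hg => ?_⟩
  · have hg := QW.emb_refl_inr.2 g.2
    exact h g ⟨⟨iK K g, HP.inr_le_stb Q hg⟩, hg, rfl⟩
  · obtain ⟨d, hd, hdg⟩ := hg
    refine h ⟨g, QW.emb_refl_inr.1 ?_⟩
    rw [← hdg]
    exact hd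

theorem QI_arith (Q : Ideal (𝓞 (AlgebraicClosure K))) :
    QI (iK K) (stb Q).subtype ((inr Q).subgroupOf (stb Q)) (fun g => ρ g) =
      Parity.fixedModulo (fun σ : stabD (K := K) Q => ρ σ)
        (Parity.fixedBy (fun σ : Q.inertia (AbsGal K) => ρ σ)) := by
  ext v
  constructor
  · intro h g
    rw [← VI_arith]
    exact h g ⟨⟨iK K g, mem_stb.2 g.2⟩, rfl⟩
  · rintro h g ⟨d, hdg⟩
    rw [VI_arith]
    refine h ⟨g, mem_stb.1 ?_⟩
    rw [← hdg]
    exact d.2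

/-- the vectors fixed by inertia are fixed modulo themselves -/
theorem fixI_le (Q : Ideal (𝓞 (AlgebraicClosure K))) :
    Parity.fixedBy (fun σ : Q.inertia (AbsGal K) => ρ σ) ≤
      Parity.fixedModulo (fun σ : stabD (K := K) Q => ρ σ)
        (Parity.fixedBy (fun σ : Q.inertia (AbsGal K) => ρ σ)) := by
  rintro v hv ⟨g, hg⟩
  refine (Parity.fixedBy (fun σ : Q.inertia (AbsGal K) => ρ σ)).sub_mem (fun σ => ?_) hv
  have h1 : g⁻¹ * σ * g ∈ Q.inertia (AbsGal K) := by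
    refine QW.emb_refl_inr.1 ?_
    rw [map_mul, map_mul, map_inv]
    refine GA.inr_cj.1 ?_
    rw [GA.cj_eq_iff.2 (mem_stb.2 hg)]
    exact QW.emb_refl_inr.2 σ.2
  have h3 : ρ (g⁻¹ * σ * g) *ᵥ v = v := hv ⟨_, h1⟩
  calc ρ σ *ᵥ (ρ g *ᵥ v) = ρ g *ᵥ (ρ (g⁻¹ * σ * g) *ᵥ v) := by
        rw [mulVec_mulVec, mulVec_mulVec, ← map_mul, ← map_mul]
        congr 2
        group
    _ = ρ g *ᵥ v := by rw [h3]

theorem even_quot (Q : Ideal (𝓞 (AlgebraicClosure K))) :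
    Even (Module.finrank E (QI (iK K) (stb Q).subtype ((inr Q).subgroupOf (stb Q)) (fun g => ρ g)) +
      Module.finrank E (VI (iK K) (stb Q).subtype ((inr Q).subgroupOf (stb Q)) (fun g => ρ g)) +
      Parity.quotDim (stabD Q) (Q.inertia (AbsGal K)) ρ) := by
  rw [VI_arith, QI_arith]
  have h1 := Submodule.finrank_mono (fixI_le (ρ := ρ) Q)
  unfold Parity.quotDim
  refine ⟨Module.finrank E (Parity.fixedModulo (fun σ : stabD (K := K) Q => ρ σ)
    (Parity.fixedBy (fun σ : Q.inertia (AbsGal K) => ρ σ))), ?_⟩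
  omega

variable [IsLocalRing (OE E)] [Finite (IsLocalRing.ResidueField (OE E))]
  [CharP (IsLocalRing.ResidueField (OE E)) 2] [Algebra (ZMod 2) (IsLocalRing.ResidueField (OE E))]

/-- THE CONTRIBUTION OF THE RAMIFIED PRIMES: an arbitrary imaginary quadratic field. -/
theorem locX_ramE (I : QX.InX.{u, w} c κ T P N₀ iv ivF tr)
    (hρ : Gn.ConjDual 2 N₀ (inT K T) (Parity.cyclo E) κ ρ b) (hl : Lat b l t L₀)
    (hst : ∀ g, ∀ x ∈ L₀, ρ g *ᵥ x ∈ L₀) {C : MN L₀ l 1 → MN L₀ l 1} (hn : Even n) {p : T}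
    (hp : ¬ inr (P p) ≤ (iK K).range)
    (hun : Parity.SemistableOn ((P p).inertia (AbsGal K)) ρ)
    (L₂ : Submodule E (stb (P 2) → Fin (n + n) → E)) :
    QX.LocX c κ P N₀ ivF hl hst C (some (some p)) (QX.famX c κ T P N₀ ρ L₂ (some (some p)))
      (Parity.quotDim (stabD (P p)) ((P p).inertia (AbsGal K)) ρ) := by
  obtain ⟨a, σ, τ, hT⟩ := QL.exists_tameQ_big (HP.alg_closure K) (I.prime p) (I.odd p) (I.isPrime p)
    (I.natMem p) ((N₀.map (iK K)).subgroupOf (stb (P p)))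
  refine locM_RI (jp := (stb (P p)).subtype) (I.plQ (some (some p))) hl (I.toArX.rep hρ hst) hT ?_ ?_
    (KI.lag_YM I.two QX.chi (QX.chic I.two) I.glob.glob.char.mul hl (I.toArX.rep hρ hst)
      (I.toArX.qrep hρ hl hst I.glob.glob.char.mul) (QX.lag_odd I hρ hl hst 1 p)) hn
    (even_quot (P p))
  · obtain ⟨d, hd, hd'⟩ := SetLike.not_le_iff_exists.1 hp
    refine ⟨⟨d, HP.inr_le_stb _ hd⟩, hd, fun h0 => hd' ?_⟩
    obtain ⟨g, hg⟩ := (KS.ep_zero _).1 h0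
    exact ⟨g, hg⟩
  · rintro g ⟨d, hd, hdg⟩
    refine hun g (QW.emb_refl_inr.1 ?_)
    rw [← hdg]
    exact hd

/-- THE CONTRIBUTION OF THE PRIME DIVISORS OF `D`. -/
theorem locM_pDE {D : ℕ} {s : K} {L : Submodule E (stabD (K := K) (P 2) → Fin n → E)}
    (I : Inst.{u, w} s c κ D T P N₀ iv ivF tr) (h : Ari s c κ D T P N₀)
    (hρ : Gn.ConjDual 2 N₀ (inT K T) (Parity.cyclo E) κ ρ b) (hl : Lat b l t L₀)
    (hst : ∀ g, ∀ x ∈ L₀, ρ g *ᵥ x ∈ L₀) {C : MN L₀ l 1 → MN L₀ l 1} (hn : Even n)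
    (hL : L ≤ Parity.cocycles (fun σ : stabD (K := K) (P 2) => ρ σ))
    (hL0 : Parity.coboundaries (fun σ : stabD (K := K) (P 2) => ρ σ) ≤ L) {p : T} (hp : (p : ℕ) ∣ D)
    (hun : Parity.SemistableOn ((P p).inertia (AbsGal K)) ρ) :
    KI.LocF c κ P N₀ ivF hl hst C (some (some p)) (famL c κ T P N₀ ρ b h.h2 L (some (some p)))
      (Parity.quotDim (stabD (P p)) ((P p).inertia (AbsGal K)) ρ) := by
  have hpD : (p : ℕ) ∈ D.primeFactors := Nat.mem_primeFactors.2 ⟨I.prime p, hp, I.hK.sqf.ne_zero⟩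
  obtain ⟨θ, hθ⟩ := I.theta hpD
  obtain ⟨a, σ, τ, hT⟩ := QL.exists_tameQ_big (HP.alg_closure K) (I.prime p) (I.odd p) (I.isPrime p)
    (I.natMem p) ((N₀.map (iK K)).subgroupOf (stb (P p)))
  refine locM_RI (jp := (stb (P p)).subtype) (KI.plQ I (some (some p))) hl (h.rep hρ hst) hT ?_ ?_
    (KI.lag_fam I h hρ hl hst hL hL0 (some (some p))) hn (even_quot (P p))
  · refine ⟨⟨iK K θ * c, HP.inr_le_stb _ hθ⟩, hθ, fun h0 => ?_⟩
    obtain ⟨g, hg⟩ := (KS.ep_zero _).1 h0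
    exact I.isTwo.out θ g hg
  · rintro g ⟨d, hd, hdg⟩
    refine hun g (QW.emb_refl_inr.1 ?_)
    rw [← hdg]
    exact hd

end Pool.Agent.Work.MP_787500_nt.ER
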